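import Pool.Agent.TRN.Chain2

/-!
# TRN / CH3: from the hull criterion to good filtrations

General version of the rest of `Pool/Agent/Helper66/TR/Chain2.lean` (`GStep.comap`,
`reach_between`, `flatten`, `HasGoodFiltration.of_good`), same proofs. `flatten` there is a purely
combinatorial lemma: copy it (do not import the file).

In `GStep.comap` the additional clause (there is a nonzero vector of weight `a`) is lifted with
`wt`: if `A.mkQ v` has weight `a` and is nonzero then `wt a v` is in the preimage, has weight `a` and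
the same nonzero image.

* `GoodFilt.of_fin`: `absorb` with `Y = K`, `π` from `exists_Opi_fin`, then a finite chain is an
  `ω`-chain. `GoodIn.reach`: the same as a relation.
-/

set_option autoImplicit false
set_option linter.unusedSectionVars false

namespace Pool.Agent.TRN

open Finset TensorProduct

namespace PG

variable {k Γ T X : Type*} [Field k] [Infinite k] [Group Γ] [CommGroup T] [AddCommGroup X]
  {D : PG k Γ T X} {V W : Type*} [AddCommGroup V] [Module k V] {ρ : Representation k Γ V}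
  [AddCommGroup W] [Module k W] {σ : Representation k Γ W}

/-- the stable subspace generated by a vector -/
def hullv (ρ : Representation k Γ V) (v : V) : Submodule k V :=
  Submodule.span k (Set.range fun g => ρ g v)

lemma hullv_stable (ρ : Representation k Γ V) (v : V) : Stable ρ (hullv ρ v) := by
  intro g w hw
  have : hullv ρ v ≤ (hullv ρ v).comap (ρ g) := by
    unfold hullv
    rw [Submodule.span_le]
    rintro _ ⟨h, rfl⟩
    change ρ g (ρ h v) ∈ Submodule.span k (Set.range fun g => ρ g v)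
    rw [← mul_apply']
    exact Submodule.subset_span ⟨g * h, rfl⟩
  exact this hw

lemma mem_hullv (ρ : Representation k Γ V) (v : V) : v ∈ hullv ρ v :=
  Submodule.subset_span ⟨1, by simp⟩

lemma hullv_le {Y : Submodule k V} (hY : Stable ρ Y) {v : V} (hv : v ∈ Y) : hullv ρ v ≤ Y := by
  unfold hullv
  rw [Submodule.span_le]
  rintro _ ⟨h, rfl⟩
  exact hY h v hv

lemma hullv_finite (hρ : D.IsRational ρ) (v : V) : Module.Finite k (hullv ρ v) := by
  obtain ⟨m, f, w, _, h⟩ := hρ v
  have h1 : hullv ρ v ≤ Submodule.span k (Set.range w) := by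
    unfold hullv
    rw [Submodule.span_le]
    rintro _ ⟨g, rfl⟩
    have h' : ρ g v = ∑ i, f i g • w i := h g
    beta_reduce
    rw [h']
    exact Submodule.sum_mem _ fun i _ =>
      Submodule.smul_mem _ _ (Submodule.subset_span ⟨i, rfl⟩)
  have h2 : Module.Finite k (Submodule.span k (Set.range w)) :=
    FiniteDimensional.span_of_finite k (Set.finite_range w)
  exact Submodule.finiteDimensional_of_le h1

lemma GStep.comap (hρ : D.IsRational ρ) {A : Submodule k V} (hA : Stable ρ A)
    {Y Z : Submodule k (V ⧸ A)} (h : D.GStep (quo ρ hA) Y Z) :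
    D.GStep ρ (Y.comap A.mkQ) (Z.comap A.mkQ) := by
  obtain ⟨hY, hZ, a, ha, ⟨v, hv, hv0, hvw⟩, hYZ, f, hf1, hf2, hf3⟩ := h
  refine ⟨fun g v hv => hY g _ hv, fun g v hv => hZ g _ hv, a, ha, ?_,
    Submodule.comap_mono hYZ, ?_⟩
  · obtain ⟨x, rfl⟩ := A.mkQ_surjective v
    have hq := isRational_quo hρ hA
    have h1 : A.mkQ (wt hρ a x) = A.mkQ x := by
      rw [map_wt hρ hq (quo_isEquiv hA), wt_self hq hvw]
    refine ⟨wt hρ a x, ?_, ?_, wt_isWt hρ a x⟩
    · rw [Submodule.mem_comap, h1]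
      exact hv
    · intro h0
      apply hv0
      rw [← h1, h0, map_zero]
  · let q : (Z.comap A.mkQ) →ₗ[k] Z := A.mkQ.restrict (fun x hx => hx)
    have hq : ∀ x, ((q x : Z) : V ⧸ A) = A.mkQ x := fun _ => rfl
    refine ⟨f ∘ₗ q, ?_, ?_, ?_⟩
    · apply hf1.comp
      intro y
      obtain ⟨x, hx⟩ := A.mkQ_surjective y
      refine ⟨⟨x, ?_⟩, ?_⟩
      · change A.mkQ x ∈ Z
        rw [hx]; exact y.2
      · apply Subtype.ext
        rw [hq]
        exact hx
    · intro x
      rw [LinearMap.comp_apply, hf2, hq]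
      rfl
    · intro g x y hy
      rw [LinearMap.comp_apply, LinearMap.comp_apply]
      apply hf3
      rw [hq, hq, hy]
      rfl

lemma reach_between (hfd : D.Fd) (hρ : D.IsRational ρ) {A B : Submodule k V} (hA : Stable ρ A)
    (hB : Stable ρ B) (hAB : A ≤ B) (hfin : Module.Finite k B) (gA : GoodIn hρ A)
    (gB : GoodIn hρ B) : D.Reach ρ A B := by
  have hq := isRational_quo hρ hA
  have hBs : Stable (quo ρ hA) (B.map A.mkQ) := hB.map (quo_isEquiv hA)
  have hBf : Module.Finite k (B.map A.mkQ) := inferInstance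
  have hBg : GoodIn hq (B.map A.mkQ) := by
    apply GoodIn.quot hρ hq (quo_isEquiv hA) hB _ gB
    rw [Submodule.ker_mkQ, inf_eq_right.2 hAB]
    exact gA
  obtain ⟨π, hπ1, hπ2, hπ3⟩ := exists_Opi_fin hq (B.map A.mkQ)
  obtain ⟨L, hL1, hL2, hL3, hL4, hL5⟩ := absorb hfd hq hBs hBg π.ncard π hπ1 hπ2 le_rfl
    (B.map A.mkQ) hBs hBf (le_inf le_rfl hπ3)
  have hLe : L = B.map A.mkQ := le_antisymm (hL4.trans inf_le_left) hL3
  rw [hLe] at hL5
  have h1 : D.Reach ρ (Submodule.comap A.mkQ ⊥) ((B.map A.mkQ).comap A.mkQ) :=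
    Relation.ReflTransGen.lift (r := D.GStep (quo ρ hA)) (p := D.GStep ρ)
      (Submodule.comap A.mkQ) (fun Y Z h => h.comap hρ hA) _ _ hL5
  rw [Submodule.comap_bot, Submodule.ker_mkQ, Submodule.comap_map_mkQ, sup_eq_right.2 hAB] at h1
  exact h1

/-- flattening of a sequence of finite chains -/
lemma flatten {α : Type*} (r : α → α → Prop) (L : ℕ → α)
    (h : ∀ i, Relation.ReflTransGen r (L i) (L (i + 1))) :
    ∃ N : ℕ → α, N 0 = L 0 ∧ (∀ i, N i = N (i + 1) ∨ r (N i) (N (i + 1))) ∧
      (∀ i, ∃ j, N j = L i) ∧ ∀ j, ∃ i, Relation.ReflTransGen r (N j) (L i) := by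
  have h1 : ∀ a b, Relation.ReflTransGen r a b → ∃ (n : ℕ) (f : ℕ → α), f 0 = a ∧ f n = b ∧
      ∀ j < n, r (f j) (f (j + 1)) := by
    intro a b hab
    induction hab with
    | refl => exact ⟨0, fun _ => a, rfl, rfl, fun j hj => absurd hj (Nat.not_lt_zero _)⟩
    | @tail b c hab hbc ih =>
      obtain ⟨n, f, f0, fn, hf⟩ := ih
      refine ⟨n + 1, fun j => if j ≤ n then f j else c, ?_, ?_, ?_⟩
      · beta_reduce; rw [if_pos (Nat.zero_le _), f0]
      · beta_reduce; rw [if_neg (by omega)]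
      · intro j hj
        beta_reduce
        rcases Nat.lt_or_ge j n with h | h
        · rw [if_pos (by omega), if_pos (by omega)]; exact hf j h
        · have : j = n := by omega
          subst this
          rw [if_pos le_rfl, if_neg (by omega), fn]; exact hbc
  choose n f f0 fn hf using fun i => h1 _ _ (h i)
  -- the state
  let st : ℕ → ℕ × ℕ := fun m => Nat.rec (0, 0)
    (fun _ q => if q.2 < n q.1 then (q.1, q.2 + 1) else (q.1 + 1, 0)) m
  have st0 : st 0 = (0, 0) := rfl
  have st1 : ∀ m, st (m + 1) = if (st m).2 < n (st m).1 then ((st m).1, (st m).2 + 1)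
    else ((st m).1 + 1, 0) := fun m => rfl
  have inv : ∀ m, (st m).2 ≤ n (st m).1 := by
    intro m
    induction m with
    | zero => rw [st0]; exact Nat.zero_le _
    | succ m ih =>
      rw [st1]
      split_ifs with hlt
      · exact hlt
      · exact Nat.zero_le _
  have reachSt : ∀ i, ∃ m, st m = (i, 0) := by
    intro i
    induction i with
    | zero => exact ⟨0, st0⟩
    | succ i ih =>
      obtain ⟨m, hm⟩ := ih
      have : ∀ j ≤ n i, st (m + j) = (i, j) := by
        intro j
        induction j with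
        | zero => intro _; exact hm
        | succ j ihj =>
          intro hj
          rw [← add_assoc, st1, ihj (by omega)]
          exact if_pos hj
      refine ⟨m + n i + 1, ?_⟩
      rw [st1, this (n i) le_rfl]
      exact if_neg (lt_irrefl _)
  refine ⟨fun m => f (st m).1 (st m).2, ?_, ?_, ?_, ?_⟩
  · beta_reduce; rw [st0, f0]
  · intro m
    beta_reduce
    rw [st1]
    have hinv := inv m
    split_ifs with hlt
    · right; exact hf _ _ hlt
    · left
      have : (st m).2 = n (st m).1 := by omega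
      rw [this, fn, f0]
  · intro i
    obtain ⟨m, hm⟩ := reachSt i
    refine ⟨m, ?_⟩
    beta_reduce
    rw [hm, f0]
  · intro m
    refine ⟨(st m).1 + 1, ?_⟩
    beta_reduce
    rw [← fn]
    have key : ∀ d, ∀ j, j + d = n (st m).1 →
        Relation.ReflTransGen r (f (st m).1 j) (f (st m).1 (n (st m).1)) := by
      intro d
      induction d with
      | zero => intro j hj; rw [← hj, add_zero]
      | succ d ih =>
        intro j hj
        exact (ih (j + 1) (by omega)).head (hf _ _ (by omega))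
    exact key (n (st m).1 - (st m).2) _ (by have := inv m; omega)

theorem GoodIn.reach (hfd : D.Fd) (hρ : D.IsRational ρ) {K : Submodule k V} (hK : Stable ρ K)
    (hfin : Module.Finite k K) (hG : GoodIn hρ K) : D.Reach ρ ⊥ K := by
  obtain ⟨π, hπ1, hπ2, hπ3⟩ := exists_Opi_fin hρ K
  obtain ⟨L, hL1, hL2, hL3, hL4, hL5⟩ := absorb hfd hρ hK hG π.ncard π hπ1 hπ2 le_rfl
    K hK hfin (le_inf le_rfl hπ3)
  have hLe : L = K := le_antisymm (hL4.trans inf_le_left) hL3
  rw [hLe] at hL5
  exact hL5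

theorem GoodFilt.of_good (hfd : D.Fd) (hρ : D.IsRational ρ) {K : Submodule k V}
    (hK : Stable ρ K) (hG : GoodIn hρ K) (hc : CSpan k V) : GoodFilt D ρ K := by
  obtain ⟨e, he, hspan⟩ := hc.sub K
  -- one absorption step
  have step : ∀ (Y : {Y : Submodule k V // Stable ρ Y ∧ Module.Finite k Y ∧ Y ≤ K ∧
      D.Reach ρ ⊥ Y}) (v : K), ∃ Z : {Y : Submodule k V // Stable ρ Y ∧ Module.Finite k Y ∧ Y ≤ K ∧
      D.Reach ρ ⊥ Y}, Y.1 ≤ Z.1 ∧ (v : V) ∈ Z.1 := by
    rintro ⟨Y, h1, h2, h3, h4⟩ ⟨v, hv⟩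
    have hf := hullv_finite hρ v
    obtain ⟨π, hπ1, hπ2, hπ3⟩ := exists_Opi_fin hρ (Y ⊔ hullv ρ v)
    obtain ⟨L, l1, l2, l3, l4, l5⟩ := absorb hfd hρ hK hG π.ncard π hπ1 hπ2 le_rfl
      (Y ⊔ hullv ρ v) (h1.sup (hullv_stable ρ v)) inferInstance
      (le_inf (sup_le h3 (hullv_le hK hv)) hπ3)
    exact ⟨⟨L, l1, l2, l4.trans inf_le_left, l5⟩, le_sup_left.trans l3,
      l3 (Submodule.mem_sup_right (mem_hullv ρ v))⟩
  choose nxt nx1 nx2 using step
  let Ls : ℕ → {Y : Submodule k V // Stable ρ Y ∧ Module.Finite k Y ∧ Y ≤ K ∧ D.Reach ρ ⊥ Y} :=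
    fun m => Nat.rec ⟨⊥, Stable.bot, inferInstance, bot_le, Relation.ReflTransGen.refl⟩
      (fun i Y => nxt Y ⟨e i, he i⟩) m
  have Ls0 : (Ls 0).1 = ⊥ := rfl
  have Ls1 : ∀ m, Ls (m + 1) = nxt (Ls m) ⟨e m, he m⟩ := fun m => rfl
  have hle : ∀ m, (Ls m).1 ≤ (Ls (m + 1)).1 := fun m => by rw [Ls1]; exact nx1 _ _
  have hmem : ∀ m, e m ∈ (Ls (m + 1)).1 := fun m => by rw [Ls1]; exact nx2 _ ⟨e m, he m⟩
  have hgood : ∀ m, GoodIn hρ (Ls m).1 := fun m => (Ls m).2.2.2.2.good hρ (GoodIn.bot hρ)
  have hreach : ∀ m, D.Reach ρ (Ls m).1 (Ls (m + 1)).1 := fun m =>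
    reach_between hfd hρ (Ls m).2.1 (Ls (m + 1)).2.1 (hle m) (Ls (m + 1)).2.2.1 (hgood m)
      (hgood (m + 1))
  obtain ⟨N, n0, n1, n2, n3⟩ := flatten (D.GStep ρ) (fun m => (Ls m).1) hreach
  refine ⟨N, n0.trans Ls0, ?_, ?_, ?_⟩
  · intro i
    induction i with
    | zero => rw [n0]; exact (Ls 0).2.1
    | succ i ih =>
      rcases n1 i with h | h
      · rwa [← h]
      · exact h.2.1
  · intro i
    rcases n1 i with h | h
    · exact Or.inl h
    · obtain ⟨_, _, a, _, _, h⟩ := h
      exact Or.inr ⟨a, h⟩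
  · apply le_antisymm
    · apply iSup_le
      intro j
      obtain ⟨i, hi⟩ := n3 j
      exact (Reach.le hi).trans (Ls i).2.2.2.1
    · refine hspan.trans ?_
      rw [Submodule.span_le]
      rintro _ ⟨i, rfl⟩
      obtain ⟨j, hj⟩ := n2 (i + 1)
      apply Submodule.mem_iSup_of_mem j
      rw [hj]
      exact hmem i

theorem goodFilt_iff (hfd : D.Fd) (hρ : D.IsRational ρ) (hc : CSpan k V) :
    GoodFilt D ρ ⊤ ↔ GoodIn hρ ⊤ :=
  ⟨GoodIn.of_filt hρ, fun h => GoodFilt.of_good hfd hρ Stable.top h hc⟩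

/-- transport of good filtrations along isomorphisms -/
theorem GoodFilt.equiv (e : V ≃ₗ[k] W) (he : ∀ g v, e (ρ g v) = σ g (e v))
    (h : GoodFilt D ρ ⊤) : GoodFilt D σ ⊤ := by
  obtain ⟨N, n0, n1, n2, n3⟩ := h
  refine ⟨fun i => (N i).map (e : V →ₗ[k] W), ?_, ?_, ?_, ?_⟩
  · beta_reduce
    rw [n0, Submodule.map_bot]
  · intro i
    exact Stable.map (fun g v => he g v) (n1 i)
  · intro i
    rcases n2 i with h | ⟨a, hle, f, f1, f2, f3⟩
    · left
      beta_reduce
      rw [h]
    · right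
      refine ⟨a, Submodule.map_mono hle, ?_⟩
      have hs : ∀ y : (N (i + 1)).map (e : V →ₗ[k] W), e.symm (y : W) ∈ N (i + 1) := by
        rintro ⟨_, x, hx, rfl⟩
        change e.symm (e x) ∈ N (i + 1)
        rw [e.symm_apply_apply]
        exact hx
      let q : (N (i + 1)).map (e : V →ₗ[k] W) →ₗ[k] N (i + 1) :=
        LinearMap.codRestrict (N (i + 1))
          ((e.symm : W →ₗ[k] V) ∘ₗ ((N (i + 1)).map (e : V →ₗ[k] W)).subtype) hs
      have hq : ∀ y, ((q y : N (i + 1)) : V) = e.symm (y : W) := fun _ => rfl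
      refine ⟨f ∘ₗ q, ?_, ?_, ?_⟩
      · apply f1.comp
        intro x
        refine ⟨⟨e x, x, x.2, rfl⟩, ?_⟩
        apply Subtype.ext
        rw [hq]
        exact e.symm_apply_apply _
      · intro y
        rw [LinearMap.comp_apply, f2, hq]
        constructor
        · intro hy
          exact ⟨e.symm y, hy, e.apply_symm_apply _⟩
        · rintro ⟨x, hx, hxy⟩
          rw [← hxy]
          change e.symm (e x) ∈ N i
          rw [e.symm_apply_apply]
          exact hx
      · intro g x y hy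
        rw [LinearMap.comp_apply, LinearMap.comp_apply]
        apply f3
        rw [hq, hq, hy]
        apply e.injective
        rw [he, e.apply_symm_apply, e.apply_symm_apply]
  · rw [← Submodule.map_iSup, n3, Submodule.map_top]
    exact LinearEquiv.range e

end PG

end Pool.Agent.TRN
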