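import Pool.Agent.TRN.Good
import Pool.Agent.TRN.Chain3

/-!
# TRN / LOW: from the height criterion to the hull criterion

`Lo c`: the vectors all of whose translates have only weights of height less than `c`.

* `Lo_zero`: let `v ∈ Lo 0`, `v ≠ 0`; then `v' = wt b v ≠ 0` for some `b` (`eq_zero_of_wt`), `v' ∈ Lo 0`
  (`wt_mem`), `exists_weyl D b` gives `n` with `ρ n v'` of weight `dom b`, and `ρ n v' = wt (dom b) (ρ n v') = 0`
  as `0 ≤ ht (dom b)`.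
* `Opi_le_Lo`: if `v ∈ Opi (down a)`, `ht a + 1 ≤ ht b` then `dom b ∉ down a` (`le_dom'`, `Le.ht`:
  `ht b ≤ ht (dom b) ≤ ht a` otherwise).

* `goodIn_of_low`. Show `GoodIn (W ⊓ Lo n)` for all `n : ℕ` by induction; this suffices because a
  `U`-invariant `v ≠ 0` of weight `a` is in `Opi (down a)` (`isU_mem`), so in `Lo N` for a large natural `N`.
  `n = 0`: `Lo_zero`, `GoodIn.bot`. Step from `n` to `n + 1`: let `K = W ⊓ Lo n`, `B = W ⊓ Lo (n + 1)`,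
  `v ∈ B` `U`-invariant of weight `a`, `v ≠ 0` (otherwise take `w = 0`), `F ∈ Ind a`. As `wt a v = v ≠ 0`,
  `ht a < n + 1`. If `ht a < n`, then `v ∈ K` (`isU_mem`, `Opi_le_Lo`), use the induction hypothesis. Let
  `ht a = n`. `h` gives `w ∈ W` with `wt b (ρ g⁻¹ w) = F g • wt b v` for all `g` and `b` of height `≥ n`; so `w ∈ B`.
  Let `q = K.mkQ`, `σ = quo ρ hK`, `c = q w`.
  Claim: `c ∈ Opi hσ (down a)`. Let `ξ` be a functional with `ξ v = 1`. Let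
  `E = {y | (∀ g b', n ≤ ht b' → b' ≠ a → wt b' (ρ g y) = 0) ∧ (∀ g, ∃ r, wt a (ρ g y) = r • v) ∧
  (fun g => ξ (wt a (ρ g⁻¹ y))) ∈ D.Ind a}`. It is a stable submodule (`mul_inv_rev`, `Ind_translate`) and
  contains `w`. The map `θ : E → Ind a`, `y ↦ (g ↦ ξ (wt a (ρ g⁻¹ y)))` is equivariant for `sub ρ _`. Let
  `dom b ∉ down a`, `x = wt b (ρ g0 w)`. Then `x ∈ E` (`wt_mem`) and
  `θ x = wt b (θ (ρ g0 w)) = 0` (`map_wt` for `θ` and for the inclusion `E → V`; `ind_Opi`, `Opi_wt`). So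
  `wt b' (ρ g x) = 0` for all `g` and all `b'` of height `≥ n`, i.e. `x ∈ Lo n`, `x ∈ K`, `q x = 0`, and
  `wt b (σ g0 c) = q x` (`map_wt`). This is the claim.
  `lift_Opi` (`sat_down a`, `B ⊓ ker q = K`) gives `b ∈ B ⊓ Opi (down a)` with `q b = q w`; `b - w ∈ K`, so
  `wt a (ρ g⁻¹ b) = wt a (ρ g⁻¹ w) = F g • v`.
-/

set_option autoImplicit false

namespace Pool.Agent.TRN

open Finset TensorProduct

namespace PG

variable {k Γ T X : Type*} [Field k] [Infinite k] [Group Γ] [CommGroup T] [AddCommGroup X]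
  {D : PG k Γ T X} {V : Type*} [AddCommGroup V] [Module k V] {ρ : Representation k Γ V}

/-- the vectors all of whose translates have only weights of height less than `c` -/
noncomputable def Lo (hρ : D.IsRational ρ) (c : ℤ) : Submodule k V where
  carrier := {v | ∀ g b, c ≤ D.ht b → wt hρ b (ρ g v) = 0}
  add_mem' ha hb g b hb' := by rw [map_add, map_add, ha g b hb', hb g b hb', add_zero]
  zero_mem' g b _ := by rw [map_zero, map_zero]
  smul_mem' c v hv g b hb' := by rw [map_smul, map_smul, hv g b hb', smul_zero]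

lemma mem_Lo (hρ : D.IsRational ρ) {c : ℤ} {v : V} :
    v ∈ Lo hρ c ↔ ∀ g b, c ≤ D.ht b → wt hρ b (ρ g v) = 0 := Iff.rfl

lemma Lo_stable (hρ : D.IsRational ρ) (c : ℤ) : Stable ρ (Lo hρ c) := by
  intro h v hv g b hb
  rw [← mul_apply']
  exact hv (g * h) b hb

lemma Lo_mono (hρ : D.IsRational ρ) {c d : ℤ} (h : c ≤ d) : Lo hρ c ≤ Lo hρ d :=
  fun _ hv g b hb => hv g b (h.trans hb)

lemma Lo_zero (hd : ∀ a, D.dom a = a → 0 ≤ D.ht a) (hρ : D.IsRational ρ) : Lo hρ 0 = ⊥ := by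
  rw [eq_bot_iff]
  intro v hv
  rw [Submodule.mem_bot]
  refine eq_zero_of_wt hρ fun b => ?_
  have h1 : wt hρ b v ∈ Lo hρ 0 := wt_mem hρ (Lo_stable hρ 0) hv b
  obtain ⟨n, hn⟩ := exists_weyl D b
  have h2 := wt_self hρ (hn ρ _ (wt_isWt hρ b v))
  rw [(mem_Lo hρ).1 h1 n (D.dom b) (hd _ (D.dom_dom b))] at h2
  have h3 := inv_apply_self ρ n (wt hρ b v)
  rw [← h2, map_zero] at h3
  exact h3.symm

lemma Opi_le_Lo (hρ : D.IsRational ρ) (a : X) : Opi hρ (D.down a) ≤ Lo hρ (D.ht a + 1) := by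
  intro v hv g b hb
  refine (mem_Opi hρ).1 hv g b fun hcon => ?_
  have h1 := (Le.ht D hcon.2).1
  have h2 := (Le.ht D (D.le_dom' b)).1
  omega

private lemma low_step (hρ : D.IsRational ρ) {W : Submodule k V} (hW : Stable ρ W)
    (h : ∀ a, ∀ v ∈ W, D.IsU ρ v → D.IsWt ρ a v → ∀ F ∈ D.Ind a, ∃ w ∈ W, ∀ g b,
      D.ht a ≤ D.ht b → wt hρ b (ρ g⁻¹ w) = F g • wt hρ b v) (n : ℤ)
    (ih : GoodIn hρ (W ⊓ Lo hρ n)) : GoodIn hρ (W ⊓ Lo hρ (n + 1)) := by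
  intro a v hv hU hw F hF
  by_cases hv0 : v = 0
  · refine ⟨0, zero_mem _, zero_mem _, fun g => ?_⟩
    rw [hv0, map_zero, map_zero, smul_zero]
  have hht : D.ht a < n + 1 := by
    by_contra hcon
    push Not at hcon
    apply hv0
    have h1 := (mem_Lo hρ).1 hv.2 1 a hcon
    rwa [map_one, Module.End.one_apply, wt_self hρ hw] at h1
  rcases lt_or_ge (D.ht a) n with hlt | hge
  · have h1 : v ∈ W ⊓ Lo hρ n :=
      ⟨hv.1, Lo_mono hρ (by omega) (Opi_le_Lo hρ a (isU_mem hρ hU hw).1)⟩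
    obtain ⟨w, hw1, hw2, hw3⟩ := ih a v h1 hU hw F hF
    exact ⟨w, ⟨hw1.1, Lo_mono hρ (by omega) hw1.2⟩, hw2, hw3⟩
  have hn : D.ht a = n := by omega
  obtain ⟨w, hwW, hwF⟩ := h a v hv.1 hU hw F hF
  have hne : ∀ b, b ≠ a → wt hρ b v = 0 := fun b hb => wt_ne hρ hw (Ne.symm hb)
  have hwF' : ∀ g b, n ≤ D.ht b → wt hρ b (ρ g w) = F g⁻¹ • wt hρ b v := by
    intro g b hb
    have h1 := hwF g⁻¹ b (by omega)
    rwa [inv_inv] at h1
  have hwB : w ∈ W ⊓ Lo hρ (n + 1) := by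
    refine ⟨hwW, fun g b hb => ?_⟩
    rw [hwF' g b (by omega), hne b (by rintro rfl; omega), smul_zero]
  have hKst : Stable ρ (W ⊓ Lo hρ n) := Stable.inf hW (Lo_stable hρ n)
  have hBst : Stable ρ (W ⊓ Lo hρ (n + 1)) := Stable.inf hW (Lo_stable hρ (n + 1))
  have hσ : D.IsRational (quo ρ hKst) := isRational_quo hρ hKst
  have hq : IsEquiv ρ (quo ρ hKst) (W ⊓ Lo hρ n).mkQ := quo_isEquiv hKst
  obtain ⟨ξ, hξ⟩ : ∃ ξ : V →ₗ[k] k, ξ v = 1 := by
    obtain ⟨ξ, hξ⟩ : ∃ ξ : V →ₗ[k] k, ξ v ≠ 0 := by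
      by_contra hcon
      push Not at hcon
      exact hv0 ((Module.forall_dual_apply_eq_zero_iff k v).1 hcon)
    exact ⟨(ξ v)⁻¹ • ξ, by rw [LinearMap.smul_apply, smul_eq_mul, inv_mul_cancel₀ hξ]⟩
  -- the subspace `E`
  obtain ⟨E, hE⟩ : ∃ E : Submodule k V, ∀ y, y ∈ E ↔
      (∀ g b', n ≤ D.ht b' → b' ≠ a → wt hρ b' (ρ g y) = 0) ∧
      (∀ g, ∃ r : k, wt hρ a (ρ g y) = r • v) ∧
      (fun g => ξ (wt hρ a (ρ g⁻¹ y))) ∈ D.Ind a := by
    refine ⟨{ carrier := {y | (∀ g b', n ≤ D.ht b' → b' ≠ a → wt hρ b' (ρ g y) = 0) ∧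
                (∀ g, ∃ r : k, wt hρ a (ρ g y) = r • v) ∧
                (fun g => ξ (wt hρ a (ρ g⁻¹ y))) ∈ D.Ind a}
              add_mem' := ?_
              zero_mem' := ?_
              smul_mem' := ?_ }, fun y => Iff.rfl⟩
    · rintro x y ⟨h1, h2, h3⟩ ⟨h1', h2', h3'⟩
      refine ⟨fun g b' hb hba => ?_, fun g => ?_, ?_⟩
      · rw [map_add, map_add, h1 g b' hb hba, h1' g b' hb hba, add_zero]
      · obtain ⟨r, hr⟩ := h2 g
        obtain ⟨r', hr'⟩ := h2' g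
        exact ⟨r + r', by rw [map_add, map_add, hr, hr', add_smul]⟩
      · have h4 : (fun g => ξ (wt hρ a (ρ g⁻¹ (x + y)))) =
            (fun g => ξ (wt hρ a (ρ g⁻¹ x))) + fun g => ξ (wt hρ a (ρ g⁻¹ y)) := by
          funext g
          rw [map_add, map_add, map_add]
          rfl
        rw [h4]
        exact add_mem h3 h3'
    · refine ⟨fun g b' hb hba => ?_, fun g => ⟨0, ?_⟩, ?_⟩
      · rw [map_zero, map_zero]
      · rw [map_zero, map_zero, zero_smul]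
      · have h4 : (fun g : Γ => ξ (wt hρ a (ρ g⁻¹ 0))) = 0 := by
          funext g
          rw [map_zero, map_zero, map_zero]
          rfl
        rw [h4]
        exact zero_mem _
    · rintro c y ⟨h1, h2, h3⟩
      refine ⟨fun g b' hb hba => ?_, fun g => ?_, ?_⟩
      · rw [map_smul, map_smul, h1 g b' hb hba, smul_zero]
      · obtain ⟨r, hr⟩ := h2 g
        exact ⟨c * r, by rw [map_smul, map_smul, hr, smul_smul]⟩
      · have h4 : (fun g => ξ (wt hρ a (ρ g⁻¹ (c • y)))) =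
            c • fun g => ξ (wt hρ a (ρ g⁻¹ y)) := by
          funext g
          rw [map_smul, map_smul, map_smul]
          rfl
        rw [h4]
        exact (D.Ind a).smul_mem _ h3
  have hEst : Stable ρ E := by
    intro h y hy
    rw [hE] at hy ⊢
    obtain ⟨h1, h2, h3⟩ := hy
    refine ⟨fun g b' hb hba => ?_, fun g => ?_, ?_⟩
    · rw [← mul_apply']
      exact h1 _ b' hb hba
    · rw [← mul_apply']
      exact h2 _
    · have h4 := D.Ind_translate h3 h⁻¹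
      have h5 : (fun g => ξ (wt hρ a (ρ g⁻¹ (ρ h y)))) =
          fun g => (fun g => ξ (wt hρ a (ρ g⁻¹ y))) (h⁻¹ * g) := by
        funext g
        show ξ (wt hρ a (ρ g⁻¹ (ρ h y))) = ξ (wt hρ a (ρ (h⁻¹ * g)⁻¹ y))
        rw [← mul_apply', mul_inv_rev, inv_inv]
      rw [h5]
      exact h4
  have hwE : w ∈ E := by
    rw [hE]
    refine ⟨fun g b' hb hba => ?_, fun g => ⟨F g⁻¹, ?_⟩, ?_⟩
    · rw [hwF' g b' hb, hne b' hba, smul_zero]
    · rw [hwF' g a (by omega), wt_self hρ hw]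
    · have h4 : (fun g => ξ (wt hρ a (ρ g⁻¹ w))) = F := by
        funext g
        rw [hwF g a le_rfl, wt_self hρ hw, map_smul, hξ, smul_eq_mul, mul_one]
      rw [h4]
      exact hF
  obtain ⟨θ, hθ⟩ : ∃ θ : E →ₗ[k] D.Ind a, ∀ y g, (θ y).1 g = ξ (wt hρ a (ρ g⁻¹ y.1)) := by
    refine ⟨{ toFun := fun y => ⟨fun g => ξ (wt hρ a (ρ g⁻¹ y.1)), ((hE _).1 y.2).2.2⟩
              map_add' := fun x y => ?_
              map_smul' := fun c y => ?_ }, fun y g => rfl⟩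
    · apply Subtype.ext
      funext g
      show ξ (wt hρ a (ρ g⁻¹ (x.1 + y.1))) = ξ (wt hρ a (ρ g⁻¹ x.1)) + ξ (wt hρ a (ρ g⁻¹ y.1))
      rw [map_add, map_add, map_add]
    · apply Subtype.ext
      funext g
      show ξ (wt hρ a (ρ g⁻¹ (c • y.1))) = c • ξ (wt hρ a (ρ g⁻¹ y.1))
      rw [map_smul, map_smul, map_smul]
  have hθe : IsEquiv (sub ρ hEst) (D.indRep a) θ := by
    intro h y
    apply Subtype.ext
    funext g
    rw [hθ, D.indRep_apply, hθ, sub_coe, ← mul_apply', mul_inv_rev, inv_inv]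
  have hEr : D.IsRational (sub ρ hEst) := isRational_sub hρ hEst
  have hcO : (W ⊓ Lo hρ n).mkQ w ∈ Opi hσ (D.down a) := by
    rw [mem_Opi]
    intro g0 b hb
    rw [← hq g0 w, ← map_wt hρ hσ hq]
    have hxW : wt hρ b (ρ g0 w) ∈ W := wt_mem hρ hW (hW _ _ hwW) b
    have hxE : wt hρ b (ρ g0 w) ∈ E := wt_mem hρ hEst (hEst _ _ hwE) b
    have hx2 : (⟨wt hρ b (ρ g0 w), hxE⟩ : E) = wt hEr b ⟨ρ g0 w, hEst _ _ hwE⟩ := by
      apply Subtype.ext
      have h1 := map_wt hEr hρ (sub_isEquiv hEst) b ⟨ρ g0 w, hEst _ _ hwE⟩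
      exact h1.symm
    have hθ0 : θ ⟨wt hρ b (ρ g0 w), hxE⟩ = 0 := by
      rw [hx2, map_wt hEr (isRational_ind D a) hθe]
      exact Opi_wt _ (ind_Opi a _) hb
    have hxLo : wt hρ b (ρ g0 w) ∈ Lo hρ n := by
      intro g b' hb'
      obtain ⟨h1, h2, _⟩ := (hE _).1 hxE
      by_cases hba : b' = a
      · subst hba
        obtain ⟨r, hr⟩ := h2 g
        have h3 := hθ ⟨wt hρ b (ρ g0 w), hxE⟩ g⁻¹
        rw [hθ0, inv_inv, hr, map_smul, hξ, smul_eq_mul, mul_one] at h3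
        have h4 : r = 0 := h3.symm
        rw [hr, h4, zero_smul]
      · exact h1 g b' hb' hba
    exact (Submodule.Quotient.mk_eq_zero _).2 ⟨hxW, hxLo⟩
  have hA : GoodIn hρ ((W ⊓ Lo hρ (n + 1)) ⊓ LinearMap.ker (W ⊓ Lo hρ n).mkQ) := by
    rw [Submodule.ker_mkQ, inf_eq_right.2]
    · exact ih
    · exact inf_le_inf_left _ (Lo_mono hρ (by omega))
  obtain ⟨b, hb1, hb2, hb3⟩ := lift_Opi hρ hσ hq hBst hA (D.sat_down a)
    ⟨w, hwB, rfl⟩ hcO
  refine ⟨b, hb1, hb2, fun g => ?_⟩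
  have h1 : b - w ∈ W ⊓ Lo hρ n := by
    rw [← Submodule.Quotient.mk_eq_zero (W ⊓ Lo hρ n), Submodule.Quotient.mk_sub]
    exact sub_eq_zero.2 hb3
  have h2 : b = w + (b - w) := by abel
  rw [h2, map_add, map_add, (mem_Lo hρ).1 h1.2 g⁻¹ a (by omega), add_zero, hwF g a le_rfl,
    wt_self hρ hw]

theorem goodIn_of_low (hρ : D.IsRational ρ) (hd : ∀ a, D.dom a = a → 0 ≤ D.ht a)
    {W : Submodule k V} (hW : Stable ρ W)
    (h : ∀ a, ∀ v ∈ W, D.IsU ρ v → D.IsWt ρ a v → ∀ F ∈ D.Ind a, ∃ w ∈ W, ∀ g b,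
      D.ht a ≤ D.ht b → wt hρ b (ρ g⁻¹ w) = F g • wt hρ b v) : GoodIn hρ W := by
  have key : ∀ n : ℕ, GoodIn hρ (W ⊓ Lo hρ n) := by
    intro n
    induction n with
    | zero =>
      rw [Nat.cast_zero, Lo_zero hd hρ, inf_bot_eq]
      exact GoodIn.bot hρ
    | succ n ih =>
      rw [Nat.cast_succ]
      exact low_step hρ hW h n ih
  intro a v hv hU hw F hF
  have h1 : v ∈ W ⊓ Lo hρ ((D.ht a + 1).toNat : ℤ) :=
    ⟨hv, Lo_mono hρ (Int.self_le_toNat _) (Opi_le_Lo hρ a (isU_mem hρ hU hw).1)⟩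
  obtain ⟨w, hw1, hw2, hw3⟩ := key _ a v h1 hU hw F hF
  exact ⟨w, hw1.1, hw2, hw3⟩

end PG

end Pool.Agent.TRN
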