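import Pool.Agent.TRN.Tens

/-!
# TRN / WDDEFS: bundled representations, highest weight data

`Wd` bundles a representation with a vector and a functional. `HW D w b`: `w.v` is a `U`-invariant of
weight `b`, `w.xi` is a `Um`-invariant functional of weight `b` with `w.xi w.v = 1`, `b` is the
highest weight, with multiplicity one. `IsTop D w b`: moreover `w` and its dual have good
filtrations. `DM`: tensor products of induced modules are good.
-/

set_option autoImplicit false

namespace Pool.Agent.TRN

open Finset TensorProduct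

universe u v w

/-- bundled representations with a vector and a functional -/
structure Wd (k : Type u) [Field k] (Γ : Type u) [Group Γ] where
  V : Type u
  [ac : AddCommGroup V]
  [md : Module k V]
  ρ : Representation k Γ V
  v : V
  xi : V →ₗ[k] k

attribute [instance] Wd.ac Wd.md

section

variable {k : Type u} [Field k] {Γ : Type u} [Group Γ]

/-- the trivial word -/
noncomputable def Wd.one (k : Type u) [Field k] (Γ : Type u) [Group Γ] : Wd k Γ :=
  ⟨k, Representation.trivial k Γ k, 1, LinearMap.id⟩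

/-- tensor products -/
noncomputable def Wd.mul (w w' : Wd k Γ) : Wd k Γ :=
  ⟨w.V ⊗[k] w'.V, w.ρ.tprod w'.ρ, w.v ⊗ₜ[k] w'.v,
    (LinearMap.mul' k k) ∘ₗ TensorProduct.map w.xi w'.xi⟩

/-- the dual; its vector is `w.xi`, its functional is the evaluation at `w.v` -/
noncomputable def Wd.dual (w : Wd k Γ) : Wd k Γ :=
  ⟨Module.Dual k w.V, w.ρ.dual, w.xi, Module.Dual.eval k w.V w.v⟩

lemma Wd.dual_apply (w : Wd k Γ) (g : Γ) (f : Module.Dual k w.V) (x : w.V) :
    (show Module.Dual k w.V from w.dual.ρ g f) x = f (w.ρ g⁻¹ x) := rfl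

lemma Wd.mul_xi (w w' : Wd k Γ) (x : w.V) (y : w'.V) :
    (w.mul w').xi (x ⊗ₜ[k] y) = w.xi x * w'.xi y := rfl

variable {T X : Type*} [CommGroup T] [AddCommGroup X] (D : PG k Γ T X)

/-- highest weight data -/
structure HW (w : Wd k Γ) (b : X) : Prop where
  fin : Module.Finite k w.V
  rational : D.IsRational w.ρ
  hU : D.IsU w.ρ w.v
  hw : D.IsWt w.ρ b w.v
  xiU : ∀ u ∈ D.Um, ∀ x, w.xi (w.ρ u x) = w.xi x
  xit : ∀ z x, w.xi (w.ρ (D.t z) x) = D.chi b z * w.xi x
  xiv : w.xi w.v = 1
  top : ∀ c x, D.IsWt w.ρ c x → x ≠ 0 → D.Le c b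
  one : ∀ x, D.IsWt w.ρ b x → x = w.xi x • w.v

/-- tilting modules with highest weight `b` of multiplicity one -/
structure IsTop (w : Wd k Γ) (b : X) : Prop where
  hw : HW D w b
  good : GoodFilt D w.ρ ⊤
  good' : GoodFilt D w.dual.ρ ⊤

/-- every dominant weight is the highest weight of a tilting module -/
def HasTop : Prop := ∀ a, D.dom a = a → ∃ w : Wd k Γ, IsTop D w a

end

/-- tensor products of induced modules are good -/
def DM {k Γ T X : Type*} [Field k] [Infinite k] [Group Γ] [CommGroup T] [AddCommGroup X]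
    (D : PG k Γ T X) : Prop :=
  ∀ a b, PG.GoodIn (PG.isRational_tprod (PG.isRational_ind D a) (PG.isRational_ind D b)) ⊤

open PG in
theorem DM.tensor {k Γ T X : Type*} [Field k] [Infinite k] [Group Γ] [CommGroup T]
    [AddCommGroup X] {D : PG k Γ T X} {V M : Type*} [AddCommGroup V] [Module k V]
    {ρ : Representation k Γ V} [AddCommGroup M] [Module k M] {σ : Representation k Γ M}
    (hDM : DM D) (hρ : D.IsRational ρ) (hσ : D.IsRational σ)
    (h : GoodFilt D ρ ⊤) (hG : GoodFilt D σ ⊤) : GoodIn (isRational_tprod hρ hσ) ⊤ :=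
  filt_tensor hρ hσ h fun c => tensor_comm hσ (isRational_ind D c)
    (filt_tensor hσ (isRational_ind D c) hG fun b => hDM b c)

end Pool.Agent.TRN
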