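import Pool.Agent.TRN.Ind
import Pool.Agent.TRN.WdDefs

/-!
# TRN / WL: Weyl modules

`Nz D`: further properties of the longest element, valid for all reductive groups.

* `exists_HW`: let `ξ` be a functional with `ξ v = 1`, `xi = ξ ∘ₗ wt hρ a`. For every `x`: `wt a x = r • v`, so
  `wt a x = xi x • v`. `xiU`: `wt_Um_of_weights` (a nonzero `wt b x` has `Le b a`; `Le.antisymm`);
  `xit`: `wt_t`; `one`: `wt_self`; `hU`: `IsU.of_weights` with `Y = ⊤`.
* `evn D a`: the functional `F ↦ F (n0⁻¹)` on `Ind (-w0 a)`. It has weight `a` in the dual: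
  `(dual (t z) evn) F = F (t z * n0⁻¹)`; `n0_t` gives `s` with `t z' * n0 = n0 * t (s z')`, for `z' = s⁻¹ z`
  this is `t z * n0⁻¹ = n0⁻¹ * t z'`, and `F (n0⁻¹ * t z') = χ_{w0 a}(z') F (n0⁻¹)`,
  `χ_{w0 a}(z') = χ_a (s z') = χ_a z`. It is `U`-invariant: `F (u⁻¹... n0⁻¹) = F (n0⁻¹ * (n0 u n0⁻¹))`, `Nz.U`.
* `wl_map` (universal property): let `W = span {ρ g c}` (stable, finite dimensional: `exists_finite` or
  `IsReg.finite_span`). For `f ∈ W*` let `θ f = (g ↦ f (ρ (g * n0) c))`: `exists_frob` for the dual of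
  `sub ρ _` and the functional `f ↦ f (ρ n0 c)`, as in `dual_top_ind` of `Cover.lean`
  (`Um`-invariant: `n0⁻¹ u n0 ∈ U` for `u ∈ Um`, `n0_Um`; weight `-w0 a`:
  `n0_t_inv` in `Cover.lean`, copy). So `θ : W* → Ind (-w0 a)`, and `evn (θ f) = f c`. `ψ` is the dual map
  `(Ind (-w0 a))* → W** ≅ W` (`Module.evalEquiv`) followed by the inclusion of `W`.
* `wl_top`: weights. Let `q ≠ 0` be of weight `d` in `(Ind b)*`, `b = -w0 a`. There is `F` of some weight `e` with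
  `q F ≠ 0` (`sum_wt`); comparing `q (ρ (t z)⁻¹ F)`: `e = -d` (`chi_inj`, `chi_neg`). `ρ n0 F` has weight
  `w0 e = w0 (-d)` (`n0_t`), nonzero, so `Le (w0 (-d)) b` (`ind_wt`), i.e.
  `-w0 a + w0 d = w0 (d - a)` is a sum of positive roots (`Nz.add`), so `a - d = - w0 (w0 (d - a))` is one as well
  (`Nz.root`, `Nz.w0`, `AddSubmonoid.closure_induction`).
* `wl_one`: let `q` have weight `a`. Let `v` be the vector of `ind_exists` for `b` (`Nz.dom`, `Nz.ne`), `F0 = ρ n0⁻¹ v`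
  (of weight `-a`, `F0 (n0⁻¹) = v 1 = 1`). Every `F` of weight `-a` is a multiple of `F0` (`ρ n0 F` has
  weight `w0 (-a) = b`, `ind_top`), and `q` vanishes on the other weight spaces. So `q = q F0 • evn`.
* `wl_HW`: `exists_HW`. `wl_dual_good`: the dual of `(Ind b)*` is `Ind b` (`Module.evalEquiv`,
  `GoodIn.equiv`, `GoodIn.ind`).
-/

set_option autoImplicit false

namespace Pool.Agent.TRN

open Finset TensorProduct

universe u

/-- further properties of the longest element of the Weyl group -/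
structure Nz {k Γ T X : Type*} [Field k] [Group Γ] [CommGroup T] [AddCommGroup X]
    (D : PG k Γ T X) : Prop where
  U : ∀ u ∈ D.U, D.n0 * u * D.n0⁻¹ ∈ D.Um
  Um : ∀ v ∈ D.Um, D.n0 * v * D.n0⁻¹ ∈ D.U
  w0 : ∀ a, D.w0 (D.w0 a) = a
  add : ∀ a b, D.w0 (a + b) = D.w0 a + D.w0 b
  root : ∀ i, ∃ j, D.w0 (D.root i) = - D.root j
  dom : ∀ a, D.dom a = a → D.dom (-D.w0 a) = -D.w0 a
  ne : ∀ a, D.dom a = a → ∃ F ∈ D.Ind a, F ≠ 0
  ht : ∀ a, D.dom a = a → 0 ≤ D.ht a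
  fg : ∃ s : Finset X, (∀ a ∈ s, D.dom a = a) ∧
    ∀ a, D.dom a = a → a ∈ AddSubmonoid.closure (s : Set X)

namespace PG

section

variable {k : Type u} [Field k] [Infinite k] {Γ : Type u} [Group Γ] {T X : Type*} [CommGroup T]
  [AddCommGroup X] {D : PG k Γ T X} {V : Type u} [AddCommGroup V] [Module k V]
  {ρ : Representation k Γ V}

theorem exists_HW [Module.Finite k V] (hρ : D.IsRational ρ) {a : X} {v : V}
    (hw : D.IsWt ρ a v) (hv : v ≠ 0) (top : ∀ c x, D.IsWt ρ c x → x ≠ 0 → D.Le c a)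
    (one : ∀ x, D.IsWt ρ a x → ∃ r : k, x = r • v) :
    ∃ xi : V →ₗ[k] k, HW D ⟨V, ρ, v, xi⟩ a := by
  obtain ⟨ξ, hξ⟩ : ∃ ξ : V →ₗ[k] k, ξ v = 1 := by
    obtain ⟨ξ, hξ⟩ : ∃ ξ : V →ₗ[k] k, ξ v ≠ 0 := by
      by_contra hcon
      push Not at hcon
      exact hv ((Module.forall_dual_apply_eq_zero_iff k v).1 hcon)
    exact ⟨(ξ v)⁻¹ • ξ, by rw [LinearMap.smul_apply, smul_eq_mul, inv_mul_cancel₀ hξ]⟩
  have hz : ∀ x b, D.Le a b → b ≠ a → wt hρ b x = 0 := by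
    intro x b hab hba
    by_contra hne
    exact hba (Le.antisymm D (top b _ (wt_isWt hρ b x) hne) hab)
  refine ⟨ξ ∘ₗ wt hρ a, ?_⟩
  exact
    { fin := inferInstanceAs (Module.Finite k V)
      rational := hρ
      hU := IsU.of_weights hρ (Y := ⊤) Stable.top (fun b hab hba x _ hx => by
        rw [← wt_self hρ hx]
        exact hz x b hab hba) Submodule.mem_top hw
      hw := hw
      xiU := fun u hu x => congrArg ξ (wt_Um_of_weights hρ (hz x) hu)
      xit := fun z x => by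
        show ξ (wt hρ a (ρ (D.t z) x)) = _
        rw [wt_t, map_smul]
        rfl
      xiv := by
        show ξ (wt hρ a v) = 1
        rw [wt_self hρ hw, hξ]
      top := top
      one := fun x hx => by
        obtain ⟨r, hr⟩ := one x hx
        show x = ξ (wt hρ a x) • v
        rw [wt_self hρ hx, hr, map_smul, hξ, smul_eq_mul, mul_one] }

end

section

variable {k Γ T X : Type*} [Field k] [Infinite k] [Group Γ] [CommGroup T]
  [AddCommGroup X] {D : PG k Γ T X} {V : Type*} [AddCommGroup V] [Module k V]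
  {ρ : Representation k Γ V}

/-- the evaluation at `n0⁻¹` -/
def evn (D : PG k Γ T X) (a : X) : Module.Dual k (D.Ind (-D.w0 a)) where
  toFun F := F.1 D.n0⁻¹
  map_add' _ _ := rfl
  map_smul' _ _ := rfl

omit [Infinite k] in
private lemma wl_torus {b : X} (F : D.Ind b) (g : Γ) (z : T) :
    F.1 (g * D.t z) = (((D.chi b z)⁻¹ : kˣ) : k) * F.1 g := by
  have h := F.2.2 g 1 D.Um.one_mem z
  rwa [one_mul] at h

omit [Infinite k] in
private lemma wl_um {b : X} (F : D.Ind b) (g : Γ) {u : Γ} (hu : u ∈ D.Um) :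
    F.1 (g * u) = F.1 g := by
  have h := F.2.2 g u hu 1
  rwa [map_one, map_one, mul_one, inv_one, Units.val_one, one_mul] at h

omit [Infinite k] in
private lemma wl_n0_t_inv (D : PG k Γ T X) (a : X) (z : T) : ∃ z' : T,
    (D.t z)⁻¹ * D.n0 = D.n0 * D.t z' ∧
    D.n0⁻¹ * (D.t z)⁻¹ = D.t z' * D.n0⁻¹ ∧ D.chi a z' = D.chi (-D.w0 a) z := by
  obtain ⟨s, hs⟩ := D.n0_t
  have h1 : (D.t z)⁻¹ * D.n0 = D.n0 * D.t (s z⁻¹) := by
    rw [← map_inv]
    exact (hs z⁻¹).1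
  refine ⟨s z⁻¹, h1, ?_, ?_⟩
  · have h2 : D.n0⁻¹ * ((D.t z)⁻¹ * D.n0) * D.n0⁻¹ = D.n0⁻¹ * (D.n0 * D.t (s z⁻¹)) * D.n0⁻¹ := by
      rw [h1]
    simpa [mul_assoc] using h2
  · rw [(hs z⁻¹).2 a, chi_neg, map_inv]

lemma evn_isWt (a : X) : D.IsWt (D.indRep (-D.w0 a)).dual a (evn D a) := by
  intro z
  refine LinearMap.ext fun F => ?_
  show (D.indRep (-D.w0 a) (D.t z)⁻¹ F).1 D.n0⁻¹ = (D.chi a z : k) • F.1 D.n0⁻¹
  rw [indRep_apply, inv_inv]
  obtain ⟨s, hs⟩ := D.n0_t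
  have h1 := (hs (s.symm z)).1
  rw [MulEquiv.apply_symm_apply] at h1
  have h2 : D.t z * D.n0⁻¹ = D.n0⁻¹ * D.t (s.symm z) := by
    rw [mul_inv_eq_iff_eq_mul, mul_assoc, h1, inv_mul_cancel_left]
  have h3 := (hs (s.symm z)).2 a
  rw [MulEquiv.apply_symm_apply] at h3
  rw [h2, wl_torus, chi_neg, inv_inv, ← h3, smul_eq_mul]

lemma evn_isU (hN : Nz D) (a : X) : D.IsU (D.indRep (-D.w0 a)).dual (evn D a) := by
  intro u hu
  refine LinearMap.ext fun F => ?_
  show (D.indRep (-D.w0 a) u⁻¹ F).1 D.n0⁻¹ = F.1 D.n0⁻¹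
  rw [indRep_apply, inv_inv]
  have h1 : u * D.n0⁻¹ = D.n0⁻¹ * (D.n0 * u * D.n0⁻¹) := by group
  rw [h1, wl_um F _ (hN.U u hu)]

/-- the universal property -/
theorem wl_map (hfd : D.Fd) (hρ : D.IsRational ρ) {a : X} {c : V} (hU : D.IsU ρ c)
    (hw : D.IsWt ρ a c) : ∃ ψ : Module.Dual k (D.Ind (-D.w0 a)) →ₗ[k] V,
      IsEquiv (D.indRep (-D.w0 a)).dual ρ ψ ∧ ψ (evn D a) = c := by
  obtain ⟨W, hW, hWf, hcW, _⟩ := exists_finite hρ {c}
  have hc : c ∈ W := hcW c (Finset.mem_singleton_self c)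
  have hr := isRational_sub hρ hW
  have hrd : D.IsRational (sub ρ hW).dual := isRational_dual hr
  have hU' : ∀ u ∈ D.U, sub ρ hW u ⟨c, hc⟩ = ⟨c, hc⟩ := fun u hu => Subtype.ext (hU u hu)
  have hw' : ∀ z, sub ρ hW (D.t z) ⟨c, hc⟩ = (D.chi a z : k) • (⟨c, hc⟩ : W) :=
    fun z => Subtype.ext (hw z)
  obtain ⟨θ, hθ, hθv⟩ := exists_frob hrd (a := -D.w0 a)
    (Module.Dual.eval k W (sub ρ hW D.n0 ⟨c, hc⟩))
    (fun u hu f => by
      show f (sub ρ hW u⁻¹ (sub ρ hW D.n0 ⟨c, hc⟩)) = f (sub ρ hW D.n0 ⟨c, hc⟩)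
      have h2 := n0_Um (D := D) (D.Um.inv_mem hu)
      rw [← mul_apply', show u⁻¹ * D.n0 = D.n0 * (D.n0⁻¹ * u⁻¹ * D.n0) by group, mul_apply',
        hU' _ h2])
    (fun z f => by
      show f (sub ρ hW (D.t z)⁻¹ (sub ρ hW D.n0 ⟨c, hc⟩)) = _ * f (sub ρ hW D.n0 ⟨c, hc⟩)
      obtain ⟨z', hz1, -, hz2⟩ := wl_n0_t_inv D a z
      rw [← mul_apply', hz1, mul_apply', hw' z', hz2, map_smul, map_smul, smul_eq_mul])
  have hθe : ∀ f : Module.Dual k W, evn D a (θ f) = f ⟨c, hc⟩ := by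
    intro f
    show (θ f).1 D.n0⁻¹ = _
    rw [hθv]
    show f (sub ρ hW (D.n0⁻¹)⁻¹⁻¹ (sub ρ hW D.n0 ⟨c, hc⟩)) = _
    rw [inv_inv, inv_apply_self]
  have hev : ∀ (x : W) (f : Module.Dual k W), Module.evalEquiv k W x f = f x := fun x f => rfl
  obtain ⟨ψ, hψ⟩ : ∃ ψ : Module.Dual k (D.Ind (-D.w0 a)) →ₗ[k] W,
      ∀ q (f : Module.Dual k W), f (ψ q) = q (θ f) := by
    refine ⟨(Module.evalEquiv k W).symm.toLinearMap ∘ₗ θ.dualMap, fun q f => ?_⟩
    rw [← hev]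
    show Module.evalEquiv k W ((Module.evalEquiv k W).symm (θ.dualMap q)) f = _
    rw [LinearEquiv.apply_symm_apply]
    rfl
  have hsep : ∀ x y : W, (∀ f : Module.Dual k W, f x = f y) → x = y := by
    intro x y h
    apply (Module.evalEquiv k W).injective
    exact LinearMap.ext h
  refine ⟨W.subtype ∘ₗ ψ, fun g q => ?_, ?_⟩
  · have h1 : ψ ((D.indRep (-D.w0 a)).dual g q) = sub ρ hW g (ψ q) := by
      apply hsep
      intro f
      rw [hψ]
      show q (D.indRep (-D.w0 a) g⁻¹ (θ f)) = _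
      rw [← hθ, ← hψ]
      show f (sub ρ hW (g⁻¹)⁻¹ (ψ q)) = _
      rw [inv_inv]
    show (ψ ((D.indRep (-D.w0 a)).dual g q)).1 = ρ g (ψ q).1
    rw [h1, sub_coe]
  · have h1 : ψ (evn D a) = ⟨c, hc⟩ := by
      apply hsep
      intro f
      rw [hψ, hθe]
    show (ψ (evn D a)).1 = c
    rw [h1]

omit [Infinite k] in
/-- comparison of weights -/
private lemma wl_pair {b d e : X} {q : Module.Dual k (D.Ind b)} {F : D.Ind b}
    (hq : D.IsWt (D.indRep b).dual d q) (hF : D.IsWt (D.indRep b) e F) (h : q F ≠ 0) :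
    e = -d := by
  apply D.chi_inj
  apply MonoidHom.ext
  intro z
  have h1 : q (D.indRep b (D.t z)⁻¹ F) = (D.chi d z : k) * q F :=
    congrArg (fun f : Module.Dual k (D.Ind b) => f F) (hq z)
  have h2 : D.indRep b (D.t z)⁻¹ F = (((D.chi e z)⁻¹ : kˣ) : k) • F := by
    have h3 := hF z⁻¹
    rw [map_inv D.t, map_inv (D.chi e)] at h3
    exact h3
  rw [h2, map_smul, smul_eq_mul] at h1
  have h3 := mul_right_cancel₀ h h1
  have h4 : (D.chi e z)⁻¹ = D.chi d z := Units.ext h3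
  rw [chi_neg, ← h4, inv_inv]

omit [Infinite k] in
private lemma wl_rep_ne {V : Type*} [AddCommGroup V] [Module k V] {ρ : Representation k Γ V}
    {v : V} (hv : v ≠ 0) (g : Γ) : ρ g v ≠ 0 := by
  intro h0
  apply hv
  rw [← inv_apply_self ρ g v, h0, map_zero]

omit [Infinite k] in
private lemma wl_n0_wt {V : Type*} [AddCommGroup V] [Module k V] {ρ : Representation k Γ V}
    {e : X} {v : V} (h : D.IsWt ρ e v) : D.IsWt ρ (D.w0 e) (ρ D.n0 v) := by
  obtain ⟨s, hs⟩ := D.n0_t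
  intro z
  rw [← mul_apply', (hs z).1, mul_apply', h (s z), map_smul, (hs z).2]

omit [Infinite k] in
private lemma wl_w0_neg (hN : Nz D) (x : X) : D.w0 (-x) = -D.w0 x := by
  have h0 : D.w0 0 = 0 := by
    have h1 := hN.add 0 0
    rw [add_zero] at h1
    exact left_eq_add.1 h1
  have h1 := hN.add x (-x)
  rw [add_neg_cancel, h0] at h1
  exact (neg_eq_of_add_eq_zero_right h1.symm).symm

theorem wl_top (hfd : D.Fd) (hN : Nz D) {a d : X} {q : Module.Dual k (D.Ind (-D.w0 a))}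
    (hq : D.IsWt (D.indRep (-D.w0 a)).dual d q) (h0 : q ≠ 0) : D.Le d a := by
  obtain ⟨F0, hF0⟩ : ∃ F, q F ≠ 0 := by
    by_contra hcon
    push Not at hcon
    exact h0 (LinearMap.ext hcon)
  obtain ⟨s, _, hs⟩ := sum_wt (isRational_ind D (-D.w0 a)) F0
  rw [hs, map_sum] at hF0
  obtain ⟨e, _, he⟩ := Finset.exists_ne_zero_of_sum_ne_zero hF0
  have hF := wt_isWt (isRational_ind D (-D.w0 a)) e F0
  have hed := wl_pair hq hF he
  have hFne : wt (isRational_ind D (-D.w0 a)) e F0 ≠ 0 := by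
    intro h
    rw [h, map_zero] at he
    exact he rfl
  have h1 := ind_wt (wl_n0_wt hF) (wl_rep_ne hFne D.n0)
  have hcl : ∀ x ∈ AddSubmonoid.closure (Set.range D.root),
      -D.w0 x ∈ AddSubmonoid.closure (Set.range D.root) := by
    intro x hx
    induction hx using AddSubmonoid.closure_induction with
    | mem x hx =>
      obtain ⟨i, rfl⟩ := hx
      obtain ⟨j, hj⟩ := hN.root i
      rw [hj, neg_neg]
      exact AddSubmonoid.subset_closure ⟨j, rfl⟩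
    | zero =>
      have h2 := wl_w0_neg hN 0
      rw [neg_zero] at h2
      rw [← h2]
      have h3 := hN.add 0 0
      rw [add_zero] at h3
      rw [left_eq_add.1 h3]
      exact zero_mem _
    | add x y _ _ hx hy =>
      rw [hN.add, neg_add]
      exact add_mem hx hy
  unfold Le at h1 ⊢
  rw [hed, wl_w0_neg hN] at h1
  have h2 : -D.w0 a - -D.w0 d = -D.w0 (a - d) := by
    rw [sub_eq_add_neg a d, hN.add, wl_w0_neg hN]
    abel
  rw [h2] at h1
  have h3 := hcl _ h1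
  rwa [wl_w0_neg hN, neg_neg, hN.w0] at h3

private lemma wl_F0 (hN : Nz D) {a : X} (ha : D.dom a = a) : ∃ v : D.Ind (-D.w0 a),
    D.IsWt (D.indRep (-D.w0 a)) (-D.w0 a) v ∧ v.1 1 = 1 := by
  obtain ⟨F, hF, hF0⟩ := hN.ne _ (hN.dom a ha)
  obtain ⟨v, h1, _, h2⟩ := ind_exists (H := (⟨F, hF⟩ : D.Ind (-D.w0 a)))
    (fun h => hF0 (congrArg Subtype.val h))
  exact ⟨v, h1, h2⟩

theorem wl_one (hfd : D.Fd) (hN : Nz D) {a : X} (ha : D.dom a = a)
    {q : Module.Dual k (D.Ind (-D.w0 a))} (hq : D.IsWt (D.indRep (-D.w0 a)).dual a q) :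
    ∃ r : k, q = r • evn D a := by
  obtain ⟨v, hv, hv1⟩ := wl_F0 hN ha
  refine ⟨q (D.indRep (-D.w0 a) D.n0⁻¹ v), LinearMap.ext fun F => ?_⟩
  show q F = q (D.indRep (-D.w0 a) D.n0⁻¹ v) * evn D a F
  have key : ∀ e F, D.IsWt (D.indRep (-D.w0 a)) e F →
      q F = q (D.indRep (-D.w0 a) D.n0⁻¹ v) * evn D a F := by
    intro e F hF
    by_cases he : e = -a
    · have h1 := wl_n0_wt hF
      rw [he, wl_w0_neg hN] at h1
      have h2 := ind_top hv h1
      rw [hv1, one_smul, indRep_apply, mul_one] at h2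
      have h3 : F = F.1 D.n0⁻¹ • D.indRep (-D.w0 a) D.n0⁻¹ v := by
        rw [← map_smul, ← h2, inv_apply_self]
      have h4 : q F = q (F.1 D.n0⁻¹ • D.indRep (-D.w0 a) D.n0⁻¹ v) := congrArg q h3
      rw [h4, map_smul, smul_eq_mul, mul_comm]
      rfl
    · have h1 : q F = 0 := by
        by_contra hne
        exact he (wl_pair hq hF hne)
      have h2 : evn D a F = 0 := by
        by_contra hne
        exact he (wl_pair (evn_isWt a) hF hne)
      rw [h1, h2, mul_zero]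
  obtain ⟨s, _, hs⟩ := sum_wt (isRational_ind D (-D.w0 a)) F
  rw [hs, map_sum, map_sum, Finset.mul_sum]
  exact Finset.sum_congr rfl fun e _ => key e _ (wt_isWt _ e F)

theorem evn_ne (hN : Nz D) {a : X} (ha : D.dom a = a) : evn D a ≠ 0 := by
  obtain ⟨v, hv, hv1⟩ := wl_F0 hN ha
  intro h
  have h1 : evn D a (D.indRep (-D.w0 a) D.n0⁻¹ v) = 0 := by
    rw [h]
    rfl
  have h2 : evn D a (D.indRep (-D.w0 a) D.n0⁻¹ v) = v.1 ((D.n0⁻¹)⁻¹ * D.n0⁻¹) := rfl
  rw [h2, inv_mul_cancel, hv1] at h1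
  exact one_ne_zero h1

end

section

variable {k : Type u} [Field k] [Infinite k] {Γ : Type u} [Group Γ] {T X : Type*} [CommGroup T]
  [AddCommGroup X] {D : PG k Γ T X}

/-- the Weyl module as a highest weight module -/
theorem wl_HW (hfd : D.Fd) (hN : Nz D) {a : X} (ha : D.dom a = a) :
    ∃ xi : Module.Dual k (D.Ind (-D.w0 a)) →ₗ[k] k,
      HW D ⟨Module.Dual k (D.Ind (-D.w0 a)), (D.indRep (-D.w0 a)).dual, evn D a, xi⟩ a := by
  have : Module.Finite k (D.Ind (-D.w0 a)) := hfd _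
  exact exists_HW (isRational_dual (isRational_ind D (-D.w0 a))) (evn_isWt a) (evn_ne hN ha)
    (fun c x hx h0 => wl_top hfd hN hx h0) (fun x hx => wl_one hfd hN ha hx)

theorem wl_dual_good (hfd : D.Fd) (a : X)
    (h : D.IsRational (D.indRep (-D.w0 a)).dual.dual) : GoodIn h ⊤ := by
  have : Module.Finite k (D.Ind (-D.w0 a)) := hfd _
  refine GoodIn.equiv (isRational_ind D (-D.w0 a)) h (Module.evalEquiv k (D.Ind (-D.w0 a)))
    (fun g F => ?_) (GoodIn.ind (-D.w0 a))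
  refine LinearMap.ext fun q => ?_
  show q (D.indRep (-D.w0 a) g F) = q (D.indRep (-D.w0 a) (g⁻¹)⁻¹ F)
  rw [inv_inv]

end

end PG

end Pool.Agent.TRN
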