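import Pool.Agent.TRN.Good

/-!
# TRN / IND: the structure of the induced modules

Let `H ∈ Ind a` be of weight `b` (as a vector of `indRep a`), `(ρ h H)(g) = H (h⁻¹ g)`.
* Evaluation at `1`: `H (t z)⁻¹ = χ_b(z) H 1` and `H ((t z)⁻¹) = χ_a(z) H 1`, so `H 1 = 0` unless
  `b = a` (`ind_ev`). For arbitrary `H`: `H 1 = (wt a H) 1`.
* `ind_wt`: if `H ≠ 0` has weight `b` then `Le b a`: by density of `U T Um` (`D.cell`) and
  `H (u t v) = χ_a(t)⁻¹ H u` (`Um` is normalised by the torus) there is `u ∈ U` with `H u ≠ 0`;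
  `H u = (ρ u⁻¹ H) 1`, so `wt a (ρ u⁻¹ H) ≠ 0` and `wt_U` gives `Le b a`.
* If `H ∈ Ind a` has weight `a` then it is `U`-invariant (`IsU.of_weights` and `ind_wt`), so
  `H u = H 1` for `u ∈ U` and `H` is determined by `H 1` (`D.cell`): `ind_top`.
* A nonzero `U`-invariant `H` of weight `b` has `H 1 ≠ 0` (otherwise it vanishes on the cell), so
  `b = a`: `ind_U`.
* `ind_dom`: `Ind a ≠ 0` implies `dom a = a`: some nonzero weight vector `H` has weight `b`, `H u ≠ 0`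
  for some `u`, so `wt a (ρ u⁻¹ H) ≠ 0`, `a` is a weight, hence `dom a` is a weight (`exists_weyl`),
  `Le (dom a) a`.
* `GoodIn.ind`: `v ∈ Ind b` `U`-invariant of weight `a`, `v ≠ 0`: `a = b` (`ind_U`). For `F ∈ Ind a`
  take `w = v(1) F`: `wt a (ρ g⁻¹ F)` is the vector of weight `a` with value `(ρ g⁻¹ F)(1) = F g` at
  `1`, i.e. `(F g / v 1) v` (`ind_top`). All weights `c` of `Ind a` have `Le (dom c) a`.
-/

set_option autoImplicit false

namespace Pool.Agent.TRN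

open Finset TensorProduct

namespace PG

variable {k Γ T X : Type*} [Field k] [Infinite k] [Group Γ] [CommGroup T] [AddCommGroup X]
  {D : PG k Γ T X} {V W : Type*} [AddCommGroup V] [Module k V] [AddCommGroup W] [Module k W]
  {ρ : Representation k Γ V} {σ : Representation k Γ W}

private lemma ind_inv {a : X} (H : D.Ind a) (z : T) : H.1 (D.t z)⁻¹ = (D.chi a z : k) * H.1 1 := by
  have h := H.2.2 1 1 (D.Um.one_mem) z⁻¹
  rw [one_mul, one_mul, map_inv, map_inv, inv_inv] at h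
  exact h

private lemma ind_one {a : X} (g : Γ) (H : D.Ind a) : (D.indRep a g⁻¹ H).1 1 = H.1 g := by
  rw [indRep_apply, inv_inv, mul_one]

lemma ind_ev {a b : X} (H : D.Ind a) (h : D.IsWt (D.indRep a) b H) (hb : b ≠ a) : H.1 1 = 0 := by
  by_contra hne
  apply hb
  apply D.chi_inj
  ext z
  have h1 := congrArg (fun F : D.Ind a => F.1 1) (h z)
  beta_reduce at h1
  rw [indRep_apply, mul_one, ind_inv] at h1
  have h2 : (D.chi a z : k) * H.1 1 = (D.chi b z : k) * H.1 1 := h1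
  exact (mul_right_cancel₀ hne h2).symm

lemma ind_ev_wt {a : X} (H : D.Ind a) : (wt (isRational_ind D a) a H).1 1 = H.1 1 := by
  obtain ⟨s, hs1, hs2⟩ := sum_wt (isRational_ind D a) H
  have h1 := congrArg (fun F : D.Ind a => F.1 1) hs2
  beta_reduce at h1
  rw [Submodule.coe_sum, Finset.sum_apply] at h1
  rw [h1]
  symm
  apply Finset.sum_eq_single
  · intro b _ hb
    exact ind_ev _ (wt_isWt _ b H) hb
  · intro ha
    rw [hs1 a ha]
    rfl

private lemma ind_cell {a : X} {H : D.Ind a} (h : ∀ u ∈ D.U, H.1 u = 0) : H = 0 := by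
  apply Subtype.ext
  apply D.cell H.1 H.2.1
  intro u hu z v hv
  have h1 := H.2.2 u (D.t z * v * (D.t z)⁻¹) (t_Um hv z) z
  have h2 : u * (D.t z * v * (D.t z)⁻¹ * D.t z) = u * D.t z * v := by group
  rw [h2, h u hu, mul_zero] at h1
  exact h1

private lemma ind_ne {a : X} {H : D.Ind a} (hH : H ≠ 0) : ∃ u ∈ D.U, H.1 u ≠ 0 := by
  by_contra hcon
  push Not at hcon
  exact hH (ind_cell hcon)

private lemma ind_top_ne {a : X} {H : D.Ind a} (hH : H ≠ 0) : ∃ u ∈ D.U,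
    (wt (isRational_ind D a) a (D.indRep a u H)).1 1 ≠ 0 := by
  obtain ⟨u, hu, h1⟩ := ind_ne hH
  refine ⟨u⁻¹, D.U.inv_mem hu, ?_⟩
  rw [ind_ev_wt, ind_one]
  exact h1

lemma ind_wt {a b : X} {H : D.Ind a} (h : D.IsWt (D.indRep a) b H) (hH : H ≠ 0) : D.Le b a := by
  obtain ⟨u, hu, h1⟩ := ind_top_ne hH
  refine (wt_U (isRational_ind D a) h hu).2 a ?_
  intro h0
  rw [h0] at h1
  exact h1 rfl

lemma ind_isU {a : X} {H : D.Ind a} (h : D.IsWt (D.indRep a) a H) : D.IsU (D.indRep a) H := by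
  refine IsU.of_weights (isRational_ind D a) (Y := ⊤) Stable.top ?_ Submodule.mem_top h
  intro b hab hb v _ hv
  by_contra hne
  exact hb (Le.antisymm D (ind_wt hv hne) hab)

private lemma isU_one {a : X} {H : D.Ind a} (h : D.IsU (D.indRep a) H) {u : Γ} (hu : u ∈ D.U) :
    H.1 u = H.1 1 := by
  rw [← ind_one u H, h _ (D.U.inv_mem hu)]

lemma ind_top {a : X} {H H' : D.Ind a} (h : D.IsWt (D.indRep a) a H)
    (h' : D.IsWt (D.indRep a) a H') : H.1 1 • H' = H'.1 1 • H := by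
  rw [← sub_eq_zero]
  have hw : D.IsWt (D.indRep a) a (H.1 1 • H' - H'.1 1 • H) := (h'.smul _).sub (h.smul _)
  apply ind_cell
  intro u hu
  rw [isU_one (ind_isU hw) hu]
  change H.1 1 * H'.1 1 - H'.1 1 * H.1 1 = 0
  ring

lemma ind_U {a b : X} {H : D.Ind a} (hU : D.IsU (D.indRep a) H) (h : D.IsWt (D.indRep a) b H)
    (hH : H ≠ 0) : b = a ∧ H.1 1 ≠ 0 := by
  have h1 : H.1 1 ≠ 0 := by
    intro h0
    apply hH
    apply ind_cell
    intro u hu
    rw [isU_one hU hu, h0]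
  refine ⟨?_, h1⟩
  by_contra hb
  exact h1 (ind_ev H h hb)

private lemma rep_ne {ρ : Representation k Γ V} {v : V} (hv : v ≠ 0) (g : Γ) : ρ g v ≠ 0 := by
  intro h0
  apply hv
  rw [← inv_apply_self ρ g v, h0, map_zero]

lemma ind_dom {a : X} {H : D.Ind a} (hH : H ≠ 0) : D.dom a = a := by
  obtain ⟨u, hu, h1⟩ := ind_top_ne hH
  have h2 : wt (isRational_ind D a) a (D.indRep a u H) ≠ 0 := by
    intro h0
    rw [h0] at h1
    exact h1 rfl
  obtain ⟨n, hn⟩ := exists_weyl D a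
  have h3 := hn (D.indRep a) _ (wt_isWt (isRational_ind D a) a (D.indRep a u H))
  exact Le.antisymm D (ind_wt h3 (rep_ne h2 n)) (le_dom' D a)

/-- a nonzero induced module contains a `U`-invariant of weight `a` with value `1` at `1` -/
lemma ind_exists {a : X} {H : D.Ind a} (hH : H ≠ 0) : ∃ H' : D.Ind a,
    D.IsWt (D.indRep a) a H' ∧ D.IsU (D.indRep a) H' ∧ H'.1 1 = 1 := by
  obtain ⟨u, hu, h1⟩ := ind_top_ne hH
  set v := wt (isRational_ind D a) a (D.indRep a u H) with hv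
  have h2 : D.IsWt (D.indRep a) a ((v.1 1)⁻¹ • v) := (wt_isWt _ _ _).smul _
  refine ⟨(v.1 1)⁻¹ • v, h2, ind_isU h2, ?_⟩
  change (v.1 1)⁻¹ * v.1 1 = 1
  exact inv_mul_cancel₀ h1

lemma ind_Opi (a : X) (H : D.Ind a) : H ∈ Opi (isRational_ind D a) (D.down a) := by
  rw [mem_Opi]
  intro g b hb
  by_contra hne
  apply hb
  obtain ⟨n, hn⟩ := exists_weyl D b
  have h3 := hn (D.indRep a) _ (wt_isWt (isRational_ind D a) b (D.indRep a g H))
  exact ⟨D.dom_dom b, ind_wt h3 (rep_ne hne n)⟩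

theorem GoodIn.ind (a : X) : GoodIn (isRational_ind D a) ⊤ := by
  intro b v _ hU hw F hF
  by_cases hv : v = 0
  · subst hv
    refine ⟨0, Submodule.mem_top, Submodule.zero_mem _, fun g => ?_⟩
    rw [map_zero, map_zero, smul_zero]
  obtain ⟨rfl, -⟩ := ind_U hU hw hv
  refine ⟨v.1 1 • ⟨F, hF⟩, Submodule.mem_top, ind_Opi _ _, fun g => ?_⟩
  rw [map_smul, map_smul]
  have h1 := ind_top (wt_isWt (isRational_ind D b) b (D.indRep b g⁻¹ ⟨F, hF⟩)) hw
  rw [ind_ev_wt, ind_one] at h1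
  exact h1.symm

/-- Frobenius reciprocity: a `Um`-invariant functional of weight `a` gives a map to `Ind a` -/
theorem exists_frob (hρ : D.IsRational ρ) {a : X} (ξ : V →ₗ[k] k)
    (h1 : ∀ u ∈ D.Um, ∀ v, ξ (ρ u v) = ξ v) (h2 : ∀ z v, ξ (ρ (D.t z) v) = D.chi a z * ξ v) :
    ∃ φ : V →ₗ[k] D.Ind a, IsEquiv ρ (D.indRep a) φ ∧ ∀ v g, (φ v).1 g = ξ (ρ g⁻¹ v) := by
  have hmem : ∀ v, (fun g => ξ (ρ g⁻¹ v)) ∈ D.Ind a := by
    intro v
    refine ⟨IsReg.apply (IsReg.comp_inv (hρ v)) ξ, fun g u hu z => ?_⟩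
    have e : (g * (u * D.t z))⁻¹ = D.t z⁻¹ * (u⁻¹ * g⁻¹) := by
      rw [map_inv]
      group
    beta_reduce
    rw [e, mul_apply', h2, mul_apply', h1 _ (D.Um.inv_mem hu), map_inv]
  refine ⟨{ toFun := fun v => ⟨fun g => ξ (ρ g⁻¹ v), hmem v⟩
            map_add' := fun x y => by
              apply Subtype.ext
              funext g
              change ξ (ρ g⁻¹ (x + y)) = ξ (ρ g⁻¹ x) + ξ (ρ g⁻¹ y)
              rw [map_add, map_add]
            map_smul' := fun c x => by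
              apply Subtype.ext
              funext g
              change ξ (ρ g⁻¹ (c • x)) = c • ξ (ρ g⁻¹ x)
              rw [map_smul, map_smul] }, ?_, fun _ _ => rfl⟩
  intro h v
  apply Subtype.ext
  funext g
  change ξ (ρ g⁻¹ (ρ h v)) = ξ (ρ (h⁻¹ * g)⁻¹ v)
  rw [← mul_apply', mul_inv_rev, inv_inv]

end PG

end Pool.Agent.TRN
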