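import Mathlib

/-!
# TRN: pinned groups, rational representations, good filtrations (definitions)

`PG k Γ T X` packages what we use about a connected reductive group `Γ` over an infinite field `k`
with a maximal torus `T`, weight lattice `X`, a choice of positive roots, and the longest element
`n0` of the Weyl group. The instances are `GL_n` and `SL_n` (files `Gl.lean`, `Sl.lean`).
-/

set_option autoImplicit false

namespace Pool.Agent.TRN

open Finset

/-- A pinned group. -/
structure PG (k Γ T X : Type*) [Field k] [Group Γ] [CommGroup T] [AddCommGroup X] where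
  /-- the regular functions -/
  A : Subalgebra k (Γ → k)
  comul : ∀ f ∈ A, ∃ (m : ℕ) (a b : Fin m → Γ → k), (∀ i, a i ∈ A) ∧ (∀ i, b i ∈ A) ∧
    ∀ g h, f (g * h) = ∑ i, a i g * b i h
  inv : ∀ f ∈ A, (fun g => f g⁻¹) ∈ A
  /-- the torus -/
  t : T →* Γ
  /-- the characters -/
  chi : X → T →* kˣ
  chi_add : ∀ a b z, chi (a + b) z = chi a z * chi b z
  chi_inj : Function.Injective chi
  t_reg : ∀ f ∈ A, ∃ (s : Finset X) (c : X → k), ∀ z, f (t z) = ∑ a ∈ s, c a * (chi a z : k)
  /-- the index set of the positive roots -/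
  R : Type
  root : R → X
  /-- the positive root subgroups -/
  x : R → k → Γ
  /-- the negative root subgroups -/
  y : R → k → Γ
  x_zero : ∀ i, x i 0 = 1
  y_zero : ∀ i, y i 0 = 1
  x_reg : ∀ f ∈ A, ∀ i, ∃ P : Polynomial k, ∀ c, f (x i c) = P.eval c
  y_reg : ∀ f ∈ A, ∀ i, ∃ P : Polynomial k, ∀ c, f (y i c) = P.eval c
  x_t : ∀ i z c, t z * x i c * (t z)⁻¹ = x i ((chi (root i) z : k) * c)
  y_t : ∀ i z c, t z * y i c * (t z)⁻¹ = y i ((chi (-root i) z : k) * c)
  /-- a height function -/
  ht : X →+ ℤ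
  ht_pos : ∀ i, 0 < ht (root i)
  /-- the dominant weight in the orbit of a weight -/
  dom : X → X
  dom_dom : ∀ a, dom (dom a) = dom a
  le_dom : ∀ a, dom a - a ∈ AddSubmonoid.closure (Set.range root)
  dom_fin : ∀ a, {b | dom b = b ∧ a - b ∈ AddSubmonoid.closure (Set.range root)}.Finite
  dom_zero : ∀ b, dom b = b → 0 - b ∈ AddSubmonoid.closure (Set.range root) → b = 0
  weyl : ∀ a, ∃ (n : Γ) (s : T ≃* T), ∀ z, t z * n = n * t (s z) ∧ chi a (s z) = chi (dom a) z
  /-- density of the big cell -/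
  cell : ∀ f ∈ A, (∀ u ∈ Subgroup.closure (⋃ i, Set.range (x i)), ∀ z,
    ∀ v ∈ Subgroup.closure (⋃ i, Set.range (y i)), f (u * t z * v) = 0) → f = 0
  /-- the longest element of the Weyl group -/
  n0 : Γ
  n0_x : ∀ i c, n0⁻¹ * x i c * n0 ∈ Subgroup.closure (⋃ i, Set.range (y i))
  n0_y : ∀ i c, n0⁻¹ * y i c * n0 ∈ Subgroup.closure (⋃ i, Set.range (x i))
  w0 : X → X
  n0_t : ∃ s : T ≃* T, ∀ z, t z * n0 = n0 * t (s z) ∧ ∀ a, chi a (s z) = chi (w0 a) z

namespace PG

variable {k Γ T X : Type*} [Field k] [Group Γ] [CommGroup T] [AddCommGroup X] (D : PG k Γ T X)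

/-- the unipotent radical of the Borel subgroup `B` of the positive roots -/
def U : Subgroup Γ := Subgroup.closure (⋃ i, Set.range (D.x i))

/-- the opposite unipotent radical -/
def Um : Subgroup Γ := Subgroup.closure (⋃ i, Set.range (D.y i))

/-- the order of the weights -/
def Le (a b : X) : Prop := b - a ∈ AddSubmonoid.closure (Set.range D.root)

/-- The induced module `Ind(a) = ind_{B⁻}^Γ(a)`: regular functions `F` with
`F (g b) = a(b)⁻¹ F g` for `b` in the group generated by the torus and the negative root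
subgroups. -/
def Ind (a : X) : Submodule k (Γ → k) where
  carrier := {F | F ∈ D.A ∧ ∀ g, ∀ u ∈ D.Um, ∀ z, F (g * (u * D.t z)) = ((D.chi a z)⁻¹ : kˣ) * F g}
  add_mem' := by
    rintro F F' ⟨h1, h2⟩ ⟨h1', h2'⟩
    refine ⟨D.A.add_mem h1 h1', fun g u hu z => ?_⟩
    rw [Pi.add_apply, Pi.add_apply, h2 g u hu z, h2' g u hu z, mul_add]
  zero_mem' := ⟨D.A.zero_mem, fun g u hu z => by simp⟩
  smul_mem' := by
    rintro c F ⟨h1, h2⟩
    refine ⟨D.A.smul_mem h1 c, fun g u hu z => ?_⟩
    rw [Pi.smul_apply, Pi.smul_apply, h2 g u hu z, smul_eq_mul, smul_eq_mul]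
    ring

lemma A_translate {f : Γ → k} (hf : f ∈ D.A) (h : Γ) : (fun g => f (h * g)) ∈ D.A := by
  obtain ⟨m, a, b, ha, hb, hab⟩ := D.comul f hf
  have : (fun g => f (h * g)) = ∑ i, a i h • b i := by
    funext g
    rw [hab, Finset.sum_apply]
    rfl
  rw [this]
  exact Subalgebra.sum_mem _ fun i _ => D.A.smul_mem (hb i) _

lemma Ind_translate {a : X} {F : Γ → k} (hF : F ∈ D.Ind a) (h : Γ) :
    (fun g => F (h * g)) ∈ D.Ind a := by
  refine ⟨D.A_translate hF.1 h, fun g u hu z => ?_⟩
  beta_reduce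
  rw [← mul_assoc, hF.2 _ u hu z]

/-- The action of the group on the induced module: `(h F) (g) = F (h⁻¹ g)`. -/
def indRep (a : X) : Representation k Γ (D.Ind a) where
  toFun h :=
    { toFun := fun F => ⟨fun g => F.1 (h⁻¹ * g), D.Ind_translate F.2 h⁻¹⟩
      map_add' := fun _ _ => rfl
      map_smul' := fun _ _ => rfl }
  map_one' := by
    apply LinearMap.ext
    intro F
    apply Subtype.ext
    funext g
    change F.1 (1⁻¹ * g) = F.1 g
    rw [inv_one, one_mul]
  map_mul' h h' := by
    apply LinearMap.ext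
    intro F
    apply Subtype.ext
    funext g
    change F.1 ((h * h')⁻¹ * g) = F.1 (h'⁻¹ * (h⁻¹ * g))
    rw [mul_inv_rev, mul_assoc]

lemma indRep_apply (a : X) (h : Γ) (F : D.Ind a) (g : Γ) :
    (D.indRep a h F).1 g = F.1 (h⁻¹ * g) := rfl

section rep

variable {V W : Type*} [AddCommGroup V] [Module k V] [AddCommGroup W] [Module k W]

/-- regular functions on the group with values in `V` -/
def IsReg (F : Γ → V) : Prop :=
  ∃ (m : ℕ) (f : Fin m → Γ → k) (w : Fin m → V), (∀ i, f i ∈ D.A) ∧ ∀ g, F g = ∑ i, f i g • w i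

/-- rational representations -/
def IsRational (ρ : Representation k Γ V) : Prop := ∀ v, D.IsReg (fun g => ρ g v)

/-- weight vectors -/
def IsWt (ρ : Representation k Γ V) (a : X) (v : V) : Prop :=
  ∀ z, ρ (D.t z) v = (D.chi a z : k) • v

/-- vectors invariant under the positive root subgroups -/
def IsU (ρ : Representation k Γ V) (v : V) : Prop := ∀ u ∈ D.U, ρ u v = v

end rep

end PG

section rep

variable {k Γ : Type*} [Field k] [Group Γ] {V W E : Type*} [AddCommGroup V] [Module k V]
  [AddCommGroup W] [Module k W] [AddCommGroup E] [Module k E]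

/-- stable subspaces -/
def Stable (ρ : Representation k Γ V) (X : Submodule k V) : Prop := ∀ g, ∀ v ∈ X, ρ g v ∈ X

/-- equivariant maps -/
def IsEquiv (ρ : Representation k Γ V) (σ : Representation k Γ W) (φ : V →ₗ[k] W) : Prop :=
  ∀ g v, φ (ρ g v) = σ g (φ v)

/-- `B / A` is isomorphic to the representation `τ`. -/
def IsLayer (τ : Representation k Γ E) (ρ : Representation k Γ V) (A B : Submodule k V) : Prop :=
  A ≤ B ∧ ∃ f : B →ₗ[k] E, Function.Surjective f ∧ (∀ x : B, f x = 0 ↔ (x : V) ∈ A) ∧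
    ∀ (g : Γ) (x y : B), (y : V) = ρ g x → f y = τ g (f x)

/-- action by algebra automorphisms -/
def IsMul {A : Type*} [CommRing A] [Algebra k A] (ρ : Representation k Γ A) : Prop :=
  ∀ g a b, ρ g (a * b) = ρ g a * ρ g b

/-- `(Γ, S)`-modules -/
def IsEquivModule {S M : Type*} [CommRing S] [Algebra k S] [AddCommGroup M] [Module k M]
    [Module S M] (σ : Representation k Γ S) (ρ : Representation k Γ M) : Prop :=
  ∀ g s m, ρ g (s • m) = σ g s • ρ g m

end rep

section filt

variable {k Γ T X : Type*} [Field k] [Group Γ] [CommGroup T] [AddCommGroup X] (D : PG k Γ T X)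
  {V : Type*} [AddCommGroup V] [Module k V]

/-- The subspace `Y` has an exhaustive ascending filtration by stable subspaces whose
subquotients are induced modules. -/
def GoodFilt (ρ : Representation k Γ V) (Y : Submodule k V) : Prop :=
  ∃ N : ℕ → Submodule k V, N 0 = ⊥ ∧ (∀ i, Stable ρ (N i)) ∧
    (∀ i, N i = N (i + 1) ∨ ∃ a, IsLayer (D.indRep a) ρ (N i) (N (i + 1))) ∧ ⨆ i, N i = Y

/-- The same for the duals of the induced modules. -/
def WeylFilt (ρ : Representation k Γ V) (Y : Submodule k V) : Prop :=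
  ∃ N : ℕ → Submodule k V, N 0 = ⊥ ∧ (∀ i, Stable ρ (N i)) ∧
    (∀ i, N i = N (i + 1) ∨ ∃ a, IsLayer (D.indRep a).dual ρ (N i) (N (i + 1))) ∧ ⨆ i, N i = Y

/-- all induced modules are finite dimensional -/
def PG.Fd : Prop := ∀ a, Module.Finite k (D.Ind a)

/-- Tilting modules. -/
structure IsTilting (ρ : Representation k Γ V) : Prop where
  finite : Module.Finite k V
  rational : D.IsRational ρ
  good : GoodFilt D ρ ⊤
  weyl : WeylFilt D ρ ⊤

end filt

end Pool.Agent.TRN
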