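import Pool.Agent.TRN.Wt

/-!
# TRN / ROOT: the action of the root subgroups on weight vectors

Let `k` be infinite, `ρ` rational, `v` of weight `a`. By `x_reg` and `comul` (`IsReg.indep`) there
are `v_j ∈ V` with `ρ (x i c) v = ∑_{j ≤ d} c^j v_j` for all `c` (`exists_poly_x`). From
`t z * x i c * (t z)⁻¹ = x i (χ(root i)(z) c)`:
`ρ (t z) ρ (x i c) v = χ_a(z) ρ (x i (χ(z) c)) v`; comparing coefficients of `c^j` (`k` infinite):
`v_j` has weight `a + j root i`; `c = 0`, `x_zero`: `v_0 = v`. Hence `wt b (ρ (x i c) v) ≠ 0` only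
for `b = a + j root i`, and `wt a (ρ (x i c) v) = v` (for `j ≥ 1`, `a + j root i ≠ a` since
`ht (root i) > 0`). The statements for `u ∈ U`, `u ∈ Um` follow by `Subgroup.closure_induction`
(for the inverse: `(x i c)⁻¹`: argue with sets `{u | ∀ a v, ...}`; for inverses use that the
operators `wt_b ρ(u) wt_a` form unitriangular matrices, or more simply prove first that
`(x i c)⁻¹` satisfies the same claim: `f (g⁻¹) ` is regular (`D.inv`), so
`ρ ((x i c)⁻¹) v = ∑ c^j v'_j` as well, and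
`t z (x i c)⁻¹ (t z)⁻¹ = (x i (χ(z) c))⁻¹`; use `Subgroup.closure_induction''` or
`Subgroup.exists_list_of_mem_closure`).

`IsU.of_weights`: if a stable subspace `Y` has no weights `b ≠ a` with `Le a b` then vectors of
weight `a` in `Y` are `U`-invariant.
-/

set_option autoImplicit false

namespace Pool.Agent.TRN

open Finset TensorProduct

namespace PG

/-! ### the order of the weights -/

section order

variable {k Γ T X : Type*} [Field k] [Group Γ] [CommGroup T] [AddCommGroup X] (D : PG k Γ T X)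

lemma Le.refl (a : X) : D.Le a a := by
  unfold Le
  rw [sub_self]
  exact AddSubmonoid.zero_mem _

lemma Le.trans {a b c : X} (h : D.Le a b) (h' : D.Le b c) : D.Le a c := by
  unfold Le at *
  have := AddSubmonoid.add_mem _ h h'
  rwa [show b - a + (c - b) = c - a by abel] at this

private lemma ht_closure {m : X} (h : m ∈ AddSubmonoid.closure (Set.range D.root)) :
    0 ≤ D.ht m ∧ (D.ht m = 0 → m = 0) := by
  induction h using AddSubmonoid.closure_induction with
  | mem x hx =>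
    obtain ⟨i, rfl⟩ := hx
    have := D.ht_pos i
    exact ⟨this.le, fun h => absurd h this.ne'⟩
  | zero => exact ⟨by rw [map_zero], fun _ => rfl⟩
  | add x y _ _ hx hy =>
    rw [map_add]
    refine ⟨add_nonneg hx.1 hy.1, fun h => ?_⟩
    have h1 : D.ht x = 0 := by
      have := hx.1
      have := hy.1
      omega
    have h2 : D.ht y = 0 := by
      have := hx.1
      have := hy.1
      omega
    rw [hx.2 h1, hy.2 h2, add_zero]

lemma Le.ht {a b : X} (h : D.Le a b) : D.ht a ≤ D.ht b ∧ (D.ht a = D.ht b → a = b) := by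
  obtain ⟨h1, h2⟩ := ht_closure D h
  rw [map_sub] at h1 h2
  refine ⟨by omega, fun h3 => ?_⟩
  have h4 := h2 (by omega)
  exact (sub_eq_zero.1 h4).symm

lemma Le.antisymm {a b : X} (h : D.Le a b) (h' : D.Le b a) : a = b :=
  (Le.ht D h).2 (le_antisymm (Le.ht D h).1 (Le.ht D h').1)

lemma Le.add {a b c d : X} (h : D.Le a b) (h' : D.Le c d) : D.Le (a + c) (b + d) := by
  unfold Le at *
  have := AddSubmonoid.add_mem _ h h'
  rwa [show b - a + (d - c) = b + d - (a + c) by abel] at this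

lemma le_dom' (a : X) : D.Le a (D.dom a) := D.le_dom a

/-- the dominant weights below `a` -/
def down (a : X) : Set X := {b | D.dom b = b ∧ D.Le b a}

/-- saturated sets of dominant weights -/
def Sat (π : Set X) : Prop :=
  (∀ a ∈ π, D.dom a = a) ∧ ∀ a ∈ π, ∀ b, D.dom b = b → D.Le b a → b ∈ π

lemma down_finite (a : X) : (D.down a).Finite := D.dom_fin a

lemma sat_down (a : X) : D.Sat (D.down a) :=
  ⟨fun _ hb => hb.1, fun _ hb c hc hcb => ⟨hc, Le.trans D hcb hb.2⟩⟩

lemma Sat.union {π π' : Set X} (h : D.Sat π) (h' : D.Sat π') : D.Sat (π ∪ π') := by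
  refine ⟨?_, ?_⟩
  · rintro a (ha | ha)
    · exact h.1 a ha
    · exact h'.1 a ha
  · rintro a (ha | ha) b hb hba
    · exact Or.inl (h.2 a ha b hb hba)
    · exact Or.inr (h'.2 a ha b hb hba)

lemma Sat.inter {π π' : Set X} (h : D.Sat π) (h' : D.Sat π') : D.Sat (π ∩ π') :=
  ⟨fun a ha => h.1 a ha.1, fun a ha b hb hba => ⟨h.2 a ha.1 b hb hba, h'.2 a ha.2 b hb hba⟩⟩

private lemma dom_zero' : D.dom 0 = 0 := by
  obtain ⟨n, s, hs⟩ := D.weyl 0
  apply D.chi_inj
  apply MonoidHom.ext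
  intro z
  rw [← (hs z).2, chi_zero, chi_zero]

lemma sat_zero : D.Sat {0} := by
  refine ⟨?_, ?_⟩
  · rintro a ha
    rw [Set.mem_singleton_iff] at ha
    rw [ha]
    exact dom_zero' D
  · intro a ha b hb hba
    rw [Set.mem_singleton_iff] at ha
    rw [ha] at hba
    exact D.dom_zero b hb hba

lemma sat_empty : D.Sat ∅ := ⟨fun _ h => absurd h (Set.notMem_empty _),
  fun _ h => absurd h (Set.notMem_empty _)⟩

/-- every finite set of weights is contained in the lower set of a finite saturated set -/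
lemma exists_sat (s : Finset X) : ∃ π : Set X, π.Finite ∧ D.Sat π ∧ ∀ a ∈ s, D.dom a ∈ π := by
  refine ⟨⋃ a ∈ s, D.down (D.dom a), ?_, ⟨?_, ?_⟩, ?_⟩
  · exact Set.Finite.biUnion s.finite_toSet fun a _ => D.down_finite _
  · intro b hb
    rw [Set.mem_iUnion₂] at hb
    obtain ⟨a, _, hb⟩ := hb
    exact hb.1
  · intro b hb c hc hcb
    rw [Set.mem_iUnion₂] at hb ⊢
    obtain ⟨a, ha, hb⟩ := hb
    exact ⟨a, ha, hc, Le.trans D hcb hb.2⟩
  · intro a ha
    rw [Set.mem_iUnion₂]
    exact ⟨a, ha, D.dom_dom a, Le.refl D _⟩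

/-- removing a maximal element outside of `π`: if `π ⊆ π'` are saturated, `π'` finite and
`π ≠ π'`, there is `a ∈ π' \ π`, maximal in `π'`, and `π' \ {a}` is saturated. (Take `a` of
maximal height in `π' \ π`.) -/
lemma Sat.exists_max {π π' : Set X} (h : D.Sat π) (h' : D.Sat π') (hf : π'.Finite) (hsub : π ⊆ π')
    (hne : π ≠ π') : ∃ a ∈ π', a ∉ π ∧ (∀ b ∈ π', D.Le a b → b = a) ∧ D.Sat (π' \ {a}) ∧
      π ⊆ π' \ {a} := by
  have hfin : (π' \ π).Finite := hf.subset Set.sdiff_subset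
  have hnon : (π' \ π).Nonempty := by
    by_contra hcon
    rw [Set.not_nonempty_iff_eq_empty, Set.sdiff_eq_empty] at hcon
    exact hne (Set.Subset.antisymm hsub hcon)
  obtain ⟨a, ⟨ha1, ha2⟩, hmax⟩ := hfin.exists_maximalFor D.ht _ hnon
  have hM : ∀ b ∈ π', D.Le a b → b = a := by
    intro b hb hab
    have hb' : b ∉ π := fun hbπ => ha2 (h.2 b hbπ a (h'.1 a ha1) hab)
    have h1 := Le.ht D hab
    have h2 : D.ht b ≤ D.ht a := hmax ⟨hb, hb'⟩ h1.1
    exact (h1.2 (le_antisymm h1.1 h2)).symm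
  refine ⟨a, ha1, ha2, hM, ⟨fun b hb => h'.1 b hb.1, ?_⟩, ?_⟩
  · rintro b ⟨hb, hb'⟩ c hc hcb
    refine ⟨h'.2 b hb c hc hcb, ?_⟩
    rintro hca
    rw [Set.mem_singleton_iff] at hca hb'
    rw [hca] at hcb
    exact hb' (hM b hb hcb)
  · intro b hb
    refine ⟨hsub hb, ?_⟩
    rw [Set.mem_singleton_iff]
    rintro rfl
    exact ha2 hb

end order

section root

variable {k Γ T X : Type*} [Field k] [Infinite k] [Group Γ] [CommGroup T] [AddCommGroup X]
  {D : PG k Γ T X} {V W : Type*} [AddCommGroup V] [Module k V] [AddCommGroup W] [Module k W]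
  {ρ : Representation k Γ V}

omit [Infinite k] in
private lemma chi_nsmul (a : X) (j : ℕ) (z : T) : D.chi (j • a) z = D.chi a z ^ j := by
  induction j with
  | zero => rw [zero_smul, pow_zero, chi_zero]
  | succ j ih => rw [succ_nsmul, D.chi_add, ih, pow_succ]

/-- vector valued polynomials which vanish everywhere -/
private lemma vpoly_zero {n : ℕ} {u : ℕ → V} (h : ∀ c : k, ∑ j ∈ range n, c ^ j • u j = 0) :
    ∀ j ∈ range n, u j = 0 := by
  intro j hj
  rw [← Module.forall_dual_apply_eq_zero_iff k]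
  intro ξ
  let P : Polynomial k := ∑ i ∈ range n, Polynomial.monomial i (ξ (u i))
  have hP : P = 0 := by
    apply Polynomial.funext
    intro c
    rw [Polynomial.eval_zero, Polynomial.eval_finsetSum]
    have h1 := congrArg ξ (h c)
    rw [map_sum, map_zero] at h1
    rw [← h1]
    refine Finset.sum_congr rfl fun i _ => ?_
    rw [Polynomial.eval_monomial, map_smul, smul_eq_mul, mul_comm]
  have h2 : P.coeff j = ξ (u j) := by
    rw [Polynomial.finsetSum_coeff]
    rw [Finset.sum_eq_single_of_mem j hj]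
    · exact Polynomial.coeff_monomial_same _ _
    · intro i _ hij
      exact Polynomial.coeff_monomial_of_ne _ (Ne.symm hij)
  rw [← h2, hP, Polynomial.coeff_zero]

/-- the general statement for one parameter subgroups normalised by the torus -/
private lemma exists_poly (hρ : D.IsRational ρ) {a : X} {v : V} (h : D.IsWt ρ a v) (b : X)
    (e : k → Γ) (e0 : e 0 = 1)
    (er : ∀ f ∈ D.A, ∃ P : Polynomial k, ∀ c, f (e c) = P.eval c)
    (et : ∀ z c, D.t z * e c * (D.t z)⁻¹ = e ((D.chi b z : k) * c)) :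
    ∃ (d : ℕ) (w : ℕ → V), (∀ c, ρ (e c) v = ∑ j ∈ range (d + 1), c ^ j • w j) ∧
      (∀ j, D.IsWt ρ (a + j • b) (w j)) ∧ w 0 = v := by
  obtain ⟨m, f, u, hf, hF⟩ := hρ v
  choose P hP using fun i => er (f i) (hf i)
  obtain ⟨d, hd⟩ : ∃ d : ℕ, ∀ i, (P i).natDegree ≤ d :=
    ⟨Finset.univ.sup fun i => (P i).natDegree, fun i =>
      Finset.le_sup (f := fun i => (P i).natDegree) (Finset.mem_univ i)⟩
  let w : ℕ → V := fun j => ∑ i, (P i).coeff j • u i
  have hw : ∀ c, ρ (e c) v = ∑ j ∈ range (d + 1), c ^ j • w j := by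
    intro c
    have h1 : ρ (e c) v = ∑ i, (P i).eval c • u i := by
      refine (hF (e c)).trans ?_
      exact Finset.sum_congr rfl fun i _ => by rw [hP]
    rw [h1]
    have h2 : ∀ i, (P i).eval c = ∑ j ∈ range (d + 1), (P i).coeff j * c ^ j := fun i =>
      Polynomial.eval_eq_sum_range' (Nat.lt_succ_of_le (hd i)) c
    have h3 : ∑ i, (P i).eval c • u i =
        ∑ i, ∑ j ∈ range (d + 1), c ^ j • ((P i).coeff j • u i) := by
      refine Finset.sum_congr rfl fun i _ => ?_
      rw [h2, Finset.sum_smul]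
      refine Finset.sum_congr rfl fun j _ => ?_
      rw [smul_smul, mul_comm]
    rw [h3, Finset.sum_comm]
    refine Finset.sum_congr rfl fun j _ => ?_
    rw [← Finset.smul_sum]
  have hw0 : ∀ j, d < j → w j = 0 := by
    intro j hj
    refine Finset.sum_eq_zero fun i _ => ?_
    rw [Polynomial.coeff_eq_zero_of_natDegree_lt (lt_of_le_of_lt (hd i) hj), zero_smul]
  refine ⟨d, w, hw, ?_, ?_⟩
  · intro j
    rcases lt_or_ge d j with hj | hj
    · rw [hw0 j hj]
      exact isWt_zero _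
    · intro z
      have h1 : ∀ c : k, ∑ j ∈ range (d + 1), c ^ j •
          (ρ (D.t z) (w j) - ((D.chi (a + j • b) z : kˣ) : k) • w j) = 0 := by
        intro c
        have h2 : ρ (D.t z) (ρ (e c) v) = (D.chi a z : k) • ρ (e ((D.chi b z : k) * c)) v := by
          have h3 : D.t z * e c = e ((D.chi b z : k) * c) * D.t z := by
            rw [← et]
            group
          rw [← mul_apply', h3, mul_apply', h z, map_smul]
        rw [hw, hw, map_sum] at h2
        rw [Finset.smul_sum] at h2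
        have h4 : ∑ j ∈ range (d + 1), c ^ j •
            (ρ (D.t z) (w j) - ((D.chi (a + j • b) z : kˣ) : k) • w j) =
            ∑ j ∈ range (d + 1), ρ (D.t z) (c ^ j • w j) -
            ∑ j ∈ range (d + 1), (D.chi a z : k) • (((D.chi b z : k) * c) ^ j • w j) := by
          rw [← Finset.sum_sub_distrib]
          refine Finset.sum_congr rfl fun i _ => ?_
          rw [smul_sub, map_smul, D.chi_add, chi_nsmul, smul_smul, smul_smul]
          congr 2
          push_cast
          ring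
        rw [h4, h2, sub_self]
      have h5 := vpoly_zero h1 j (Finset.mem_range.2 (Nat.lt_succ_of_le hj))
      exact sub_eq_zero.1 h5
  · have h1 := hw 0
    rw [e0, map_one, Module.End.one_apply, Finset.sum_range_succ'] at h1
    rw [Finset.sum_eq_zero, zero_add, pow_zero, one_smul] at h1
    · exact h1.symm
    · intro i _
      rw [zero_pow (Nat.succ_ne_zero i), zero_smul]

lemma exists_poly_x (hρ : D.IsRational ρ) {a : X} {v : V} (h : D.IsWt ρ a v) (i : D.R) :
    ∃ (d : ℕ) (w : ℕ → V), (∀ c, ρ (D.x i c) v = ∑ j ∈ range (d + 1), c ^ j • w j) ∧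
      (∀ j, D.IsWt ρ (a + j • D.root i) (w j)) ∧ w 0 = v :=
  exists_poly hρ h (D.root i) (D.x i) (D.x_zero i) (fun f hf => D.x_reg f hf i) (D.x_t i)

lemma exists_poly_y (hρ : D.IsRational ρ) {a : X} {v : V} (h : D.IsWt ρ a v) (i : D.R) :
    ∃ (d : ℕ) (w : ℕ → V), (∀ c, ρ (D.y i c) v = ∑ j ∈ range (d + 1), c ^ j • w j) ∧
      (∀ j, D.IsWt ρ (a - j • D.root i) (w j)) ∧ w 0 = v := by
  obtain ⟨d, w, h1, h2, h3⟩ := exists_poly hρ h (-D.root i) (D.y i) (D.y_zero i)
    (fun f hf => D.y_reg f hf i) (D.y_t i)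
  refine ⟨d, w, h1, fun j => ?_, h3⟩
  have := h2 j
  rwa [smul_neg, ← sub_eq_add_neg] at this

/-- the claim on the weights of `ρ u v` -/
private def Good (hρ : D.IsRational ρ) (R : X → X → Prop) (u : Γ) : Prop :=
  ∀ (a : X) (v : V), D.IsWt ρ a v →
    wt hρ a (ρ u v) = v ∧ ∀ b, wt hρ b (ρ u v) ≠ 0 → R a b

private lemma good_e (hρ : D.IsRational ρ) (R : X → X → Prop) (b : X) (hb : D.ht b ≠ 0)
    (hR : ∀ a (j : ℕ), R a (a + j • b)) (e : k → Γ) (e0 : e 0 = 1)
    (er : ∀ f ∈ D.A, ∃ P : Polynomial k, ∀ c, f (e c) = P.eval c)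
    (et : ∀ z c, D.t z * e c * (D.t z)⁻¹ = e ((D.chi b z : k) * c)) (c : k) :
    Good hρ R (e c) := by
  intro a v h
  obtain ⟨d, w, h1, h2, h3⟩ := exists_poly hρ h b e e0 er et
  refine ⟨?_, ?_⟩
  · rw [h1, map_sum, Finset.sum_range_succ', Finset.sum_eq_zero, zero_add, pow_zero, one_smul, h3]
    · exact wt_self hρ h
    · intro j _
      rw [map_smul, wt_ne hρ (h2 (j + 1)), smul_zero]
      intro hcon
      have h4 : D.ht (a + (j + 1) • b) = D.ht a := by rw [hcon]
      rw [map_add, map_nsmul] at h4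
      have h5 : (j + 1) • D.ht b = 0 := by linarith
      rcases smul_eq_zero.1 h5 with h6 | h6
      · exact absurd h6 (Nat.succ_ne_zero j)
      · exact hb h6
  · intro b' hb'
    rw [h1, map_sum] at hb'
    obtain ⟨j, _, hj⟩ := Finset.exists_ne_zero_of_sum_ne_zero hb'
    rw [map_smul] at hj
    have h4 := IsWt.wt_zero_of_ne hρ (h2 j) (right_ne_zero_of_smul hj)
    rw [h4]
    exact hR a j

omit [Infinite k] in
private lemma good_one (hρ : D.IsRational ρ) (R : X → X → Prop) (hR : ∀ a, R a a) :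
    Good hρ R 1 := by
  intro a v h
  rw [map_one, Module.End.one_apply]
  refine ⟨wt_self hρ h, fun b hb => ?_⟩
  rw [IsWt.wt_zero_of_ne hρ h hb]
  exact hR a

omit [Infinite k] in
private lemma good_mul (hρ : D.IsRational ρ) (R : X → X → Prop)
    (hT : ∀ a b c, R a b → R b c → R a c) (hA : ∀ a b, R a b → R b a → a = b) {u u' : Γ}
    (hu : Good hρ R u) (hu' : Good hρ R u') : Good hρ R (u * u') := by
  intro a v h
  obtain ⟨s, hs0, hs⟩ := sum_wt hρ (ρ u' v)
  obtain ⟨h1, h2⟩ := hu' a v h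
  have key : ∀ c, wt hρ c (ρ (u * u') v) =
      ∑ b ∈ s, wt hρ c (ρ u (wt hρ b (ρ u' v))) := by
    intro c
    rw [mul_apply']
    conv_lhs => rw [hs]
    rw [map_sum, map_sum]
  refine ⟨?_, ?_⟩
  · rw [key]
    have h3 : ∀ b ∈ s, b ≠ a → wt hρ a (ρ u (wt hρ b (ρ u' v))) = 0 := by
      intro b _ hba
      by_contra hcon
      have h4 := (hu b _ (wt_isWt hρ b (ρ u' v))).2 a hcon
      have h5 : wt hρ b (ρ u' v) ≠ 0 := by
        intro h0
        rw [h0, map_zero, map_zero] at hcon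
        exact hcon rfl
      exact hba (hA b a h4 (h2 b h5))
    have h6 : wt hρ a (ρ u (wt hρ a (ρ u' v))) = v := by
      rw [h1]
      exact (hu a v h).1
    by_cases ha : a ∈ s
    · rw [Finset.sum_eq_single_of_mem a ha h3, h6]
    · rw [Finset.sum_eq_zero]
      · rw [← h1, hs0 a ha]
      · intro b hb
        exact h3 b hb (fun hcon => ha (hcon ▸ hb))
  · intro c hc
    rw [key] at hc
    obtain ⟨b, _, hb⟩ := Finset.exists_ne_zero_of_sum_ne_zero hc
    have h4 := (hu b _ (wt_isWt hρ b (ρ u' v))).2 c hb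
    have h5 : wt hρ b (ρ u' v) ≠ 0 := by
      intro h0
      rw [h0, map_zero, map_zero] at hb
      exact hb rfl
    exact hT a b c (h2 b h5) h4

private lemma inv_reg (e : k → Γ)
    (er : ∀ f ∈ D.A, ∃ P : Polynomial k, ∀ c, f (e c) = P.eval c) :
    ∀ f ∈ D.A, ∃ P : Polynomial k, ∀ c, f (e c)⁻¹ = P.eval c :=
  fun f hf => er _ (D.inv f hf)

private lemma inv_t (b : X) (e : k → Γ)
    (et : ∀ z c, D.t z * e c * (D.t z)⁻¹ = e ((D.chi b z : k) * c)) :
    ∀ z c, D.t z * (e c)⁻¹ * (D.t z)⁻¹ = (e ((D.chi b z : k) * c))⁻¹ := by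
  intro z c
  rw [← et]
  group

theorem wt_U (hρ : D.IsRational ρ) {a : X} {v : V} (h : D.IsWt ρ a v) {u : Γ} (hu : u ∈ D.U) :
    wt hρ a (ρ u v) = v ∧ ∀ b, wt hρ b (ρ u v) ≠ 0 → D.Le a b := by
  have hR : ∀ (i : D.R) a (j : ℕ), D.Le a (a + j • D.root i) := by
    intro i a j
    unfold Le
    rw [add_sub_cancel_left]
    exact AddSubmonoid.nsmul_mem _ (AddSubmonoid.subset_closure (Set.mem_range_self i)) j
  have key : Good hρ D.Le u := by
    induction hu using Subgroup.closure_induction'' with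
    | mem x hx =>
      obtain ⟨i, hx⟩ := Set.mem_iUnion.1 hx
      obtain ⟨c, rfl⟩ := hx
      exact good_e hρ D.Le (D.root i) (D.ht_pos i).ne' (hR i) (D.x i) (D.x_zero i)
        (fun f hf => D.x_reg f hf i) (D.x_t i) c
    | inv_mem x hx =>
      obtain ⟨i, hx⟩ := Set.mem_iUnion.1 hx
      obtain ⟨c, rfl⟩ := hx
      exact good_e hρ D.Le (D.root i) (D.ht_pos i).ne' (hR i) (fun c => (D.x i c)⁻¹)
        (by rw [D.x_zero, inv_one]) (inv_reg _ fun f hf => D.x_reg f hf i)
        (inv_t _ _ (D.x_t i)) c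
    | one => exact good_one hρ D.Le (fun a => Le.refl D a)
    | mul x y _ _ hx hy =>
      exact good_mul hρ D.Le (fun _ _ _ h h' => Le.trans D h h')
        (fun _ _ h h' => Le.antisymm D h h') hx hy
  exact key a v h

theorem wt_Um (hρ : D.IsRational ρ) {a : X} {v : V} (h : D.IsWt ρ a v) {u : Γ} (hu : u ∈ D.Um) :
    wt hρ a (ρ u v) = v ∧ ∀ b, wt hρ b (ρ u v) ≠ 0 → D.Le b a := by
  have hR : ∀ (i : D.R) a (j : ℕ), D.Le (a + j • (-D.root i)) a := by
    intro i a j
    unfold Le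
    have : a - (a + j • (-D.root i)) = j • D.root i := by
      rw [smul_neg]
      abel
    rw [this]
    exact AddSubmonoid.nsmul_mem _ (AddSubmonoid.subset_closure (Set.mem_range_self i)) j
  have hne : ∀ i : D.R, D.ht (-D.root i) ≠ 0 := by
    intro i
    rw [map_neg]
    have := D.ht_pos i
    omega
  have key : Good hρ (fun a b => D.Le b a) u := by
    induction hu using Subgroup.closure_induction'' with
    | mem x hx =>
      obtain ⟨i, hx⟩ := Set.mem_iUnion.1 hx
      obtain ⟨c, rfl⟩ := hx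
      exact good_e hρ (fun a b => D.Le b a) (-D.root i) (hne i) (hR i) (D.y i) (D.y_zero i)
        (fun f hf => D.y_reg f hf i) (D.y_t i) c
    | inv_mem x hx =>
      obtain ⟨i, hx⟩ := Set.mem_iUnion.1 hx
      obtain ⟨c, rfl⟩ := hx
      exact good_e hρ (fun a b => D.Le b a) (-D.root i) (hne i) (hR i) (fun c => (D.y i c)⁻¹)
        (by rw [D.y_zero, inv_one]) (inv_reg _ fun f hf => D.y_reg f hf i)
        (inv_t _ _ (D.y_t i)) c
    | one => exact good_one hρ (fun a b => D.Le b a) (fun a => Le.refl D a)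
    | mul x y _ _ hx hy =>
      exact good_mul hρ (fun a b => D.Le b a) (fun _ _ _ h h' => Le.trans D h' h)
        (fun _ _ h h' => Le.antisymm D h' h) hx hy
  exact key a v h

/-- the torus normalises `U` -/
lemma t_U {u : Γ} (hu : u ∈ D.U) (z : T) : D.t z * u * (D.t z)⁻¹ ∈ D.U := by
  induction hu using Subgroup.closure_induction with
  | mem x hx =>
    obtain ⟨i, hx⟩ := Set.mem_iUnion.1 hx
    obtain ⟨c, rfl⟩ := hx
    rw [D.x_t]
    exact Subgroup.subset_closure (Set.mem_iUnion.2 ⟨i, _, rfl⟩)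
  | one =>
    rw [mul_one, mul_inv_cancel]
    exact D.U.one_mem
  | mul x y _ _ hx hy =>
    have : D.t z * (x * y) * (D.t z)⁻¹ =
        (D.t z * x * (D.t z)⁻¹) * (D.t z * y * (D.t z)⁻¹) := by group
    rw [this]
    exact D.U.mul_mem hx hy
  | inv x _ hx =>
    have : D.t z * x⁻¹ * (D.t z)⁻¹ = (D.t z * x * (D.t z)⁻¹)⁻¹ := by group
    rw [this]
    exact D.U.inv_mem hx

lemma t_Um {u : Γ} (hu : u ∈ D.Um) (z : T) : D.t z * u * (D.t z)⁻¹ ∈ D.Um := by
  induction hu using Subgroup.closure_induction with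
  | mem x hx =>
    obtain ⟨i, hx⟩ := Set.mem_iUnion.1 hx
    obtain ⟨c, rfl⟩ := hx
    rw [D.y_t]
    exact Subgroup.subset_closure (Set.mem_iUnion.2 ⟨i, _, rfl⟩)
  | one =>
    rw [mul_one, mul_inv_cancel]
    exact D.Um.one_mem
  | mul x y _ _ hx hy =>
    have : D.t z * (x * y) * (D.t z)⁻¹ =
        (D.t z * x * (D.t z)⁻¹) * (D.t z * y * (D.t z)⁻¹) := by group
    rw [this]
    exact D.Um.mul_mem hx hy
  | inv x _ hx =>
    have : D.t z * x⁻¹ * (D.t z)⁻¹ = (D.t z * x * (D.t z)⁻¹)⁻¹ := by group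
    rw [this]
    exact D.Um.inv_mem hx

lemma n0_U {u : Γ} (hu : u ∈ D.U) : D.n0⁻¹ * u * D.n0 ∈ D.Um := by
  induction hu using Subgroup.closure_induction with
  | mem x hx =>
    obtain ⟨i, hx⟩ := Set.mem_iUnion.1 hx
    obtain ⟨c, rfl⟩ := hx
    exact D.n0_x i c
  | one =>
    rw [mul_one, inv_mul_cancel]
    exact D.Um.one_mem
  | mul x y _ _ hx hy =>
    have : D.n0⁻¹ * (x * y) * D.n0 = (D.n0⁻¹ * x * D.n0) * (D.n0⁻¹ * y * D.n0) := by group
    rw [this]
    exact D.Um.mul_mem hx hy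
  | inv x _ hx =>
    have : D.n0⁻¹ * x⁻¹ * D.n0 = (D.n0⁻¹ * x * D.n0)⁻¹ := by group
    rw [this]
    exact D.Um.inv_mem hx

lemma n0_Um {u : Γ} (hu : u ∈ D.Um) : D.n0⁻¹ * u * D.n0 ∈ D.U := by
  induction hu using Subgroup.closure_induction with
  | mem x hx =>
    obtain ⟨i, hx⟩ := Set.mem_iUnion.1 hx
    obtain ⟨c, rfl⟩ := hx
    exact D.n0_y i c
  | one =>
    rw [mul_one, inv_mul_cancel]
    exact D.U.one_mem
  | mul x y _ _ hx hy =>
    have : D.n0⁻¹ * (x * y) * D.n0 = (D.n0⁻¹ * x * D.n0) * (D.n0⁻¹ * y * D.n0) := by group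
    rw [this]
    exact D.U.mul_mem hx hy
  | inv x _ hx =>
    have : D.n0⁻¹ * x⁻¹ * D.n0 = (D.n0⁻¹ * x * D.n0)⁻¹ := by group
    rw [this]
    exact D.U.inv_mem hx

omit [Infinite k] in
/-- independence of the characters with coefficients in `V` -/
private lemma chi_indep {s : Finset X} {u : X → V}
    (h : ∀ z, ∑ a ∈ s, (D.chi a z : k) • u a = 0) : ∀ a ∈ s, u a = 0 := by
  intro a ha
  rw [← Module.forall_dual_apply_eq_zero_iff k]
  intro ξ
  have hinj : Function.Injective fun a : X => (Units.coeHom k).comp (D.chi a) := by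
    intro a b hab
    apply D.chi_inj
    apply MonoidHom.ext
    intro z
    exact Units.ext (DFunLike.congr_fun hab z)
  have h1 := (linearIndependent_monoidHom T k).comp _ hinj
  rw [linearIndependent_iff'] at h1
  refine h1 s (fun a => ξ (u a)) ?_ a ha
  funext z
  have h2 := congrArg ξ (h z)
  rw [map_sum, map_zero] at h2
  rw [Finset.sum_apply, Pi.zero_apply, ← h2]
  refine Finset.sum_congr rfl fun b _ => ?_
  rw [map_smul, smul_eq_mul, Pi.smul_apply, smul_eq_mul, mul_comm]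
  rfl

/-- weight components of `U`-invariants are `U`-invariant -/
lemma IsU.wt (hρ : D.IsRational ρ) {v : V} (h : D.IsU ρ v) (a : X) : D.IsU ρ (PG.wt hρ a v) := by
  intro u hu
  obtain ⟨s, hs0, hs⟩ := sum_wt hρ v
  by_cases ha : a ∈ s
  swap
  · rw [hs0 a ha, map_zero]
  have h1 : ∀ z, ρ (D.t z) v = ∑ b ∈ s, (D.chi b z : k) • PG.wt hρ b v := by
    intro z
    conv_lhs => rw [hs]
    rw [map_sum]
    exact Finset.sum_congr rfl fun b _ => wt_isWt hρ b v z
  have h2 : ∀ z, ∑ b ∈ s, (D.chi b z : k) • (ρ u (PG.wt hρ b v) - PG.wt hρ b v) = 0 := by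
    intro z
    have h3 : ρ u (ρ (D.t z) v) = ρ (D.t z) v := by
      have h4 : u * D.t z = D.t z * ((D.t z)⁻¹ * u * D.t z) := by group
      have h5 : (D.t z)⁻¹ * u * D.t z ∈ D.U := by
        have := t_U hu z⁻¹
        rwa [map_inv, inv_inv] at this
      rw [← mul_apply', h4, mul_apply', h _ h5]
    rw [h1, map_sum] at h3
    simp only [smul_sub, Finset.sum_sub_distrib]
    rw [sub_eq_zero, ← h3]
    exact Finset.sum_congr rfl fun b _ => by rw [map_smul]
  exact sub_eq_zero.1 (chi_indep h2 a ha)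

lemma IsU.of_weights (hρ : D.IsRational ρ) {Y : Submodule k V} (hY : Stable ρ Y) {a : X}
    (hw : ∀ b, D.Le a b → b ≠ a → ∀ v ∈ Y, D.IsWt ρ b v → v = 0) {v : V} (hv : v ∈ Y)
    (h : D.IsWt ρ a v) : D.IsU ρ v := by
  intro u hu
  obtain ⟨h1, h2⟩ := wt_U hρ h hu
  rw [← sub_eq_zero]
  apply eq_zero_of_wt hρ
  intro b
  rw [map_sub]
  by_cases hb : b = a
  · rw [hb, h1, wt_self hρ h, sub_self]
  · rw [wt_ne hρ h (Ne.symm hb), sub_zero]
    by_contra hcon
    exact hcon (hw b (h2 b hcon) hb _ (wt_mem hρ hY (hY u v hv) b) (wt_isWt hρ b _))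

/-- for every vector `v` all whose weights `b` are not `> a`: the component of weight `a` of
`ρ u v`, `u ∈ Um`, is that of `v` -/
lemma wt_Um_of_weights (hρ : D.IsRational ρ) {a : X} {v : V}
    (hw : ∀ b, D.Le a b → b ≠ a → wt hρ b v = 0) {u : Γ} (hu : u ∈ D.Um) :
    wt hρ a (ρ u v) = wt hρ a v := by
  obtain ⟨s, hs0, hs⟩ := sum_wt hρ v
  have key : wt hρ a (ρ u v) = ∑ b ∈ s, wt hρ a (ρ u (wt hρ b v)) := by
    conv_lhs => rw [hs]
    rw [map_sum, map_sum]
  have h3 : ∀ b ∈ s, b ≠ a → wt hρ a (ρ u (wt hρ b v)) = 0 := by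
    intro b _ hba
    by_contra hcon
    have h4 := (wt_Um hρ (wt_isWt hρ b v) hu).2 a hcon
    rw [hw b h4 hba, map_zero, map_zero] at hcon
    exact hcon rfl
  rw [key]
  by_cases ha : a ∈ s
  · rw [Finset.sum_eq_single_of_mem a ha h3]
    exact (wt_Um hρ (wt_isWt hρ a v) hu).1
  · rw [hs0 a ha]
    refine Finset.sum_eq_zero fun b hb => h3 b hb (fun hcon => ha (hcon ▸ hb))

/-- density of `Um T U` -/
lemma cell' {f : Γ → k} (hf : f ∈ D.A)
    (h : ∀ v ∈ D.Um, ∀ z, ∀ u ∈ D.U, f (v * D.t z * u) = 0) (g : Γ) : f g = 0 := by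
  have h1 : (fun g => f g⁻¹) = 0 := by
    refine D.cell _ (D.inv f hf) ?_
    intro u hu z v hv
    have h2 : (u * D.t z * v)⁻¹ = v⁻¹ * D.t z⁻¹ * u⁻¹ := by
      rw [map_inv]
      group
    show f (u * D.t z * v)⁻¹ = 0
    rw [h2]
    exact h _ (D.Um.inv_mem hv) _ _ (D.U.inv_mem hu)
  have h3 := congrFun h1 g⁻¹
  rw [Pi.zero_apply] at h3
  beta_reduce at h3
  rwa [inv_inv] at h3

/-- a vector fixed by `T`, `U` and `Um` is fixed by the group -/
lemma fixed_of (hρ : D.IsRational ρ) {v : V} (h0 : D.IsWt ρ 0 v) (hU : ∀ u ∈ D.U, ρ u v = v)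
    (hUm : ∀ u ∈ D.Um, ρ u v = v) (g : Γ) : ρ g v = v := by
  rw [← sub_eq_zero, ← Module.forall_dual_apply_eq_zero_iff k]
  intro ξ
  have h1 : D.IsReg (fun g => ρ g v - v) := by
    have := IsReg.add (hρ v) (IsReg.const (D := D) (-v))
    exact this.congr fun g => by rw [sub_eq_add_neg]
  refine cell' (h1.apply ξ) ?_ g
  intro u hu z w hw
  beta_reduce
  have h2 : ρ (u * D.t z * w) v = v := by
    rw [mul_apply', hU w hw, mul_apply', h0 z, chi_zero, Units.val_one, one_smul, hUm u hu]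
  rw [h2, sub_self, map_zero]

end root

end PG

end Pool.Agent.TRN
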