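import Pool.Agent.TRN.Wt

/-!
# TRN / HAB: geometric reductivity, the power form

`GeomRed D`: every finite-dimensional left stable space `E ∋ 1` of regular functions has a linear map
`Φ` to matrices, compatible with conjugation, with `Φ 1` not nilpotent.

`haboush`. Reference with the same argument for `SL₂`: `Pool/Agent/Helper4/TR/Haboush.lean` (last part).
If `a ∈ J` take `F = 0`, `q = 1`. Otherwise let `W` be a finite-dimensional stable subspace containing
`a`, contained in `k a + J` (`exists_finite` gives the smallest stable `Y ∋ a`, and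
`span{a} ⊔ J` is stable), `W = k a ⊕ (W ∩ J)`, `lam : W → k` with `lam a = 1`, `lam (W ∩ J) = 0`, which
is fixed by the group (`ρ g a - a ∈ J`). For `ξ ∈ W*` let `F_ξ(g) = ξ (ρ g a)`, a regular function;
`E = {F_ξ}` is a finite-dimensional subspace of `A`, `F_ξ (h⁻¹ g) = F_{ξ ∘ ρ h⁻¹}(g)`, so `E` is left
stable, and `F_lam = 1`. Take `Φ, τ` of `GeomRed`. Let `e_i` be a basis of `W` with `e_0 = a`,
`e_i ∈ J` for `i > 0` (or any basis), `N = ∑ e_i • Φ(F_{e_i*}) ∈ Mat(A)`
(`(Φ ..).map (algebraMap k A)`). Then `N` with the entries transformed by `ρ h` is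
`∑ ρ h e_i • Φ (F_{e_i*}) = ∑ e_i • Φ (F_{e_i* ∘ ρ h}) = (τ h)⁻¹ N (τ h)` and so the coefficients of
the characteristic polynomial of `N` are fixed by the group. Modulo `J`, `N ≡ a • Φ 1`. Let
`P = charpoly (Φ 1) = ∑ c_j X ^ j`, of degree `m`; `Φ 1` not nilpotent implies `P ≠ X ^ m`
(Cayley-Hamilton), so `c_j ≠ 0` for some `j < m`; the coefficient of `X ^ j` in `charpoly N` is
`≡ c_j a ^ (m - j)`. (For the scaling use `Matrix.charpolyRev`: `det (1 - X a Φ)`.)
-/

set_option autoImplicit false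

namespace Pool.Agent.TRN

open Finset TensorProduct

namespace PG

/-- geometric reductivity -/
def GeomRed {k Γ T X : Type*} [Field k] [Group Γ] [CommGroup T] [AddCommGroup X]
    (D : PG k Γ T X) : Prop :=
  ∀ E : Submodule k (Γ → k), Module.Finite k E → (∀ f ∈ E, f ∈ D.A) →
    (∀ h, ∀ f ∈ E, (fun g => f (h⁻¹ * g)) ∈ E) → (1 : Γ → k) ∈ E →
    ∃ (ι : Type) (_ : Fintype ι) (_ : DecidableEq ι) (Φ : (Γ → k) →ₗ[k] Matrix ι ι k)
      (τ : Γ → (Matrix ι ι k)ˣ),
      (∀ h, ∀ f ∈ E, Φ (fun g => f (h⁻¹ * g)) = τ h * Φ f * ((τ h)⁻¹ : (Matrix ι ι k)ˣ)) ∧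
      ¬ IsNilpotent (Φ 1)

variable {k Γ T X : Type*} [Field k] [Group Γ] [CommGroup T] [AddCommGroup X]
  {D : PG k Γ T X} {A : Type*} [CommRing A] [Algebra k A] {ρ : Representation k Γ A}

private lemma hb_coeff_smul {R ι : Type*} [CommRing R] [Fintype ι] [DecidableEq ι] (c : R)
    (M : Matrix ι ι R) (j : ℕ) (hj : j ≤ Fintype.card ι) :
    (c • M).charpoly.coeff (Fintype.card ι - j) =
      c ^ j * M.charpoly.coeff (Fintype.card ι - j) := by
  rw [Matrix.charpoly_coeff_eq_sum_minors _ _ hj, Matrix.charpoly_coeff_eq_sum_minors _ _ hj,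
    mul_left_comm]
  congr 1
  rw [Finset.mul_sum]
  refine Finset.sum_congr rfl fun s hs => ?_
  have h1 : s.card = j := (Finset.mem_powersetCard.1 hs).2
  have h2 : (c • M).submatrix (Subtype.val : s → ι) (Subtype.val : s → ι) =
      c • M.submatrix (Subtype.val : s → ι) (Subtype.val : s → ι) := rfl
  rw [h2, Matrix.det_smul, Fintype.card_coe, h1]

private lemma hb_exists_coeff {k ι : Type*} [Field k] [Fintype ι] [DecidableEq ι]
    (M : Matrix ι ι k) (hM : ¬ IsNilpotent M) :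
    ∃ j, 1 ≤ j ∧ j ≤ Fintype.card ι ∧ M.charpoly.coeff (Fintype.card ι - j) ≠ 0 := by
  by_contra hcon
  push Not at hcon
  apply hM
  have hP : M.charpoly = Polynomial.X ^ Fintype.card ι := by
    ext i
    rw [Polynomial.coeff_X_pow]
    split_ifs with h
    · have h1 := (M.charpoly_monic).coeff_natDegree
      rw [M.charpoly_natDegree_eq_dim] at h1
      rw [h]
      exact h1
    · rcases lt_or_gt_of_ne h with h1 | h1
      · have h2 := hcon (Fintype.card ι - i) (by omega) (by omega)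
        rw [show Fintype.card ι - (Fintype.card ι - i) = i by omega] at h2
        exact h2
      · apply Polynomial.coeff_eq_zero_of_natDegree_lt
        rw [M.charpoly_natDegree_eq_dim]
        exact h1
  refine ⟨Fintype.card ι, ?_⟩
  have h1 := Matrix.aeval_self_charpoly M
  rw [hP, map_pow, Polynomial.aeval_X] at h1
  exact h1

/-- the action by ring homomorphisms -/
private def hb_rh (ρ : Representation k Γ A) (hmul : IsMul ρ) (g : Γ) : A →+* A where
  toFun := ρ g
  map_one' := by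
    have h1 : ρ g (ρ g⁻¹ 1) = 1 := self_inv_apply ρ g 1
    have h2 := hmul g 1 (ρ g⁻¹ 1)
    rw [one_mul, h1, mul_one] at h2
    exact h2.symm
  map_mul' := hmul g
  map_zero' := map_zero _
  map_add' := map_add _

private lemma hb_rh_alg (ρ : Representation k Γ A) (hmul : IsMul ρ) (g : Γ) (c : k) :
    hb_rh ρ hmul g (algebraMap k A c) = algebraMap k A c := by
  rw [Algebra.algebraMap_eq_smul_one]
  change ρ g (c • (1 : A)) = c • (1 : A)
  rw [map_smul]
  congr 1
  exact (hb_rh ρ hmul g).map_one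

private lemma hb_sum {Y ι : Type*} [AddCommGroup Y] [Module k Y] {n : ℕ}
    (b : Module.Basis (Fin n) k Y) (Ψ : Module.Dual k Y →ₗ[k] Matrix ι ι k) (θ : Y →ₗ[k] A)
    (U : Y →ₗ[k] Y) :
    ∑ i, θ (U (b i)) • (Ψ (b.coord i)).map (algebraMap k A) =
      ∑ j, θ (b j) • (Ψ (b.coord j ∘ₗ U)).map (algebraMap k A) := by
  have h1 : ∀ i, θ (U (b i)) = ∑ j, b.coord j (U (b i)) • θ (b j) := by
    intro i
    conv_lhs => rw [← b.sum_repr (U (b i))]
    rw [map_sum]
    refine Finset.sum_congr rfl fun j _ => ?_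
    rw [map_smul]
    rfl
  have h2 : ∀ j, b.coord j ∘ₗ U = ∑ i, b.coord j (U (b i)) • b.coord i := by
    intro j
    exact (b.sum_dual_apply_smul_coord (b.coord j ∘ₗ U)).symm
  ext x y
  simp only [Matrix.sum_apply, Matrix.smul_apply, Matrix.map_apply, smul_eq_mul]
  have h3 : ∀ j, Ψ (b.coord j ∘ₗ U) x y = ∑ i, b.coord j (U (b i)) * Ψ (b.coord i) x y := by
    intro j
    rw [h2 j, map_sum, Matrix.sum_apply]
    refine Finset.sum_congr rfl fun i _ => ?_
    rw [map_smul, Matrix.smul_apply, smul_eq_mul]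
  simp only [h1, h3, map_sum, Finset.sum_mul, Finset.mul_sum]
  rw [Finset.sum_comm]
  refine Finset.sum_congr rfl fun j _ => Finset.sum_congr rfl fun i _ => ?_
  rw [map_mul, Algebra.smul_def]
  ring

theorem haboush (hG : GeomRed D) (hmul : IsMul ρ) (hρ : D.IsRational ρ) (J : Ideal A)
    (hJ : ∀ g, ∀ a ∈ J, ρ g a ∈ J) (a : A) (ha : ∀ g, ρ g a - a ∈ J) :
    ∃ q : ℕ, 1 ≤ q ∧ ∃ F : A, (∀ g, ρ g F = F) ∧ F - a ^ q ∈ J := by
  classical
  by_cases haJ : a ∈ J
  · refine ⟨1, le_rfl, 0, fun g => map_zero _, ?_⟩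
    rw [zero_sub, pow_one]
    exact J.neg_mem haJ
  obtain ⟨Y, hYs, hYf, hYa, hYm⟩ := exists_finite hρ {a}
  have haY : a ∈ Y := hYa a (by simp)
  -- the functional
  obtain ⟨lam, hlam1, hlam0⟩ : ∃ lam : A →ₗ[k] k, lam a = 1 ∧ ∀ x ∈ J, lam x = 0 := by
    have h1 : ¬ (∀ f : Module.Dual k (A ⧸ J.restrictScalars k),
        f ((J.restrictScalars k).mkQ a) = 0) := by
      intro h
      rw [Module.forall_dual_apply_eq_zero_iff] at h
      rw [Submodule.mkQ_apply, Submodule.Quotient.mk_eq_zero] at h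
      exact haJ h
    push Not at h1
    obtain ⟨f, hf⟩ := h1
    refine ⟨(f ((J.restrictScalars k).mkQ a))⁻¹ • (f ∘ₗ (J.restrictScalars k).mkQ), ?_, ?_⟩
    · rw [LinearMap.smul_apply, LinearMap.comp_apply, smul_eq_mul, inv_mul_cancel₀ hf]
    · intro x hx
      have h2 : (J.restrictScalars k).mkQ x = 0 := by
        rw [Submodule.mkQ_apply, Submodule.Quotient.mk_eq_zero]
        exact hx
      rw [LinearMap.smul_apply, LinearMap.comp_apply, h2, map_zero, smul_zero]
  have hZs : Stable ρ (Submodule.span k {a} ⊔ J.restrictScalars k) := by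
    intro g v hv
    obtain ⟨x, hx, y, hy, rfl⟩ := Submodule.mem_sup.1 hv
    obtain ⟨c, rfl⟩ := Submodule.mem_span_singleton.1 hx
    refine Submodule.mem_sup.2 ⟨c • a, Submodule.smul_mem _ _ (Submodule.mem_span_singleton_self a),
      c • (ρ g a - a) + ρ g y, ?_, ?_⟩
    · exact (J.restrictScalars k).add_mem ((J.restrictScalars k).smul_mem c (ha g)) (hJ g y hy)
    · rw [map_add, map_smul, smul_sub]
      abel
  have hYZ : ∀ y ∈ Y, y - lam y • a ∈ J := by
    intro y hy
    have h1 := hYm _ hZs (fun v hv => by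
      rw [Finset.mem_singleton] at hv
      rw [hv]
      exact Submodule.mem_sup_left (Submodule.mem_span_singleton_self a)) hy
    obtain ⟨x, hx, z, hz, rfl⟩ := Submodule.mem_sup.1 h1
    obtain ⟨c, rfl⟩ := Submodule.mem_span_singleton.1 hx
    rw [map_add, map_smul, hlam1, hlam0 z hz, smul_eq_mul, mul_one, add_zero,
      add_sub_cancel_left]
    exact hz
  have hYg : ∀ g, lam (ρ g a) = 1 := by
    intro g
    have h1 := hlam0 _ (ha g)
    rw [map_sub, hlam1, sub_eq_zero] at h1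
    exact h1
  -- the matrix coefficients
  obtain ⟨a', ha'⟩ : ∃ a' : Y, (a' : A) = a := ⟨⟨a, haY⟩, rfl⟩
  let ev : Module.Dual k Y →ₗ[k] (Γ → k) :=
    { toFun := fun ξ g => ξ (sub ρ hYs g a')
      map_add' := fun _ _ => rfl
      map_smul' := fun _ _ => rfl }
  have hev : ∀ ξ g, ev ξ g = ξ (sub ρ hYs g a') := fun _ _ => rfl
  have hevh : ∀ (ξ : Module.Dual k Y) (h : Γ), ev (ξ ∘ₗ sub ρ hYs h) = fun g => ev ξ (h * g) := by
    intro ξ h
    funext g
    rw [hev, hev, mul_apply']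
    rfl
  obtain ⟨ι, _, _, Φ, τ, hconj, hnil⟩ := hG (LinearMap.range ev) inferInstance
    (by
      rintro _ ⟨ξ, rfl⟩
      exact IsReg.apply (isRational_sub hρ hYs a') ξ)
    (by
      rintro h _ ⟨ξ, rfl⟩
      exact ⟨ξ ∘ₗ sub ρ hYs h⁻¹, hevh ξ h⁻¹⟩)
    (by
      refine ⟨lam ∘ₗ Y.subtype, ?_⟩
      funext g
      rw [hev, LinearMap.comp_apply, Submodule.subtype_apply, sub_coe, ha', hYg]
      rfl)
  have hconj' : ∀ (ξ : Module.Dual k Y) (h : Γ), (Φ ∘ₗ ev) (ξ ∘ₗ sub ρ hYs h) =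
      τ h⁻¹ * (Φ ∘ₗ ev) ξ * ((τ h⁻¹)⁻¹ : (Matrix ι ι k)ˣ) := by
    intro ξ h
    have h1 := hconj h⁻¹ (ev ξ) ⟨ξ, rfl⟩
    rw [inv_inv] at h1
    rw [LinearMap.comp_apply, LinearMap.comp_apply, hevh, h1]
  have hone : (Φ ∘ₗ ev) (lam ∘ₗ Y.subtype) = Φ 1 := by
    rw [LinearMap.comp_apply]
    congr 1
    funext g
    rw [hev, LinearMap.comp_apply, Submodule.subtype_apply, sub_coe, ha', hYg]
    rfl
  obtain ⟨Ψ, hΨ⟩ : ∃ Ψ : Module.Dual k Y →ₗ[k] Matrix ι ι k, Ψ = Φ ∘ₗ ev := ⟨_, rfl⟩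
  rw [← hΨ] at hone
  simp only [← hΨ] at hconj'
  let b := Module.finBasis k Y
  obtain ⟨N, hN⟩ : ∃ N : Matrix ι ι A,
      N = ∑ i, Y.subtype (b i) • (Ψ (b.coord i)).map (algebraMap k A) := ⟨_, rfl⟩
  obtain ⟨j, hj1, hj2, hj3⟩ := hb_exists_coeff (Φ 1) hnil
  -- invariance
  have hinv : ∀ h : Γ, ρ h (N.charpoly.coeff (Fintype.card ι - j)) =
      N.charpoly.coeff (Fintype.card ι - j) := by
    intro h
    have h1 : N.map (hb_rh ρ hmul h) =
        ∑ i, Y.subtype (sub ρ hYs h (b i)) • (Ψ (b.coord i)).map (algebraMap k A) := by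
      rw [hN]
      ext x y
      simp only [Matrix.map_apply, Matrix.sum_apply, Matrix.smul_apply, smul_eq_mul, map_sum,
        map_mul, hb_rh_alg]
      rfl
    have h2 : N.map (hb_rh ρ hmul h) =
        (Units.map ((algebraMap k A).mapMatrix : Matrix ι ι k →+* Matrix ι ι A).toMonoidHom
          (τ h⁻¹)).val * N * (Units.map
            ((algebraMap k A).mapMatrix : Matrix ι ι k →+* Matrix ι ι A).toMonoidHom
          (τ h⁻¹)).val⁻¹ := by
      rw [h1, hb_sum b Ψ Y.subtype (sub ρ hYs h), ← Matrix.coe_units_inv]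
      simp only [hconj']
      rw [hN, Finset.mul_sum, Finset.sum_mul]
      refine Finset.sum_congr rfl fun i _ => ?_
      rw [Matrix.mul_smul, Matrix.smul_mul]
      congr 1
      rw [Matrix.map_mul, Matrix.map_mul]
      rfl
    have h3 : (N.map (hb_rh ρ hmul h)).charpoly = N.charpoly := by
      rw [h2, Matrix.charpoly_units_conj]
    rw [Matrix.charpoly_map] at h3
    have h4 := congrArg (fun P => P.coeff (Fintype.card ι - j)) h3
    simp only [Polynomial.coeff_map] at h4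
    exact h4
  -- modulo `J`
  have hmod : N.map (Ideal.Quotient.mk J) =
      Ideal.Quotient.mk J a • (Φ 1).map (algebraMap k (A ⧸ J)) := by
    have h1 : ∀ y : Y, Ideal.Quotient.mk J (y : A) =
        algebraMap k (A ⧸ J) (lam y) * Ideal.Quotient.mk J a := by
      intro y
      have h2 := Ideal.Quotient.eq_zero_iff_mem.mpr (hYZ y y.2)
      rw [map_sub, sub_eq_zero] at h2
      rw [h2, Algebra.smul_def, map_mul]
      rfl
    have h3 : lam ∘ₗ Y.subtype = ∑ i, lam (b i) • b.coord i :=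
      (b.sum_dual_apply_smul_coord (lam ∘ₗ Y.subtype)).symm
    rw [← hone, h3, map_sum, hN]
    ext x y
    simp only [Matrix.map_apply, Matrix.sum_apply, Matrix.smul_apply, smul_eq_mul, map_sum,
      map_mul, map_smul, Submodule.subtype_apply, h1, Finset.mul_sum]
    refine Finset.sum_congr rfl fun i _ => ?_
    have h5 : Ideal.Quotient.mk J (algebraMap k A (Ψ (b.coord i) x y)) =
        algebraMap k (A ⧸ J) (Ψ (b.coord i) x y) := rfl
    rw [h5]
    ring
  refine ⟨j, hj1, ((Φ 1).charpoly.coeff (Fintype.card ι - j))⁻¹ •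
    N.charpoly.coeff (Fintype.card ι - j), ?_, ?_⟩
  · intro g
    rw [map_smul, hinv]
  · rw [← Ideal.Quotient.eq_zero_iff_mem, map_sub, map_pow, sub_eq_zero]
    have h1 : Ideal.Quotient.mk J (N.charpoly.coeff (Fintype.card ι - j)) =
        (Ideal.Quotient.mk J a) ^ j *
          algebraMap k (A ⧸ J) ((Φ 1).charpoly.coeff (Fintype.card ι - j)) := by
      have h2 : Ideal.Quotient.mk J (N.charpoly.coeff (Fintype.card ι - j)) =
          (N.map (Ideal.Quotient.mk J)).charpoly.coeff (Fintype.card ι - j) := by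
        rw [Matrix.charpoly_map, Polynomial.coeff_map]
      rw [h2, hmod, hb_coeff_smul _ _ _ hj2, Matrix.charpoly_map, Polynomial.coeff_map]
    rw [Algebra.smul_def, map_mul, h1]
    have h5 : Ideal.Quotient.mk J (algebraMap k A
        ((Φ 1).charpoly.coeff (Fintype.card ι - j))⁻¹) =
        algebraMap k (A ⧸ J) ((Φ 1).charpoly.coeff (Fintype.card ι - j))⁻¹ := rfl
    rw [h5, mul_left_comm, ← map_mul, inv_mul_cancel₀ hj3, map_one, mul_one]

end PG

end Pool.Agent.TRN
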