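import Pool.Agent.TRN.HasT
import Pool.Agent.TRN.Hab

/-!
# TRN / HASS: embeddings and geometric reductivity from Steinberg modules

`HasSt D`: for every finite-dimensional rational `V` there is a finite-dimensional representation `τ` of the abstract group on a space
`L ≠ 0` such that the conjugation representation `τ.linHom τ` on `L →ₗ[k] L` is rational (`τ` need not be) and `V ⊗ End L` is good.

* `hasEmb_of_st`: `i v = v ⊗ₜ LinearMap.id`; equivariant, as `(τ.linHom τ) g id = id`
  (`Representation.linHom_apply`); injective as `id ≠ 0`.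
* `geomRed_of_st`: let `E ∋ 1` be finite-dimensional, left stable, of regular functions. Let `ε` on `E` be
  `(ε h f)(g) = f (h⁻¹ g)`, rational (as in `isRational_ind`: comultiplication, `IsReg.sub`). `V = (E ⧸ k 1)*`
  with the dual of `quo`, `HasSt` gives `L, τ`; let `C = L →ₗ[k] L` with `γ = τ.linHom τ`. Let
  `M = E* ⊗ C` with `ε.dual.tprod γ`, and `φ : M → C`, `ξ ⊗ c ↦ ξ 1 • c`: equivariant (`ε h 1 = 1`), surjective (there is `ξ` with
  `ξ 1 = 1`). `j = (mkQ.dualMap) ⊗ id : V ⊗ C → M` is injective and equivariant with `range j = ker φ`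
  (`0 → V → E* → k → 0` is exact, tensor with `C`: `rTensor_exact`, `Module.Flat`). So `GoodIn (⊤ ⊓ ker φ)`
  (`GoodIn.map_inj`), `lift_inv` gives an invariant `m ∈ M` with `φ m = id`. Let `Ψ = dualTensorHom k E C m : E →ₗ C`;
  `Ψ 1 = id` and `Ψ (ε h f) = γ h (Ψ f)` (invariance of `m`: the map `dualTensorHom` is equivariant:
  `Ψ_{(ε.dual.tprod γ) h m} f = γ h (Ψ_m (ε h⁻¹ f))`, by induction on `m`). Extend `Ψ` to a linear map on `Γ → k`
  (`LinearMap.exists_extend`), let `b = Module.finBasis k L`, `Φ f = LinearMap.toMatrix b b (Ψ f)`,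
  `τ' h` the unit with the matrices of `τ h`, `τ h⁻¹`. `Φ 1 = 1` is not nilpotent (`L ≠ 0`, so `Fin (finrank L)` is not empty).
-/

set_option autoImplicit false

namespace Pool.Agent.TRN

open Finset TensorProduct

universe u

/-- Steinberg modules: `V ⊗ End L` is good -/
def HasSt {k : Type u} [Field k] [Infinite k] {Γ : Type u} [Group Γ] {T X : Type*} [CommGroup T]
    [AddCommGroup X] (D : PG k Γ T X) : Prop :=
  ∀ (V : Type u) [AddCommGroup V] [Module k V] (ρ : Representation k Γ V), Module.Finite k V →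
    ∀ hρ : D.IsRational ρ, ∃ (L : Type u) (_ : AddCommGroup L) (_ : Module k L)
      (τ : Representation k Γ L) (h : D.IsRational (τ.linHom τ)), Module.Finite k L ∧
      Nontrivial L ∧ PG.GoodIn (PG.isRational_tprod hρ h) ⊤

namespace PG

variable {k : Type u} [Field k] [Infinite k] {Γ : Type u} [Group Γ] {T X : Type*} [CommGroup T]
  [AddCommGroup X] {D : PG k Γ T X}

omit [Infinite k] [Group Γ] in
private lemma hs_ex {W : Type*} [AddCommGroup W] [Module k W] {w : W} (hw : w ≠ 0) :
    ∃ ξ : W →ₗ[k] k, ξ w = 1 := by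
  have h1 : ¬ (∀ f : Module.Dual k W, f w = 0) := by
    intro h
    rw [Module.forall_dual_apply_eq_zero_iff] at h
    exact hw h
  push Not at h1
  obtain ⟨f, hf⟩ := h1
  exact ⟨(f w)⁻¹ • f, by rw [LinearMap.smul_apply, smul_eq_mul, inv_mul_cancel₀ hf]⟩

omit [Infinite k] in
private lemma hs_id {L : Type u} [AddCommGroup L] [Module k L] (τ : Representation k Γ L) (g : Γ) :
    (τ.linHom τ) g LinearMap.id = LinearMap.id := by
  apply LinearMap.ext
  intro v
  rw [Representation.linHom_apply]
  exact self_inv_apply τ g v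

private lemma hs_id_ne {k : Type u} [Field k] {L : Type u} [AddCommGroup L] [Module k L]
    [Nontrivial L] : (LinearMap.id : L →ₗ[k] L) ≠ 0 := by
  intro h
  obtain ⟨v, hv⟩ := exists_ne (0 : L)
  exact hv (LinearMap.congr_fun h v)

theorem hasEmb_of_st (h : HasSt D) : HasEmb D := by
  intro V _ _ ρ hfin hρ
  obtain ⟨L, _, _, τ, hγ, hLf, hLn, hgood⟩ := h V ρ hfin hρ
  refine ⟨V ⊗[k] (L →ₗ[k] L), inferInstance, inferInstance, ρ.tprod (τ.linHom τ),
    isRational_tprod hρ hγ, (TensorProduct.mk k V (L →ₗ[k] L)).flip LinearMap.id, inferInstance,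
    ?_, ?_, hgood⟩
  · intro g v
    change ρ g v ⊗ₜ[k] LinearMap.id = (ρ.tprod (τ.linHom τ)) g (v ⊗ₜ[k] LinearMap.id)
    rw [Representation.tprod_apply, TensorProduct.map_tmul, hs_id]
  · obtain ⟨ξ, hξ⟩ := hs_ex (k := k) (hs_id_ne (k := k) (L := L))
    have h1 : ∀ v : V, TensorProduct.rid k V (TensorProduct.map LinearMap.id ξ
        ((TensorProduct.mk k V (L →ₗ[k] L)).flip LinearMap.id v)) = v := by
      intro v
      rw [LinearMap.flip_apply, TensorProduct.mk_apply, TensorProduct.map_tmul,
        TensorProduct.rid_tmul, hξ, one_smul]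
      rfl
    intro v w hvw
    rw [← h1 v, hvw, h1]

/-- the left regular representation on a stable space of functions -/
private def hsE (E : Submodule k (Γ → k)) (hE : ∀ h, ∀ f ∈ E, (fun g => f (h⁻¹ * g)) ∈ E) :
    Representation k Γ E where
  toFun h :=
    { toFun := fun f => ⟨fun g => f.1 (h⁻¹ * g), hE h f.1 f.2⟩
      map_add' := fun _ _ => rfl
      map_smul' := fun _ _ => rfl }
  map_one' := by
    apply LinearMap.ext
    intro F
    apply Subtype.ext
    funext g
    change F.1 (1⁻¹ * g) = F.1 g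
    rw [inv_one, one_mul]
  map_mul' h h' := by
    apply LinearMap.ext
    intro F
    apply Subtype.ext
    funext g
    change F.1 ((h * h')⁻¹ * g) = F.1 (h'⁻¹ * (h⁻¹ * g))
    rw [mul_inv_rev, mul_assoc]

omit [Infinite k] in
private lemma hsE_rat (E : Submodule k (Γ → k)) (hE : ∀ h, ∀ f ∈ E, (fun g => f (h⁻¹ * g)) ∈ E)
    (hA : ∀ f ∈ E, f ∈ D.A) : D.IsRational (hsE E hE) := by
  rintro ⟨F, hF⟩
  obtain ⟨m, c, b, hc, hb, hcb⟩ := D.comul F (hA F hF)
  have h1 : D.IsReg (fun h : Γ => (fun g => F (h⁻¹ * g) : Γ → k)) := by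
    refine ⟨m, fun i h => c i h⁻¹, b, fun i => D.inv _ (hc i), fun h => ?_⟩
    funext g
    beta_reduce
    rw [hcb, Finset.sum_apply]
    rfl
  exact h1.sub _ (fun h => rfl)

/-- the general form: an invariant tensor gives an equivariant map -/
private lemma hs_dth {k : Type*} [Field k] {Γ : Type*} [Group Γ] {E C : Type*} [AddCommGroup E]
    [Module k E] [AddCommGroup C] [Module k C] (ε : Representation k Γ E)
    (γ : Representation k Γ C) (g : Γ) (e' : Module.Dual k E ⊗[k] C) (x : E) :
    dualTensorHom k E C ((ε.dual.tprod γ) g e') x = γ g (dualTensorHom k E C e' (ε g⁻¹ x)) := by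
  induction e' using TensorProduct.induction_on with
  | zero =>
    rw [map_zero, map_zero]
    simp
  | tmul q y =>
    rw [Representation.tprod_apply, TensorProduct.map_tmul, dualTensorHom_apply,
      dualTensorHom_apply, map_smul]
    rfl
  | add a b ha hb =>
    rw [map_add, map_add, map_add, LinearMap.add_apply, LinearMap.add_apply, map_add, ha, hb]

omit [Infinite k] in
private lemma hs_seq {E : Type u} (C : Type u) [AddCommGroup E] [Module k E] [AddCommGroup C]
    [Module k C] (one : E) :
    LinearMap.range ((Submodule.span k {one}).mkQ.dualMap.rTensor C) =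
      LinearMap.ker ((TensorProduct.lid k C).toLinearMap ∘ₗ
        ((Module.Dual.eval k E one).rTensor C)) := by
  have h1 : Function.Exact (Submodule.span k {one}).mkQ.dualMap (Module.Dual.eval k E one) := by
    rw [LinearMap.exact_iff, Submodule.range_dualMap_mkQ_eq]
    ext ξ
    rw [LinearMap.mem_ker, Module.Dual.eval_apply, Submodule.mem_dualAnnihilator]
    constructor
    · intro h0 w hw
      obtain ⟨c, rfl⟩ := Submodule.mem_span_singleton.1 hw
      rw [map_smul, h0, smul_zero]
    · intro h0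
      exact h0 _ (Submodule.mem_span_singleton_self one)
  have h2 := Module.Flat.rTensor_exact C h1
  rw [LinearMap.exact_iff] at h2
  rw [← h2, LinearMap.ker_comp, LinearEquiv.ker]
  rfl

/-- the equivariant map -/
private lemma hs_main {E C : Type u} [AddCommGroup E] [Module k E] [Module.Finite k E]
    [AddCommGroup C] [Module k C] {ε : Representation k Γ E} (hεr : D.IsRational ε) {one : E}
    (hone0 : one ≠ 0) (hεone : ∀ g, ε g one = one) (hZ : Stable ε (Submodule.span k {one}))
    {γ : Representation k Γ C} (hγ : D.IsRational γ)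
    (hgood : GoodIn (isRational_tprod (isRational_dual (isRational_quo hεr hZ)) hγ) ⊤)
    (c₀ : C) (hc₀ : ∀ g, γ g c₀ = c₀) :
    ∃ Ψ : E →ₗ[k] C, Ψ one = c₀ ∧ ∀ (g : Γ) (f : E), Ψ (ε g f) = γ g (Ψ f) := by
  have hVr : D.IsRational (quo ε hZ).dual := isRational_dual (isRational_quo hεr hZ)
  have hdr : D.IsRational ε.dual := isRational_dual hεr
  set φ : Module.Dual k E ⊗[k] C →ₗ[k] C := (TensorProduct.lid k C).toLinearMap ∘ₗ
        ((Module.Dual.eval k E one).rTensor C) with hφ
  have hφt : ∀ (ξ : Module.Dual k E) (c : C), φ (ξ ⊗ₜ[k] c) = ξ one • c := by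
    intro ξ c
    rw [hφ, LinearMap.comp_apply, LinearMap.rTensor_tmul, Module.Dual.eval_apply]
    exact TensorProduct.lid_tmul _ _
  set j := (Submodule.span k {one}).mkQ.dualMap.rTensor C with hj
  have hφe : IsEquiv (V := Module.Dual k E ⊗[k] C) (ε.dual.tprod γ) γ φ := by
    intro g x
    induction x using TensorProduct.induction_on with
    | zero => rw [map_zero, map_zero, map_zero]
    | tmul ξ c =>
      rw [Representation.tprod_apply, TensorProduct.map_tmul, hφt, hφt, map_smul]
      congr 1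
      have h1 : (ε.dual g ξ) one = ξ (ε g⁻¹ one) := rfl
      rw [h1, hεone]
    | add a b ha hb => rw [map_add, map_add, map_add, map_add, ha, hb]
  have hje : IsEquiv (V := Module.Dual k (E ⧸ Submodule.span k {one}) ⊗[k] C)
      (W := Module.Dual k E ⊗[k] C) ((quo ε hZ).dual.tprod γ) (ε.dual.tprod γ) j := by
    intro g x
    induction x using TensorProduct.induction_on with
    | zero => rw [map_zero, map_zero, map_zero]
    | tmul ξ c =>
      rw [Representation.tprod_apply, TensorProduct.map_tmul, hj, LinearMap.rTensor_tmul,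
        LinearMap.rTensor_tmul, Representation.tprod_apply, TensorProduct.map_tmul]
      rfl
    | add a b ha hb => rw [map_add, map_add, map_add, map_add, ha, hb]
  have hji : Function.Injective j := by
    apply Module.Flat.rTensor_preserves_injective_linearMap
    exact LinearMap.dualMap_injective_of_surjective (Submodule.mkQ_surjective _)
  have hker : GoodIn (isRational_tprod hdr hγ) (⊤ ⊓ LinearMap.ker φ) := by
    have h1 := GoodIn.map_inj (isRational_tprod hVr hγ) (isRational_tprod hdr hγ) hje hji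
      Stable.top hgood
    rw [Submodule.map_top, hj, hs_seq] at h1
    rw [top_inf_eq]
    exact h1
  obtain ⟨ξ₁, hξ₁⟩ := hs_ex (k := k) hone0
  obtain ⟨m, -, hm, hmφ⟩ := lift_inv (isRational_tprod hdr hγ) hγ hφe Stable.top hker
    (c := c₀) ⟨ξ₁ ⊗ₜ[k] c₀, Submodule.mem_top, by
      rw [hφt, hξ₁, one_smul]⟩ hc₀
  refine ⟨dualTensorHom k E C m, ?_, ?_⟩
  · have h1 : ∀ x : Module.Dual k E ⊗[k] C, dualTensorHom k E C x one = φ x := by
      intro x
      induction x using TensorProduct.induction_on with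
      | zero => rw [map_zero, map_zero]; rfl
      | tmul ξ c => rw [dualTensorHom_apply, hφt]
      | add a b ha hb => rw [map_add, map_add, LinearMap.add_apply, ha, hb]
    rw [h1, hmφ]
  · intro g f
    have h1 := hs_dth ε γ g m (ε g f)
    rw [hm, inv_apply_self] at h1
    exact h1

theorem geomRed_of_st (h : HasSt D) : GeomRed D := by
  intro E hEf hEA hEh hE1
  have hεr : D.IsRational (hsE E hEh) := hsE_rat E hEh hEA
  obtain ⟨one, hone⟩ : ∃ one : E, one = ⟨1, hE1⟩ := ⟨_, rfl⟩
  have hone0 : one ≠ 0 := by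
    intro h0
    rw [hone] at h0
    have h1 := congrFun (congrArg Subtype.val h0) 1
    exact one_ne_zero h1
  have hεone : ∀ g, hsE E hEh g one = one := by
    intro g
    rw [hone]
    rfl
  have hZ : Stable (hsE E hEh) (Submodule.span k {one}) := by
    intro g v hv
    obtain ⟨c, rfl⟩ := Submodule.mem_span_singleton.1 hv
    rw [map_smul, hεone]
    exact Submodule.smul_mem _ _ (Submodule.mem_span_singleton_self one)
  obtain ⟨L, _, _, τ, hγ, hLf, hLn, hgood⟩ :=
    h (Module.Dual k (E ⧸ Submodule.span k {one})) (quo (hsE E hEh) hZ).dual inferInstance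
      (isRational_dual (isRational_quo hεr hZ))
  obtain ⟨Ψ, hΨ1, hΨe⟩ := hs_main hεr hone0 hεone hZ hγ hgood LinearMap.id (hs_id τ)
  obtain ⟨Ψ', hΨ'⟩ := LinearMap.exists_extend Ψ
  have hΨ'' : ∀ f : E, Ψ' (f : Γ → k) = Ψ f := fun f => LinearMap.congr_fun hΨ' f
  let b := Module.finBasis k L
  refine ⟨Fin (Module.finrank k L), inferInstance, inferInstance,
    (LinearMap.toMatrix b b).toLinearMap ∘ₗ Ψ', fun g => ⟨LinearMap.toMatrix b b (τ g),
      LinearMap.toMatrix b b (τ g⁻¹), ?_, ?_⟩, ?_, ?_⟩
  · rw [← LinearMap.toMatrix_mul, ← map_mul, mul_inv_cancel, map_one, LinearMap.toMatrix_one]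
  · rw [← LinearMap.toMatrix_mul, ← map_mul, inv_mul_cancel, map_one, LinearMap.toMatrix_one]
  · intro g f hf
    have h1 := hΨe g ⟨f, hf⟩
    rw [← hΨ'', ← hΨ''] at h1
    change LinearMap.toMatrix b b (Ψ' (fun g' => f (g⁻¹ * g'))) =
      LinearMap.toMatrix b b (τ g) * LinearMap.toMatrix b b (Ψ' f) *
        LinearMap.toMatrix b b (τ g⁻¹)
    have h2 : Ψ' (fun g' => f (g⁻¹ * g')) = τ g * (Ψ' f * τ g⁻¹) := h1
    rw [h2, LinearMap.toMatrix_mul, LinearMap.toMatrix_mul, mul_assoc]
  · have h1 : Ψ' 1 = LinearMap.id := by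
      have h2 := hΨ'' one
      rw [hΨ1, hone] at h2
      exact h2
    rw [LinearMap.comp_apply, h1]
    change ¬ IsNilpotent (LinearMap.toMatrix b b LinearMap.id)
    rw [LinearMap.toMatrix_id]
    have hpos : 0 < Module.finrank k L := Module.finrank_pos
    have : Nonempty (Fin (Module.finrank k L)) := ⟨⟨0, hpos⟩⟩
    rintro ⟨n, hn⟩
    rw [one_pow] at hn
    exact one_ne_zero hn

end PG

end Pool.Agent.TRN
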