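import Pool.Agent.TRN.InvFin
import Pool.Agent.TRN.Root

/-!
# TRN / FGU: `M ^ U` is finitely generated over `S ^ U`

`D.AU`: the regular functions `f` with `f (g u) = f g` for `u ∈ U`, an algebra with the left action
`(h f)(g) = f (h⁻¹ g)` of the group (rational by `comul`: `f (h⁻¹ g) = ∑ a_i(h⁻¹) b_i(g)`; the `b_i` can
be replaced by elements of `AU`: `IsReg.sub`). Assume `AU` is finitely generated (`hA`).

* `fg_RU`: let `R` be a finitely generated algebra with a rational action `τ` by automorphisms.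
  Then there is a finite set of `U`-invariants generating the algebra of all `U`-invariants. Proof:
  `AU ⊗ R` with the diagonal action is finitely generated and rational, so `fg_inv` gives finitely
  many invariants `F_j`, generating all invariants. The algebra map `ε : AU ⊗ R → R`,
  `f ⊗ r ↦ f(1) r`, maps invariants to `U`-invariants and every `U`-invariant `r` is the image of an
  invariant: the function `Ξ g = τ g r` is regular, `Ξ g = ∑ f_i(g) r_i` with `r_i` independent
  (`IsReg.indep`), `f_i ∈ AU` because `Ξ (g u) = Ξ g`, and `∑ f_i ⊗ r_i` is invariant because the map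
  `AU ⊗ R → (Γ → R)`, `f ⊗ y ↦ (g ↦ f g • y)` is injective and `τ h (Ξ (h⁻¹ g)) = Ξ g`. (Invariant
  elements correspond to `Ξ` with `Ξ g = τ g (Ξ 1)`.)
* `fg_U`: apply this to `R = TrivSqZeroExt S M` with the action `tsq`
  (`Pool/Agent/Helper18/TR/FgU.lean`, sections `Tsq` and the last theorem for the `Sᵐᵒᵖ`
  instances; copy with `Γ` instead of `G k`). Decompose the generators into their components in
  `S` and `M` and into weight components (`IsU.wt`): `R^U` is generated by finitely many weight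
  vectors `s_i ∈ S^U`, `m_l ∈ M^U` (`tsq`-weight vectors `inl s_i`, `inr m_l`). As `m_l m_l' = 0` every
  element of `M^U` is `∑ P_l(s) m_l`. If `v` has weight `a`, replace `P_l(s)` by its component of
  weight `a - d l` (the action of the torus on `S` is by automorphisms: `s_1 s_2` has weight
  `a_1 + a_2`; apply `wt a` to `v = ∑ c_l m_l` and `wt a (c • m_l) = wt (a - d l) c • m_l`).
-/

set_option autoImplicit false

set_option linter.unusedSectionVars false

namespace Pool.Agent.TRN

open Finset TensorProduct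

namespace PG

/-- the regular functions on `Γ / U` -/
def AU {k Γ T X : Type*} [Field k] [Group Γ] [CommGroup T] [AddCommGroup X] (D : PG k Γ T X) :
    Subalgebra k (Γ → k) where
  carrier := {f | f ∈ D.A ∧ ∀ g, ∀ u ∈ D.U, f (g * u) = f g}
  mul_mem' := by
    rintro f f' ⟨h1, h2⟩ ⟨h1', h2'⟩
    exact ⟨D.A.mul_mem h1 h1', fun g u hu => by rw [Pi.mul_apply, Pi.mul_apply, h2 g u hu, h2' g u hu]⟩
  add_mem' := by
    rintro f f' ⟨h1, h2⟩ ⟨h1', h2'⟩
    exact ⟨D.A.add_mem h1 h1', fun g u hu => by rw [Pi.add_apply, Pi.add_apply, h2 g u hu, h2' g u hu]⟩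
  algebraMap_mem' c := ⟨D.A.algebraMap_mem c, fun g u _ => rfl⟩

/-! ### the tensor product with `AU` -/

section AUsec

variable {k Γ T X : Type*} [Field k] [Group Γ] [CommGroup T] [AddCommGroup X]
  (D : PG k Γ T X)

/-- left translation on `AU` -/
def AUrep : Representation k Γ (AU D) where
  toFun h :=
    { toFun := fun f => ⟨fun g => f.1 (h⁻¹ * g), D.A_translate f.2.1 h⁻¹, fun g u hu => by
        have := f.2.2 (h⁻¹ * g) u hu
        rwa [mul_assoc] at this⟩
      map_add' := fun _ _ => rfl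
      map_smul' := fun _ _ => rfl }
  map_one' := by
    apply LinearMap.ext
    intro f
    apply Subtype.ext
    funext g
    change f.1 (1⁻¹ * g) = f.1 g
    rw [inv_one, one_mul]
  map_mul' h h' := by
    apply LinearMap.ext
    intro f
    apply Subtype.ext
    funext g
    change f.1 ((h * h')⁻¹ * g) = f.1 (h'⁻¹ * (h⁻¹ * g))
    rw [mul_inv_rev, mul_assoc]

lemma AUrep_apply (h : Γ) (f : AU D) (g : Γ) : (AUrep D h f).1 g = f.1 (h⁻¹ * g) := rfl

lemma AUrep_mul : IsMul (AUrep D) := fun _ _ _ => rfl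

lemma AUrep_rat : D.IsRational (AUrep D) := by
  intro f
  obtain ⟨m, a, b, ha, hb, hab⟩ := D.comul f.1 f.2.1
  have h1 : D.IsReg (fun h => (fun g => f.1 (h⁻¹ * g) : Γ → k)) := by
    refine ⟨m, fun i h => a i h⁻¹, b, fun i => D.inv _ (ha i), fun h => ?_⟩
    funext g
    show f.1 (h⁻¹ * g) = _
    rw [hab, Finset.sum_apply]
    rfl
  exact IsReg.sub h1 (Y := Subalgebra.toSubmodule (AU D)) (fun h => AUrep D h f) (fun h => rfl)

variable (R : Type*) [CommRing R] [Algebra k R]

/-- evaluation of the first factor at `g` -/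
noncomputable def epsU (g : Γ) : AU D ⊗[k] R →ₐ[k] R :=
  Algebra.TensorProduct.lift
    ((Algebra.ofId k R).comp ((Pi.evalAlgHom k (fun _ : Γ => k) g).comp (AU D).val))
    (AlgHom.id k R) (fun _ _ => Commute.all _ _)

variable {R}

lemma epsU_tmul (g : Γ) (f : AU D) (r : R) : epsU D R g (f ⊗ₜ[k] r) = f.1 g • r := by
  rw [epsU, Algebra.TensorProduct.lift_tmul, Algebra.smul_def]
  rfl

lemma epsU_inj {x : AU D ⊗[k] R} (h : ∀ g, epsU D R g x = 0) : x = 0 := by
  classical
  obtain ⟨c, rfl⟩ := TensorProduct.eq_repr_basis_right (Module.Basis.ofVectorSpace k R) x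
  have hc : ∀ i, c i = 0 := by
    intro i
    apply Subtype.ext
    funext g
    have h1 := h g
    rw [Finsupp.sum, map_sum] at h1
    simp only [epsU_tmul] at h1
    by_cases hi : i ∈ c.support
    · exact linearIndependent_iff'.1 (Module.Basis.ofVectorSpace k R).linearIndependent c.support
        (fun j => (c j).1 g) h1 i hi
    · rw [Finsupp.notMem_support_iff.1 hi]
  have hc0 : c = 0 := Finsupp.ext hc
  rw [hc0, Finsupp.sum_zero_index]

variable {τ : Representation k Γ R}

lemma diag_tmul (h : Γ) (f : AU D) (r : R) :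
    (AUrep D).tprod τ h (f ⊗ₜ[k] r) = (AUrep D h f) ⊗ₜ[k] (τ h r) := by
  rw [Representation.tprod_apply, TensorProduct.map_tmul]

lemma diag_isMul (hmul : IsMul τ) :
    IsMul (k := k) (Γ := Γ) (A := AU D ⊗[k] R) ((AUrep D).tprod τ) := by
  intro h x y
  induction x using TensorProduct.induction_on with
  | zero => rw [zero_mul, map_zero, zero_mul]
  | add a b ha hb => rw [add_mul, map_add, map_add, add_mul, ha, hb]
  | tmul f r =>
    induction y using TensorProduct.induction_on with
    | zero => rw [mul_zero, map_zero, mul_zero]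
    | add a b ha hb => rw [mul_add, map_add, map_add, mul_add, ha, hb]
    | tmul f' r' =>
      rw [Algebra.TensorProduct.tmul_mul_tmul, diag_tmul, diag_tmul, diag_tmul,
        Algebra.TensorProduct.tmul_mul_tmul, AUrep_mul, hmul]

lemma epsU_diag (g h : Γ) (x : AU D ⊗[k] R) :
    epsU D R g ((AUrep D).tprod τ h x) = τ h (epsU D R (h⁻¹ * g) x) := by
  induction x using TensorProduct.induction_on with
  | zero => rw [map_zero, map_zero, map_zero, map_zero]
  | add a b ha hb => rw [map_add, map_add, map_add, map_add, ha, hb]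
  | tmul f r => rw [diag_tmul, epsU_tmul, epsU_tmul, AUrep_apply, map_smul]

lemma epsU_mul_U (g : Γ) {u : Γ} (hu : u ∈ D.U) (x : AU D ⊗[k] R) :
    epsU D R (g * u) x = epsU D R g x := by
  induction x using TensorProduct.induction_on with
  | zero => rw [map_zero, map_zero]
  | add a b ha hb => rw [map_add, map_add, ha, hb]
  | tmul f r => rw [epsU_tmul, epsU_tmul, f.2.2 g u hu]

end AUsec

variable {k Γ T X : Type*} [Field k] [Infinite k] [Group Γ] [CommGroup T] [AddCommGroup X]
  {D : PG k Γ T X}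

theorem fg_RU (hG : GeomRed D) (hA : (AU D).FG) {R : Type*} [CommRing R] [Algebra k R]
    [Algebra.FiniteType k R] {τ : Representation k Γ R} (hmul : IsMul τ) (hτ : D.IsRational τ) :
    ∃ s : Finset R, (∀ f ∈ s, D.IsU τ f) ∧ ∀ a : R, D.IsU τ a → a ∈ Algebra.adjoin k (s : Set R) := by
  classical
  have hft : Algebra.FiniteType k (AU D) := (Subalgebra.fg_iff_finiteType _).1 hA
  have hft2 : Algebra.FiniteType k (AU D ⊗[k] R) :=
    Algebra.FiniteType.trans (S := AU D) hft inferInstance
  obtain ⟨s, hs1, hs2⟩ := fg_inv hG (A := AU D ⊗[k] R) (ρ := (AUrep D).tprod τ)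
    (diag_isMul D hmul) (isRational_tprod (AUrep_rat D) hτ)
  refine ⟨s.image (epsU D R 1), ?_, ?_⟩
  · intro f hf u hu
    obtain ⟨x, hx, rfl⟩ := Finset.mem_image.1 hf
    have h1 := epsU_diag (τ := τ) D u u x
    rw [hs1 x hx u, inv_mul_cancel] at h1
    have h2 := epsU_mul_U D 1 hu x
    rw [one_mul] at h2
    rw [← h1, h2]
  · intro a ha
    obtain ⟨m, f, w, hf, hw, -, hfw, hξ⟩ := IsReg.indep (hτ a)
    have hfU : ∀ i, f i ∈ AU D := by
      intro i
      refine ⟨hf i, fun g u hu => ?_⟩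
      obtain ⟨ξ, hξ'⟩ := hξ i
      rw [hξ', hξ', mul_apply', ha u hu]
    set F : AU D ⊗[k] R := ∑ i, (⟨f i, hfU i⟩ : AU D) ⊗ₜ[k] (w i) with hF
    have hFe : ∀ g, epsU D R g F = τ g a := by
      intro g
      rw [hF, map_sum, hfw g]
      exact Finset.sum_congr rfl fun i _ => epsU_tmul D g _ _
    have hinv : ∀ h, (AUrep D).tprod τ h F = F := by
      intro h
      rw [← sub_eq_zero]
      apply epsU_inj D
      intro g
      rw [map_sub, epsU_diag, hFe, hFe, ← mul_apply', mul_inv_cancel_left, sub_self]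
    have h3 := hs2 F hinv
    have h4 : epsU D R 1 F ∈ (Algebra.adjoin k (s : Set (AU D ⊗[k] R))).map (epsU D R 1) :=
      ⟨F, h3, rfl⟩
    rw [AlgHom.map_adjoin, hFe, map_one, Module.End.one_apply] at h4
    rwa [Finset.coe_image]

end PG

section Tsq

variable {k Γ S : Type*} {M : Type*} [Field k] [Group Γ] [CommRing S] [Algebra k S]
  [AddCommGroup M] [Module k M] [Module S M] [IsScalarTower k S M] [Module Sᵐᵒᵖ M]
  [IsCentralScalar S M] [IsScalarTower k Sᵐᵒᵖ M]

/-- the action on the trivial square zero extension -/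
noncomputable def tsq (σ : Representation k Γ S) (ρ : Representation k Γ M) :
    Representation k Γ (TrivSqZeroExt S M) where
  toFun g :=
    { toFun := fun x => TrivSqZeroExt.inl (σ g x.fst) + TrivSqZeroExt.inr (ρ g x.snd)
      map_add' := by
        intro x y
        ext <;> simp
      map_smul' := by
        intro c x
        ext <;> simp }
  map_one' := by
    refine LinearMap.ext fun x => ?_
    ext <;> simp
  map_mul' g h := by
    refine LinearMap.ext fun x => ?_
    ext <;> simp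

variable (σ : Representation k Γ S) (ρ : Representation k Γ M)

lemma tsq_apply (g : Γ) (x : TrivSqZeroExt S M) :
    tsq σ ρ g x = TrivSqZeroExt.inl (σ g x.fst) + TrivSqZeroExt.inr (ρ g x.snd) := rfl

lemma tsq_fst (g : Γ) (x : TrivSqZeroExt S M) : (tsq σ ρ g x).fst = σ g x.fst := by
  simp [tsq_apply]

lemma tsq_snd (g : Γ) (x : TrivSqZeroExt S M) : (tsq σ ρ g x).snd = ρ g x.snd := by
  simp [tsq_apply]

lemma tsq_isMul (hmul : IsMul σ) (hM : IsEquivModule σ ρ) : IsMul (tsq σ ρ) := by
  intro g x y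
  ext
  · rw [TrivSqZeroExt.fst_mul, tsq_fst, tsq_fst, tsq_fst, TrivSqZeroExt.fst_mul, hmul]
  · rw [TrivSqZeroExt.snd_mul, tsq_snd, tsq_snd, tsq_snd, tsq_fst, tsq_fst, TrivSqZeroExt.snd_mul,
      map_add, op_smul_eq_smul, op_smul_eq_smul, hM, hM]

lemma tsq_isRational {T X : Type*} [CommGroup T] [AddCommGroup X] {D : PG k Γ T X}
    (hσ : D.IsRational σ) (hρ : D.IsRational ρ) : D.IsRational (tsq σ ρ) := by
  intro x
  let T₁ : S →ₗ[k] TrivSqZeroExt S M :=
    { toFun := TrivSqZeroExt.inl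
      map_add' := TrivSqZeroExt.inl_add M
      map_smul' := fun c s => TrivSqZeroExt.inl_smul M c s }
  let T₂ : M →ₗ[k] TrivSqZeroExt S M :=
    { toFun := TrivSqZeroExt.inr
      map_add' := TrivSqZeroExt.inr_add S
      map_smul' := fun c m => TrivSqZeroExt.inr_smul S c m }
  exact PG.IsReg.congr (PG.IsReg.add (PG.IsReg.map (hσ x.fst) T₁) (PG.IsReg.map (hρ x.snd) T₂))
    (fun g => rfl)

lemma tsq_finite [hS : Algebra.FiniteType k S] [hMf : Module.Finite S M] :
    Algebra.FiniteType k (TrivSqZeroExt S M) := by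
  classical
  obtain ⟨t, ht⟩ := hS.1
  obtain ⟨u, hu⟩ := hMf.1
  refine ⟨t.image TrivSqZeroExt.inl ∪ u.image TrivSqZeroExt.inr, ?_⟩
  set B := Algebra.adjoin k
    ((t.image TrivSqZeroExt.inl ∪ u.image TrivSqZeroExt.inr : Finset (TrivSqZeroExt S M)) :
      Set (TrivSqZeroExt S M)) with hB
  have h1 : ∀ s : S, (TrivSqZeroExt.inl s : TrivSqZeroExt S M) ∈ B := by
    intro s
    have h2 : s ∈ Algebra.adjoin k (t : Set S) := by rw [ht]; exact Algebra.mem_top
    induction h2 using Algebra.adjoin_induction with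
    | mem x hx =>
      apply Algebra.subset_adjoin
      rw [Finset.coe_union, Finset.coe_image]
      exact Or.inl ⟨x, hx, rfl⟩
    | algebraMap r => exact B.algebraMap_mem r
    | add x y _ _ hx hy => rw [TrivSqZeroExt.inl_add]; exact B.add_mem hx hy
    | mul x y _ _ hx hy => rw [TrivSqZeroExt.inl_mul]; exact B.mul_mem hx hy
  have h2 : ∀ m : M, (TrivSqZeroExt.inr m : TrivSqZeroExt S M) ∈ B := by
    intro m
    have h3 : m ∈ Submodule.span S (u : Set M) := by rw [hu]; exact Submodule.mem_top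
    induction h3 using Submodule.span_induction with
    | mem x hx =>
      apply Algebra.subset_adjoin
      rw [Finset.coe_union, Finset.coe_image, Finset.coe_image]
      exact Or.inr ⟨x, hx, rfl⟩
    | zero => rw [TrivSqZeroExt.inr_zero]; exact B.zero_mem
    | add x y _ _ hx hy => rw [TrivSqZeroExt.inr_add]; exact B.add_mem hx hy
    | smul a x _ hx =>
      have h4 : (TrivSqZeroExt.inr (a • x) : TrivSqZeroExt S M) =
          TrivSqZeroExt.inl a * TrivSqZeroExt.inr x := (TrivSqZeroExt.inl_mul_inr a x).symm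
      rw [h4]
      exact B.mul_mem (h1 a) hx
  rw [eq_top_iff]
  intro x _
  rw [← TrivSqZeroExt.inl_fst_add_inr_snd_eq x]
  exact B.add_mem (h1 _) (h2 _)

end Tsq

namespace PG

section smulwt

variable {k Γ T X : Type*} [Field k] [Group Γ] [CommGroup T] [AddCommGroup X]
  {D : PG k Γ T X} {S M : Type*} [CommRing S] [Algebra k S] [AddCommGroup M] [Module k M]
  [Module S M] [IsScalarTower k S M] {σ : Representation k Γ S} {ρ : Representation k Γ M}

lemma IsWt.smulM (hM : IsEquivModule σ ρ) {a b : X} {s : S} {m : M} (h : D.IsWt σ a s)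
    (h' : D.IsWt ρ b m) : D.IsWt ρ (a + b) (s • m) := by
  intro z
  rw [hM, h z, h' z, D.chi_add, smul_assoc, Units.val_mul, mul_smul]
  congr 1
  rw [← algebraMap_smul S ((D.chi b z : kˣ) : k) m, ← algebraMap_smul S ((D.chi b z : kˣ) : k) (s • m),
    smul_smul, smul_smul, mul_comm]

lemma wt_smulM (hσ : D.IsRational σ) (hρ : D.IsRational ρ) (hM : IsEquivModule σ ρ) {b : X}
    {m : M} (hm : D.IsWt ρ b m) (a : X) (s : S) :
    wt hρ a (s • m) = wt hσ (a - b) s • m := by
  classical
  obtain ⟨t, ht, hs⟩ := sum_wt hσ s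
  conv_lhs => rw [hs, Finset.sum_smul, map_sum]
  have h1 : ∀ e ∈ t, wt hρ a (wt hσ e s • m) = if e = a - b then wt hσ e s • m else 0 := by
    intro e _
    have h2 : D.IsWt ρ (e + b) (wt hσ e s • m) := IsWt.smulM hM (wt_isWt hσ e s) hm
    split_ifs with h
    · have h3 : e + b = a := by rw [h, sub_add_cancel]
      rw [h3] at h2
      exact wt_self hρ h2
    · exact wt_ne hρ h2 fun h3 => h (by rw [← h3, add_sub_cancel_right])
  rw [Finset.sum_congr rfl h1, Finset.sum_ite_eq' t (a - b) (fun e => wt hσ e s • m)]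
  split_ifs with h
  · rfl
  · rw [ht _ h, zero_smul]

end smulwt

variable {k Γ T X : Type*} [Field k] [Infinite k] [Group Γ] [CommGroup T] [AddCommGroup X]
  {D : PG k Γ T X}

private theorem fg_U' (hG : GeomRed D) (hA : (AU D).FG) {S M : Type*} [CommRing S] [Algebra k S]
    [Algebra.FiniteType k S] [AddCommGroup M] [Module k M] [Module S M] [IsScalarTower k S M]
    [Module.Finite S M] [Module Sᵐᵒᵖ M] [IsCentralScalar S M] [IsScalarTower k Sᵐᵒᵖ M]
    (σ : Representation k Γ S) (ρ : Representation k Γ M)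
    (hmul : IsMul σ) (hσ : D.IsRational σ) (hρ : D.IsRational ρ) (hM : IsEquivModule σ ρ) :
    ∃ (r : ℕ) (m : Fin r → M) (d : Fin r → X), (∀ l, D.IsU ρ (m l) ∧ D.IsWt ρ (d l) (m l)) ∧
      ∀ (a : X) (v : M), D.IsU ρ v → D.IsWt ρ a v → ∃ c : Fin r → S,
        (∀ l, D.IsU σ (c l) ∧ D.IsWt σ (a - d l) (c l)) ∧ v = ∑ l, c l • m l := by
  classical
  have hτ := tsq_isMul σ ρ hmul hM
  have hτr : D.IsRational (tsq σ ρ) := tsq_isRational σ ρ hσ hρ
  have : Algebra.FiniteType k (TrivSqZeroExt S M) := tsq_finite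
  obtain ⟨s, hs1, hs2⟩ := fg_RU hG hA hτ hτr
  have hone : ∀ g, σ g 1 = 1 := fun g => Pool.Agent.Helper92.TR.mul_one_eq hmul g
  have halg : ∀ g (r : k), σ g (algebraMap k S r) = algebraMap k S r := by
    intro g r
    rw [Algebra.algebraMap_eq_smul_one, map_smul, hone]
  have hfst : ∀ x ∈ s, D.IsU σ x.fst := fun x hx u hu => by
    rw [← tsq_fst σ ρ, hs1 x hx u hu]
  have hsnd : ∀ x ∈ s, D.IsU ρ x.snd := fun x hx u hu => by
    rw [← tsq_snd σ ρ, hs1 x hx u hu]
  have key : ∀ F ∈ Algebra.adjoin k (s : Set (TrivSqZeroExt S M)), D.IsU σ F.fst ∧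
      ∃ c : TrivSqZeroExt S M → S, (∀ x, D.IsU σ (c x)) ∧ F.snd = ∑ x ∈ s, c x • x.snd := by
    intro F hF
    induction hF using Algebra.adjoin_induction with
    | mem x hx =>
      refine ⟨hfst x hx, fun y => if y = x then 1 else 0, fun y u _ => ?_, ?_⟩
      · show σ u (if y = x then 1 else 0) = if y = x then 1 else 0
        split_ifs
        · exact hone u
        · exact map_zero _
      · rw [Finset.sum_eq_single x]
        · show x.snd = (if x = x then (1 : S) else 0) • x.snd
          rw [if_pos rfl, one_smul]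
        · intro y _ hy
          show (if y = x then (1 : S) else 0) • y.snd = 0
          rw [if_neg hy, zero_smul]
        · intro h
          exact absurd hx h
    | algebraMap r =>
      refine ⟨fun u _ => ?_, fun _ => 0, fun _ u _ => map_zero _, ?_⟩
      · rw [TrivSqZeroExt.algebraMap_eq_inl', TrivSqZeroExt.fst_inl, halg]
      · rw [TrivSqZeroExt.algebraMap_eq_inl', TrivSqZeroExt.snd_inl]
        simp
    | add x y _ _ hx hy =>
      obtain ⟨hx1, c, hc1, hc2⟩ := hx
      obtain ⟨hy1, c', hc1', hc2'⟩ := hy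
      refine ⟨fun u hu => ?_, fun z => c z + c' z, fun z u hu => ?_, ?_⟩
      · rw [TrivSqZeroExt.fst_add, map_add, hx1 u hu, hy1 u hu]
      · show σ u (c z + c' z) = c z + c' z
        rw [map_add, hc1 z u hu, hc1' z u hu]
      · rw [TrivSqZeroExt.snd_add, hc2, hc2', ← Finset.sum_add_distrib]
        exact Finset.sum_congr rfl fun z _ => (add_smul _ _ _).symm
    | mul x y _ _ hx hy =>
      obtain ⟨hx1, c, hc1, hc2⟩ := hx
      obtain ⟨hy1, c', hc1', hc2'⟩ := hy
      refine ⟨fun u hu => ?_, fun z => x.fst * c' z + y.fst * c z, fun z u hu => ?_, ?_⟩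
      · rw [TrivSqZeroExt.fst_mul, hmul, hx1 u hu, hy1 u hu]
      · show σ u (x.fst * c' z + y.fst * c z) = x.fst * c' z + y.fst * c z
        rw [map_add, hmul, hmul, hx1 u hu, hy1 u hu, hc1 z u hu, hc1' z u hu]
      · rw [TrivSqZeroExt.snd_mul, op_smul_eq_smul, hc2, hc2', Finset.smul_sum, Finset.smul_sum,
          ← Finset.sum_add_distrib]
        exact Finset.sum_congr rfl fun z _ => by rw [add_smul, mul_smul, mul_smul]
  -- the generators
  choose t ht1 ht2 using fun x : TrivSqZeroExt S M => sum_wt hρ x.snd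
  let ι := (x : {x // x ∈ s}) × {b // b ∈ t x.1}
  let e := Fintype.equivFin ι
  let m' : ι → M := fun i => wt hρ i.2.1 i.1.1.snd
  refine ⟨Fintype.card ι, m' ∘ e.symm, fun l => (e.symm l).2.1, fun l =>
    ⟨IsU.wt hρ (hsnd _ (e.symm l).1.2) _, wt_isWt hρ _ _⟩, ?_⟩
  intro a v hU hW
  have hUr : D.IsU (tsq σ ρ) (TrivSqZeroExt.inr v : TrivSqZeroExt S M) := by
    intro u hu
    ext
    · rw [tsq_fst, TrivSqZeroExt.fst_inr, map_zero]
    · rw [tsq_snd, TrivSqZeroExt.snd_inr, hU u hu]
  obtain ⟨-, c, hc1, hc2⟩ := key _ (hs2 _ hUr)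
  rw [TrivSqZeroExt.snd_inr] at hc2
  let c' : ι → S := fun i => wt hσ (a - i.2.1) (c i.1.1)
  refine ⟨c' ∘ e.symm, fun l => ⟨IsU.wt hσ (hc1 _) _, wt_isWt hσ _ _⟩, ?_⟩
  have h2 : ∑ l, (c' ∘ e.symm) l • (m' ∘ e.symm) l = ∑ i : ι, c' i • m' i :=
    Equiv.sum_comp e.symm (fun i => c' i • m' i)
  rw [h2, Fintype.sum_sigma]
  have h3 : v = wt hρ a v := (wt_self hρ hW).symm
  rw [h3, hc2, map_sum, ← Finset.sum_coe_sort s]
  refine Finset.sum_congr rfl fun x _ => ?_
  conv_lhs => rw [ht2 x.1]
  rw [Finset.smul_sum, map_sum, ← Finset.sum_coe_sort (t x.1)]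
  exact Finset.sum_congr rfl fun b _ => wt_smulM hσ hρ hM (wt_isWt hρ _ _) a _

theorem fg_U (hG : GeomRed D) (hA : (AU D).FG) {S M : Type*} [CommRing S] [Algebra k S]
    [Algebra.FiniteType k S] [AddCommGroup M] [Module k M] [Module S M] [IsScalarTower k S M]
    [Module.Finite S M] (σ : Representation k Γ S) (ρ : Representation k Γ M)
    (hmul : IsMul σ) (hσ : D.IsRational σ) (hρ : D.IsRational ρ) (hM : IsEquivModule σ ρ) :
    ∃ (r : ℕ) (m : Fin r → M) (d : Fin r → X), (∀ l, D.IsU ρ (m l) ∧ D.IsWt ρ (d l) (m l)) ∧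
      ∀ (a : X) (v : M), D.IsU ρ v → D.IsWt ρ a v → ∃ c : Fin r → S,
        (∀ l, D.IsU σ (c l) ∧ D.IsWt σ (a - d l) (c l)) ∧ v = ∑ l, c l • m l := by
  let _ : Module Sᵐᵒᵖ M := Module.compHom M ((RingHom.id S).fromOpposite mul_comm)
  have _ : IsCentralScalar S M := ⟨fun r m => rfl⟩
  have _ : IsScalarTower k Sᵐᵒᵖ M := ⟨fun a b m => by
    obtain ⟨b, rfl⟩ := MulOpposite.op_surjective b
    change ((a • b : S)) • m = a • (b • m)
    exact smul_assoc a b m⟩
  exact fg_U' hG hA σ ρ hmul hσ hρ hM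

end PG

end Pool.Agent.TRN
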