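import Pool.Agent.TRN.Wl
import Pool.Agent.TRN.FgU

/-!
# TRN / FGA: the algebra `k[Γ]^U` is finitely generated

* `ind_mul_mem`: products (`chi_add`).
* `ind_mul_top`: let `v_a ∈ Ind a`, `v_b ∈ Ind b` be the vectors of `ind_exists`, `m = v_a ⊗ₜ v_b` in
  `Ind a ⊗ Ind b`: `U`-invariant of weight `a + b` (`IsWt.tmul`). `hDM a b` gives `w` with
  `wt (a+b) (ρ g⁻¹ w) = x g • m`. Let `μ : Ind a ⊗ Ind b → Ind (a + b)` be the multiplication (equivariant). Then
  `(μ w) g = (ρ g⁻¹ (μ w)) 1 = (wt (a+b) (ρ g⁻¹ (μ w))) 1 = (μ (x g • m)) 1 = x g` (`ind_ev_wt`, `map_wt`).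
  So `x = μ w` is a sum of products.
* `AUm`: regular functions with `f (g * v) = f g` for `v ∈ Um`. `AUm_sum`: every `f ∈ AUm` is a finite sum of elements of
  spaces `Ind a`: the right translation representation on `D.A` (`(r h f) g = f (g h)`, rational by `comul`) has weight
  components `f_a = wt a f`, `f_a (g * t z) = χ_a(z) f_a g`; the `f_a` are in `AUm`, because `Um` is
  normalised by the torus (as in `IsU.wt`: `f_a` is a linear combination of the `r (t z) f`), so `f_a ∈ Ind (-a)`.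
* `ind_adjoin`: for `a ∈ AddSubmonoid.closure s` (`s` a set of dominant weights), `Ind a ≠ 0` and
  `Ind a ≤ adjoin (⋃ b ∈ s, Ind b)`: `AddSubmonoid.closure_induction`; `Ind 0` is constants
  (`ind_zero_const`), `Ind (a + b)`: `ind_mul_top`, the product of the vectors of `ind_exists` is `1` at `1`.
* `fg_AU`: `s` of `hN.fg`. A function `f ∈ AUm` is a sum of elements of spaces `Ind a` which are `0` unless `dom a = a` (`ind_dom`), so
  `AUm = adjoin (⋃ b ∈ s, Ind b)`, and `Ind b` is spanned by a finite set (`hfd`). The map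
  `f ↦ (g ↦ f (g * n0))` is a surjective algebra map `AUm → AU`
  (`n0_U`; the inverse is `f ↦ (g ↦ f (g * n0⁻¹))`, `hN.Um`). `Subalgebra.FG.map`.
-/

set_option autoImplicit false

namespace Pool.Agent.TRN

open Finset TensorProduct

universe u

namespace PG

variable {k Γ T X : Type*} [Field k] [Infinite k] [Group Γ] [CommGroup T]
  [AddCommGroup X] {D : PG k Γ T X}

lemma ind_mul_mem {a b : X} {F F' : Γ → k} (h : F ∈ D.Ind a) (h' : F' ∈ D.Ind b) :
    F * F' ∈ D.Ind (a + b) := by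
  refine ⟨D.A.mul_mem h.1 h'.1, fun g u hu z => ?_⟩
  rw [Pi.mul_apply, Pi.mul_apply, h.2 g u hu z, h'.2 g u hu z, D.chi_add, mul_inv, Units.val_mul]
  ring

/-- the multiplication map -/
private noncomputable def mulInd (D : PG k Γ T X) (a b : X) :
    D.Ind a ⊗[k] D.Ind b →ₗ[k] D.Ind (a + b) :=
  TensorProduct.lift (LinearMap.mk₂ k
    (fun (F : D.Ind a) (F' : D.Ind b) =>
      (⟨F.1 * F'.1, ind_mul_mem F.2 F'.2⟩ : D.Ind (a + b)))
    (fun F G F' => Subtype.ext (add_mul F.1 G.1 F'.1))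
    (fun c F F' => Subtype.ext (smul_mul_assoc c F.1 F'.1))
    (fun F F' G' => Subtype.ext (mul_add F.1 F'.1 G'.1))
    (fun c F F' => Subtype.ext (mul_smul_comm c F.1 F'.1)))

private lemma mulInd_tmul {a b : X} (F : D.Ind a) (F' : D.Ind b) :
    (mulInd D a b (F ⊗ₜ[k] F')).1 = F.1 * F'.1 := rfl

private lemma mulInd_equiv (a b : X) :
    IsEquiv (V := D.Ind a ⊗[k] D.Ind b) (W := D.Ind (a + b))
      ((D.indRep a).tprod (D.indRep b)) (D.indRep (a + b)) (mulInd D a b) := by
  intro g x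
  induction x using TensorProduct.induction_on with
  | zero => rw [map_zero, map_zero, map_zero]
  | add x y hx hy => rw [map_add, map_add, map_add, map_add, hx, hy]
  | tmul F F' => rfl

private lemma mulInd_span {a b : X} (x : D.Ind a ⊗[k] D.Ind b) :
    (mulInd D a b x).1 ∈ Submodule.span k {y | ∃ F ∈ D.Ind a, ∃ F' ∈ D.Ind b, y = F * F'} := by
  induction x using TensorProduct.induction_on with
  | zero =>
    rw [map_zero]
    exact Submodule.zero_mem _
  | add x y hx hy =>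
    rw [map_add]
    exact Submodule.add_mem _ hx hy
  | tmul F F' => exact Submodule.subset_span ⟨F.1, F.2, F'.1, F'.2, rfl⟩

private lemma exists_top {a : X} (ha : ∃ F ∈ D.Ind a, F ≠ 0) : ∃ v : D.Ind a,
    D.IsWt (D.indRep a) a v ∧ D.IsU (D.indRep a) v ∧ v.1 1 = 1 := by
  obtain ⟨F, hF, h0⟩ := ha
  exact ind_exists (H := (⟨F, hF⟩ : D.Ind a)) fun h => h0 (congrArg Subtype.val h)

theorem ind_mul_top (hDM : DM D) {a b : X} (ha : ∃ F ∈ D.Ind a, F ≠ 0)
    (hb : ∃ F ∈ D.Ind b, F ≠ 0) {x : Γ → k} (hx : x ∈ D.Ind (a + b)) :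
    x ∈ Submodule.span k {y | ∃ F ∈ D.Ind a, ∃ F' ∈ D.Ind b, y = F * F'} := by
  obtain ⟨v, hv1, hv2, hv3⟩ := exists_top ha
  obtain ⟨v', hv1', hv2', hv3'⟩ := exists_top hb
  have hU : D.IsU ((D.indRep a).tprod (D.indRep b)) (v ⊗ₜ[k] v') := by
    intro u hu
    rw [Representation.tprod_apply, TensorProduct.map_tmul, hv2 u hu, hv2' u hu]
  have hr := isRational_tprod (isRational_ind D a) (isRational_ind D b)
  obtain ⟨w, -, -, hw⟩ := hDM a b (a + b) (v ⊗ₜ[k] v') Submodule.mem_top hU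
    (IsWt.tmul hv1 hv1') x hx
  have h1 : x = (mulInd D a b w).1 := by
    funext g
    have h2 : (mulInd D a b w).1 g = (D.indRep (a + b) g⁻¹ (mulInd D a b w)).1 1 := by
      rw [indRep_apply, inv_inv, mul_one]
    rw [h2, ← ind_ev_wt, ← mulInd_equiv, ← map_wt hr (isRational_ind D (a + b)) (mulInd_equiv a b),
      hw g, map_smul]
    change x g = x g * (v.1 1 * v'.1 1)
    rw [hv3, hv3', mul_one, mul_one]
  rw [h1]
  exact mulInd_span w

/-- right translation -/
private def rtA (D : PG k Γ T X) : Representation k Γ D.A where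
  toFun h :=
    { toFun := fun f => ⟨fun g => f.1 (g * h), A_right f.2 h⟩
      map_add' := fun _ _ => rfl
      map_smul' := fun _ _ => rfl }
  map_one' := by
    apply LinearMap.ext
    intro f
    apply Subtype.ext
    funext g
    change f.1 (g * 1) = f.1 g
    rw [mul_one]
  map_mul' h h' := by
    apply LinearMap.ext
    intro f
    apply Subtype.ext
    funext g
    change f.1 (g * (h * h')) = f.1 (g * h * h')
    rw [mul_assoc]

omit [Infinite k] in
private lemma rtA_apply (h : Γ) (f : D.A) (g : Γ) : (rtA D h f).1 g = f.1 (g * h) := rfl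

omit [Infinite k] in
private lemma rtA_rat : D.IsRational (rtA D) := by
  intro f
  obtain ⟨m, a, b, ha, hb, hab⟩ := D.comul f.1 f.2
  refine ⟨m, b, fun i => (⟨a i, ha i⟩ : D.A), hb, fun h => ?_⟩
  apply Subtype.ext
  funext g
  have h1 : ((∑ i, b i h • (⟨a i, ha i⟩ : D.A) : D.A) : Γ → k) = ∑ i, b i h • a i := by
    rw [AddSubmonoidClass.coe_finsetSum]
    rfl
  change f.1 (g * h) = ((∑ i, b i h • (⟨a i, ha i⟩ : D.A) : D.A) : Γ → k) g
  rw [h1, hab, Finset.sum_apply]
  refine Finset.sum_congr rfl fun i _ => ?_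
  rw [Pi.smul_apply, smul_eq_mul, mul_comm]

omit [Infinite k] in
/-- independence of the characters with coefficients in `V` -/
private lemma chi_indep {V : Type*} [AddCommGroup V] [Module k V] {s : Finset X} {u : X → V}
    (h : ∀ z, ∑ a ∈ s, (D.chi a z : k) • u a = 0) : ∀ a ∈ s, u a = 0 := by
  intro a ha
  rw [← Module.forall_dual_apply_eq_zero_iff k]
  intro ξ
  have hinj : Function.Injective fun a : X => (Units.coeHom k).comp (D.chi a) := by
    intro a b hab
    apply D.chi_inj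
    apply MonoidHom.ext
    intro z
    exact Units.ext (DFunLike.congr_fun hab z)
  have h1 := (linearIndependent_monoidHom T k).comp _ hinj
  rw [linearIndependent_iff'] at h1
  refine h1 s (fun a => ξ (u a)) ?_ a ha
  funext z
  have h2 := congrArg ξ (h z)
  rw [map_sum, map_zero] at h2
  rw [Finset.sum_apply, Pi.zero_apply, ← h2]
  refine Finset.sum_congr rfl fun b _ => ?_
  rw [map_smul, smul_eq_mul, Pi.smul_apply, smul_eq_mul, mul_comm]
  rfl

/-- weight components of `Um`-invariants are `Um`-invariant -/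
private lemma wt_UmInv {V : Type*} [AddCommGroup V] [Module k V] {ρ : Representation k Γ V}
    (hρ : D.IsRational ρ) {v : V} (h : ∀ u ∈ D.Um, ρ u v = v) (a : X) {u : Γ} (hu : u ∈ D.Um) :
    ρ u (PG.wt hρ a v) = PG.wt hρ a v := by
  obtain ⟨s, hs0, hs⟩ := sum_wt hρ v
  by_cases ha : a ∈ s
  swap
  · rw [hs0 a ha, map_zero]
  have h1 : ∀ z, ρ (D.t z) v = ∑ b ∈ s, (D.chi b z : k) • PG.wt hρ b v := by
    intro z
    conv_lhs => rw [hs]
    rw [map_sum]
    exact Finset.sum_congr rfl fun b _ => wt_isWt hρ b v z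
  have h2 : ∀ z, ∑ b ∈ s, (D.chi b z : k) • (ρ u (PG.wt hρ b v) - PG.wt hρ b v) = 0 := by
    intro z
    have h3 : ρ u (ρ (D.t z) v) = ρ (D.t z) v := by
      have h4 : u * D.t z = D.t z * ((D.t z)⁻¹ * u * D.t z) := by group
      have h5 : (D.t z)⁻¹ * u * D.t z ∈ D.Um := by
        have := t_Um hu z⁻¹
        rwa [map_inv, inv_inv] at this
      rw [← mul_apply', h4, mul_apply', h _ h5]
    rw [h1, map_sum] at h3
    simp only [smul_sub, Finset.sum_sub_distrib]
    rw [sub_eq_zero, ← h3]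
    exact Finset.sum_congr rfl fun b _ => by rw [map_smul]
  exact sub_eq_zero.1 (chi_indep h2 a ha)

theorem AUm_sum {f : Γ → k} (hf : f ∈ D.A) (h : ∀ g, ∀ v ∈ D.Um, f (g * v) = f g) :
    f ∈ ⨆ a, D.Ind a := by
  have hinv : ∀ u ∈ D.Um, rtA D u ⟨f, hf⟩ = ⟨f, hf⟩ := by
    intro u hu
    apply Subtype.ext
    funext g
    exact h g u hu
  obtain ⟨s, -, hs⟩ := sum_wt (rtA_rat (D := D)) (⟨f, hf⟩ : D.A)
  have h1 : ∀ a, ((wt (rtA_rat (D := D)) a (⟨f, hf⟩ : D.A) : D.A) : Γ → k) ∈ D.Ind (-a) := by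
    intro a
    refine ⟨(wt (rtA_rat (D := D)) a (⟨f, hf⟩ : D.A)).2, fun g u hu z => ?_⟩
    have h2 := wt_isWt (rtA_rat (D := D)) a (⟨f, hf⟩ : D.A) z
    have h3 := wt_UmInv (rtA_rat (D := D)) hinv a hu
    have h4 := congrArg (fun F : D.A => F.1 (g * u)) h2
    have h5 := congrArg (fun F : D.A => F.1 g) h3
    beta_reduce at h4 h5
    rw [rtA_apply] at h4 h5
    rw [← mul_assoc, h4, chi_neg, inv_inv, ← h5]
    rfl
  have h2 := congrArg (fun F : D.A => F.1) hs
  beta_reduce at h2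
  have h3 : ((∑ a ∈ s, wt (rtA_rat (D := D)) a (⟨f, hf⟩ : D.A) : D.A) : Γ → k) =
      ∑ a ∈ s, ((wt (rtA_rat (D := D)) a (⟨f, hf⟩ : D.A) : D.A) : Γ → k) :=
    AddSubmonoidClass.coe_finsetSum _ _
  rw [h3] at h2
  have h4 : f = ∑ a ∈ s, ((wt (rtA_rat (D := D)) a (⟨f, hf⟩ : D.A) : D.A) : Γ → k) := h2
  rw [h4]
  exact Submodule.sum_mem _ fun a _ => Submodule.mem_iSup_of_mem (-a) (h1 a)

theorem ind_adjoin (hDM : DM D) {s : Set X} (hs : ∀ a ∈ s, ∃ F ∈ D.Ind a, F ≠ 0) {a : X}
    (ha : a ∈ AddSubmonoid.closure s) : (∃ F ∈ D.Ind a, F ≠ 0) ∧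
      ∀ F ∈ D.Ind a, F ∈ Algebra.adjoin k (⋃ b ∈ s, (D.Ind b : Set (Γ → k))) := by
  induction ha using AddSubmonoid.closure_induction with
  | mem a ha =>
    refine ⟨hs a ha, fun F hF => Algebra.subset_adjoin ?_⟩
    exact Set.mem_iUnion₂.2 ⟨a, ha, hF⟩
  | zero =>
    refine ⟨⟨1, ⟨D.A.one_mem, fun g u hu z => ?_⟩, one_ne_zero⟩, fun F hF => ?_⟩
    · rw [chi_zero]
      simp
    · have h1 : F = algebraMap k (Γ → k) (F 1) := by
        funext g
        exact ind_zero_const hF g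
      rw [h1]
      exact Subalgebra.algebraMap_mem _ _
  | add a b _ _ ha hb =>
    obtain ⟨ha1, ha2⟩ := ha
    obtain ⟨hb1, hb2⟩ := hb
    refine ⟨?_, fun F hF => ?_⟩
    · obtain ⟨v, -, -, hv⟩ := exists_top ha1
      obtain ⟨v', -, -, hv'⟩ := exists_top hb1
      refine ⟨v.1 * v'.1, ind_mul_mem v.2 v'.2, fun h0 => ?_⟩
      have h1 := congrFun h0 1
      rw [Pi.mul_apply, hv, hv', mul_one, Pi.zero_apply] at h1
      exact one_ne_zero h1
    · have h1 := ind_mul_top hDM ha1 hb1 hF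
      have h2 : Submodule.span k {y | ∃ F ∈ D.Ind a, ∃ F' ∈ D.Ind b, y = F * F'} ≤
          Subalgebra.toSubmodule (Algebra.adjoin k (⋃ b ∈ s, (D.Ind b : Set (Γ → k)))) := by
        rw [Submodule.span_le]
        rintro y ⟨F, hF, F', hF', rfl⟩
        exact Subalgebra.mul_mem _ (ha2 F hF) (hb2 F' hF')
      exact h2 h1

/-- right translation by `n0` -/
private def trn0 (D : PG k Γ T X) : (Γ → k) →ₐ[k] (Γ → k) where
  toFun f g := f (g * D.n0)
  map_one' := rfl
  map_mul' _ _ := rfl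
  map_zero' := rfl
  map_add' _ _ := rfl
  commutes' _ := rfl

theorem fg_AU (hfd : D.Fd) (hDM : DM D) (hN : Nz D) : (AU D).FG := by
  classical
  obtain ⟨s, hs1, hs2⟩ := hN.fg
  have hne : ∀ a ∈ (s : Set X), ∃ F ∈ D.Ind a, F ≠ 0 := fun a ha => hN.ne a (hs1 a ha)
  have hfg : ∀ b, ∃ S : Finset (Γ → k), Submodule.span k (S : Set (Γ → k)) = D.Ind b := by
    intro b
    have : Module.Finite k (D.Ind b) := hfd b
    exact Module.Finite.iff_fg.1 this
  choose S hS using hfg
  have hSub : ∀ b, ((S b : Finset (Γ → k)) : Set (Γ → k)) ⊆ D.Ind b := by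
    intro b
    rw [← hS b]
    exact Submodule.subset_span
  -- generators of the `Um`-invariants
  have hgen : ∀ f ∈ D.A, (∀ g, ∀ v ∈ D.Um, f (g * v) = f g) →
      f ∈ Algebra.adjoin k ((s.biUnion S : Finset (Γ → k)) : Set (Γ → k)) := by
    intro f hf h
    have h1 : (⨆ a, D.Ind a) ≤ Subalgebra.toSubmodule
        (Algebra.adjoin k ((s.biUnion S : Finset (Γ → k)) : Set (Γ → k))) := by
      refine iSup_le fun a F hF => ?_
      by_cases hF0 : F = 0
      · rw [hF0]
        exact Submodule.zero_mem _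
      · have h2 : D.dom a = a := ind_dom (H := (⟨F, hF⟩ : D.Ind a))
          fun h0 => hF0 (congrArg Subtype.val h0)
        have h3 := (ind_adjoin hDM hne (hs2 a h2)).2 F hF
        have h4 : Algebra.adjoin k (⋃ b ∈ (s : Set X), (D.Ind b : Set (Γ → k))) ≤
            Algebra.adjoin k ((s.biUnion S : Finset (Γ → k)) : Set (Γ → k)) := by
          rw [Algebra.adjoin_le_iff]
          intro G hG
          obtain ⟨b, hb, hG⟩ := Set.mem_iUnion₂.1 hG
          have h5 : D.Ind b ≤ Subalgebra.toSubmodule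
              (Algebra.adjoin k ((s.biUnion S : Finset (Γ → k)) : Set (Γ → k))) := by
            rw [← hS b, Submodule.span_le]
            intro y hy
            apply Algebra.subset_adjoin
            rw [Finset.coe_biUnion]
            exact Set.mem_iUnion₂.2 ⟨b, hb, hy⟩
          exact h5 hG
        exact h4 h3
    exact h1 (AUm_sum hf h)
  refine ⟨(s.biUnion S).image (trn0 D), ?_⟩
  rw [Finset.coe_image, ← AlgHom.map_adjoin]
  apply le_antisymm
  · rw [AlgHom.map_adjoin, Algebra.adjoin_le_iff]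
    rintro _ ⟨F, hF, rfl⟩
    rw [Finset.mem_coe, Finset.mem_biUnion] at hF
    obtain ⟨b, -, hb⟩ := hF
    have hF := hSub b hb
    refine ⟨A_right hF.1 D.n0, fun g u hu => ?_⟩
    change F (g * u * D.n0) = F (g * D.n0)
    have h1 := hF.2 (g * D.n0) _ (n0_U hu) 1
    rw [map_one, map_one, mul_one, inv_one, Units.val_one, one_mul] at h1
    rw [← h1]
    congr 1
    group
  · intro f hf
    refine ⟨fun g => f (g * D.n0⁻¹), hgen _ (A_right hf.1 _) fun g v hv => ?_, ?_⟩
    · have h1 := hf.2 (g * D.n0⁻¹) _ (hN.Um v hv)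
      rw [← h1]
      congr 1
      group
    · funext g
      change f (g * D.n0 * D.n0⁻¹) = f g
      rw [mul_inv_cancel_right]

end PG

end Pool.Agent.TRN
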