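import Pool.Agent.TRN.WdDefs

/-!
# TRN / TILT: finite sums of tilting modules

* `weyl_of_dual_good`: general version of `Pool/Agent/Helper4/TR/WeylDual.lean`, same proof (copy, the
  group plays no role).
* `exists_sum`: call a bundled representation `W` nice if it is finite dimensional, rational, and
  `W.ρ` and `W.dual.ρ` have good filtrations. `IsTop` modules are nice, the product
  `⟨V × V', ρ.prod ρ', ..⟩` of nice modules is nice (`GoodIn.prod`, `goodFilt_iff`,
  `(V × V')* ≅ V* × V'*` equivariantly, `GoodFilt.equiv`), a nice module is tilting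
  (`weyl_of_dual_good`). Induction on `r`: start with `Wd.one` and the zero map (`k` trivial is
  good: `GoodIn.trivial'`, `k* ≅ k`); add the module `w` of `m l` (if `m l ≠ 0`) with `θ (x, y) = θ' x + θ_l y`; the vectors `x` are `(x, 0)` and
  `(0, w.v)`, for `m l = 0` take `x = 0`.
-/

set_option autoImplicit false

namespace Pool.Agent.TRN

open Finset TensorProduct

universe u v w

namespace PG

section

variable {k Γ T X : Type*} [Field k] [Infinite k] [Group Γ] [CommGroup T] [AddCommGroup X]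
  {D : PG k Γ T X} {V : Type*} [AddCommGroup V] [Module k V] {ρ : Representation k Γ V}

private theorem tl_dual_act {V : Type*} [AddCommGroup V] [Module k V] (ρ : Representation k Γ V)
    (g : Γ) (x : Module.Dual k V) (t : V) : (ρ.dual g x) t = x (ρ g⁻¹ t) := by
  rw [Representation.dual_apply]
  rfl

private theorem tl_stable_coann (ρ : Representation k Γ V) (N : Submodule k (Module.Dual k V))
    (hN : Stable ρ.dual N) : Stable ρ N.dualCoannihilator := by
  intro g t ht
  rw [Submodule.mem_dualCoannihilator] at ht ⊢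
  intro x hx
  have h1 := ht _ (hN g⁻¹ x hx)
  rw [tl_dual_act, inv_inv] at h1
  exact h1

private theorem tl_layer_coann {E : Type*} [AddCommGroup E] [Module k E] [Module.Finite k V]
    (ρ : Representation k Γ V) (τ : Representation k Γ E) (A B : Submodule k (Module.Dual k V))
    (hB : Stable ρ.dual B) (h : IsLayer τ ρ.dual A B) :
    IsLayer τ.dual ρ B.dualCoannihilator A.dualCoannihilator := by
  obtain ⟨hAB, f, hf, hker, heq⟩ := h
  obtain ⟨s, hs⟩ := LinearMap.exists_rightInverse_of_surjective f (LinearMap.range_eq_top.mpr hf)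
  have hs' : ∀ F, f (s F) = F := fun F => LinearMap.congr_fun hs F
  set φ : A.dualCoannihilator →ₗ[k] Module.Dual k E :=
    (s.dualMap ∘ₗ B.subtype.dualMap ∘ₗ Module.Dual.eval k V) ∘ₗ A.dualCoannihilator.subtype with hφ
  have hφ1 : ∀ (t : A.dualCoannihilator) (F : E), φ t F = (s F : Module.Dual k V) (t : V) :=
    fun _ _ => rfl
  have hP : ∀ (t : A.dualCoannihilator) (x : B), φ t (f x) = (x : Module.Dual k V) (t : V) := by
    intro t x
    rw [hφ1]
    have hz : s (f x) - x + x = s (f x) := by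
      apply Subtype.ext
      exact sub_add_cancel _ _
    have h0 : f (s (f x) - x) + f x = f x := by
      rw [← map_add, hz, hs']
    have h1 : f (s (f x) - x) = 0 := add_eq_right.mp h0
    have h2 := (hker _).mp h1
    have h3 := (Submodule.mem_dualCoannihilator _).mp t.2 _ h2
    have h4 : ((s (f x) : B) : Module.Dual k V) (t : V) - (x : Module.Dual k V) (t : V) = 0 := h3
    exact sub_eq_zero.mp h4
  refine ⟨Submodule.dualCoannihilator_anti hAB, φ, ?_, ?_, ?_⟩
  · intro ξ
    obtain ⟨Ψ, hΨ⟩ := LinearMap.exists_extend (ξ ∘ₗ f)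
    obtain ⟨t, ht⟩ := (Module.evalEquiv k V).surjective Ψ
    have ht' : ∀ x : Module.Dual k V, x t = Ψ x := by
      intro x
      rw [← ht]
      rfl
    have hΨ' : ∀ x : B, Ψ (x : Module.Dual k V) = ξ (f x) := fun x => LinearMap.congr_fun hΨ x
    have htA : t ∈ A.dualCoannihilator := by
      rw [Submodule.mem_dualCoannihilator]
      intro x hx
      rw [ht', hΨ' ⟨x, hAB hx⟩]
      have := (hker ⟨x, hAB hx⟩).mpr hx
      rw [this, map_zero]
    refine ⟨⟨t, htA⟩, ?_⟩
    ext F
    rw [hφ1, ht', hΨ', hs']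
  · intro t
    constructor
    · intro h0
      rw [Submodule.mem_dualCoannihilator]
      intro x hx
      have := hP t ⟨x, hx⟩
      rw [h0] at this
      exact this.symm
    · intro ht
      ext F
      rw [hφ1]
      exact (Submodule.mem_dualCoannihilator _).mp ht _ (s F).2
  · intro g x y hxy
    ext F
    rw [hφ1, tl_dual_act, hxy]
    have hX' : ρ.dual g⁻¹ (s F : Module.Dual k V) ∈ B := hB g⁻¹ _ (s F).2
    have h1 := heq g⁻¹ (s F) ⟨_, hX'⟩ rfl
    rw [hs'] at h1
    rw [← h1, hP]
    show _ = (ρ.dual g⁻¹ (s F : Module.Dual k V)) (x : V)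
    rw [tl_dual_act, inv_inv]

theorem weyl_of_dual_good [Module.Finite k V] (h : GoodFilt D ρ.dual ⊤) : WeylFilt D ρ ⊤ := by
  obtain ⟨N, hN0, hst, hl, hsup⟩ := h
  have hmono : Monotone N := by
    refine monotone_nat_of_le_succ fun i => ?_
    rcases hl i with h | ⟨n, h⟩
    · exact h.le
    · exact h.1
  obtain ⟨r, hr⟩ := monotone_stabilizes_iff_noetherian.mpr
    (inferInstance : IsNoetherian k (Module.Dual k V)) ⟨N, hmono⟩
  have hrtop : N r = ⊤ := by
    rw [← hsup]
    apply le_antisymm (le_iSup N r)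
    refine iSup_le fun i => ?_
    rcases le_total i r with hi | hi
    · exact hmono hi
    · exact (hr i hi).ge
  refine ⟨fun i => (N (r - i)).dualCoannihilator, ?_, ?_, ?_, ?_⟩
  · show (N (r - 0)).dualCoannihilator = ⊥
    rw [Nat.sub_zero, hrtop]
    rw [eq_bot_iff]
    intro t ht
    rw [Submodule.mem_bot, ← Module.forall_dual_apply_eq_zero_iff k]
    intro x
    exact (Submodule.mem_dualCoannihilator _).mp ht x Submodule.mem_top
  · intro i
    exact tl_stable_coann ρ _ (hst _)
  · intro i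
    by_cases hi : i < r
    · have e : r - i = (r - (i + 1)) + 1 := by omega
      show (N (r - i)).dualCoannihilator = (N (r - (i + 1))).dualCoannihilator ∨ ∃ n,
        IsLayer (D.indRep n).dual ρ (N (r - i)).dualCoannihilator
          (N (r - (i + 1))).dualCoannihilator
      rw [e]
      rcases hl (r - (i + 1)) with h | ⟨n, h⟩
      · left; rw [← h]
      · right
        exact ⟨n, tl_layer_coann ρ (D.indRep n) _ _ (hst _) h⟩
    · left
      have e : r - i = r - (i + 1) := by omega
      show (N (r - i)).dualCoannihilator = (N (r - (i + 1))).dualCoannihilator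
      rw [e]
  · apply eq_top_iff.mpr
    refine le_trans ?_ (le_iSup _ r)
    show ⊤ ≤ (N (r - r)).dualCoannihilator
    rw [Nat.sub_self, hN0]
    intro t _
    rw [Submodule.mem_dualCoannihilator]
    intro x hx
    rw [(Submodule.mem_bot k).mp hx]
    rfl

private theorem tl_good_prod {W : Type*} [AddCommGroup W] [Module k W] {σ : Representation k Γ W}
    [Module.Finite k V] [Module.Finite k W] (hfd : D.Fd) (hρ : D.IsRational ρ)
    (hσ : D.IsRational σ) (h1 : GoodFilt D ρ ⊤) (h2 : GoodFilt D σ ⊤) :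
    GoodFilt D (ρ.prod σ) ⊤ := by
  have hp := isRational_prod hρ hσ
  rw [goodFilt_iff hfd hp CSpan.of_finite]
  exact GoodIn.prod hρ hσ hp (GoodIn.of_filt hρ h1) (GoodIn.of_filt hσ h2)

private theorem tl_good_prod_dual {W : Type*} [AddCommGroup W] [Module k W]
    {σ : Representation k Γ W} [Module.Finite k V] [Module.Finite k W] (hfd : D.Fd)
    (hρ : D.IsRational ρ) (hσ : D.IsRational σ) (h1 : GoodFilt D ρ.dual ⊤)
    (h2 : GoodFilt D σ.dual ⊤) : GoodFilt D (ρ.prod σ).dual ⊤ := by
  have h3 := tl_good_prod (ρ := ρ.dual) (σ := σ.dual) hfd (isRational_dual hρ)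
    (isRational_dual hσ) h1 h2
  refine GoodFilt.equiv (Module.dualProdDualEquivDual k V W) ?_ h3
  rintro g ⟨f, f'⟩
  ext x
  · show (LinearMap.coprod (ρ.dual g f) (σ.dual g f')) (x, 0) =
      ((ρ.prod σ).dual g (LinearMap.coprod f f')) (x, 0)
    rw [tl_dual_act, LinearMap.coprod_apply]
    show (ρ.dual g f) x + (σ.dual g f') 0 = f (ρ g⁻¹ x) + f' (σ g⁻¹ 0)
    rw [tl_dual_act, tl_dual_act]
  · show (LinearMap.coprod (ρ.dual g f) (σ.dual g f')) (0, x) =
      ((ρ.prod σ).dual g (LinearMap.coprod f f')) (0, x)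
    rw [tl_dual_act, LinearMap.coprod_apply]
    show (ρ.dual g f) 0 + (σ.dual g f') x = f (ρ g⁻¹ 0) + f' (σ g⁻¹ x)
    rw [tl_dual_act, tl_dual_act]

private theorem tl_good_one (hfd : D.Fd) : GoodFilt D (Representation.trivial k Γ k) ⊤ :=
  (goodFilt_iff hfd isRational_trivial CSpan.of_finite).2 GoodIn.trivial'

private theorem tl_good_one_dual (hfd : D.Fd) :
    GoodFilt D (Representation.trivial k Γ k).dual ⊤ := by
  refine GoodFilt.equiv (LinearMap.ringLmapEquivSelf k k k).symm ?_ (tl_good_one hfd)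
  intro g v
  ext
  rfl

end

variable {k : Type u} [Field k] [Infinite k] {Γ : Type u} [Group Γ] {T X : Type*} [CommGroup T]
  [AddCommGroup X] {D : PG k Γ T X} {M : Type v} [AddCommGroup M] [Module k M]
  {σ : Representation k Γ M}

/-- finitely many tilting modules mapping to `M` can be combined to one -/
theorem exists_sum (hfd : D.Fd) (r : ℕ) (m : Fin r → M) (d : Fin r → X)
    (h : ∀ l, m l ≠ 0 → ∃ w : Wd k Γ, IsTop D w (d l) ∧
      ∃ θ : w.V →ₗ[k] M, IsEquiv w.ρ σ θ ∧ θ w.v = m l) :
    ∃ W : Wd k Γ, IsTilting D W.ρ ∧ ∃ θ : W.V →ₗ[k] M, IsEquiv W.ρ σ θ ∧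
      ∀ l, ∃ x : W.V, D.IsU W.ρ x ∧ D.IsWt W.ρ (d l) x ∧ θ x = m l := by
  have key : ∀ (r : ℕ) (m : Fin r → M) (d : Fin r → X)
      (_ : ∀ l, m l ≠ 0 → ∃ w : Wd k Γ, IsTop D w (d l) ∧
        ∃ θ : w.V →ₗ[k] M, IsEquiv w.ρ σ θ ∧ θ w.v = m l),
      ∃ W : Wd k Γ, (Module.Finite k W.V ∧ D.IsRational W.ρ ∧ GoodFilt D W.ρ ⊤ ∧
        GoodFilt D W.ρ.dual ⊤) ∧ ∃ θ : W.V →ₗ[k] M, IsEquiv W.ρ σ θ ∧
        ∀ l, ∃ x : W.V, D.IsU W.ρ x ∧ D.IsWt W.ρ (d l) x ∧ θ x = m l := by
    intro r
    induction r with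
    | zero =>
      intro m d _
      refine ⟨Wd.one k Γ, ⟨?_, ?_, ?_, ?_⟩, 0, ?_, fun l => l.elim0⟩
      · show Module.Finite k k
        infer_instance
      · exact isRational_trivial
      · exact tl_good_one hfd
      · exact tl_good_one_dual hfd
      intro g v
      rw [LinearMap.zero_apply, LinearMap.zero_apply, map_zero]
    | succ r ih =>
      intro m d h
      obtain ⟨W, ⟨hfin, hrat, hg, hgd⟩, θ, hθ, hx⟩ := ih (fun l => m l.castSucc)
        (fun l => d l.castSucc) (fun l hl => h l.castSucc hl)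
      by_cases hm : m (Fin.last r) = 0
      · refine ⟨W, ⟨hfin, hrat, hg, hgd⟩, θ, hθ, ?_⟩
        intro l
        refine Fin.lastCases ?_ (fun l => hx l) l
        refine ⟨0, fun u _ => map_zero _, isWt_zero _, ?_⟩
        rw [hm, map_zero]
      · obtain ⟨w, hw, θ', hθ', hv⟩ := h (Fin.last r) hm
        have h1 := hw.hw
        have h2 : GoodFilt D w.ρ ⊤ ∧ GoodFilt D w.ρ.dual ⊤ := ⟨hw.good, hw.good'⟩
        have hfin' := h1.fin
        refine ⟨⟨W.V × w.V, W.ρ.prod w.ρ, (0, 0), 0⟩, ⟨?_, ?_, ?_, ?_⟩, θ.coprod θ', ?_, ?_⟩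
        · show Module.Finite k (W.V × w.V)
          infer_instance
        · exact isRational_prod hrat h1.rational
        · exact tl_good_prod hfd hrat h1.rational hg h2.1
        · exact tl_good_prod_dual hfd hrat h1.rational hgd h2.2
        · rintro g ⟨x, y⟩
          show θ (W.ρ g x) + θ' (w.ρ g y) = σ g (θ x + θ' y)
          rw [hθ, hθ', map_add]
        · intro l
          refine Fin.lastCases ?_ (fun l => ?_) l
          · refine ⟨(0, w.v), fun u hu => ?_, fun z => ?_, ?_⟩
            · show (W.ρ u 0, w.ρ u w.v) = (0, w.v)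
              rw [map_zero, h1.hU u hu]
            · show (W.ρ (D.t z) 0, w.ρ (D.t z) w.v) = ((D.chi (d (Fin.last r)) z : k) • (0 : W.V),
                (D.chi (d (Fin.last r)) z : k) • w.v)
              rw [map_zero, smul_zero, h1.hw z]
            · show θ 0 + θ' w.v = m (Fin.last r)
              rw [map_zero, zero_add, hv]
          · obtain ⟨x, hx1, hx2, hx3⟩ := hx l
            refine ⟨(x, 0), fun u hu => ?_, fun z => ?_, ?_⟩
            · show (W.ρ u x, w.ρ u 0) = (x, 0)
              rw [map_zero, hx1 u hu]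
            · show (W.ρ (D.t z) x, w.ρ (D.t z) 0) = ((D.chi (d l.castSucc) z : k) • x,
                (D.chi (d l.castSucc) z : k) • (0 : w.V))
              rw [map_zero, smul_zero, hx2 z]
            · show θ x + θ' 0 = m l.castSucc
              rw [map_zero, add_zero, hx3]
  obtain ⟨W, ⟨hfin, hrat, hg, hgd⟩, θ, hθ, hx⟩ := key r m d h
  exact ⟨W, ⟨hfin, hrat, hg, weyl_of_dual_good hgd⟩, θ, hθ, hx⟩

end PG

end Pool.Agent.TRN
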