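import Pool.Agent.TRN.Cover
import Pool.Agent.TRN.Tilt
import Pool.Agent.TRN.FgU

/-!
# TRN / FINAL: tilting covers with good kernels for pinned groups

Reference (same proof, slightly simpler here): `Pool/Agent/Helper66/TR/Final.lean`. `fg_U` gives
generators `m_l` of `M^U` over `S^U`, `cover` gives for `m_l ≠ 0` tilting modules `w_l` with `θ_l w_l.v = m_l`,
`exists_sum` a tilting module `W` and `θ : W → M`. `φ (t ⊗ s) = s • θ t`. `GoodIn.ker` with `B = ⊤`, `C = ⊤` (`DM.tensor` for `W ⊗ S`):
a `U`-invariant `v ∈ M` of weight `a` is `∑ c_l • m_l`, `m_l = θ x_l`, and `∑ x_l ⊗ c_l` is a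
`U`-invariant of weight `a` mapped to `v`. So `φ` is surjective, `ker φ` is `GoodIn`, and
`GoodFilt.of_good` (`CSpan.tensor`, `CSpan.of_finiteType`) gives the filtration.
(The hypotheses `hDM`, `hT` come from `dm_of_fund`, `hasTop_of_fund` or from another route.)
-/

set_option autoImplicit false

namespace Pool.Agent.TRN

open Finset TensorProduct

universe u v w

namespace PG

variable {k : Type u} [Field k] [Infinite k] {Γ : Type u} [Group Γ] {T X : Type*} [CommGroup T]
  [AddCommGroup X] {D : PG k Γ T X}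

theorem tilting_cover (hfd : D.Fd) (hDM : DM D) (hT : HasTop D) (hG : GeomRed D) (hA : (AU D).FG)
    {S : Type v} {M : Type w} [CommRing S] [Algebra k S] [Algebra.FiniteType k S]
    [AddCommGroup M] [Module k M] [Module S M] [IsScalarTower k S M] [Module.Finite S M]
    (σ : Representation k Γ S) (ρ : Representation k Γ M) (hmul : IsMul σ)
    (hσ : D.IsRational σ) (hρ : D.IsRational ρ) (hM : IsEquivModule σ ρ)
    (gS : GoodFilt D σ ⊤) (gM : GoodFilt D ρ ⊤) :
    ∃ (W : Wd k Γ) (φ : W.V ⊗[k] S →ₗ[k] M), IsTilting D W.ρ ∧ Function.Surjective φ ∧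
      (∀ t s s', φ (t ⊗ₜ (s' * s)) = s' • φ (t ⊗ₜ s)) ∧
      (∀ g x, φ (W.ρ.tprod σ g x) = ρ g (φ x)) ∧
      GoodFilt D (W.ρ.tprod σ) (LinearMap.ker φ) := by
  obtain ⟨r, m, d, hm, hgen⟩ := fg_U hG hA σ ρ hmul hσ hρ hM
  obtain ⟨W, hWt, θ, hθ, hhit⟩ := exists_sum hfd r m d
    (fun l hl => cover hfd hDM hT hρ gM (hm l).1 (hm l).2 hl)
  have hks : ∀ (c : k) (s : S) (x : M), s • (c • x) = c • (s • x) := by
    intro c s x
    rw [← algebraMap_smul S c x, ← algebraMap_smul S c (s • x), smul_smul, smul_smul, mul_comm]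
  let φ : W.V ⊗[k] S →ₗ[k] M := TensorProduct.lift (LinearMap.mk₂ k (fun t s => s • θ t)
    (fun t t' s => by rw [map_add, smul_add])
    (fun c t s => by rw [map_smul, hks])
    (fun t s s' => by rw [add_smul])
    (fun c t s => by rw [smul_assoc]))
  have hφ : ∀ t s, φ (t ⊗ₜ s) = s • θ t := fun t s => rfl
  have hequiv : IsEquiv (W.ρ.tprod σ) ρ φ := by
    intro g x
    induction x using TensorProduct.induction_on with
    | zero => simp
    | add x y hx hy => rw [map_add, map_add, hx, hy, map_add, map_add]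
    | tmul t s =>
      rw [Representation.tprod_apply, TensorProduct.map_tmul, hφ, hφ, hθ, hM]
  have hTS : D.IsRational (W.ρ.tprod σ) := isRational_tprod hWt.rational hσ
  have gTS : GoodIn hTS ⊤ := hDM.tensor hWt.rational hσ hWt.good gS
  have hker0 := GoodIn.ker hTS hρ hequiv Stable.top gTS (C := ⊤) Stable.top le_top (by
      intro a c _ hcU hcW
      obtain ⟨b, hb, hcb⟩ := hgen a c hcU hcW
      choose τ hτU hτw hτ using hhit
      have hU : D.IsU (W.ρ.tprod σ) (∑ l, τ l ⊗ₜ[k] b l) := by
        intro u hu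
        rw [map_sum]
        apply sum_congr rfl
        intro l _
        rw [Representation.tprod_apply, TensorProduct.map_tmul, hτU l u hu, (hb l).1 u hu]
      have hW : D.IsWt (W.ρ.tprod σ) a (∑ l, τ l ⊗ₜ[k] b l) := by
        intro z
        rw [map_sum, smul_sum]
        apply sum_congr rfl
        intro l _
        rw [Representation.tprod_apply, TensorProduct.map_tmul, hτw l z, (hb l).2 z,
          TensorProduct.smul_tmul_smul, ← Units.val_mul, ← D.chi_add, add_sub_cancel]
      refine ⟨∑ l, τ l ⊗ₜ[k] b l, trivial, hU, hW, ?_⟩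
      rw [map_sum, hcb]
      apply sum_congr rfl
      intro l _
      rw [hφ, hτ])
  have hker : GoodIn hTS (LinearMap.ker φ) := by
    have h := hker0.2
    rwa [top_inf_eq] at h
  have hsurj : Function.Surjective φ := by
    intro x
    obtain ⟨y, -, hy⟩ := hker0.1 (Submodule.mem_top (x := x))
    exact ⟨y, hy⟩
  have hTf := hWt.finite
  have hc : CSpan k (W.V ⊗[k] S) := (CSpan.of_finite (k := k) (V := W.V)).tensor
    (CSpan.of_finiteType (k := k) (S := S))
  refine ⟨W, φ, hWt, hsurj, ?_, hequiv, GoodFilt.of_good hfd hTS (Stable.ker hequiv) hker hc⟩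
  intro t s s'
  rw [hφ, hφ, mul_smul]

end PG

end Pool.Agent.TRN
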