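import Pool.Agent.TRN.Ind

/-!
# TRN / CH1: from good filtrations to the hull criterion

General version of the first half of `Pool/Agent/Helper66/TR/Chain.lean` (same proofs) and of the
section `count` of `Pool/Agent/Helper66/TR/Final.lean` (`CSpan`, same proofs).
`GoodFilt.cspan`: every layer `N (i+1) / N i` is finite dimensional (`D.Fd`), so every `N i` is, and the
union has a countable spanning set.
-/

set_option autoImplicit false

namespace Pool.Agent.TRN

open Finset TensorProduct

/-- countable spanning sets -/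
def CSpan (k : Type*) [Field k] (V : Type*) [AddCommGroup V] [Module k V] : Prop :=
  ∃ s : Set V, s.Countable ∧ Submodule.span k s = ⊤

section count

variable {k : Type*} [Field k]

lemma CSpan.sub {V : Type*} [AddCommGroup V] [Module k V] (h : CSpan k V)
    (K : Submodule k V) : ∃ e : ℕ → V, (∀ i, e i ∈ K) ∧ K ≤ Submodule.span k (Set.range e) := by
  obtain ⟨s, hs, hs2⟩ := h
  have h1 : Module.rank k V ≤ Cardinal.aleph0 := by
    rw [← rank_top, ← hs2]
    exact (rank_span_le s).trans (Cardinal.le_aleph0_iff_set_countable.2 hs)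
  have h2 : Module.rank k K ≤ Cardinal.aleph0 := (Submodule.rank_le K).trans h1
  let b := Module.Basis.ofVectorSpace k K
  have h3 : Countable (Module.Basis.ofVectorSpaceIndex k K) := by
    rw [← Cardinal.mk_le_aleph0_iff, b.mk_eq_rank'']
    exact h2
  have h4 : (Set.range (fun i => ((b i : K) : V)) ∪ {0}).Countable :=
    (Set.countable_range _).union (Set.countable_singleton 0)
  obtain ⟨e, he⟩ := h4.exists_eq_range ⟨0, Or.inr rfl⟩
  refine ⟨e, fun i => ?_, ?_⟩
  · have : e i ∈ Set.range (fun i => ((b i : K) : V)) ∪ {0} := by rw [he]; exact ⟨i, rfl⟩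
    rcases this with ⟨j, hj⟩ | h0
    · rw [← hj]; exact (b j).2
    · rw [h0]; exact K.zero_mem
  · intro x hx
    rw [← he]
    have h5 : (⟨x, hx⟩ : K) ∈ Submodule.span k (Set.range b) := by rw [b.span_eq]; trivial
    have h6 : x ∈ (Submodule.span k (Set.range b)).map K.subtype := ⟨⟨x, hx⟩, h5, rfl⟩
    rw [Submodule.map_span] at h6
    apply Submodule.span_mono _ h6
    rintro _ ⟨_, ⟨j, rfl⟩, rfl⟩
    exact Or.inl ⟨j, rfl⟩

lemma CSpan.of_finite {V : Type*} [AddCommGroup V] [Module k V] [Module.Finite k V] :
    CSpan k V := by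
  obtain ⟨s, hs⟩ := (Module.Finite.fg_top : (⊤ : Submodule k V).FG)
  exact ⟨s, s.countable_toSet, hs⟩

lemma CSpan.of_finiteType {S : Type*} [CommRing S] [Algebra k S] [Algebra.FiniteType k S] :
    CSpan k S := by
  obtain ⟨n, f, hf⟩ := (Algebra.FiniteType.iff_quotient_mvPolynomial'' (R := k) (S := S)).1
    inferInstance
  refine ⟨Set.range (fun m : Fin n →₀ ℕ => f (MvPolynomial.monomial m 1)),
    Set.countable_range _, ?_⟩
  rw [eq_top_iff]
  intro x _
  obtain ⟨P, rfl⟩ := hf x
  rw [P.as_sum, map_sum]
  apply Submodule.sum_mem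
  intro m _
  have e : MvPolynomial.monomial m (P.coeff m) = P.coeff m • MvPolynomial.monomial m (1 : k) := by
    rw [MvPolynomial.smul_monomial, smul_eq_mul, mul_one]
  rw [e, map_smul]
  exact Submodule.smul_mem _ _ (Submodule.subset_span ⟨m, rfl⟩)

lemma CSpan.tensor {V W : Type*} [AddCommGroup V] [Module k V] [AddCommGroup W]
    [Module k W] (hV : CSpan k V) (hW : CSpan k W) : CSpan k (V ⊗[k] W) := by
  obtain ⟨s, hs, hs2⟩ := hV
  obtain ⟨t, ht, ht2⟩ := hW
  refine ⟨Set.image2 (fun a b => a ⊗ₜ[k] b) s t, hs.image2 ht _, ?_⟩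
  have h1 := Submodule.map₂_span_span k (TensorProduct.mk k V W) s t
  rw [hs2, ht2, TensorProduct.map₂_mk_top_top_eq_top] at h1
  exact h1.symm

lemma CSpan.of_surj {V W : Type*} [AddCommGroup V] [Module k V] [AddCommGroup W]
    [Module k W] (hV : CSpan k V) (f : V →ₗ[k] W) (hf : Function.Surjective f) : CSpan k W := by
  obtain ⟨s, hs, hs2⟩ := hV
  refine ⟨f '' s, hs.image _, ?_⟩
  rw [← Submodule.map_span, hs2, Submodule.map_top, LinearMap.range_eq_top.2 hf]

/-- finitely generated modules over a finitely generated algebra -/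
lemma CSpan.of_module {S M : Type*} [CommRing S] [Algebra k S] [Algebra.FiniteType k S]
    [AddCommGroup M] [Module k M] [Module S M] [IsScalarTower k S M] [Module.Finite S M] :
    CSpan k M := by
  obtain ⟨s, hs, hs2⟩ := CSpan.of_finiteType (k := k) (S := S)
  obtain ⟨t, ht⟩ := (Module.Finite.fg_top : (⊤ : Submodule S M).FG)
  refine ⟨Set.image2 (fun a m => a • m) s (t : Set M), hs.image2 t.countable_toSet _, ?_⟩
  set U : Submodule k M := Submodule.span k (Set.image2 (fun (a : S) (m : M) => a • m) s t) with hU
  rw [eq_top_iff]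
  rintro x -
  have hx : x ∈ Submodule.span S (t : Set M) := by rw [ht]; trivial
  have key : ∀ a : S, a • x ∈ U := by
    induction hx using Submodule.span_induction with
    | mem m hm =>
      intro a
      have h1 : (⊤ : Submodule k S) ≤
          U.comap ((LinearMap.toSpanSingleton S M m).restrictScalars k) := by
        rw [← hs2, Submodule.span_le]
        intro b hb
        exact Submodule.subset_span ⟨b, hb, m, hm, rfl⟩
      exact h1 (Submodule.mem_top (x := a))
    | zero => intro a; rw [smul_zero]; exact U.zero_mem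
    | add y z _ _ hy hz => intro a; rw [smul_add]; exact U.add_mem (hy a) (hz a)
    | smul b y _ hy => intro a; rw [smul_smul]; exact hy _
  simpa using key 1

end count

namespace PG

variable {k Γ T X : Type*} [Field k] [Infinite k] [Group Γ] [CommGroup T] [AddCommGroup X]
  {D : PG k Γ T X} {V : Type*} [AddCommGroup V] [Module k V] {ρ : Representation k Γ V}

lemma GoodIn.layer (hρ : D.IsRational ρ) {A B : Submodule k V} (hB : Stable ρ B) {a : X}
    (h : IsLayer (D.indRep a) ρ A B) (hA : GoodIn hρ A) : GoodIn hρ B := by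
  obtain ⟨hAB, f, hf1, hf2, hf3⟩ := h
  have hs := isRational_sub hρ hB
  have hf : IsEquiv (Pool.Agent.TRN.sub ρ hB) (D.indRep a) f := fun g x => hf3 g x _ rfl
  have hker : LinearMap.ker f = A.comap B.subtype := by
    ext x
    rw [LinearMap.mem_ker, hf2, Submodule.mem_comap]
    rfl
  have h1 : GoodIn hs (⊤ ⊓ LinearMap.ker f) := by
    rw [top_inf_eq, hker]
    exact GoodIn.comap_inj hs hρ (sub_isEquiv hB) B.injective_subtype
      (by rwa [Submodule.range_subtype]) hA
  have h2 : GoodIn (isRational_ind D a) (Submodule.map f ⊤) := by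
    rw [Submodule.map_top, LinearMap.range_eq_top.2 hf1]
    exact GoodIn.ind a
  have h3 := GoodIn.ext hs (isRational_ind D a) hf Stable.top h1 h2
  have h4 := GoodIn.map_inj hs hρ (sub_isEquiv hB) B.injective_subtype Stable.top h3
  rwa [Submodule.map_top, Submodule.range_subtype] at h4

theorem GoodIn.of_filt (hρ : D.IsRational ρ) {Y : Submodule k V} (h : GoodFilt D ρ Y) :
    GoodIn hρ Y := by
  obtain ⟨N, h0, hst, hstep, rfl⟩ := h
  have hle : ∀ i, N i ≤ N (i + 1) := by
    intro i
    rcases hstep i with h | ⟨n, h⟩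
    · exact h.le
    · exact h.1
  apply GoodIn.iSup hρ N (monotone_nat_of_le_succ hle)
  intro i
  induction i with
  | zero => rw [h0]; exact GoodIn.bot hρ
  | succ i ih =>
    rcases hstep i with h | ⟨n, h⟩
    · rwa [← h]
    · exact GoodIn.layer hρ (hst (i + 1)) h ih

lemma GoodFilt.stable {Y : Submodule k V} (h : GoodFilt D ρ Y) : Stable ρ Y := by
  obtain ⟨N, h0, hst, hstep, rfl⟩ := h
  exact Stable.iSup hst

theorem GoodFilt.cspan (hfd : D.Fd) {Y : Submodule k V} (h : GoodFilt D ρ Y) : CSpan k Y := by
  obtain ⟨N, h0, hst, hstep, rfl⟩ := h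
  have hfin : ∀ i, Module.Finite k (N i) := by
    intro i
    induction i with
    | zero => rw [h0]; infer_instance
    | succ i ih =>
      rcases hstep i with h | ⟨a, hAB, f, hf1, hf2, hf3⟩
      · rwa [← h]
      · have hker : LinearMap.ker f = (N i).comap (N (i + 1)).subtype := by
          ext x
          rw [LinearMap.mem_ker, hf2, Submodule.mem_comap]
          rfl
        have h1 : Module.Finite k (LinearMap.ker f) := by
          rw [hker]
          exact Module.Finite.equiv (Submodule.comapSubtypeEquivOfLe hAB).symm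
        have h2 : Module.Finite k (D.Ind a) := hfd a
        have h3 : Module.Finite k (N (i + 1) ⧸ LinearMap.ker f) :=
          Module.Finite.equiv (f.quotKerEquivRange).symm
        exact Module.Finite.of_submodule_quotient (LinearMap.ker f)
  have hfg : ∀ i, ∃ s : Finset V, Submodule.span k (s : Set V) = N i := fun i =>
    (Submodule.fg_iff_finiteDimensional (N i)).2 (hfin i)
  choose s hs using hfg
  have h1 : ⨆ i, N i = Submodule.span k (⋃ i, (s i : Set V)) := by
    rw [Submodule.span_iUnion]
    exact iSup_congr fun i => (hs i).symm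
  rw [h1]
  exact ⟨Subtype.val ⁻¹' (⋃ i, (s i : Set V)),
    (Set.countable_iUnion fun i => (s i).countable_toSet).preimage Subtype.val_injective,
    Submodule.span_span_coe_preimage⟩

end PG

end Pool.Agent.TRN
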