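import Pool.Agent.TRN.Chain1

/-!
# TRN / CH2: finite-dimensional good subspaces

General version of the second half of `Pool/Agent/Helper66/TR/Chain.lean` (`reach_top`) and of
`absorb` in `Pool/Agent/Helper66/TR/Chain2.lean` (same proofs, with `Opi π` instead of
`Pn (n+1)`, `a` maximal in `π` instead of `n`).

* `reach_top`: induction on `d ≥ dim (L ∩ wsp a)`. If the weight space is `0` then
  `L ≤ Opi (π \ {a})` (`mem_Opi_of_top`). Otherwise take `p ≠ 0` in it, a functional `lam` with
  `lam p = 1`, `L' = {v ∈ L | ∀ g, lam (wt a (ρ g v)) = 0}`; `v ↦ (g ↦ lam (wt a (ρ g⁻¹ v)))` is a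
  map `L → Ind a` (`top_fun`, last clause), surjective by `hw` (applied to `p`), with kernel `L'`;
  `L' ∩ Opi (π \ {a}) = L ∩ Opi (π \ {a})` and `hw` holds for `L'`. The layer is `L / L' ≅ Ind a`.
* `absorb`: induction on the cardinality of `π`. `π = ∅`: `X ≤ Opi ∅ = 0`. Otherwise let `a ∈ π` be
  maximal (`Sat.exists_max` with `∅ ⊆ π`), `P = X ∩ wsp a`, `b_j` a basis of `P`, `F_i` a basis of
  `Ind a` (`hfd`); the `b_j` are `U`-invariant (`top_isU`), `GoodIn K` gives
  `w_ij ∈ K ∩ Opi (down a)` with `wt a (ρ g⁻¹ w_ij) = F_i(g) b_j`. `L2 = X + ∑ span(Γ w_ij)` is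
  stable, finite dimensional, in `K ∩ Opi π` (`down a ⊆ π`), and `wt a` maps `L2` into `P`.
  Induction hypothesis for `L2 ∩ Opi (π \ {a})` gives `L1`; take `L = L1 + L2`:
  `L ∩ Opi (π \ {a}) = L1` (modular law), `reach_top` for `L`.
-/

set_option autoImplicit false

namespace Pool.Agent.TRN

open Finset TensorProduct

namespace PG

section

variable {k Γ T X : Type*} [Field k] [Group Γ] [CommGroup T] [AddCommGroup X]
  (D : PG k Γ T X) {V : Type*} [AddCommGroup V] [Module k V]

/-- one step of a good filtration; the layer is a nonzero induced module -/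
def GStep (ρ : Representation k Γ V) (A B : Submodule k V) : Prop :=
  Stable ρ A ∧ Stable ρ B ∧ ∃ a, D.dom a = a ∧ (∃ v ∈ B, v ≠ 0 ∧ D.IsWt ρ a v) ∧
    IsLayer (D.indRep a) ρ A B

/-- a finite good filtration -/
def Reach (ρ : Representation k Γ V) : Submodule k V → Submodule k V → Prop :=
  Relation.ReflTransGen (D.GStep ρ)

end

variable {k Γ T X : Type*} [Field k] [Infinite k] [Group Γ] [CommGroup T] [AddCommGroup X]
  {D : PG k Γ T X} {V : Type*} [AddCommGroup V] [Module k V] {ρ : Representation k Γ V}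

lemma Reach.le {A B : Submodule k V} (h : D.Reach ρ A B) : A ≤ B := by
  induction h with
  | refl => exact le_rfl
  | tail _ h ih =>
    obtain ⟨a, _, _, hl⟩ := h.2.2
    exact ih.trans hl.1

lemma Reach.stable {A B : Submodule k V} (h : D.Reach ρ A B) (hA : Stable ρ A) : Stable ρ B := by
  cases h with
  | refl => exact hA
  | tail _ h => exact h.2.1

lemma Reach.good (hρ : D.IsRational ρ) {A B : Submodule k V} (h : D.Reach ρ A B)
    (hA : GoodIn hρ A) : GoodIn hρ B := by
  induction h with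
  | refl => exact hA
  | tail _ h ih =>
    obtain ⟨a, _, _, hl⟩ := h.2.2
    exact GoodIn.layer hρ h.2.1 hl ih

private lemma exists_dual_eq_one {v : V} (hv : v ≠ 0) : ∃ lam : V →ₗ[k] k, lam v = 1 := by
  have h := mt (Module.forall_dual_apply_eq_zero_iff k v).1 hv
  push Not at h
  obtain ⟨f, hf⟩ := h
  exact ⟨(f v)⁻¹ • f, by simp [hf]⟩

theorem reach_top (hρ : D.IsRational ρ) {π : Set X} {a : X} (ha : D.dom a = a)
    (hmax : ∀ b ∈ π, D.Le a b → b = a) : ∀ (d : ℕ) (L : Submodule k V), Stable ρ L →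
    Module.Finite k L → L ≤ Opi hρ π →
    Module.finrank k (L ⊓ wsp D ρ a : Submodule k V) ≤ d →
    (∀ v ∈ L, D.IsWt ρ a v → ∀ F ∈ D.Ind a, ∃ w ∈ L, ∀ g, wt hρ a (ρ g⁻¹ w) = F g • v) →
    D.Reach ρ (L ⊓ Opi hρ (π \ {a})) L := by
  intro d
  induction d with
  | zero =>
    intro L hL hfin hLn hd hw
    have hLfin : Module.Finite k (L ⊓ wsp D ρ a : Submodule k V) :=
      Submodule.finiteDimensional_inf_left L (wsp D ρ a)
    have h1 : L ⊓ wsp D ρ a = ⊥ := by
      rw [Nat.le_zero, Submodule.finrank_eq_zero] at hd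
      exact hd
    have h2 : L ≤ Opi hρ (π \ {a}) := by
      intro v hv
      apply mem_Opi_of_top hρ ha (hLn hv)
      intro g
      have : wt hρ a (ρ g v) ∈ L ⊓ wsp D ρ a :=
        ⟨wt_mem hρ hL (hL g v hv) a, wt_isWt hρ _ _⟩
      rw [h1] at this
      exact this
    rw [inf_eq_left.2 h2]
    exact Relation.ReflTransGen.refl
  | succ d ih =>
    intro L hL hfin hLn hd hw
    have hLfin : Module.Finite k (L ⊓ wsp D ρ a : Submodule k V) :=
      Submodule.finiteDimensional_inf_left L (wsp D ρ a)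
    by_cases h0 : L ⊓ wsp D ρ a = ⊥
    · exact ih L hL hfin hLn (by rw [h0]; simp) hw
    obtain ⟨p, ⟨hp1, hp2⟩, hp0⟩ := Submodule.exists_mem_ne_zero_of_ne_bot h0
    obtain ⟨lam, hlam⟩ := exists_dual_eq_one (k := k) hp0
    -- the kernel of the map to the induced module
    let L' : Submodule k V :=
      { carrier := {v | v ∈ L ∧ ∀ g, lam (wt hρ a (ρ g v)) = 0}
        add_mem' := fun ha hb => ⟨L.add_mem ha.1 hb.1, fun g => by
          rw [map_add, map_add, map_add, ha.2, hb.2, add_zero]⟩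
        zero_mem' := ⟨L.zero_mem, fun g => by rw [map_zero, map_zero, map_zero]⟩
        smul_mem' := fun c v hv => ⟨L.smul_mem c hv.1, fun g => by
          rw [map_smul, map_smul, map_smul, hv.2, smul_zero]⟩ }
    have hL'L : L' ≤ L := fun v hv => hv.1
    have hL' : Stable ρ L' := fun g v hv => ⟨hL g v hv.1, fun h => by
      rw [← mul_apply']; exact hv.2 _⟩
    have hL'fin : Module.Finite k L' := Submodule.finiteDimensional_of_le hL'L
    have hnot : D.dom a ∉ π \ {a} := by
      rw [ha]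
      exact fun h => h.2 rfl
    have hinf : L' ⊓ Opi hρ (π \ {a}) = L ⊓ Opi hρ (π \ {a}) := by
      apply le_antisymm (inf_le_inf_right _ hL'L)
      rintro v ⟨h1, h2⟩
      refine ⟨⟨h1, fun g => ?_⟩, h2⟩
      rw [(mem_Opi hρ).1 h2 g a hnot, map_zero]
    have hw' : ∀ v ∈ L', D.IsWt ρ a v → ∀ F ∈ D.Ind a, ∃ w ∈ L', ∀ g,
        wt hρ a (ρ g⁻¹ w) = F g • v := by
      intro v hv hvw F hF
      obtain ⟨w, w1, w2⟩ := hw v hv.1 hvw F hF
      refine ⟨w, ⟨w1, fun g => ?_⟩, w2⟩
      have h2 := w2 g⁻¹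
      rw [inv_inv] at h2
      rw [h2, map_smul]
      have h1 := hv.2 1
      rw [map_one] at h1
      change lam (wt hρ a v) = 0 at h1
      rw [wt_self hρ hvw] at h1
      rw [h1, smul_zero]
    have hlt : Module.finrank k (L' ⊓ wsp D ρ a : Submodule k V) <
        Module.finrank k (L ⊓ wsp D ρ a : Submodule k V) := by
      apply Submodule.finrank_lt_finrank_of_lt
      apply lt_of_le_of_ne (inf_le_inf_right _ hL'L)
      intro h
      have : p ∈ L' ⊓ wsp D ρ a := by rw [h]; exact ⟨hp1, hp2⟩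
      have h1 := this.1.2 1
      rw [map_one] at h1
      change lam (wt hρ a p) = 0 at h1
      rw [wt_self hρ hp2, hlam] at h1
      exact one_ne_zero h1
    have hR := ih L' hL' hL'fin (hL'L.trans hLn) (by omega) hw'
    rw [hinf] at hR
    refine hR.tail ⟨hL', hL, a, ha, ⟨p, hp1, hp0, hp2⟩, hL'L, ?_⟩
    have hmem : ∀ x ∈ L, (fun g => lam (wt hρ a (ρ g⁻¹ x))) ∈ D.Ind a := by
      intro x hx
      obtain ⟨m, F, u, -, -, -, -, -, h7⟩ := top_fun hρ ha hmax (hLn hx)
      exact h7 lam
    -- the map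
    let f : L →ₗ[k] D.Ind a :=
      { toFun := fun x => ⟨fun g => lam (wt hρ a (ρ g⁻¹ x)), hmem x x.2⟩
        map_add' := fun x y => by
          apply Subtype.ext; funext g
          change lam (wt hρ a (ρ g⁻¹ ((x : V) + y))) = lam (wt hρ a (ρ g⁻¹ x)) +
            lam (wt hρ a (ρ g⁻¹ y))
          rw [map_add, map_add, map_add]
        map_smul' := fun c x => by
          apply Subtype.ext; funext g
          change lam (wt hρ a (ρ g⁻¹ (c • (x : V)))) = c • lam (wt hρ a (ρ g⁻¹ x))
          rw [map_smul, map_smul, map_smul] }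
    have hf : ∀ (x : L) (g : Γ), (f x).1 g = lam (wt hρ a (ρ g⁻¹ x)) := fun _ _ => rfl
    refine ⟨f, ?_, ?_, ?_⟩
    · intro F
      obtain ⟨w, w1, w2⟩ := hw p hp1 hp2 F.1 F.2
      refine ⟨⟨w, w1⟩, ?_⟩
      apply Subtype.ext
      funext g
      rw [hf, w2, map_smul, hlam, smul_eq_mul, mul_one]
    · intro x
      constructor
      · intro h
        refine ⟨x.2, fun g => ?_⟩
        have h1 := congrArg (fun F : D.Ind a => F.1 g⁻¹) h
        beta_reduce at h1
        rw [hf, inv_inv] at h1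
        exact h1
      · intro h
        apply Subtype.ext
        funext g
        rw [hf]
        exact h.2 _
    · intro g x y hy
      apply Subtype.ext
      funext h
      change (f y).1 h = (f x).1 (g⁻¹ * h)
      rw [hf, hf, hy, ← mul_apply', mul_inv_rev, inv_inv]

/-- the stable subspace generated by a vector -/
private def hl (ρ : Representation k Γ V) (v : V) : Submodule k V :=
  Submodule.span k (Set.range fun g => ρ g v)

private lemma hl_stable (ρ : Representation k Γ V) (v : V) : Stable ρ (hl ρ v) := by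
  intro g w hw
  have : hl ρ v ≤ (hl ρ v).comap (ρ g) := by
    unfold hl
    rw [Submodule.span_le]
    rintro _ ⟨h, rfl⟩
    change ρ g (ρ h v) ∈ Submodule.span k (Set.range fun g => ρ g v)
    rw [← mul_apply']
    exact Submodule.subset_span ⟨g * h, rfl⟩
  exact this hw

private lemma mem_hl (ρ : Representation k Γ V) (v : V) : v ∈ hl ρ v :=
  Submodule.subset_span ⟨1, by simp⟩

private lemma hl_le {Y : Submodule k V} (hY : Stable ρ Y) {v : V} (hv : v ∈ Y) :
    hl ρ v ≤ Y := by
  unfold hl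
  rw [Submodule.span_le]
  rintro _ ⟨h, rfl⟩
  exact hY h v hv

private lemma hl_finite (hρ : D.IsRational ρ) (v : V) : Module.Finite k (hl ρ v) := by
  obtain ⟨m, f, w, -, h⟩ := hρ v
  have h1 : hl ρ v ≤ Submodule.span k (Set.range w) := by
    unfold hl
    rw [Submodule.span_le]
    rintro _ ⟨g, rfl⟩
    have h3 : ρ g v = ∑ i, f i g • w i := h g
    beta_reduce
    rw [h3]
    exact Submodule.sum_mem _ fun i _ =>
      Submodule.smul_mem _ _ (Submodule.subset_span ⟨i, rfl⟩)
  have h2 : Module.Finite k (Submodule.span k (Set.range w)) :=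
    FiniteDimensional.span_of_finite k (Set.finite_range w)
  exact Submodule.finiteDimensional_of_le h1

theorem absorb (hfd : D.Fd) (hρ : D.IsRational ρ) {K : Submodule k V} (hK : Stable ρ K)
    (hG : GoodIn hρ K) : ∀ (m : ℕ) (π : Set X), π.Finite → D.Sat π → π.ncard ≤ m →
    ∀ Y : Submodule k V, Stable ρ Y → Module.Finite k Y → Y ≤ K ⊓ Opi hρ π →
      ∃ L : Submodule k V, Stable ρ L ∧ Module.Finite k L ∧ Y ≤ L ∧ L ≤ K ⊓ Opi hρ π ∧
        D.Reach ρ ⊥ L := by
  have hempty : ∀ π : Set X, π = ∅ → ∀ Y : Submodule k V, Y ≤ K ⊓ Opi hρ π →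
      ∃ L : Submodule k V, Stable ρ L ∧ Module.Finite k L ∧ Y ≤ L ∧ L ≤ K ⊓ Opi hρ π ∧
        D.Reach ρ ⊥ L := by
    rintro π rfl Y hle
    refine ⟨⊥, Stable.bot, inferInstance, ?_, bot_le, Relation.ReflTransGen.refl⟩
    rw [Opi_empty] at hle
    exact hle.trans inf_le_right
  intro m
  induction m with
  | zero =>
    intro π hπf _ hcard Y _ _ hle
    exact hempty π ((Set.ncard_eq_zero hπf).1 (Nat.le_zero.1 hcard)) Y hle
  | succ m ih =>
    intro π hπf hS hcard Y hY hfin hle
    by_cases hπ : π = ∅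
    · exact hempty π hπ Y hle
    obtain ⟨a, haπ, -, hmax, hSa, -⟩ := Sat.exists_max D (sat_empty D) hS hπf
      (Set.empty_subset _) (Ne.symm hπ)
    have ha : D.dom a = a := hS.1 a haπ
    have hdown : D.down a ⊆ π := fun b hb => hS.2 a haπ b hb.1 hb.2
    have hnot : D.dom a ∉ π \ {a} := by
      rw [ha]
      exact fun h => h.2 rfl
    have hPfin : Module.Finite k (Y ⊓ wsp D ρ a : Submodule k V) :=
      Submodule.finiteDimensional_inf_left Y (wsp D ρ a)
    set P : Submodule k V := Y ⊓ wsp D ρ a with hP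
    let b := Module.finBasis k P
    have hIf : Module.Finite k (D.Ind a) := hfd a
    let F := Module.finBasis k (D.Ind a)
    have hex : ∀ (j : Fin (Module.finrank k P)) (i : Fin (Module.finrank k (D.Ind a))), ∃ w ∈ K,
        w ∈ Opi hρ (D.down a) ∧ ∀ g, wt hρ a (ρ g⁻¹ w) = (F i).1 g • ((b j : P) : V) := by
      intro j i
      have h1 : ((b j : P) : V) ∈ Y := (b j).2.1
      exact hG a (b j) (hle h1).1 (top_isU hρ ha hmax (hle h1).2 (b j).2.2) (b j).2.2 (F i).1
        (F i).2
    choose w w1 w2 w3 using hex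
    set L2 : Submodule k V := Y ⊔ ⨆ q : Fin (Module.finrank k P) ×
      Fin (Module.finrank k (D.Ind a)), hl ρ (w q.1 q.2) with hL2
    have hL2s : Stable ρ L2 := hY.sup (Stable.iSup fun q => hl_stable ρ _)
    have hL2f : Module.Finite k L2 := by
      have : ∀ q : Fin (Module.finrank k P) × Fin (Module.finrank k (D.Ind a)),
        Module.Finite k (hl ρ (w q.1 q.2)) := fun q => hl_finite hρ _
      infer_instance
    have hL2K : L2 ≤ K ⊓ Opi hρ π := by
      apply sup_le hle
      apply iSup_le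
      intro q
      exact hl_le (hK.inf (Opi_stable hρ _)) ⟨w1 _ _, Opi_mono hρ hdown (w2 _ _)⟩
    have hwt : L2 ≤ P.comap (wt hρ a) := by
      apply sup_le
      · intro x hx
        exact ⟨wt_mem hρ hY hx a, wt_isWt hρ a x⟩
      · apply iSup_le
        intro q
        unfold hl
        rw [Submodule.span_le]
        rintro _ ⟨g, rfl⟩
        change wt hρ a (ρ g (w q.1 q.2)) ∈ P
        have h2 := w3 q.1 q.2 g⁻¹
        rw [inv_inv] at h2
        rw [h2]
        exact P.smul_mem _ (b q.1).2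
    have hPL : ∀ v ∈ P, ∀ H ∈ D.Ind a, ∃ u ∈ L2, ∀ g, wt hρ a (ρ g⁻¹ u) = H g • v := by
      intro v hv H hH
      have h1 := b.sum_repr ⟨v, hv⟩
      have h2 : v = ∑ j, b.repr ⟨v, hv⟩ j • ((b j : P) : V) := by
        have h3 := congrArg (fun x : P => (x : V)) h1
        simp only [Submodule.coe_sum, Submodule.coe_smul] at h3
        exact h3.symm
      have h4 := F.sum_repr ⟨H, hH⟩
      have h5 : ∀ g, H g = ∑ i, F.repr ⟨H, hH⟩ i * (F i).1 g := by
        intro g
        have h3 := congrArg (fun x : D.Ind a => (x : Γ → k) g) h4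
        simp only [Submodule.coe_sum, Submodule.coe_smul, Finset.sum_apply, Pi.smul_apply,
          smul_eq_mul] at h3
        exact h3.symm
      refine ⟨∑ j, ∑ i, (b.repr ⟨v, hv⟩ j * F.repr ⟨H, hH⟩ i) • w j i, ?_, ?_⟩
      · apply L2.sum_mem
        intro j _
        apply L2.sum_mem
        intro i _
        apply L2.smul_mem
        apply Submodule.mem_sup_right
        exact Submodule.mem_iSup_of_mem (j, i) (mem_hl ρ _)
      · intro g
        conv_rhs => rw [h2]
        rw [map_sum, map_sum, Finset.smul_sum]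
        apply sum_congr rfl
        intro j _
        rw [map_sum, map_sum, h5 g, Finset.sum_smul]
        apply sum_congr rfl
        intro i _
        rw [map_smul, map_smul, w3, smul_smul, smul_smul]
        congr 1
        ring
    obtain ⟨L1, hL1s, hL1f, hL1X, hL1K, hL1R⟩ := ih (π \ {a}) (hπf.subset Set.sdiff_subset) hSa
      (by
        have := Set.ncard_diff_singleton_of_mem haπ
        omega) (L2 ⊓ Opi hρ (π \ {a})) (hL2s.inf (Opi_stable hρ _))
      (Submodule.finiteDimensional_inf_left L2 _)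
      (le_inf (inf_le_left.trans (hL2K.trans inf_le_left)) inf_le_right)
    refine ⟨L1 ⊔ L2, hL1s.sup hL2s, inferInstance, ?_, ?_, ?_⟩
    · exact le_sup_left.trans le_sup_right
    · apply sup_le _ hL2K
      exact le_inf (hL1K.trans inf_le_left) ((hL1K.trans inf_le_right).trans
        (Opi_mono hρ Set.sdiff_subset))
    · have hLP : L1 ⊔ L2 ≤ Opi hρ π := sup_le ((hL1K.trans inf_le_right).trans
        (Opi_mono hρ Set.sdiff_subset)) (hL2K.trans inf_le_right)
      have h1 := reach_top hρ ha hmax _ (L1 ⊔ L2) (hL1s.sup hL2s) inferInstance hLP le_rfl (by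
        intro v hv hvw H hH
        obtain ⟨x, hx, y, hy, hxy⟩ := Submodule.mem_sup.1 hv
        have h2 : v ∈ P := by
          rw [← wt_self hρ hvw, ← hxy, map_add, Opi_wt hρ (hL1K hx).2 hnot, zero_add]
          exact hwt hy
        obtain ⟨u, u1, u2⟩ := hPL v h2 H hH
        exact ⟨u, Submodule.mem_sup_right u1, u2⟩)
      have h2 : (L1 ⊔ L2) ⊓ Opi hρ (π \ {a}) = L1 := by
        rw [sup_inf_assoc_of_le L2 (hL1K.trans inf_le_right)]
        exact sup_eq_left.2 hL1X
      rw [h2] at h1
      exact hL1R.trans h1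

end PG

end Pool.Agent.TRN
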