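import Pool.Agent.TRN.WdDefs

/-!
# TRN / COVER: every `U`-invariant is the image of the generator of a tilting module

Let `M` be good and `m ∈ M` a nonzero `U`-invariant of weight `a` (so `dom a = a`, `isU_mem`). Let
`w` be a tilting module of weight `a` (`hT`), `d` its data (`IsTop.hw`), `Q = w.dual` (`Q.V = Module.Dual k w.V`),
`n0 = D.n0`, `b = -D.w0 a`.
* For `g`, let `Ev : Q.V → k`, `Ev q = q (ρ n0 w.v)`. It is `Um`-invariant (`n0_Um`, `d.hU`) and of
  weight `b` (`n0_t`: `t z * n0 = n0 * t (s z)`, so `ρ ((t z)⁻¹) ρ n0 v = ρ n0 ρ (t (s z))⁻¹ v =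
  χ_{w0 a}(z)⁻¹ ρ n0 v`). `exists_frob` gives `π : Q.V → Ind b`, `(π q).1 g = q (ρ (g * n0) w.v)`.
* `q0 = xi ∘ ρ n0⁻¹` is `U`-invariant (`n0_U`, `d.xiU`) of weight `b` in `Q` and `(π q0).1 1 = 1`. As in
  `top_ind` in `TopInd.lean` (`GoodIn.ker`, `ind_U`, `ind_top`, `Q` good by `IsTop.good'`): `π` is
  surjective and `K = ker π` is good.
* `K ⊗ M` is good (`DM.tensor`; `K` is finite dimensional, `goodFilt_iff`, `GoodIn.sub_iff`), so
  the kernel of `π ⊗ id : Q ⊗ M → Ind b ⊗ M`, which is the image of `K ⊗ M` (`rTensor_exact`), is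
  good (`GoodIn.map_inj`).
* `Ξ g = σ (g * n0) m` is regular; with `IsReg.indep`, `Ξ g = ∑ f_i(g) m_i`, `f_i = ξ_i ∘ Ξ` is in
  `Ind b`: `Ξ (g * (u * t z)) = σ g (σ u (σ n0 (σ (t (s z)) m))) = χ_{w0 a}(z) • Ξ g` for `u ∈ Um`.
  `c = ∑ f_i ⊗ m_i` is fixed by the group: the map `Ind b ⊗ M → (Γ → M)`,
  `f ⊗ y ↦ (g ↦ f g • y)` is injective and maps `(h, h) c` to `g ↦ σ h (Ξ (h⁻¹ g)) = Ξ g`.
* `lift_inv` gives a fixed `e ∈ Q ⊗ M` with `(π ⊗ id) e = c`. Let `θ = dualTensorHom k w.V M e`.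
  `e` fixed implies `θ (ρ h x) = σ h (θ x)` (on pure tensors
  `dualTensorHom ((h,h) (q ⊗ y)) x = σ h (dualTensorHom (q ⊗ y) (ρ h⁻¹ x))`); and
  `Ξ g = θ (ρ (g * n0) w.v)` for all `g`; `g = n0⁻¹`: `θ w.v = m`.
-/

set_option autoImplicit false

namespace Pool.Agent.TRN

open Finset TensorProduct

universe u v w

namespace PG

variable {k : Type u} [Field k] [Infinite k] {Γ : Type u} [Group Γ] {T X : Type*} [CommGroup T]
  [AddCommGroup X] {D : PG k Γ T X} {M : Type v} [AddCommGroup M] [Module k M]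
  {σ : Representation k Γ M}

/-- the evaluation map `Ind a ⊗ M → (Γ → M)` -/
noncomputable def evm (D : PG k Γ T X) (M : Type v) [AddCommGroup M] [Module k M] (a : X) :
    D.Ind a ⊗[k] M →ₗ[k] (Γ → M) :=
  LinearMap.pi fun g => TensorProduct.lift
    ((LinearMap.lsmul k M) ∘ₗ ((LinearMap.proj g) ∘ₗ (D.Ind a).subtype))

omit [Infinite k] in
lemma evm_tmul {a : X} (F : D.Ind a) (y : M) (g : Γ) : evm D M a (F ⊗ₜ[k] y) g = F.1 g • y := rfl

omit [Infinite k] in
lemma cov_inj {a : X} : Function.Injective (evm D M a) := by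
  rw [injective_iff_map_eq_zero]
  intro x hx
  obtain ⟨b, rfl⟩ := TensorProduct.eq_repr_basis_right (Module.Basis.ofVectorSpace k M) x
  have h0 : b = 0 := by
    ext i g
    by_cases hi : i ∈ b.support
    · have hli := linearIndependent_iff'.1 (Module.Basis.ofVectorSpace k M).linearIndependent
        b.support (fun i => (b i).1 g) (by
          have h1 := congrFun hx g
          rw [Finsupp.sum, map_sum, Finset.sum_apply] at h1
          simp only [evm_tmul] at h1
          exact h1) i hi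
      simpa using hli
    · rw [Finsupp.notMem_support_iff] at hi
      rw [hi]
      rfl
  rw [h0, Finsupp.sum_zero_index]

omit [Infinite k] in
lemma evm_equiv {a : X} (h : Γ) (x : D.Ind a ⊗[k] M) (g : Γ) :
    evm D M a (((D.indRep a).tprod σ) h x) g = σ h (evm D M a x (h⁻¹ * g)) := by
  induction x using TensorProduct.induction_on with
  | zero => simp
  | tmul F y =>
    rw [Representation.tprod_apply, TensorProduct.map_tmul, evm_tmul, evm_tmul, map_smul]
    rfl
  | add x y hx hy =>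
    rw [map_add, map_add, map_add, Pi.add_apply, Pi.add_apply, hx, hy, map_add]

omit [Infinite k] in
lemma n0_t_inv (D : PG k Γ T X) (a : X) (z : T) : ∃ z' : T, (D.t z)⁻¹ * D.n0 = D.n0 * D.t z' ∧
    D.n0⁻¹ * (D.t z)⁻¹ = D.t z' * D.n0⁻¹ ∧ D.chi a z' = D.chi (-D.w0 a) z := by
  obtain ⟨s, hs⟩ := D.n0_t
  have h1 : (D.t z)⁻¹ * D.n0 = D.n0 * D.t (s z⁻¹) := by
    rw [← map_inv]
    exact (hs z⁻¹).1
  refine ⟨s z⁻¹, h1, ?_, ?_⟩
  · have h2 : D.n0⁻¹ * ((D.t z)⁻¹ * D.n0) * D.n0⁻¹ = D.n0⁻¹ * (D.n0 * D.t (s z⁻¹)) * D.n0⁻¹ := by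
      rw [h1]
    simpa [mul_assoc] using h2
  · rw [(hs z⁻¹).2 a, chi_neg, map_inv]

/-- the map from the dual of a tilting module onto an induced module: surjective with good kernel -/
theorem dual_top_ind (hfd : D.Fd) {w : Wd k Γ} {a : X} (h : IsTop D w a)
    (hd : D.IsRational w.dual.ρ) :
    ∃ π : w.dual.V →ₗ[k] D.Ind (-D.w0 a), IsEquiv w.dual.ρ (D.indRep (-D.w0 a)) π ∧
      (∀ (q : Module.Dual k w.V) g, (π q).1 g = q (w.ρ (g * D.n0) w.v)) ∧
      Function.Surjective π ∧ GoodIn hd (LinearMap.ker π) := by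
  have d := h.hw
  let ξ : w.dual.V →ₗ[k] k := Module.Dual.eval k w.V (w.ρ D.n0 w.v)
  have hξ : ∀ (g : Γ) (q : Module.Dual k w.V), ξ (w.dual.ρ g q) = q (w.ρ g⁻¹ (w.ρ D.n0 w.v)) :=
    fun g q => rfl
  have h1 : ∀ u ∈ D.Um, ∀ q, ξ (w.dual.ρ u q) = ξ q := by
    intro u hu q
    have h2 := n0_Um (D := D) (D.Um.inv_mem hu)
    have h3 := d.hU _ h2
    rw [hξ]
    change (show Module.Dual k w.V from q) _ = (show Module.Dual k w.V from q) _
    congr 1
    rw [← mul_apply', show u⁻¹ * D.n0 = D.n0 * (D.n0⁻¹ * u⁻¹ * D.n0) by group, mul_apply', h3]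
  have h2 : ∀ z q, ξ (w.dual.ρ (D.t z) q) = D.chi (-D.w0 a) z * ξ q := by
    intro z q
    obtain ⟨z', hz1, -, hz2⟩ := n0_t_inv D a z
    rw [hξ, ← mul_apply', hz1, mul_apply', d.hw z', hz2, map_smul]
    exact (map_smul (show Module.Dual k w.V from q) _ _)
  obtain ⟨π, hπ, hπv⟩ := exists_frob hd ξ h1 h2
  have hπ' : ∀ (q : Module.Dual k w.V) g, (π q).1 g = q (w.ρ (g * D.n0) w.v) := by
    intro q g
    rw [hπv, hξ, inv_inv, ← mul_apply']
  let q0 : w.dual.V := (w.xi ∘ₗ (w.ρ D.n0⁻¹) : Module.Dual k w.V)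
  have hq0 : ∀ (g : Γ) (x : w.V), (show Module.Dual k w.V from w.dual.ρ g q0) x =
      w.xi (w.ρ (D.n0⁻¹ * g⁻¹) x) := by
    intro g x
    rw [mul_apply']
    rfl
  have hq0' : ∀ x : w.V, (show Module.Dual k w.V from q0) x = w.xi (w.ρ D.n0⁻¹ x) :=
    fun x => rfl
  have hq0U : D.IsU w.dual.ρ q0 := by
    intro u hu
    refine LinearMap.ext fun x => ?_
    refine (hq0 u x).trans ?_
    have h3 := n0_U (D := D) (D.U.inv_mem hu)
    rw [show D.n0⁻¹ * u⁻¹ = (D.n0⁻¹ * u⁻¹ * D.n0) * D.n0⁻¹ by group, mul_apply', d.xiU _ h3]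
    rfl
  have hq0w : D.IsWt w.dual.ρ (-D.w0 a) q0 := by
    intro z
    refine LinearMap.ext fun x => ?_
    refine (hq0 _ x).trans ?_
    obtain ⟨z', -, hz1, hz2⟩ := n0_t_inv D a z
    rw [hz1, mul_apply', d.xit, hz2]
    rfl
  have hq01 : (π q0).1 1 = 1 := by
    rw [hπ' (show Module.Dual k w.V from q0), one_mul]
    exact (hq0' _).trans (by rw [inv_apply_self, d.xiv])
  have hG : GoodIn hd ⊤ := GoodIn.of_filt hd h.good'
  have key := GoodIn.ker hd (isRational_ind D (-D.w0 a)) hπ Stable.top hG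
    (C := ⊤) Stable.top le_top (by
      intro a' c _ hcU hcw
      by_cases hc0 : c = 0
      · exact ⟨0, Submodule.mem_top, fun u _ => map_zero _, isWt_zero a', by rw [map_zero, hc0]⟩
      · obtain ⟨rfl, hc1⟩ := ind_U hcU hcw hc0
        have h4 := ind_top (hq0w.map hπ) hcw
        rw [hq01, one_smul] at h4
        refine ⟨c.1 1 • q0, Submodule.mem_top, ?_, hq0w.smul _, ?_⟩
        · intro u hu
          rw [map_smul]
          exact congrArg (fun y => c.1 1 • y) (hq0U u hu)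
        · exact (map_smul π _ _).trans h4.symm)
  refine ⟨π, hπ, hπ', ?_, ?_⟩
  · intro c
    obtain ⟨q, -, hq⟩ := key.1 (Submodule.mem_top (x := c))
    exact ⟨q, hq⟩
  · have := key.2
    rwa [top_inf_eq] at this

theorem cover (hfd : D.Fd) (hDM : DM D) (hT : HasTop D) (hσ : D.IsRational σ)
    (hG : GoodFilt D σ ⊤) {a : X} {m : M} (hU : D.IsU σ m) (hw : D.IsWt σ a m) (hm : m ≠ 0) :
    ∃ w : Wd k Γ, IsTop D w a ∧ ∃ θ : w.V →ₗ[k] M, IsEquiv w.ρ σ θ ∧ θ w.v = m := by
  obtain ⟨w, h⟩ := hT a ((isU_mem hσ hU hw).2 hm)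
  have d := h.hw
  have hfin : Module.Finite k w.V := d.fin
  have hd : D.IsRational w.dual.ρ := isRational_dual d.rational
  have hfinQ : Module.Finite k w.dual.V := inferInstanceAs (Module.Finite k (Module.Dual k w.V))
  obtain ⟨π, hπ, hπv, hsurj, hK⟩ := dual_top_ind hfd h hd
  have hKs : Stable w.dual.ρ (LinearMap.ker π) := Stable.ker hπ
  -- the kernel of `π ⊗ id` is good
  have hΦ : IsEquiv (V := w.dual.V ⊗[k] M) (W := D.Ind (-D.w0 a) ⊗[k] M) (w.dual.ρ.tprod σ)
      ((D.indRep (-D.w0 a)).tprod σ) (π.rTensor M) := by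
    intro g x
    induction x using TensorProduct.induction_on with
    | zero => simp
    | tmul q y =>
      rw [Representation.tprod_apply, TensorProduct.map_tmul, LinearMap.rTensor_tmul,
        LinearMap.rTensor_tmul, Representation.tprod_apply, TensorProduct.map_tmul, hπ]
    | add x y hx hy => rw [map_add, map_add, map_add, hx, hy, map_add]
  have hι : IsEquiv (V := LinearMap.ker π ⊗[k] M) (W := w.dual.V ⊗[k] M)
      ((sub w.dual.ρ hKs).tprod σ) (w.dual.ρ.tprod σ)
      ((LinearMap.ker π).subtype.rTensor M) := by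
    intro g x
    induction x using TensorProduct.induction_on with
    | zero => simp
    | tmul q y =>
      rw [Representation.tprod_apply, TensorProduct.map_tmul, LinearMap.rTensor_tmul,
        LinearMap.rTensor_tmul, Representation.tprod_apply, TensorProduct.map_tmul]
      rfl
    | add x y hx hy => rw [map_add, map_add, map_add, hx, hy, map_add]
  have hιinj : Function.Injective ((LinearMap.ker π).subtype.rTensor M) :=
    Module.Flat.rTensor_preserves_injective_linearMap _ (Submodule.injective_subtype _)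
  have hKG : GoodFilt D (sub w.dual.ρ hKs) ⊤ :=
    (goodFilt_iff hfd (isRational_sub hd hKs) CSpan.of_finite).2
      ((GoodIn.sub_iff hd hKs).2 hK)
  have hKM := hDM.tensor (isRational_sub hd hKs) hσ hKG hG
  have hmap := GoodIn.map_inj (isRational_tprod (isRational_sub hd hKs) hσ)
    (isRational_tprod hd hσ) hι hιinj Stable.top hKM
  have hker : Submodule.map ((LinearMap.ker π).subtype.rTensor M) ⊤ =
      LinearMap.ker (π.rTensor M) := by
    rw [Submodule.map_top]
    exact (LinearMap.exact_iff.1 (rTensor_exact M (LinearMap.exact_subtype_ker_map π)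
      hsurj)).symm
  rw [hker] at hmap
  -- the fixed element of `Ind b ⊗ M`
  have hreg : D.IsReg (fun g => σ (g * D.n0) m) :=
    ((hσ m).comp_mul 1 D.n0).congr (fun g => by rw [one_mul])
  obtain ⟨r, f, y, hfA, -, -, hfy, hfξ⟩ := hreg.indep
  have hΞ : ∀ g, ∀ u ∈ D.Um, ∀ z, σ (g * (u * D.t z) * D.n0) m =
      (((D.chi (-D.w0 a) z)⁻¹ : kˣ) : k) • σ (g * D.n0) m := by
    intro g u hu z
    obtain ⟨s, hs⟩ := D.n0_t
    have h3 : D.t z * D.n0 = D.n0 * D.t (s z) := (hs z).1
    have h4 := hU _ (n0_Um (D := D) hu)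
    have h5 : g * (u * D.t z) * D.n0 = g * D.n0 * ((D.n0⁻¹ * u * D.n0) * D.t (s z)) := by
      calc g * (u * D.t z) * D.n0 = g * u * (D.t z * D.n0) := by group
        _ = g * u * (D.n0 * D.t (s z)) := by rw [h3]
        _ = _ := by group
    rw [h5, mul_apply' σ (g * D.n0), mul_apply' σ (D.n0⁻¹ * u * D.n0), hw (s z), (hs z).2 a,
      map_smul, h4, map_smul, chi_neg, inv_inv]
  have hfI : ∀ i, f i ∈ D.Ind (-D.w0 a) := by
    intro i
    refine ⟨hfA i, fun g u hu z => ?_⟩
    obtain ⟨ξ, hξ⟩ := hfξ i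
    rw [hξ, hξ, hΞ g u hu z, map_smul, smul_eq_mul]
  let c : D.Ind (-D.w0 a) ⊗[k] M := ∑ i, (⟨f i, hfI i⟩ : D.Ind (-D.w0 a)) ⊗ₜ[k] y i
  have hEc : ∀ g, evm D M (-D.w0 a) c g = σ (g * D.n0) m := by
    intro g
    rw [map_sum, Finset.sum_apply, hfy g]
    rfl
  have hcfix : ∀ g, ((D.indRep (-D.w0 a)).tprod σ) g c = c := by
    intro g
    apply cov_inj
    funext g'
    rw [evm_equiv, hEc, hEc, ← mul_apply']
    congr 2
    group
  obtain ⟨e, -, he, hec⟩ := lift_inv (isRational_tprod hd hσ)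
    (isRational_tprod (isRational_ind D (-D.w0 a)) hσ) hΦ Stable.top
    (by rw [top_inf_eq]; exact hmap) (c := c)
    (by
      rw [Submodule.map_top, LinearMap.range_eq_top.2 (LinearMap.rTensor_surjective M hsurj)]
      exact Submodule.mem_top) hcfix
  -- the map
  have hθ1 : ∀ (g : Γ) (e' : w.dual.V ⊗[k] M) (x : w.V),
      dualTensorHom k w.V M ((w.dual.ρ.tprod σ) g e') x =
        σ g (dualTensorHom k w.V M e' (w.ρ g⁻¹ x)) := by
    intro g e' x
    induction e' using TensorProduct.induction_on with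
    | zero =>
      rw [map_zero]
      erw [map_zero]
      simp
    | tmul q y =>
      rw [Representation.tprod_apply, TensorProduct.map_tmul]
      erw [dualTensorHom_apply, dualTensorHom_apply]
      rw [map_smul]
      rfl
    | add a b ha hb =>
      rw [map_add]
      erw [map_add, map_add]
      rw [LinearMap.add_apply, LinearMap.add_apply, map_add]
      exact congrArg₂ (· + ·) ha hb
  have hθ2 : ∀ (g : Γ) (e' : w.dual.V ⊗[k] M),
      evm D M (-D.w0 a) (π.rTensor M e') g =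
        dualTensorHom k w.V M e' (w.ρ (g * D.n0) w.v) := by
    intro g e'
    induction e' using TensorProduct.induction_on with
    | zero =>
      rw [map_zero, map_zero]
      exact (congrArg (fun l : w.V →ₗ[k] M => l (w.ρ (g * D.n0) w.v))
        (map_zero (dualTensorHom k w.V M))).symm
    | tmul q y =>
      rw [LinearMap.rTensor_tmul, evm_tmul, hπv]
      erw [dualTensorHom_apply]
    | add a b ha hb =>
      rw [map_add, map_add, Pi.add_apply, ha, hb]
      erw [map_add]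
      rfl
  refine ⟨w, h, dualTensorHom k w.V M e, ?_, ?_⟩
  · intro g x
    have h6 := hθ1 g e (w.ρ g x)
    rw [he g, inv_apply_self] at h6
    exact h6
  · have h7 := hθ2 D.n0⁻¹ e
    rw [hec, hEc, inv_mul_cancel, map_one, map_one] at h7
    exact h7.symm

end PG

end Pool.Agent.TRN
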