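import Pool.Agent.TRN.GoodA

/-!
# TRN / GOOD: the hull criterion for good filtrations, permanence properties

General version of `Pool/Agent/Helper66/TR/Good.lean` (read it first, the proofs have the same
shape).

* `GoodIn.ext`, `GoodIn.quot`: as in the reference, with `lift_Opi` and `lift_U`.
* `GoodIn.ker`: let `C` be a stable subspace of `W` containing `φ(B)` such that all `U`-invariants
  of weight `a` in `C` are images of `U`-invariants of weight `a` in `B`. Claim (S): for every finite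
  saturated `π` and `c ∈ C ∩ Opi π` there is `b ∈ B ∩ Opi π` with `φ b = c`. Induction on the
  cardinality of `π`: if `π = ∅`, `c = 0`. Otherwise `a ∈ π` maximal (`Sat.exists_max` with
  `∅ ⊆ π`), `wt a (σ g⁻¹ c) = ∑ F_i(g) u_i`, `u_i ∈ C`; `u_i = φ e_i`; `GoodIn B` gives `w_i ∈ B`
  with `wt a (ρ g⁻¹ w_i) = F_i(g) e_i`; then `c - ∑ φ w_i ∈ C ∩ Opi (π \ {a})`.
  Hence `C ≤ φ(B)`. `GoodIn (B ∩ ker φ)`: for `v ∈ B ∩ ker φ`, `F` take `w' ∈ B ∩ Opi (down a)`
  with `wt a (ρ g⁻¹ w') = F g • v`; then `φ w' ∈ C ∩ Opi (down a \ {a})` (`mem_Opi_of_top`), lift it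
  to `b ∈ B ∩ Opi (down a \ {a})` by (S) and take `w = w' - b` (`wt a (ρ g⁻¹ b) = 0` because
  `dom a = a ∉ down a \ {a}`; if `v = 0` take `w = 0`).
-/

set_option autoImplicit false

namespace Pool.Agent.TRN

open Finset TensorProduct

namespace PG

variable {k Γ T X : Type*} [Field k] [Infinite k] [Group Γ] [CommGroup T] [AddCommGroup X]
  {D : PG k Γ T X} {V W : Type*} [AddCommGroup V] [Module k V] [AddCommGroup W] [Module k W]
  {ρ : Representation k Γ V} {σ : Representation k Γ W}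

omit [Infinite k] in
private lemma goodIsUMap {φ : V →ₗ[k] W} (hφ : IsEquiv ρ σ φ) {v : V} (h : D.IsU ρ v) :
    D.IsU σ (φ v) := by
  intro u hu
  rw [← hφ, h u hu]

/-- the `U`-invariants of weight `a` -/
private def goodUw (D : PG k Γ T X) (ρ : Representation k Γ V) (a : X) : Submodule k V where
  carrier := {v | D.IsU ρ v ∧ D.IsWt ρ a v}
  add_mem' := by
    rintro v w ⟨h1, h2⟩ ⟨h1', h2'⟩
    exact ⟨fun u hu => by rw [map_add, h1 u hu, h1' u hu], h2.add h2'⟩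
  zero_mem' := ⟨fun u _ => by rw [map_zero], isWt_zero a⟩
  smul_mem' := by
    rintro c v ⟨h1, h2⟩
    exact ⟨fun u hu => by rw [map_smul, h1 u hu], h2.smul c⟩

omit [Infinite k] in
/-- finitely many functions at once -/
private theorem goodMulti (hρ : D.IsRational ρ) {Y : Submodule k V} (hG : GoodIn hρ Y) (a : X)
    {m : ℕ} (F : Fin m → Γ → k) (u : Fin m → V) (hF : ∀ i, F i ∈ D.Ind a) (hu : ∀ i, u i ∈ Y)
    (hU : ∀ i, D.IsU ρ (u i) ∧ D.IsWt ρ a (u i)) :
    ∃ w ∈ Y, w ∈ Opi hρ (D.down a) ∧ ∀ g, wt hρ a (ρ g⁻¹ w) = ∑ i, F i g • u i := by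
  choose w h1 h2 h3 using fun i => hG a (u i) (hu i) (hU i).1 (hU i).2 (F i) (hF i)
  refine ⟨∑ i, w i, Y.sum_mem fun i _ => h1 i, Submodule.sum_mem _ fun i _ => h2 i, fun g => ?_⟩
  rw [map_sum, map_sum]
  exact Finset.sum_congr rfl fun i _ => h3 i g

/-- extensions -/
theorem GoodIn.ext (hρ : D.IsRational ρ) (hσ : D.IsRational σ) {φ : V →ₗ[k] W}
    (hφ : IsEquiv ρ σ φ) {B : Submodule k V} (hB : Stable ρ B)
    (hA : GoodIn hρ (B ⊓ LinearMap.ker φ)) (hC : GoodIn hσ (B.map φ)) : GoodIn hρ B := by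
  intro a v hv hvU hvw F hF
  by_cases hv0 : v = 0
  · subst hv0
    exact ⟨0, B.zero_mem, Submodule.zero_mem _, fun g => by
      rw [map_zero, map_zero, smul_zero]⟩
  have ha : D.dom a = a := (isU_mem hρ hvU hvw).2 hv0
  obtain ⟨w', hw1, hw2, hw3⟩ := hC a (φ v) ⟨v, hv, rfl⟩ (goodIsUMap hφ hvU) (hvw.map hφ) F hF
  obtain ⟨b, b1, b2, b3⟩ := lift_Opi hρ hσ hφ hB hA (D.sat_down a) hw1 hw2
  obtain ⟨_, _, _, _, _, _, _, _, hξ⟩ := top_fun hρ ha (fun c hc h => max_down c hc h) b2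
  have hreg1 : D.IsReg (fun g => wt hρ a (ρ g⁻¹ b)) := (hρ b).comp_inv.map (wt hρ a)
  have hreg2 : D.IsReg (fun g => F g • (-v)) := IsReg.single hF.1 (-v)
  have hreg : D.IsReg (fun g => wt hρ a (ρ g⁻¹ b) - F g • v) :=
    (hreg1.add hreg2).congr fun g => by rw [smul_neg, sub_eq_add_neg]
  obtain ⟨m, f, u, hf, -, hu, hsum, hc⟩ := hreg.indep
  have hG : ∀ g, wt hρ a (ρ g⁻¹ b) - F g • v ∈ (B ⊓ LinearMap.ker φ) ⊓ goodUw D ρ a := by
    intro g
    refine ⟨⟨B.sub_mem (wt_mem hρ hB (hB _ _ b1) a) (B.smul_mem _ hv), ?_⟩, ?_⟩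
    · change φ _ = 0
      rw [map_sub, map_wt hρ hσ hφ, hφ, b3, hw3 g, map_smul, sub_self]
    · refine (goodUw D ρ a).sub_mem ⟨?_, wt_isWt hρ a _⟩ ((goodUw D ρ a).smul_mem _ ⟨hvU, hvw⟩)
      exact top_isU hρ ha (fun c hc h => max_down c hc h)
        (wt_mem hρ (Opi_stable hρ _) (Opi_stable hρ _ _ _ b2) a) (wt_isWt hρ a _)
  have hu' : ∀ i, u i ∈ (B ⊓ LinearMap.ker φ) ⊓ goodUw D ρ a := by
    intro i
    refine (Submodule.span_le.2 ?_) (hu i)
    rintro _ ⟨g, rfl⟩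
    exact hG g
  have hfI : ∀ i, f i ∈ D.Ind a := by
    intro i
    obtain ⟨ξ, h⟩ := hc i
    have : f i = (fun g => ξ (wt hρ a (ρ g⁻¹ b))) - ξ v • F := by
      funext g
      rw [h g, map_sub, map_smul, Pi.sub_apply, Pi.smul_apply, smul_eq_mul, smul_eq_mul, mul_comm]
    rw [this]
    exact (D.Ind a).sub_mem (hξ ξ) ((D.Ind a).smul_mem _ hF)
  obtain ⟨e, e1, e2, e3⟩ := goodMulti hρ hA a f u hfI (fun i => (hu' i).1) (fun i => (hu' i).2)
  refine ⟨b - e, B.sub_mem b1 e1.1, Submodule.sub_mem _ b2 e2, fun g => ?_⟩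
  rw [map_sub, map_sub, e3 g, ← hsum g]
  abel

/-- quotients -/
theorem GoodIn.quot (hρ : D.IsRational ρ) (hσ : D.IsRational σ) {φ : V →ₗ[k] W}
    (hφ : IsEquiv ρ σ φ) {B : Submodule k V} (hB : Stable ρ B)
    (hA : GoodIn hρ (B ⊓ LinearMap.ker φ)) (hG : GoodIn hρ B) : GoodIn hσ (B.map φ) := by
  intro a c hc hcU hcw F hF
  obtain ⟨b, b1, b2, b3, b4⟩ := lift_U hρ hσ hφ hB hA hc hcU hcw
  obtain ⟨w, w1, w2, w3⟩ := hG a b b1 b2 b3 F hF
  refine ⟨φ w, ⟨w, w1, rfl⟩, map_Opi hρ hσ hφ w2, fun g => ?_⟩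
  rw [← hφ, ← map_wt hρ hσ hφ, w3 g, map_smul, b4]

/-- surjectivity and kernels from surjectivity on `U`-invariants -/
theorem GoodIn.ker (hρ : D.IsRational ρ) (hσ : D.IsRational σ) {φ : V →ₗ[k] W}
    (hφ : IsEquiv ρ σ φ) {B : Submodule k V} (hB : Stable ρ B) (hG : GoodIn hρ B)
    {C : Submodule k W} (hC : Stable σ C) (hBC : B.map φ ≤ C)
    (hU : ∀ a, ∀ c ∈ C, D.IsU σ c → D.IsWt σ a c → ∃ b ∈ B, D.IsU ρ b ∧ D.IsWt ρ a b ∧ φ b = c) :
    C ≤ B.map φ ∧ GoodIn hρ (B ⊓ LinearMap.ker φ) := by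
  have key : ∀ n : ℕ, ∀ π : Set X, π.Finite → D.Sat π → π.ncard = n → ∀ c ∈ C, c ∈ Opi hσ π →
      ∃ b ∈ B, b ∈ Opi hρ π ∧ φ b = c := by
    intro n
    induction n with
    | zero =>
      intro π hf _ hn c _ hcπ
      rw [Set.ncard_eq_zero hf] at hn
      subst hn
      rw [Opi_empty, Submodule.mem_bot] at hcπ
      exact ⟨0, B.zero_mem, Submodule.zero_mem _, by rw [map_zero, hcπ]⟩
    | succ n ih =>
      intro π hf hS hn c hc hcπ
      have hne : (∅ : Set X) ≠ π := by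
        rintro rfl
        rw [Set.ncard_empty] at hn
        omega
      obtain ⟨a, haπ, -, hmax, hS', -⟩ :=
        Sat.exists_max D (sat_empty D) hS hf (Set.empty_subset _) hne
      have ha : D.dom a = a := hS.1 a haπ
      obtain ⟨m, F, u, hF, -, hu, hsp, hsum, -⟩ := top_fun hσ ha hmax hcπ
      have huC : ∀ i, u i ∈ C := by
        intro i
        refine (Submodule.span_le.2 ?_) (hsp i)
        rintro _ ⟨g, rfl⟩
        exact wt_mem hσ hC (hC g c hc) a
      choose e e1 e2 e3 e4 using fun i => hU a (u i) (huC i) (hu i).1 (hu i).2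
      obtain ⟨w, w1, w2, w3⟩ := goodMulti hρ hG a F e hF e1 (fun i => ⟨e2 i, e3 i⟩)
      have hdown : D.down a ⊆ π := fun b hb => hS.2 a haπ b hb.1 hb.2
      have h1 : c - φ w ∈ Opi hσ π :=
        Submodule.sub_mem _ hcπ (map_Opi hρ hσ hφ (Opi_mono hρ hdown w2))
      have h2 : c - φ w ∈ Opi hσ (π \ {a}) := by
        apply mem_Opi_of_top hσ ha h1
        intro g
        have := hsum g⁻¹
        rw [inv_inv] at this
        have h3 := w3 g⁻¹
        rw [inv_inv] at h3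
        rw [map_sub, map_sub, this, ← hφ, ← map_wt hρ hσ hφ, h3, map_sum, sub_eq_zero]
        refine Finset.sum_congr rfl fun i _ => ?_
        rw [map_smul, e4]
      have hcard : (π \ {a}).ncard = n := by
        rw [Set.ncard_sdiff_singleton_of_mem haπ, hn]
        omega
      obtain ⟨b, b1, b2, b3⟩ := ih (π \ {a}) (hf.subset Set.sdiff_subset) hS' hcard (c - φ w)
        (C.sub_mem hc (hBC ⟨w, w1, rfl⟩)) h2
      refine ⟨b + w, B.add_mem b1 w1, Submodule.add_mem _ (Opi_mono hρ Set.sdiff_subset b2)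
        (Opi_mono hρ hdown w2), ?_⟩
      rw [map_add, b3]
      abel
  constructor
  · intro c hc
    obtain ⟨π, hf, hS, hcπ⟩ := exists_Opi hσ c
    obtain ⟨b, b1, -, b3⟩ := key _ π hf hS rfl c hc hcπ
    exact ⟨b, b1, b3⟩
  · intro a v hv hvU hvw F hF
    by_cases hv0 : v = 0
    · subst hv0
      exact ⟨0, Submodule.zero_mem _, Submodule.zero_mem _, fun g => by
        rw [map_zero, map_zero, smul_zero]⟩
    have ha : D.dom a = a := (isU_mem hρ hvU hvw).2 hv0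
    obtain ⟨w, w1, w2, w3⟩ := hG a v hv.1 hvU hvw F hF
    have hφv : φ v = 0 := hv.2
    have hw : φ w ∈ Opi hσ (D.down a \ {a}) := by
      apply mem_Opi_of_top hσ ha (map_Opi hρ hσ hφ w2)
      intro g
      have h3 := w3 g⁻¹
      rw [inv_inv] at h3
      rw [← hφ, ← map_wt hρ hσ hφ, h3, map_smul, hφv, smul_zero]
    have hS : D.Sat (D.down a \ {a}) := by
      refine ⟨fun b hb => hb.1.1, fun b hb c hc hcb => ⟨(D.sat_down a).2 b hb.1 c hc hcb, ?_⟩⟩
      intro hca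
      rw [Set.mem_singleton_iff] at hca
      subst hca
      exact hb.2 (max_down b hb.1 hcb)
    obtain ⟨b, b1, b2, b3⟩ := key _ _ ((D.down_finite a).subset Set.sdiff_subset) hS rfl (φ w)
      (hBC ⟨w, w1, rfl⟩) hw
    refine ⟨w - b, ⟨B.sub_mem w1 b1, ?_⟩,
      Submodule.sub_mem _ w2 (Opi_mono hρ Set.sdiff_subset b2), fun g => ?_⟩
    · change φ _ = 0
      rw [map_sub, b3, sub_self]
    · have hb0 : wt hρ a (ρ g⁻¹ b) = 0 := by
        apply b2 g⁻¹ a
        rw [ha]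
        exact fun h => h.2 rfl
      rw [map_sub, map_sub, hb0, sub_zero, w3 g]

/-- unions -/
theorem GoodIn.iSup (hρ : D.IsRational ρ) (N : ℕ → Submodule k V) (hN : Monotone N)
    (h : ∀ i, GoodIn hρ (N i)) : GoodIn hρ (⨆ i, N i) := by
  intro a v hv hvU hvw F hF
  rw [Submodule.mem_iSup_of_directed _ hN.directed_le] at hv
  obtain ⟨j, hj⟩ := hv
  obtain ⟨w, w1, w2⟩ := h j a v hj hvU hvw F hF
  exact ⟨w, Submodule.mem_iSup_of_mem j w1, w2⟩

/-- injective maps -/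
theorem GoodIn.map_inj (hρ : D.IsRational ρ) (hσ : D.IsRational σ) {φ : V →ₗ[k] W}
    (hφ : IsEquiv ρ σ φ) (hinj : Function.Injective φ) {B : Submodule k V} (hB : Stable ρ B)
    (hG : GoodIn hρ B) : GoodIn hσ (B.map φ) := by
  apply GoodIn.quot hρ hσ hφ hB _ hG
  rw [LinearMap.ker_eq_bot.2 hinj, inf_bot_eq]
  exact GoodIn.bot hρ

theorem GoodIn.comap_inj (hρ : D.IsRational ρ) (hσ : D.IsRational σ) {φ : V →ₗ[k] W}
    (hφ : IsEquiv ρ σ φ) (hinj : Function.Injective φ) {B : Submodule k W}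
    (hB : B ≤ LinearMap.range φ) (hG : GoodIn hσ B) : GoodIn hρ (B.comap φ) := by
  intro a v hv hvU hvw F hF
  obtain ⟨w', w1, w2, w3⟩ := hG a (φ v) hv (goodIsUMap hφ hvU) (hvw.map hφ) F hF
  obtain ⟨w, rfl⟩ := hB w1
  refine ⟨w, w1, Opi_of_inj hρ hσ hφ hinj w2, fun g => hinj ?_⟩
  rw [map_wt hρ hσ hφ, hφ, w3 g, map_smul]

theorem GoodIn.equiv (hρ : D.IsRational ρ) (hσ : D.IsRational σ) (e : V ≃ₗ[k] W)
    (he : ∀ g v, e (ρ g v) = σ g (e v)) (hG : GoodIn hρ ⊤) : GoodIn hσ ⊤ := by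
  have := GoodIn.map_inj hρ hσ (φ := e.toLinearMap) he e.injective Stable.top hG
  rwa [Submodule.map_top, LinearEquiv.range] at this

/-- the subrepresentation on `Y` -/
theorem GoodIn.sub_iff (hρ : D.IsRational ρ) {Y : Submodule k V} (hY : Stable ρ Y) :
    GoodIn (isRational_sub hρ hY) ⊤ ↔ GoodIn hρ Y := by
  constructor
  · intro h
    have := GoodIn.map_inj (isRational_sub hρ hY) hρ (sub_isEquiv hY) Y.subtype_injective
      Stable.top h
    rwa [Submodule.map_top, Submodule.range_subtype] at this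
  · intro h
    have := GoodIn.comap_inj (isRational_sub hρ hY) hρ (sub_isEquiv hY) Y.subtype_injective
      (B := Y) (by rw [Submodule.range_subtype]) h
    rwa [Submodule.comap_subtype_self] at this

theorem GoodIn.prod (hρ : D.IsRational ρ) (hσ : D.IsRational σ) (hp : D.IsRational (ρ.prod σ))
    (h1 : GoodIn hρ ⊤) (h2 : GoodIn hσ ⊤) : GoodIn hp ⊤ := by
  have hsnd : IsEquiv (ρ.prod σ) σ (LinearMap.snd k V W) := fun _ _ => rfl
  have hinl : IsEquiv ρ (ρ.prod σ) (LinearMap.inl k V W) := by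
    intro g v
    change (ρ g v, (0 : W)) = (ρ g v, σ g 0)
    rw [map_zero]
  apply GoodIn.ext hp hσ (φ := LinearMap.snd k V W) hsnd Stable.top
  · rw [top_inf_eq]
    have := GoodIn.map_inj hρ hp (φ := LinearMap.inl k V W) hinl
      LinearMap.inl_injective Stable.top h1
    rwa [Submodule.map_top, LinearMap.range_inl] at this
  · rw [Submodule.map_top, LinearMap.range_eq_top.2 (fun y => ⟨((0 : V), y), rfl⟩)]
    exact h2

end PG

end Pool.Agent.TRN
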