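import Pool.Agent.TRN.Hull

/-!
# TRN / GOODA: the hull criterion for good filtrations, lifting

General version of `Pool/Agent/Helper66/TR/Good.lean` (read it first, the proofs have the same
shape). `GoodIn hρ Y` says: for every `U`-invariant `v ∈ Y` of weight `a` and every `F ∈ Ind a` there
is `w ∈ Y ∩ Opi (down a)` with `wt a (ρ g⁻¹ w) = F g • v` for all `g`.

* `lift_Opi`: `φ b0 = c`, `c ∈ Opi π`; `b0 ∈ Opi π'` for a finite saturated `π' ⊇ π`
  (`exists_Opi`, union; if `π` is infinite use `π' = π ∪ π''` and induct on the finite set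
  `π' \ π`; `Sat.exists_max` is stated for finite `π'`, so first replace `π` by `π ∩ π''` where `π''`
  is a finite saturated set with `c ∈ Opi π''` and `b0 ∈ Opi π''`: `c ∈ Opi (π ∩ π'')`). Induct on
  the number of elements of `π' \ π`: let `a ∈ π' \ π` be maximal. By `top_fun`
  `wt a (ρ g⁻¹ b0) = ∑ F_i(g) u_i` with `u_i ∈ B` independent, `u_i` in the span of the vectors
  `wt a (ρ g b0)`; `φ` of these is `wt a (σ g c) = 0` (`c ∈ Opi π`, `a = dom a ∉ π`), so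
  `u_i ∈ B ∩ ker φ`; `GoodIn` gives `w_i ∈ B ∩ ker φ ∩ Opi (down a)` with
  `wt a (ρ g⁻¹ w_i) = F_i(g) u_i`. Replace `b0` by `b0 - ∑ w_i`: it is in `Opi π'`
  (`down a ⊆ π'`) and by `mem_Opi_of_top` in `Opi (π' \ {a})`.
  `lift_Opi_wt`: apply `wt l` to the lift (`Opi` and `B` are stable).
* `lift_U`: `π = down a` (`isU_mem`), then `top_isU` (`max_down`); if `c = 0` take `b = 0`,
  otherwise `dom a = a`.
-/

set_option autoImplicit false

namespace Pool.Agent.TRN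

open Finset TensorProduct

namespace PG

variable {k Γ T X : Type*} [Field k] [Infinite k] [Group Γ] [CommGroup T] [AddCommGroup X]
  {D : PG k Γ T X} {V W : Type*} [AddCommGroup V] [Module k V] [AddCommGroup W] [Module k W]
  {ρ : Representation k Γ V} {σ : Representation k Γ W}

/-- the hull criterion -/
def GoodIn (hρ : D.IsRational ρ) (Y : Submodule k V) : Prop :=
  ∀ a, ∀ v ∈ Y, D.IsU ρ v → D.IsWt ρ a v → ∀ F ∈ D.Ind a,
    ∃ w ∈ Y, w ∈ Opi hρ (D.down a) ∧ ∀ g, wt hρ a (ρ g⁻¹ w) = F g • v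

lemma GoodIn.bot (hρ : D.IsRational ρ) : GoodIn hρ ⊥ := by
  intro a v hv _ _ F _
  rw [Submodule.mem_bot] at hv
  subst hv
  refine ⟨0, Submodule.zero_mem _, Submodule.zero_mem _, fun g => ?_⟩
  rw [map_zero, map_zero, smul_zero]

theorem lift_Opi (hρ : D.IsRational ρ) (hσ : D.IsRational σ) {φ : V →ₗ[k] W} (hφ : IsEquiv ρ σ φ)
    {B : Submodule k V} (hB : Stable ρ B) (hA : GoodIn hρ (B ⊓ LinearMap.ker φ)) {π : Set X}
    (hπ : D.Sat π) {c : W} (hc : c ∈ B.map φ) (hcπ : c ∈ Opi hσ π) :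
    ∃ b ∈ B, b ∈ Opi hρ π ∧ φ b = c := by
  obtain ⟨b0, hb0, hb0c⟩ := hc
  obtain ⟨π'', hfin, hsat, hb0π⟩ := exists_Opi hρ b0
  have hc0 : c ∈ Opi hσ (π ∩ π'') := by
    rw [mem_Opi]
    intro g b hb
    by_cases h1 : D.dom b ∈ π
    · have h2 : D.dom b ∉ π'' := fun h => hb ⟨h1, h⟩
      have h3 : φ b0 ∈ Opi hσ π'' := map_Opi hρ hσ hφ hb0π
      rw [hb0c] at h3
      exact h3 g b h2
    · exact hcπ g b h1
  have hs0 : D.Sat (π ∩ π'') := Sat.inter D hπ hsat
  have key : ∀ n : ℕ, ∀ π' : Set X, π'.Finite → D.Sat π' → (π ∩ π'') ⊆ π' → π'.ncard ≤ n →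
      ∀ b ∈ B, b ∈ Opi hρ π' → φ b = c → ∃ b ∈ B, b ∈ Opi hρ (π ∩ π'') ∧ φ b = c := by
    intro n
    induction n with
    | zero =>
      intro π' hf hs hsub hn b hb hbπ hbc
      have h0 : π' = ∅ := (Set.ncard_eq_zero hf).1 (Nat.le_zero.1 hn)
      subst h0
      have h1 : π ∩ π'' = ∅ := Set.subset_eq_empty hsub rfl
      rw [h1]
      exact ⟨b, hb, hbπ, hbc⟩
    | succ n ih =>
      intro π' hf hs hsub hn b hb hbπ hbc
      by_cases hne : π ∩ π'' = π'
      · rw [hne]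
        exact ⟨b, hb, hbπ, hbc⟩
      obtain ⟨a, ha, ha0, hmax, hsat', hsub'⟩ := Sat.exists_max D hs0 hs hf hsub hne
      have hda : D.dom a = a := hs.1 a ha
      obtain ⟨m, F, u, hF, _, hu, hspan, hsum, _⟩ := top_fun hρ hda hmax hbπ
      have huB : ∀ i, u i ∈ B ⊓ LinearMap.ker φ := by
        intro i
        have hle : Submodule.span k (Set.range fun g => wt hρ a (ρ g b)) ≤
            B ⊓ LinearMap.ker φ := by
          rw [Submodule.span_le]
          rintro _ ⟨g, rfl⟩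
          refine ⟨wt_mem hρ hB (hB g b hb) a, ?_⟩
          change φ (wt hρ a (ρ g b)) = 0
          rw [map_wt hρ hσ hφ, hφ, hbc]
          exact hc0 g a (by rw [hda]; exact ha0)
        exact hle (hspan i)
      choose w hw1 hw2 hw3 using fun i => hA a (u i) (huB i) (hu i).1 (hu i).2 (F i) (hF i)
      have hdown : D.down a ⊆ π' := fun x hx => hs.2 a ha x hx.1 hx.2
      have hb' : b - ∑ i, w i ∈ Opi hρ π' :=
        (Opi hρ π').sub_mem hbπ ((Opi hρ π').sum_mem fun i _ => Opi_mono hρ hdown (hw2 i))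
      have h0 : ∀ g, wt hρ a (ρ g (b - ∑ i, w i)) = 0 := by
        intro g
        have h1 := hsum g⁻¹
        rw [inv_inv] at h1
        have h2 : ∀ i, wt hρ a (ρ g (w i)) = F i g⁻¹ • u i := by
          intro i
          have := hw3 i g⁻¹
          rwa [inv_inv] at this
        rw [map_sub, map_sub, map_sum, map_sum, h1, sub_eq_zero]
        exact Finset.sum_congr rfl fun i _ => (h2 i).symm
      have hb2 := mem_Opi_of_top hρ hda hb' h0
      refine ih (π' \ {a}) (hf.subset Set.sdiff_subset) hsat' hsub' ?_ (b - ∑ i, w i)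
        (B.sub_mem hb (B.sum_mem fun i _ => (hw1 i).1)) hb2 ?_
      · rw [Set.ncard_sdiff_singleton_of_mem ha]
        omega
      · have h3 : φ (∑ i, w i) = 0 := by
          rw [map_sum]
          exact Finset.sum_eq_zero fun i _ => (hw1 i).2
        rw [map_sub, h3, sub_zero, hbc]
  obtain ⟨b, h1, h2, h3⟩ := key π''.ncard π'' hfin hsat Set.inter_subset_right le_rfl b0 hb0
    hb0π hb0c
  exact ⟨b, h1, Opi_mono hρ Set.inter_subset_left h2, h3⟩

theorem lift_Opi_wt (hρ : D.IsRational ρ) (hσ : D.IsRational σ) {φ : V →ₗ[k] W}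
    (hφ : IsEquiv ρ σ φ) {B : Submodule k V} (hB : Stable ρ B)
    (hA : GoodIn hρ (B ⊓ LinearMap.ker φ)) {π : Set X} (hπ : D.Sat π) {l : X} {c : W}
    (hc : c ∈ B.map φ) (hcπ : c ∈ Opi hσ π) (hcl : D.IsWt σ l c) :
    ∃ b ∈ B, b ∈ Opi hρ π ∧ D.IsWt ρ l b ∧ φ b = c := by
  obtain ⟨b, h1, h2, h3⟩ := lift_Opi hρ hσ hφ hB hA hπ hc hcπ
  refine ⟨wt hρ l b, wt_mem hρ hB h1 l, wt_mem hρ (Opi_stable hρ π) h2 l, wt_isWt hρ l b, ?_⟩
  rw [map_wt hρ hσ hφ, h3, wt_self hσ hcl]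

theorem lift_U (hρ : D.IsRational ρ) (hσ : D.IsRational σ) {φ : V →ₗ[k] W} (hφ : IsEquiv ρ σ φ)
    {B : Submodule k V} (hB : Stable ρ B) (hA : GoodIn hρ (B ⊓ LinearMap.ker φ)) {a : X} {c : W}
    (hc : c ∈ B.map φ) (hcU : D.IsU σ c) (hcw : D.IsWt σ a c) :
    ∃ b ∈ B, D.IsU ρ b ∧ D.IsWt ρ a b ∧ φ b = c := by
  by_cases h0 : c = 0
  · subst h0
    exact ⟨0, B.zero_mem, fun u _ => map_zero _, isWt_zero a, map_zero _⟩
  obtain ⟨h1, h2⟩ := isU_mem hσ hcU hcw
  have hda := h2 h0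
  obtain ⟨b, b1, b2, b3, b4⟩ := lift_Opi_wt hρ hσ hφ hB hA (D.sat_down a) hc h1 hcw
  exact ⟨b, b1, top_isU hρ hda (fun x hx h => max_down x hx h) b2 b3, b3, b4⟩

/-- invariants can be lifted along maps with good kernel: `c ∈ Opi {0}` (`sat_zero`; a vector fixed
by the group has weight `0` only), lift with weight `0`; then all weights of the span of the orbit
of `b` are `0` (`dom b' = 0` implies `b' = 0` by `weyl` and `chi_inj`), so `b` is fixed by `T`, and by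
`U`, `Um` (`wt_U`, `wt_Um`, `eq_zero_of_wt`), and `fixed_of` applies. -/
theorem lift_inv (hρ : D.IsRational ρ) (hσ : D.IsRational σ) {φ : V →ₗ[k] W} (hφ : IsEquiv ρ σ φ)
    {B : Submodule k V} (hB : Stable ρ B) (hA : GoodIn hρ (B ⊓ LinearMap.ker φ)) {c : W}
    (hc : c ∈ B.map φ) (hci : ∀ g, σ g c = c) : ∃ b ∈ B, (∀ g, ρ g b = b) ∧ φ b = c := by
  have hd0 : D.dom (0 : X) = 0 := D.sat_zero.1 0 rfl
  have hcw : D.IsWt σ 0 c := by
    intro z
    rw [hci, chi_zero, Units.val_one, one_smul]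
  have hcπ : c ∈ Opi hσ {0} := by
    rw [mem_Opi]
    intro g b hb
    rw [hci]
    apply wt_ne hσ hcw
    rintro rfl
    exact hb hd0
  obtain ⟨b, b1, b2, b3, b4⟩ := lift_Opi_wt hρ hσ hφ hB hA D.sat_zero hc hcπ hcw
  have hdom : ∀ a : X, D.dom a = 0 → a = 0 := by
    intro a ha
    obtain ⟨n, s, hs⟩ := D.weyl a
    apply D.chi_inj
    ext z
    obtain ⟨z', rfl⟩ := s.surjective z
    rw [(hs z').2, ha, chi_zero, chi_zero]
  have hw : ∀ g, ∀ a, a ≠ 0 → wt hρ a (ρ g b) = 0 := fun g a ha =>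
    b2 g a fun h => ha (hdom a h)
  have hfix : ∀ u, wt hρ 0 (ρ u b) = b → ρ u b = b := by
    intro u hu
    rw [← sub_eq_zero]
    apply eq_zero_of_wt hρ
    intro a
    rw [map_sub]
    by_cases ha : a = 0
    · subst ha
      rw [hu, wt_self hρ b3, sub_self]
    · rw [hw u a ha, wt_ne hρ b3 (Ne.symm ha), sub_self]
  exact ⟨b, b1, fixed_of hρ b3 (fun u hu => hfix u (wt_U hρ b3 hu).1)
    (fun u hu => hfix u (wt_Um hρ b3 hu).1), b4⟩

end PG

end Pool.Agent.TRN
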