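import Pool.Agent.TRN.HasTA
import Pool.Agent.TRN.Chain3

/-!
# TRN / HAST: existence of tilting modules with given highest weight

`HasEmb D`: every finite-dimensional rational representation embeds into a good one.

`St w a s` (the induction statement): `w` has highest weight data for `a`, its dual is good, and `LiftP D n w.ρ` for
all `n ∈ s`.

* `St.step`: let `i : w.V → Q` be an embedding into a good finite-dimensional `Q` (`hE`), `τ` the representation on `Q`,
  `R = Q ⧸ range i` with `quo`, `p` the quotient map, `M, μ, ψ` from `exists_cov` for `R` and `n`.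
  `W1 = {(q, x) ∈ Q × M | p q = ψ x}` with `sub (τ.prod μ) _` (stable; rational by `isRational_sub`,
  `isRational_prod`), `pr1`, `pr2` the projections; `i1 : w.V → W1`, `e ↦ (i e, 0)`;
  `0 → w.V → W1 → M → 0` is exact (`pr2` is surjective since `p` is). `hw_ext` gives the highest weight data of `W1`,
  `dual_ext` gives the dual.
  - `LiftP D n' W1`, `n' ∈ s`: `LiftP.ext` with `LiftP D n' w.ρ` and `LiftP.of_weights` for `M`: a weight `b` of `M` with
    `n' ≤ b ≤ n` has `ht n' ≤ ht b ≤ ht n ≤ ht n'`, so `b = n'` (`Le.ht`).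
  - `LiftP D n W1`: `LiftP.pull` with `LiftP.of_good` for `Q`, `LiftP.of_weights` for `M` (`n ≤ b ≤ n`).
* `hasTop`: let `a` be dominant, `s = {n | dom n = n, Le n a, n ≠ a}` (`D.dom_fin`). `Finset.induction_on_min_value D.ht` for
  the subsets of `s` (statement: `s' ⊆ s → ∃ w, St w a s'`), start: the Weyl module (`wl_HW`, `wl_dual_good`). For the final
  `w`: `LiftP D n w.ρ` for all dominant `n`: if `n ∉ s`, `LiftP.of_weights` (a weight `b` of `w` has `b ≤ a`; if `n ≤ b` then
  `n ≤ a`, so `n = a` and `b = a`). `LiftP.good` with an embedding gives `GoodIn`. `IsTop`: `goodFilt_iff`,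
  `CSpan.of_finite`.
-/

set_option autoImplicit false

namespace Pool.Agent.TRN

open Finset TensorProduct

universe u

/-- every finite-dimensional rational representation embeds into a good one -/
def HasEmb {k : Type u} [Field k] [Infinite k] {Γ : Type u} [Group Γ] {T X : Type*} [CommGroup T]
    [AddCommGroup X] (D : PG k Γ T X) : Prop :=
  ∀ (V : Type u) [AddCommGroup V] [Module k V] (ρ : Representation k Γ V), Module.Finite k V →
    D.IsRational ρ → ∃ (Q : Type u) (_ : AddCommGroup Q) (_ : Module k Q)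
      (τ : Representation k Γ Q) (hτ : D.IsRational τ) (i : V →ₗ[k] Q), Module.Finite k Q ∧
      IsEquiv ρ τ i ∧ Function.Injective i ∧ PG.GoodIn hτ ⊤

namespace PG

variable {k : Type u} [Field k] [Infinite k] {Γ : Type u} [Group Γ] {T X : Type*} [CommGroup T]
  [AddCommGroup X]

/-- the induction statement -/
structure St (D : PG k Γ T X) (w : Wd k Γ) (a : X) (s : Finset X) : Prop where
  hw : HW D w a
  dual : ∀ h : D.IsRational w.dual.ρ, GoodIn h ⊤
  lift : ∀ n ∈ s, LiftP D n w.ρ

variable {D : PG k Γ T X}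

theorem St.step (hfd : D.Fd) (hN : Nz D) (hE : HasEmb D) {w : Wd k Γ} {a n : X}
    [DecidableEq X] {s : Finset X} (h : St D w a s) (hn : D.dom n = n) (hna : D.Le n a)
    (hne : n ≠ a) (hs : ∀ n' ∈ s, D.ht n ≤ D.ht n' ∧ n' ≠ n) :
    ∃ w' : Wd k Γ, St D w' a (insert n s) := by
  classical
  obtain ⟨w0V, w0ρ, w0v, w0xi⟩ := w
  obtain ⟨hw, hdual, hlift⟩ := h
  have hfin0 : Module.Finite k w0V := hw.fin
  have hr0 : D.IsRational w0ρ := hw.rational
  obtain ⟨Q, _, _, τ, hτ, i, finQ, hi, hinj, hQ⟩ := hE w0V w0ρ hfin0 hr0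
  have hE' : Stable τ (LinearMap.range i) := by
    rintro g _ ⟨v, rfl⟩
    exact ⟨w0ρ g v, hi g v⟩
  have hqr := isRational_quo hτ hE'
  obtain ⟨M, _, _, μ, hμ, ψ, finM, eψ, hc, hwt, hdM⟩ := exists_cov hfd hN hqr hn
  -- the pullback
  let δ : Q × M →ₗ[k] (Q ⧸ LinearMap.range i) :=
    (LinearMap.range i).mkQ ∘ₗ LinearMap.fst k Q M - ψ ∘ₗ LinearMap.snd k Q M
  have hδ : ∀ x : Q × M, δ x = (LinearMap.range i).mkQ x.1 - ψ x.2 := fun _ => rfl
  have eδ : IsEquiv (τ.prod μ) (quo τ hE') δ := by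
    intro g x
    rw [hδ, hδ, map_sub]
    exact congrArg₂ (· - ·) (quo_isEquiv hE' g x.1) (eψ g x.2)
  have hst : Stable (τ.prod μ) (LinearMap.ker δ) := Stable.ker eδ
  let W1 := LinearMap.ker δ
  have r1 : D.IsRational (sub (τ.prod μ) hst) := isRational_sub (isRational_prod hτ hμ) hst
  let pr1 : W1 →ₗ[k] Q := LinearMap.fst k Q M ∘ₗ W1.subtype
  let pr2 : W1 →ₗ[k] M := LinearMap.snd k Q M ∘ₗ W1.subtype
  have e1 : IsEquiv (sub (τ.prod μ) hst) τ pr1 := fun g x => rfl
  have e2 : IsEquiv (sub (τ.prod μ) hst) μ pr2 := fun g x => rfl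
  have hi1 : ∀ e : w0V, (LinearMap.inl k Q M ∘ₗ i) e ∈ W1 := by
    intro e
    change δ (i e, 0) = 0
    rw [hδ]
    change (LinearMap.range i).mkQ (i e) - ψ 0 = 0
    rw [map_zero, sub_zero, Submodule.mkQ_apply, Submodule.Quotient.mk_eq_zero]
    exact ⟨e, rfl⟩
  let i1 : w0V →ₗ[k] W1 := (LinearMap.inl k Q M ∘ₗ i).codRestrict W1 hi1
  have hi1v : ∀ e, ((i1 e : W1) : Q × M) = (i e, 0) := fun _ => rfl
  have ei1 : IsEquiv w0ρ (sub (τ.prod μ) hst) i1 := by
    intro g x
    apply Subtype.ext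
    rw [hi1v, sub_coe, hi1v, hi]
    change _ = (τ g (i x), μ g 0)
    rw [map_zero]
  have i1inj : Function.Injective i1 := by
    intro x y hxy
    apply hinj
    have := congrArg (fun z : W1 => (z : Q × M).1) hxy
    exact this
  have pr2surj : Function.Surjective pr2 := by
    intro x
    obtain ⟨q, hq⟩ := (LinearMap.range i).mkQ_surjective (ψ x)
    refine ⟨⟨(q, x), ?_⟩, rfl⟩
    change δ (q, x) = 0
    rw [hδ]
    change (LinearMap.range i).mkQ q - ψ x = 0
    rw [hq, sub_self]
  have hex : LinearMap.ker pr2 = LinearMap.range i1 := by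
    ext x
    constructor
    · intro hx
      have hx2 : (x : Q × M).2 = 0 := hx
      have hx1 : δ (x : Q × M) = 0 := x.2
      rw [hδ, hx2, map_zero, sub_zero, Submodule.mkQ_apply,
        Submodule.Quotient.mk_eq_zero] at hx1
      obtain ⟨e, he⟩ := hx1
      refine ⟨e, ?_⟩
      apply Subtype.ext
      rw [hi1v]
      exact Prod.ext he hx2.symm
    · rintro ⟨e, rfl⟩
      rfl
  have hcomm : ∀ w, (LinearMap.range i).mkQ (pr1 w) = ψ (pr2 w) := by
    intro w
    have := w.2
    change δ (w : Q × M) = 0 at this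
    rw [hδ] at this
    exact sub_eq_zero.1 this
  have hpull : ∀ q x, (LinearMap.range i).mkQ q = ψ x → ∃ w, pr1 w = q ∧ pr2 w = x := by
    intro q x hqx
    refine ⟨⟨(q, x), ?_⟩, rfl, rfl⟩
    change δ (q, x) = 0
    rw [hδ]
    change (LinearMap.range i).mkQ q - ψ x = 0
    rw [hqx, sub_self]
  have hpinj : ∀ w, pr1 w = 0 → pr2 w = 0 → w = 0 := by
    intro w h1 h2
    apply Subtype.ext
    exact Prod.ext h1 h2
  have hfin1 : Module.Finite k W1 := inferInstance
  obtain ⟨xi', hxi'⟩ := hw_ext (D := D) r1 ei1 e2 i1inj pr2surj hex hw hwt hna hne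
  refine ⟨⟨W1, sub (τ.prod μ) hst, i1 w0v, xi'⟩, hxi', ?_, ?_⟩
  · intro hrd
    have d0 : D.IsRational w0ρ.dual := isRational_dual hr0
    have d2 : D.IsRational μ.dual := isRational_dual hμ
    exact dual_ext ei1 e2 i1inj pr2surj hex d0 hrd d2 (hdual d0) (hdM d2)
  · intro n' hn'
    rcases Finset.mem_insert.1 hn' with rfl | hn'
    · refine LiftP.pull e1 e2 (quo_isEquiv hE') eψ hpinj hcomm hpull
        (LiftP.of_good hτ hQ _) (LiftP.of_weights hμ ?_) hc
      intro b x hb hx hnb
      exact Le.antisymm D (hwt b x hb hx) hnb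
    · refine LiftP.ext hr0 r1 hμ ei1 e2 i1inj pr2surj hex (hlift n' hn')
        (LiftP.of_weights hμ ?_)
      intro b x hb hx hnb
      have h1 := hwt b x hb hx
      have h2 := Le.ht D h1
      have h3 := Le.ht D hnb
      have h4 := (hs n' hn').1
      exact (h3.2 (by omega)).symm

theorem hasTop (hfd : D.Fd) (hN : Nz D) (hE : HasEmb D) : HasTop D := by
  classical
  intro a ha
  let s : Finset X := (D.dom_fin a).toFinset.filter (fun n => n ≠ a)
  have hs : ∀ n, n ∈ s ↔ (D.dom n = n ∧ D.Le n a) ∧ n ≠ a := by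
    intro n
    rw [Finset.mem_filter, Set.Finite.mem_toFinset]
    rfl
  have key : ∀ s' : Finset X, s' ⊆ s → ∃ w : Wd k Γ, St D w a s' := by
    intro s'
    induction s' using Finset.induction_on_min_value D.ht with
    | empty =>
      intro _
      obtain ⟨xi, hxi⟩ := wl_HW hfd hN ha
      exact ⟨_, hxi, fun h => wl_dual_good hfd a h, fun n hn => absurd hn (Finset.notMem_empty n)⟩
    | insert n s' hn hmin ih =>
      intro hsub
      obtain ⟨w, hw⟩ := ih ((Finset.subset_insert _ _).trans hsub)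
      have h1 := (hs n).1 (hsub (Finset.mem_insert_self _ _))
      exact hw.step hfd hN hE h1.1.1 h1.1.2 h1.2
        (fun n' hn' => ⟨hmin n' hn', fun h => hn (h ▸ hn')⟩)
  obtain ⟨w, hw, hdual, hlift⟩ := key s (Finset.Subset.refl _)
  have hfin : Module.Finite k w.V := hw.fin
  have hr : D.IsRational w.ρ := hw.rational
  have hall : ∀ n, D.dom n = n → LiftP D n w.ρ := by
    intro n hn
    by_cases h : n ∈ s
    · exact hlift n h
    · refine LiftP.of_weights hr ?_
      intro b x hb hx hnb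
      have h1 := hw.top b x hb hx
      have h2 := hnb.trans D h1
      have h3 : n = a := by
        by_contra h3
        exact h ((hs n).2 ⟨⟨hn, h2⟩, h3⟩)
      subst h3
      exact Le.antisymm D h1 hnb
  obtain ⟨Q, _, _, τ, hτ, i, finQ, hi, hinj, hQ⟩ := hE w.V w.ρ hfin hr
  have hgood : GoodIn hr ⊤ := LiftP.good hr hτ hi hinj hQ hall
  have hfin' : Module.Finite k w.dual.V := inferInstanceAs (Module.Finite k (Module.Dual k w.V))
  have hrd : D.IsRational w.dual.ρ := isRational_dual hr
  exact ⟨w, hw, (goodFilt_iff hfd hr CSpan.of_finite).2 hgood,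
    (goodFilt_iff hfd hrd CSpan.of_finite).2 (hdual hrd)⟩

end PG

end Pool.Agent.TRN
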