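import Pool.Agent.TRN.Lift
import Pool.Agent.TRN.Wl

/-!
# TRN / HASTA: extensions by Weyl modules

* `dual_ext`: `0 → W0 → W1 → W2 → 0` exact. The map `i.dualMap : W1* → W0*` is equivariant and surjective
  (`LinearMap.dualMap_surjective_of_injective`), its kernel is `range f.dualMap`
  (a functional killing `range i = ker f` factors through the surjection `f`), and `f.dualMap` is injective.
  `GoodIn.ext` with `φ = i.dualMap`, `B = ⊤`: `⊤ ⊓ ker φ = range f.dualMap` is good by `GoodIn.map_inj`.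
* `exists_cov`: for a finite family `c : Fin r → R` of `U`-invariants of weight `n` there are `W2, ψ` such that every
  element of `span (range c)` is `ψ x` for a `U`-invariant `x` of weight `n` (and the other properties), by induction on `r`:
  `r = 0`: `W2 = PUnit` (all vectors are `0`). Step: `W2' × Δ` with `τ2'.prod δ`, where `Δ = Module.Dual k (Ind (-w0 n))`,
  `δ = (indRep (-w0 n)).dual`, and `ψ (x, y) = ψ' x + ψ_c y` with `wl_map`, `ψ_c (evn D n) = c`; weights: a weight vector
  `(x, y) ≠ 0` has `x ≠ 0` or `y ≠ 0` (`wl_top`); dual: `dual_ext` with `inl`, `snd` and `wl_dual_good`; `evn_isU`, `evn_isWt`.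
  Then apply this to a spanning family of the finite-dimensional subspace `{c | IsU c, IsWt n c}` of `R`.
* `hw_ext`: `0 → W0 → W1 → W2 → 0` exact, `W0` with highest weight data for `a`, all weights of `W2` are `≤ n`, `n < a`. A
  vector `x ≠ 0` of `W1` of weight `b`: if `f x ≠ 0` then `b ≤ n ≤ a`, otherwise `x = i y`, `y` of weight `b`
  (`IsWt.of_inj`). If `b = a` then `f x = 0` (`a ≤ n ≤ a` would give `n = a`), so `x = i y = xi y • i v`. `exists_HW`.
-/

set_option autoImplicit false

namespace Pool.Agent.TRN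

open Finset TensorProduct

universe u

namespace PG

variable {k : Type u} [Field k] [Infinite k] {Γ : Type u} [Group Γ] {T X : Type*} [CommGroup T]
  [AddCommGroup X]

variable {D : PG k Γ T X} {W0 W1 W2 R : Type u}
  [AddCommGroup W0] [Module k W0] [AddCommGroup W1] [Module k W1] [AddCommGroup W2] [Module k W2]
  [AddCommGroup R] [Module k R]
  {τ0 : Representation k Γ W0} {τ1 : Representation k Γ W1}
  {τ2 : Representation k Γ W2} {τR : Representation k Γ R}


omit [Infinite k] in
private lemma hastaDual {φ : W0 →ₗ[k] W1} (hφ : IsEquiv τ0 τ1 φ) :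
    IsEquiv τ1.dual τ0.dual φ.dualMap := by
  intro g ξ
  apply LinearMap.ext
  intro v
  change ξ (τ1 g⁻¹ (φ v)) = ξ (φ (τ0 g⁻¹ v))
  rw [hφ]

theorem dual_ext {i : W0 →ₗ[k] W1} {f : W1 →ₗ[k] W2} (hi : IsEquiv τ0 τ1 i)
    (hf : IsEquiv τ1 τ2 f) (hinj : Function.Injective i) (hsurj : Function.Surjective f)
    (hex : LinearMap.ker f = LinearMap.range i) (d0 : D.IsRational τ0.dual)
    (d1 : D.IsRational τ1.dual) (d2 : D.IsRational τ2.dual) (h0 : GoodIn d0 ⊤)
    (h2 : GoodIn d2 ⊤) : GoodIn d1 ⊤ := by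
  have s1 : Function.Surjective i.dualMap := LinearMap.dualMap_surjective_of_injective hinj
  have inj2 : Function.Injective f.dualMap := LinearMap.dualMap_injective_of_surjective hsurj
  apply GoodIn.ext d1 d0 (hastaDual hi) Stable.top
  · have hk : (⊤ : Submodule k (Module.Dual k W1)) ⊓ LinearMap.ker i.dualMap =
        Submodule.map f.dualMap ⊤ := by
      rw [top_inf_eq]
      apply le_antisymm
      · intro ξ hξ
        obtain ⟨s, hs⟩ := f.exists_rightInverse_of_surjective (LinearMap.range_eq_top.2 hsurj)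
        refine ⟨ξ ∘ₗ s, trivial, ?_⟩
        apply LinearMap.ext
        intro w
        change ξ (s (f w)) = ξ w
        rw [← sub_eq_zero, ← map_sub]
        have h1 : s (f w) - w ∈ LinearMap.ker f := by
          rw [LinearMap.mem_ker, map_sub, sub_eq_zero]
          exact LinearMap.congr_fun hs (f w)
        rw [hex] at h1
        obtain ⟨x, hx⟩ := h1
        rw [← hx]
        exact LinearMap.congr_fun (LinearMap.mem_ker.1 hξ) x
      · rintro _ ⟨η, -, rfl⟩
        rw [LinearMap.mem_ker]
        apply LinearMap.ext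
        intro x
        change η (f (i x)) = 0
        have h1 : i x ∈ LinearMap.ker f := by
          rw [hex]
          exact ⟨x, rfl⟩
        rw [LinearMap.mem_ker.1 h1, map_zero]
    rw [hk]
    exact GoodIn.map_inj d2 d1 (hastaDual hf) inj2 Stable.top h2
  · rw [Submodule.map_top, LinearMap.range_eq_top.2 s1]
    exact h0

private lemma hastaCov (hfd : D.Fd) (hN : Nz D) (hR : D.IsRational τR) {n : X}
    (r : ℕ) (c : Fin r → R) (hcU : ∀ j, D.IsU τR (c j)) (hcw : ∀ j, D.IsWt τR n (c j)) :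
    ∃ (M : Type u) (_ : AddCommGroup M) (_ : Module k M)
      (μ : Representation k Γ M) (_ : D.IsRational μ) (ψ : M →ₗ[k] R), Module.Finite k M ∧
      IsEquiv μ τR ψ ∧
      (∀ a : Fin r → k, ∃ x, D.IsU μ x ∧ D.IsWt μ n x ∧ ψ x = ∑ j, a j • c j) ∧
      (∀ b x, D.IsWt μ b x → x ≠ 0 → D.Le b n) ∧ ∀ h : D.IsRational μ.dual, GoodIn h ⊤ := by
  induction r with
  | zero =>
    refine ⟨PUnit.{u + 1}, inferInstance, inferInstance, Representation.trivial k Γ PUnit.{u + 1},
      isRational_trivial, 0, inferInstance, ?_, ?_, ?_, ?_⟩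
    · intro g v
      exact (map_zero (τR g)).symm
    · intro a
      refine ⟨0, fun u _ => map_zero _, isWt_zero n, ?_⟩
      rw [map_zero, Finset.univ_eq_empty, Finset.sum_empty]
    · intro b x _ hx
      exact absurd (Subsingleton.elim x 0) hx
    · intro h
      have ht : (⊤ : Submodule k (Module.Dual k PUnit.{u + 1})) = ⊥ := by
        rw [eq_bot_iff]
        intro x _
        rw [Submodule.mem_bot]
        exact LinearMap.ext fun v => by rw [Subsingleton.elim v 0, map_zero, map_zero]
      rw [ht]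
      exact GoodIn.bot h
  | succ r ih =>
    obtain ⟨M, iM, jM, μ, hμ, ψ, hfin, hψ, hcov, htop, hgood⟩ := ih (fun j => c j.castSucc)
      (fun j => hcU _) (fun j => hcw _)
    have hfI : Module.Finite k (D.Ind (-D.w0 n)) := hfd _
    have hδ : D.IsRational (D.indRep (-D.w0 n)).dual := isRational_dual (isRational_ind D _)
    obtain ⟨ψc, hψc, hψc1⟩ := wl_map hfd hR (hcU (Fin.last r)) (hcw (Fin.last r))
    have hprod : D.IsRational (μ.prod (D.indRep (-D.w0 n)).dual) := isRational_prod hμ hδ
    refine ⟨M × Module.Dual k (D.Ind (-D.w0 n)), inferInstance, inferInstance,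
      μ.prod (D.indRep (-D.w0 n)).dual, hprod, ψ.coprod ψc, inferInstance, ?_, ?_, ?_, ?_⟩
    · rintro g ⟨x, q⟩
      change ψ (μ g x) + ψc ((D.indRep (-D.w0 n)).dual g q) = τR g (ψ x + ψc q)
      rw [hψ, hψc, map_add]
    · intro a
      obtain ⟨x, h1, h2, h3⟩ := hcov (fun j => a j.castSucc)
      refine ⟨(x, a (Fin.last r) • evn D n), ?_, ?_, ?_⟩
      · intro u hu
        change (μ u x, (D.indRep (-D.w0 n)).dual u (a (Fin.last r) • evn D n)) = _
        rw [h1 u hu, map_smul, evn_isU hN n u hu]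
      · intro z
        change (μ (D.t z) x, (D.indRep (-D.w0 n)).dual (D.t z) (a (Fin.last r) • evn D n)) = _
        rw [h2 z, ((evn_isWt (D := D) n).smul (a (Fin.last r))) z]
        rfl
      · rw [Fin.sum_univ_castSucc, ← h3, LinearMap.coprod_apply, map_smul, hψc1]
    · rintro b ⟨x, q⟩ hw hne
      by_cases hx : x = 0
      · have hq : q ≠ 0 := by
          rintro rfl
          rw [hx] at hne
          exact hne rfl
        exact wl_top hfd hN (fun z => congrArg Prod.snd (hw z)) hq
      · exact htop b x (fun z => congrArg Prod.fst (hw z)) hx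
    · intro h
      have d0 : D.IsRational μ.dual := isRational_dual hμ
      have d2 : D.IsRational (D.indRep (-D.w0 n)).dual.dual := isRational_dual hδ
      refine dual_ext (i := LinearMap.inl k M (Module.Dual k (D.Ind (-D.w0 n))))
        (f := LinearMap.snd k M (Module.Dual k (D.Ind (-D.w0 n)))) (τ0 := μ)
        (τ1 := μ.prod (D.indRep (-D.w0 n)).dual) (τ2 := (D.indRep (-D.w0 n)).dual) ?_ ?_
        LinearMap.inl_injective (fun y => ⟨((0 : M), y), rfl⟩) ?_ d0 h d2 (hgood d0)
        (wl_dual_good hfd n d2)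
      · intro g v
        change (μ g v, (0 : Module.Dual k (D.Ind (-D.w0 n)))) =
          (μ g v, (D.indRep (-D.w0 n)).dual g 0)
        rw [map_zero]
      · exact fun _ _ => rfl
      · exact (LinearMap.range_inl k M _).symm

theorem exists_cov (hfd : D.Fd) (hN : Nz D) [Module.Finite k R] (hR : D.IsRational τR) {n : X}
    (hn : D.dom n = n) : ∃ (M : Type u) (_ : AddCommGroup M) (_ : Module k M)
      (μ : Representation k Γ M) (_ : D.IsRational μ) (ψ : M →ₗ[k] R), Module.Finite k M ∧
      IsEquiv μ τR ψ ∧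
      (∀ c, D.IsU τR c → D.IsWt τR n c → ∃ x, D.IsU μ x ∧ D.IsWt μ n x ∧ ψ x = c) ∧
      (∀ b x, D.IsWt μ b x → x ≠ 0 → D.Le b n) ∧ ∀ h : D.IsRational μ.dual, GoodIn h ⊤ := by
  let S : Submodule k R :=
    { carrier := {c | D.IsU τR c ∧ D.IsWt τR n c}
      add_mem' := by
        rintro v w ⟨h1, h2⟩ ⟨h1', h2'⟩
        exact ⟨fun u hu => by rw [map_add, h1 u hu, h1' u hu], h2.add h2'⟩
      zero_mem' := ⟨fun u _ => by rw [map_zero], isWt_zero n⟩
      smul_mem' := by
        rintro c v ⟨h1, h2⟩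
        exact ⟨fun u hu => by rw [map_smul, h1 u hu], h2.smul c⟩ }
  obtain ⟨r, s, hs⟩ := Module.Finite.exists_fin (R := k) (M := S)
  obtain ⟨M, iM, jM, μ, hμ, ψ, hfin, hψ, hcov, htop, hgood⟩ := hastaCov hfd hN hR r
    (fun j => (s j : R)) (fun j => (s j).2.1) (fun j => (s j).2.2)
  refine ⟨M, iM, jM, μ, hμ, ψ, hfin, hψ, ?_, htop, hgood⟩
  intro c h1 h2
  have hc : (⟨c, h1, h2⟩ : S) ∈ Submodule.span k (Set.range s) := by
    rw [hs]
    trivial
  obtain ⟨a, ha⟩ := (Submodule.mem_span_range_iff_exists_fun k).1 hc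
  obtain ⟨x, hx1, hx2, hx3⟩ := hcov a
  refine ⟨x, hx1, hx2, hx3.trans ?_⟩
  have := congrArg (S.subtype) ha
  rw [map_sum] at this
  exact this

theorem hw_ext [Module.Finite k W1] (h1 : D.IsRational τ1) {i : W0 →ₗ[k] W1} {f : W1 →ₗ[k] W2}
    (hi : IsEquiv τ0 τ1 i)
    (hf : IsEquiv τ1 τ2 f) (hinj : Function.Injective i) (hsurj : Function.Surjective f)
    (hex : LinearMap.ker f = LinearMap.range i) {v : W0} {xi : W0 →ₗ[k] k} {a n : X}
    (h0 : HW D ⟨W0, τ0, v, xi⟩ a) (h2 : ∀ b x, D.IsWt τ2 b x → x ≠ 0 → D.Le b n)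
    (hna : D.Le n a) (hne : n ≠ a) : ∃ xi' : W1 →ₗ[k] k, HW D ⟨W1, τ1, i v, xi'⟩ a := by
  have hv0 : v ≠ 0 := by
    rintro rfl
    have := h0.xiv
    change xi 0 = 1 at this
    rw [map_zero] at this
    exact zero_ne_one this
  have key : ∀ b x, D.IsWt τ1 b x → f x = 0 → ∃ y, i y = x ∧ D.IsWt τ0 b y := by
    intro b x hw hf0
    have : x ∈ LinearMap.ker f := hf0
    rw [hex] at this
    obtain ⟨y, rfl⟩ := this
    exact ⟨y, rfl, IsWt.of_inj hi hinj hw⟩
  apply exists_HW h1 (IsWt.map hi h0.hw)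
  · intro h
    exact hv0 (hinj (by rw [h, map_zero]))
  · intro b x hw hx
    by_cases hfx : f x = 0
    · obtain ⟨y, hy, hyw⟩ := key b x hw hfx
      refine h0.top b y hyw ?_
      rintro rfl
      rw [map_zero] at hy
      exact hx hy.symm
    · exact Le.trans D (h2 b (f x) (hw.map hf) hfx) hna
  · intro x hw
    have hfx : f x = 0 := by
      by_contra hfx
      exact hne (Le.antisymm D hna (h2 a (f x) (hw.map hf) hfx))
    obtain ⟨y, hy, hyw⟩ := key a x hw hfx
    refine ⟨xi y, ?_⟩
    rw [← hy, ← map_smul]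
    exact congrArg i (h0.one y hyw)

end PG

end Pool.Agent.TRN
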