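import Pool.Agent.TRN.HullA

/-!
# TRN / HULL: the truncation functors `O_π`: the top component

`Opi hρ π` is the largest stable subspace all whose weights `b` have `dom b ∈ π`.

* `mem_Opi_of_top` (removing a maximal weight): let `a ∈ π` be maximal (`∀ b ∈ π, Le a b → b = a`)
  and `v ∈ Opi π` with `wt a (ρ g v) = 0` for all `g`; then `v ∈ Opi (π \ {a})`: if
  `wt b (ρ g v) ≠ 0` and `dom b = a`, take `n` of `exists_weyl`: `ρ n (wt b (ρ g v))` has weight
  `dom b = a` and is the component of weight `a` of `ρ (n g) v` (`ρ n` maps the weight space of `b`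
  onto that of `a`, and other weight spaces into other weight spaces: `weyl` has a bijection `s`
  of the torus). Conclude `wt b (ρ g v) = 0`.
* `top_isU`: `v ∈ Opi π`, `a` maximal in `π`, `dom a = a`: for `b ≠ a`, `Le a b` the component
  `wt b v` vanishes, because `dom b ∈ π`, `Le a (dom b)`, so `dom b = a`, `Le b a`, `b = a`. Apply
  `IsU.of_weights` in the stable subspace `Opi π`.
* `top_fun`: the function `g ↦ wt a (ρ g⁻¹ v)` is regular with values in the `U`-invariants of
  weight `a`, and `F (g (u (t z))) = χ_a(z)⁻¹ F g` for `u ∈ Um` (`wt_Um_of_weights`, `wt_t`);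
  with `IsReg.indep` its coordinates lie in `D.Ind a`.
* `isU_mem`: `v` a `U`-invariant of weight `a`. For `b` with `wt b (ρ g v) ≠ 0` for some `g` we
  have `Le b a`: otherwise, for a functional `ξ`, the regular function `g ↦ ξ (wt b (ρ g v))`
  vanishes on `Um T U` (`wt_Um`), hence everywhere (`cell'`). Since the weights are stable under
  the Weyl group also `dom b` is a weight of the span of the orbit, so `Le (dom b) a`.
  If `v ≠ 0` then `dom a` is a weight, `Le (dom a) a`, so `dom a = a`.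
-/

set_option autoImplicit false

namespace Pool.Agent.TRN

open Finset TensorProduct

namespace PG

variable {k Γ T X : Type*} [Field k] [Infinite k] [Group Γ] [CommGroup T] [AddCommGroup X]
  {D : PG k Γ T X} {V W : Type*} [AddCommGroup V] [Module k V] [AddCommGroup W] [Module k W]
  {ρ : Representation k Γ V} {σ : Representation k Γ W}

/-- an element of the Weyl group which maps the weight `b` to `dom b` is compatible with the
weight projections -/
private lemma weyl_wt (hρ : D.IsRational ρ) (b : X) :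
    ∃ n : Γ, ∀ w, ρ n (wt hρ b w) = wt hρ (D.dom b) (ρ n w) := by
  obtain ⟨n, s, hn⟩ := D.weyl b
  refine ⟨n, fun w => ?_⟩
  obtain ⟨S, hS0, hS⟩ := sum_wt hρ w
  have h1 : D.IsWt ρ (D.dom b) (ρ n (wt hρ b w)) := by
    intro z
    rw [← mul_apply', (hn z).1, mul_apply', wt_isWt hρ b w (s z), map_smul, (hn z).2]
  have h2 : ∀ b' ∈ S, b' ≠ b → wt hρ (D.dom b) (ρ n (wt hρ b' w)) = 0 := by
    intro b' _ hb'
    by_contra hcon
    apply hb'
    apply D.chi_inj
    apply MonoidHom.ext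
    intro y
    obtain ⟨z, rfl⟩ := s.surjective y
    have h3 : ρ (D.t z) (ρ n (wt hρ b' w)) = (D.chi b' (s z) : k) • ρ n (wt hρ b' w) := by
      rw [← mul_apply', (hn z).1, mul_apply', wt_isWt hρ b' w (s z), map_smul]
    have h4 := wt_t hρ (D.dom b) z (ρ n (wt hρ b' w))
    rw [h3, map_smul] at h4
    have h5 := smul_left_injective k hcon h4
    rw [(hn z).2]
    exact Units.ext h5
  have key : wt hρ (D.dom b) (ρ n w) = ∑ b' ∈ S, wt hρ (D.dom b) (ρ n (wt hρ b' w)) := by
    conv_lhs => rw [hS]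
    rw [map_sum, map_sum]
  rw [key]
  by_cases hb : b ∈ S
  · rw [Finset.sum_eq_single_of_mem b hb h2, wt_self hρ h1]
  · rw [hS0 b hb, map_zero]
    symm
    exact Finset.sum_eq_zero fun b' hb' => h2 b' hb' (fun e => hb (e ▸ hb'))

private lemma apply_inj (ρ : Representation k Γ V) {n : Γ} {v : V} (h : ρ n v = 0) : v = 0 := by
  rw [← inv_apply_self ρ n v, h, map_zero]

lemma mem_Opi_of_top (hρ : D.IsRational ρ) {π : Set X} {a : X} (ha : D.dom a = a)
    {v : V} (hv : v ∈ Opi hρ π) (h : ∀ g, wt hρ a (ρ g v) = 0) : v ∈ Opi hρ (π \ {a}) := by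
  have _ := ha
  rw [mem_Opi] at hv ⊢
  intro g b hb
  by_cases hb1 : D.dom b ∈ π
  · have hb2 : D.dom b = a := by
      by_contra hne
      exact hb ⟨hb1, hne⟩
    obtain ⟨n, hn⟩ := weyl_wt hρ b
    apply apply_inj ρ (n := n)
    rw [hn, hb2, ← mul_apply', h]
  · exact hv g b hb1

private lemma wt_above (hρ : D.IsRational ρ) {π : Set X} {a : X}
    (hmax : ∀ b ∈ π, D.Le a b → b = a) {v : V} (hv : v ∈ Opi hρ π) {b : X} (hab : D.Le a b)
    (hne : b ≠ a) : wt hρ b v = 0 := by
  by_contra hcon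
  have h1 : D.dom b ∈ π := by
    by_contra h1
    exact hcon (Opi_wt hρ hv h1)
  have h2 : D.dom b = a := hmax _ h1 (Le.trans D hab (le_dom' D b))
  have h3 : D.Le b a := by
    have := le_dom' D b
    rwa [h2] at this
  exact hne (Le.antisymm D h3 hab)

lemma top_isU (hρ : D.IsRational ρ) {π : Set X} {a : X} (ha : D.dom a = a)
    (hmax : ∀ b ∈ π, D.Le a b → b = a) {v : V} (hv : v ∈ Opi hρ π) (hw : D.IsWt ρ a v) :
    D.IsU ρ v := by
  have _ := ha
  refine IsU.of_weights hρ (Opi_stable hρ π) (a := a) ?_ hv hw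
  intro b hab hne w hwm hwb
  rw [← wt_self hρ hwb]
  exact wt_above hρ hmax hwm hab hne

/-- the top component of the orbit as an element of `Ind a ⊗ V^U_a` -/
theorem top_fun (hρ : D.IsRational ρ) {π : Set X} {a : X} (ha : D.dom a = a)
    (hmax : ∀ b ∈ π, D.Le a b → b = a) {v : V} (hv : v ∈ Opi hρ π) :
    ∃ (m : ℕ) (F : Fin m → Γ → k) (u : Fin m → V), (∀ i, F i ∈ D.Ind a) ∧
      LinearIndependent k u ∧ (∀ i, D.IsU ρ (u i) ∧ D.IsWt ρ a (u i)) ∧
      (∀ i, u i ∈ Submodule.span k (Set.range fun g => wt hρ a (ρ g v))) ∧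
      (∀ g, wt hρ a (ρ g⁻¹ v) = ∑ i, F i g • u i) ∧
      ∀ ξ : V →ₗ[k] k, (fun g => ξ (wt hρ a (ρ g⁻¹ v))) ∈ D.Ind a := by
  have hreg : D.IsReg (fun g => wt hρ a (ρ g⁻¹ v)) := ((hρ v).comp_inv).map (wt hρ a)
  have hst := Opi_stable hρ π
  have hInd : ∀ ξ : V →ₗ[k] k, (fun g => ξ (wt hρ a (ρ g⁻¹ v))) ∈ D.Ind a := by
    intro ξ
    refine ⟨hreg.apply ξ, fun g u hu z => ?_⟩
    beta_reduce
    have h1 : (g * (u * D.t z))⁻¹ = D.t z⁻¹ * (u⁻¹ * g⁻¹) := by
      rw [map_inv]
      group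
    rw [h1, mul_apply', wt_t, mul_apply', wt_Um_of_weights hρ ?_ (D.Um.inv_mem hu), map_smul,
      smul_eq_mul, map_inv]
    intro b hab hne
    exact wt_above hρ hmax (hst _ _ hv) hab hne
  obtain ⟨m, f, w, -, hli, hsp, hF, hξ⟩ := hreg.indep
  have hspan : Submodule.span k (Set.range fun g => wt hρ a (ρ g⁻¹ v)) ≤
      Submodule.span k (Set.range fun g => wt hρ a (ρ g v)) := by
    apply Submodule.span_mono
    rintro _ ⟨g, rfl⟩
    exact ⟨g⁻¹, rfl⟩
  have hUW : ∀ x ∈ Submodule.span k (Set.range fun g => wt hρ a (ρ g v)),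
      x ∈ Opi hρ π ∧ D.IsWt ρ a x := by
    intro x hx
    induction hx using Submodule.span_induction with
    | mem x hx =>
      obtain ⟨g, rfl⟩ := hx
      exact ⟨wt_mem hρ hst (hst g v hv) a, wt_isWt hρ a _⟩
    | zero => exact ⟨Submodule.zero_mem _, isWt_zero a⟩
    | add x y _ _ hx hy => exact ⟨Submodule.add_mem _ hx.1 hy.1, hx.2.add hy.2⟩
    | smul c x _ hx => exact ⟨Submodule.smul_mem _ _ hx.1, hx.2.smul c⟩
  refine ⟨m, f, w, fun i => ?_, hli, fun i => ?_, fun i => hspan (hsp i), hF, hInd⟩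
  · obtain ⟨ξ, h⟩ := hξ i
    have h2 : f i = fun g => ξ (wt hρ a (ρ g⁻¹ v)) := funext h
    rw [h2]
    exact hInd ξ
  · have h := hUW _ (hspan (hsp i))
    exact ⟨top_isU hρ ha hmax h.1 h.2, h.2⟩

/-- `U`-invariants generate submodules with smaller weights -/
theorem isU_mem (hρ : D.IsRational ρ) {a : X} {v : V} (hU : D.IsU ρ v) (h : D.IsWt ρ a v) :
    v ∈ Opi hρ (D.down a) ∧ (v ≠ 0 → D.dom a = a) := by
  have hA : ∀ g b, wt hρ b (ρ g v) ≠ 0 → D.Le b a := by
    intro g b hne
    by_contra hnot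
    apply hne
    rw [← Module.forall_dual_apply_eq_zero_iff k]
    intro ξ
    refine cell' (((hρ v).map (wt hρ b)).apply ξ) ?_ g
    intro w hw z u hu
    rw [mul_apply', hU u hu, mul_apply', h z, map_smul, map_smul, map_smul]
    have h1 : wt hρ b (ρ w v) = 0 := by
      by_contra h1
      exact hnot ((wt_Um hρ h hw).2 b h1)
    rw [h1, map_zero, smul_zero]
  have hB : ∀ g b, wt hρ b (ρ g v) ≠ 0 → D.dom b ∈ D.down a := by
    intro g b hne
    refine ⟨D.dom_dom b, ?_⟩
    obtain ⟨n, hn⟩ := weyl_wt hρ b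
    apply hA (n * g)
    rw [mul_apply', ← hn]
    intro h0
    exact hne (apply_inj ρ h0)
  refine ⟨?_, fun hv => ?_⟩
  · rw [mem_Opi]
    intro g b hb
    by_contra hne
    exact hb (hB g b hne)
  · have h1 : D.dom a ∈ D.down a := by
      apply hB 1 a
      rw [map_one, Module.End.one_apply, wt_self hρ h]
      exact hv
    exact Le.antisymm D h1.2 (le_dom' D a)

lemma max_down {a : X} (b : X) (hb : b ∈ D.down a) (h : D.Le a b) : b = a :=
  Le.antisymm D hb.2 h

end PG

end Pool.Agent.TRN
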