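import Pool.Agent.TRN.Root

/-!
# TRN / HULLA: the truncation functors `O_π`, elementary lemmas

`Opi hρ π` is the largest stable subspace all whose weights `b` have `dom b ∈ π`.

* `exists_Opi`: `ρ g v = ∑ f_i(g) w_i` and every `w_i` has finitely many weights.
* `Opi_empty`: a vector all of whose weight components vanish is `0`.
* `exists_Opi_fin`: take the union of the sets `π` for a finite spanning set.
-/

set_option autoImplicit false

namespace Pool.Agent.TRN

open Finset TensorProduct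

namespace PG

variable {k Γ T X : Type*} [Field k] [Infinite k] [Group Γ] [CommGroup T] [AddCommGroup X]
  {D : PG k Γ T X} {V W : Type*} [AddCommGroup V] [Module k V] [AddCommGroup W] [Module k W]
  {ρ : Representation k Γ V} {σ : Representation k Γ W}

/-- the largest stable subspace whose weights `b` have `dom b ∈ π` -/
noncomputable def Opi (hρ : D.IsRational ρ) (π : Set X) : Submodule k V where
  carrier := {v | ∀ g b, D.dom b ∉ π → wt hρ b (ρ g v) = 0}
  add_mem' ha hb g b hb' := by rw [map_add, map_add, ha g b hb', hb g b hb', add_zero]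
  zero_mem' g b _ := by rw [map_zero, map_zero]
  smul_mem' c v hv g b hb' := by rw [map_smul, map_smul, hv g b hb', smul_zero]

lemma mem_Opi (hρ : D.IsRational ρ) {π : Set X} {v : V} :
    v ∈ Opi hρ π ↔ ∀ g b, D.dom b ∉ π → wt hρ b (ρ g v) = 0 := Iff.rfl

lemma Opi_stable (hρ : D.IsRational ρ) (π : Set X) : Stable ρ (Opi hρ π) := by
  intro h v hv
  rw [mem_Opi] at hv ⊢
  intro g b hb
  rw [← mul_apply']
  exact hv (g * h) b hb

lemma Opi_mono (hρ : D.IsRational ρ) {π π' : Set X} (h : π ⊆ π') : Opi hρ π ≤ Opi hρ π' := by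
  intro v hv
  rw [mem_Opi] at hv ⊢
  intro g b hb
  exact hv g b fun hb' => hb (h hb')

lemma Opi_empty (hρ : D.IsRational ρ) : Opi hρ ∅ = ⊥ := by
  rw [eq_bot_iff]
  intro v hv
  rw [mem_Opi] at hv
  rw [Submodule.mem_bot]
  refine eq_zero_of_wt hρ fun a => ?_
  have h := hv 1 a (Set.notMem_empty _)
  rwa [map_one, Module.End.one_apply] at h

lemma Opi_wt (hρ : D.IsRational ρ) {π : Set X} {v : V} (hv : v ∈ Opi hρ π) {b : X}
    (hb : D.dom b ∉ π) : wt hρ b v = 0 := by
  have h := hv 1 b hb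
  rwa [map_one, Module.End.one_apply] at h

lemma exists_Opi (hρ : D.IsRational ρ) (v : V) :
    ∃ π : Set X, π.Finite ∧ D.Sat π ∧ v ∈ Opi hρ π := by
  classical
  obtain ⟨m, f, w, -, hw⟩ := hρ v
  choose s hs using fun i : Fin m => sum_wt hρ (w i)
  obtain ⟨π, hπ1, hπ2, hπ3⟩ := exists_sat D (Finset.univ.biUnion s)
  refine ⟨π, hπ1, hπ2, ?_⟩
  rw [mem_Opi]
  intro g b hb
  have h1 : ρ g v = ∑ i, f i g • w i := hw g
  rw [h1, map_sum]
  refine Finset.sum_eq_zero fun i _ => ?_
  rw [map_smul, (hs i).1 b, smul_zero]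
  intro hbi
  exact hb (hπ3 b (Finset.mem_biUnion.2 ⟨i, Finset.mem_univ i, hbi⟩))

lemma exists_Opi_fin (hρ : D.IsRational ρ) (Y : Submodule k V) [Module.Finite k Y] :
    ∃ π : Set X, π.Finite ∧ D.Sat π ∧ Y ≤ Opi hρ π := by
  classical
  have hfg : Y.FG := (Submodule.fg_iff_finiteDimensional Y).2 inferInstance
  obtain ⟨S, hS⟩ := hfg
  have key : ∀ S : Finset V, ∃ π : Set X, π.Finite ∧ D.Sat π ∧ ∀ v ∈ S, v ∈ Opi hρ π := by
    intro S
    induction S using Finset.induction_on with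
    | empty => exact ⟨∅, Set.finite_empty, sat_empty D, fun v hv => absurd hv (Finset.notMem_empty v)⟩
    | insert a S _ ih =>
      obtain ⟨π, h1, h2, h3⟩ := ih
      obtain ⟨π', h1', h2', h3'⟩ := exists_Opi hρ a
      refine ⟨π ∪ π', h1.union h1', Sat.union D h2 h2', ?_⟩
      intro v hv
      rcases Finset.mem_insert.1 hv with rfl | hv
      · exact Opi_mono hρ Set.subset_union_right h3'
      · exact Opi_mono hρ Set.subset_union_left (h3 v hv)
  obtain ⟨π, h1, h2, h3⟩ := key S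
  refine ⟨π, h1, h2, ?_⟩
  rw [← hS, Submodule.span_le]
  exact h3

lemma map_Opi (hρ : D.IsRational ρ) (hσ : D.IsRational σ) {φ : V →ₗ[k] W} (hφ : IsEquiv ρ σ φ)
    {π : Set X} {v : V} (hv : v ∈ Opi hρ π) : φ v ∈ Opi hσ π := by
  rw [mem_Opi] at hv ⊢
  intro g b hb
  rw [← hφ g v, ← map_wt hρ hσ hφ, hv g b hb, map_zero]

lemma Opi_of_inj (hρ : D.IsRational ρ) (hσ : D.IsRational σ) {φ : V →ₗ[k] W} (hφ : IsEquiv ρ σ φ)
    (hinj : Function.Injective φ) {π : Set X} {v : V} (hv : φ v ∈ Opi hσ π) : v ∈ Opi hρ π := by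
  rw [mem_Opi] at hv ⊢
  intro g b hb
  apply hinj
  rw [map_wt hρ hσ hφ, hφ g v, hv g b hb, map_zero]

end PG

end Pool.Agent.TRN
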