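import Pool.Agent.TRN.Hab
import Pool.Agent.Helper92.TR.Rees
import Pool.Agent.Helper53.TR.Nagata

/-!
# TRN / INVFIN: invariants of finitely generated algebras are finitely generated

General version of `Pool/Agent/Helper92/TR/N3.lean` (`fg_inv`), `Filt.lean` (`exists_W`, `pow_stable`)
and `Rat.lean`; copy with `G k` replaced by `Γ` and `IsRational` by `D.IsRational` (`IsReg.map`,
`IsReg.sum`). `rees`, `gr`, `rees_fg`, the grading instances and
`Pool.Agent.Helper53.TR.nagata_graded` do not mention the group and can be used from the imported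
files (`toAlg` is also general). Use `haboush` for `hpow`.
-/

set_option autoImplicit false

namespace Pool.Agent.TRN

open Finset TensorProduct

section rees

open Pool.Agent.Helper92.TR Polynomial

variable {k Γ : Type*} [Field k] [Group Γ] {A : Type*} [CommRing A] [Algebra k A]

lemma invFin_pow_stable (ρ : Representation k Γ A) (hmul : IsMul ρ) {W : Submodule k A}
    (hW : ∀ g, ∀ a ∈ W, ρ g a ∈ W) (n : ℕ) (g : Γ) {a : A} (ha : a ∈ W ^ n) :
    ρ g a ∈ W ^ n := by
  have h1 : W.map (toAlg ρ hmul g).toLinearMap ≤ W := by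
    rintro _ ⟨a, ha, rfl⟩
    exact hW g a ha
  have h2 : (W ^ n).map (toAlg ρ hmul g).toLinearMap ≤ W ^ n := by
    rw [Submodule.map_pow]
    exact pow_le_pow_left' h1 n
  exact h2 ⟨a, ha, rfl⟩

variable (ρ : Representation k Γ A) (hmul : IsMul ρ) {W : Submodule k A}
  (hW : ∀ g, ∀ a ∈ W, ρ g a ∈ W)

/-- the action on the Rees algebra -/
noncomputable def reesAct (g : Γ) : rees W →ₗ[k] rees W where
  toFun b := ⟨Polynomial.mapAlgHom (toAlg ρ hmul g) (b : A[X]), by
    intro n
    rw [Polynomial.coe_mapAlgHom, Polynomial.coeff_map]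
    exact invFin_pow_stable ρ hmul hW n g (b.2 n)⟩
  map_add' a b := by
    apply Subtype.ext
    exact map_add (Polynomial.mapAlgHom (toAlg ρ hmul g)) (a : A[X]) (b : A[X])
  map_smul' c b := by
    apply Subtype.ext
    exact map_smul (Polynomial.mapAlgHom (toAlg ρ hmul g)) c (b : A[X])

lemma reesAct_coeff (g : Γ) (b : rees W) (n : ℕ) :
    ((reesAct ρ hmul hW g b : rees W) : A[X]).coeff n = ρ g ((b : A[X]).coeff n) := by
  show (Polynomial.mapAlgHom (toAlg ρ hmul g) (b : A[X])).coeff n = _
  rw [Polynomial.coe_mapAlgHom, Polynomial.coeff_map]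
  rfl

/-- the representation on the Rees algebra -/
noncomputable def reesRep : Representation k Γ (rees W) where
  toFun g := reesAct ρ hmul hW g
  map_one' := by
    refine LinearMap.ext fun b => ?_
    apply Subtype.ext
    apply Polynomial.ext
    intro n
    rw [reesAct_coeff, map_one]
    rfl
  map_mul' g h := by
    refine LinearMap.ext fun b => ?_
    apply Subtype.ext
    apply Polynomial.ext
    intro n
    rw [reesAct_coeff, map_mul]
    show (ρ g * ρ h) _ = ((reesAct ρ hmul hW g (reesAct ρ hmul hW h b) : rees W) : A[X]).coeff n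
    rw [reesAct_coeff, reesAct_coeff]
    rfl

lemma reesRep_coeff (g : Γ) (b : rees W) (n : ℕ) :
    ((reesRep ρ hmul hW g b : rees W) : A[X]).coeff n = ρ g ((b : A[X]).coeff n) :=
  reesAct_coeff ρ hmul hW g b n

lemma reesRep_mul (g : Γ) (a b : rees W) :
    reesRep ρ hmul hW g (a * b) = reesRep ρ hmul hW g a * reesRep ρ hmul hW g b := by
  apply Subtype.ext
  exact map_mul (Polynomial.mapAlgHom (toAlg ρ hmul g)) (a : A[X]) (b : A[X])

/-- the monomial map into the Rees algebra -/
noncomputable def reesMono (W : Submodule k A) (n : ℕ) : (W ^ n : Submodule k A) →ₗ[k] rees W where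
  toFun a := ⟨monomial n (a : A), monomial_mem a.2⟩
  map_add' a b := by
    apply Subtype.ext
    exact map_add (monomial n) (a : A) (b : A)
  map_smul' c a := by
    apply Subtype.ext
    show monomial n (c • (a : A)) = c • monomial n (a : A)
    rw [Polynomial.smul_monomial]

/-- evaluation at `1` -/
noncomputable def reesEv (W : Submodule k A) : rees W →ₐ[k] A :=
  ((Polynomial.aeval (1 : A)).restrictScalars k).comp (rees W).val

lemma reesEv_apply (b : rees W) : reesEv W b = Polynomial.eval 1 (b : A[X]) := by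
  show Polynomial.aeval (1 : A) (b : A[X]) = _
  rw [Polynomial.coe_aeval_eq_eval]

lemma reesEv_rep (g : Γ) (b : rees W) : reesEv W (reesRep ρ hmul hW g b) = ρ g (reesEv W b) := by
  rw [reesEv_apply, reesEv_apply]
  show Polynomial.eval 1 (Polynomial.mapAlgHom (toAlg ρ hmul g) (b : A[X])) =
    toAlg ρ hmul g (Polynomial.eval 1 (b : A[X]))
  rw [Polynomial.coe_mapAlgHom]
  exact Polynomial.eval_one_map (toAlg ρ hmul g : A →+* A) (b : A[X])

end rees

namespace PG

variable {k Γ T X : Type*} [Field k] [Group Γ] [CommGroup T] [AddCommGroup X]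
  {D : PG k Γ T X} {A : Type*} [CommRing A] [Algebra k A] {ρ : Representation k Γ A}

section rat

open Pool.Agent.Helper92.TR Polynomial

/-- a finite dimensional stable subspace which contains `1` and generates the algebra -/
lemma invFin_exists_W [Algebra.FiniteType k A] (hρ : D.IsRational ρ) :
    ∃ W : Submodule k A, W.FG ∧ (∀ g, ∀ a ∈ W, ρ g a ∈ W) ∧ 1 ≤ W ∧
      Algebra.adjoin k (W : Set A) = ⊤ := by
  classical
  obtain ⟨S, hS⟩ := (inferInstance : Algebra.FiniteType k A).out
  obtain ⟨W, hst, hfin, hmem, -⟩ := exists_finite hρ (insert (1 : A) S : Finset A)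
  refine ⟨W, (Submodule.fg_iff_finiteDimensional W).mpr hfin, hst, ?_, ?_⟩
  · rw [Submodule.one_le]
    exact hmem 1 (Finset.mem_insert_self _ _)
  · rw [eq_top_iff, ← hS]
    apply Algebra.adjoin_mono
    intro x hx
    exact hmem x (Finset.mem_insert_of_mem hx)

lemma reesRep_rat (hmul : IsMul ρ) {W : Submodule k A} (hW : ∀ g, ∀ a ∈ W, ρ g a ∈ W)
    (hρ : D.IsRational ρ) : D.IsRational (reesRep ρ hmul hW) := by
  intro b
  have hb : b = ∑ n ∈ (b : A[X]).support, comp b n := by
    apply Subtype.ext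
    rw [AddSubmonoidClass.coe_finsetSum]
    exact Polynomial.as_sum_support (b : A[X])
  have key : D.IsReg (fun g => ∑ n ∈ (b : A[X]).support, reesRep ρ hmul hW g (comp b n)) := by
    apply IsReg.sum
    intro n _
    obtain ⟨π, hπ⟩ := (W ^ n).subtype.exists_leftInverse_of_injective
      (LinearMap.ker_eq_bot.mpr (Submodule.subtype_injective _))
    have h1 : D.IsReg (fun g => ρ g ((b : A[X]).coeff n)) := hρ _
    refine (h1.map ((reesMono W n).comp π)).congr ?_
    intro g
    have h2 : ρ g ((b : A[X]).coeff n) ∈ W ^ n := invFin_pow_stable ρ hmul hW n g (b.2 n)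
    have h3 : π (ρ g ((b : A[X]).coeff n)) = ⟨ρ g ((b : A[X]).coeff n), h2⟩ :=
      LinearMap.congr_fun hπ ⟨ρ g ((b : A[X]).coeff n), h2⟩
    rw [LinearMap.comp_apply, h3]
    apply Subtype.ext
    apply Polynomial.ext
    intro m
    rw [reesRep_coeff]
    show ρ g ((monomial n ((b : A[X]).coeff n)).coeff m) = (monomial n (ρ g ((b : A[X]).coeff n))).coeff m
    rw [coeff_monomial, coeff_monomial]
    split_ifs
    · rfl
    · exact map_zero _
  refine key.congr ?_
  intro g
  conv_lhs => rw [hb]
  rw [map_sum]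

end rat

open Pool.Agent.Helper92.TR Polynomial in
theorem fg_inv (hG : GeomRed D) [Algebra.FiniteType k A] (hmul : IsMul ρ) (hρ : D.IsRational ρ) :
    ∃ s : Finset A, (∀ f ∈ s, ∀ g, ρ g f = f) ∧
      ∀ a : A, (∀ g, ρ g a = a) → a ∈ Algebra.adjoin k (s : Set A) := by
  classical
  obtain ⟨W, hFG, hst, h1, hgen⟩ := invFin_exists_W hρ
  have : Fact W.FG := ⟨hFG⟩
  obtain ⟨s, hs1, hs2⟩ := Pool.Agent.Helper53.TR.nagata_graded (reesRep ρ hmul hst)
    (reesRep_mul ρ hmul hst) (gr W)
    (by
      intro a ha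
      have h2 : (a : A[X]).coeff 0 ∈ W ^ 0 := a.2 0
      rw [pow_zero, Submodule.mem_one] at h2
      obtain ⟨r, hr⟩ := h2
      refine ⟨r, ?_⟩
      apply Subtype.ext
      apply Polynomial.ext
      intro n
      show (a : A[X]).coeff n = (algebraMap k A[X] r).coeff n
      rw [Polynomial.algebraMap_apply, Polynomial.coeff_C]
      split_ifs with h
      · rw [h, hr]
      · exact ha n h)
    (by
      intro g i a ha m hm
      rw [reesRep_coeff, ha m hm, map_zero])
    (fun J hJ a ha => haboush hG (reesRep_mul ρ hmul hst) (reesRep_rat hmul hst hρ) J hJ a ha)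
    ⊥ (by
      intro g a ha
      rw [Ideal.mem_bot] at ha ⊢
      rw [ha, map_zero]) (Ideal.IsHomogeneous.bot _)
  refine ⟨s.image (reesEv W), ?_, ?_⟩
  · intro f hf g
    obtain ⟨b, hb, rfl⟩ := Finset.mem_image.mp hf
    rw [← reesEv_rep ρ hmul hst]
    have h2 := hs1 b hb g
    rw [Ideal.mem_bot, sub_eq_zero] at h2
    rw [h2]
  · intro a ha
    obtain ⟨n, hn⟩ := exists_pow h1 hgen a
    have hinv : ∀ g, reesRep ρ hmul hst g (reesMono W n ⟨a, hn⟩) - reesMono W n ⟨a, hn⟩ ∈
        (⊥ : Ideal (rees W)) := by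
      intro g
      rw [Ideal.mem_bot, sub_eq_zero]
      apply Subtype.ext
      apply Polynomial.ext
      intro m
      rw [reesRep_coeff]
      show ρ g ((monomial n a).coeff m) = (monomial n a).coeff m
      rw [coeff_monomial]
      split_ifs
      · exact ha g
      · exact map_zero _
    obtain ⟨b, hb, hab⟩ := hs2 _ hinv
    rw [Ideal.mem_bot, sub_eq_zero] at hab
    have h3 : reesEv W b ∈ (Algebra.adjoin k (s : Set (rees W))).map (reesEv W) := ⟨b, hb, rfl⟩
    rw [AlgHom.map_adjoin, ← Finset.coe_image, ← hab, reesEv_apply] at h3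
    have h4 : Polynomial.eval 1 ((reesMono W n ⟨a, hn⟩ : rees W) : A[X]) = a := by
      show Polynomial.eval 1 (monomial n a) = a
      simp
    rwa [h4] at h3

end PG

end Pool.Agent.TRN
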