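import Pool.Agent.TRN.Good

/-!
# TRN / LIFT: lifting of `U`-invariants along extensions

`LiftP D n τ`: `U`-invariants of weight `n` of quotients `Y / E` lift, for all extensions obtained from
`E → W` by pushout. In concrete terms (`φ : Y → W` is linear, equivariant on `E`; `y` has weight `n` and is
`U`-invariant modulo `E`): there is `w ∈ W` of weight `n` with `τ u w - w = φ (σ u y - y)` for `u ∈ U`.

* `LiftP.of_good`: let `N = {(x, w) ∈ Y × W | x ∈ E ∧ w = -φ x}`, a stable submodule for `σ.prod τ`, and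
  `Z = (Y × W) ⧸ N` (`quo`, `isRational_quo`, `isRational_prod`). The map `i : W → Z`, `w ↦ [(0, w)]` is
  equivariant and injective, `q : Z → Y ⧸ E`, `[(x, w)] ↦ [x]` (`Submodule.liftQ` or
  `Submodule.mapQ` with `LinearMap.fst`) is equivariant and surjective with kernel `range i`
  (`[(x, w)] = [(0, w + φ x)]` for `x ∈ E`). `GoodIn (⊤ ⊓ ker q)`: `GoodIn.map_inj`. `c = [y] ∈ Y ⧸ E` is
  `U`-invariant of weight `n`; `lift_U` gives `z ∈ Z`, `U`-invariant of weight `n` with `q z = c`;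
  `z = [(x, w)]`, `x - y ∈ E`, so `z = [(y, w')]`, `w' = w - φ (y - x)`. `U`-invariance of `z`:
  `(σ u y - y, τ u w' - w') ∈ N`, weight: `(0, τ (t z) w' - χ w') ∈ N`. Take `-w'`.
* `LiftP.of_weights`: take `w = 0`. Let `e = σ u y - y ∈ E`. `wt b e` (in `E`: `wt_mem`) is nonzero only for
  `Le n b`, `b ≠ n` (`wt_U`), `φ (wt b e)` has weight `b` (equivariance on `E`), so it is `0` by `hW`.
  `φ e = ∑ φ (wt b e) = 0` (`sum_wt`).
* `LiftP.ext`: `0 → W0 → W1 → W2 → 0`. Let `(Y, σ, E, φ : Y → W1, y)` be given. `h2` for `f ∘ₗ φ` gives `w2 ∈ W2`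
  of weight `n` with `τ2 u w2 - w2 = f (φ (σ u y - y))`; let `w1 ∈ W1` of weight `n` with `f w1 = w2`
  (`wt h1 n` of a preimage, `map_wt`, `wt_self`). Let `π : W1 → W0` be linear with `π (i x) = x`. Apply `h0` to
  `Y × W1` (`σ.prod τ1`), `E' = {(x, w) | x ∈ E ∧ φ x - w ∈ range i}` (stable: on `E'`,
  `φ (σ g x) - τ1 g w = τ1 g (φ x - w)`), `φ' (x, w) = π (φ x - w)`, `y' = (y, w1)`:
  `(σ u y - y, τ1 u w1 - w1) ∈ E'` because `f` kills `φ (σ u y - y) - (τ1 u w1 - w1)`. It gives `w0 ∈ W0` of weight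
  `n` with `i (τ0 u w0 - w0) = φ (σ u y - y) - (τ1 u w1 - w1)`; take `w = w1 + i w0`.
* `LiftP.pull`: `W1 = {(q, x) ∈ Q × W2 | p q = ψ x}`, given by maps `pr1 : W1 → Q`, `pr2 : W1 → W2`. Apply `hQ` to
  `pr1 ∘ₗ φ` and `h2` to `pr2 ∘ₗ φ`: `q0 ∈ Q`, `x0 ∈ W2` of weight `n`, `τQ u q0 - q0 = pr1 (φ e_u)`,
  `τ2 u x0 - x0 = pr2 (φ e_u)`, `e_u = σ u y - y`. So `p q0 - ψ x0` is `U`-invariant of weight `n`, `hc` gives `x1 ∈ W2`,
  `U`-invariant of weight `n` with `ψ x1 = p q0 - ψ x0`. `hex` gives `w ∈ W1` with `pr1 w = q0`, `pr2 w = x0 + x1`.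
  `τ1 u w - w = φ e_u` and `τ1 (t z) w = χ w` by `hinj`.
* `LiftP.good`: let `i : W → Q` be injective, `Q` good. `GoodIn.ker` for `q : Q → Q ⧸ range i` with `B = ⊤`, `C = ⊤`:
  let `c` be `U`-invariant of weight `a`. If `c = 0` take `0`. Otherwise `dom a = a` (`isU_mem`), `c = q y`,
  `y` of weight `a` (`wt`), `σ u y - y ∈ range i`; `LiftP D a` with `Y = Q`, `E = range i`, `φ` a linear left
  inverse of `i` gives `w`, and `y - i w` is `U`-invariant of weight `a` with `q (y - i w) = c`. So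
  `GoodIn (range i)`, and `GoodIn.comap_inj`.
-/

set_option autoImplicit false

namespace Pool.Agent.TRN

open Finset TensorProduct

universe u

namespace PG

variable {k : Type u} [Field k] [Infinite k] {Γ : Type u} [Group Γ] {T X : Type*} [CommGroup T]
  [AddCommGroup X]

/-- lifting of `U`-invariants of weight `n` along extensions -/
def LiftP (D : PG k Γ T X) (n : X) {W : Type u} [AddCommGroup W] [Module k W]
    (τ : Representation k Γ W) : Prop :=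
  ∀ (Y : Type u) [AddCommGroup Y] [Module k Y] (σ : Representation k Γ Y), D.IsRational σ →
    ∀ E : Submodule k Y, Stable σ E → ∀ φ : Y →ₗ[k] W, (∀ g, ∀ x ∈ E, φ (σ g x) = τ g (φ x)) →
      ∀ y : Y, D.IsWt σ n y → (∀ u ∈ D.U, σ u y - y ∈ E) →
        ∃ w : W, D.IsWt τ n w ∧ ∀ u ∈ D.U, τ u w - w = φ (σ u y - y)

variable {D : PG k Γ T X} {W W0 W1 W2 Q R : Type u} [AddCommGroup W] [Module k W]
  [AddCommGroup W0] [Module k W0] [AddCommGroup W1] [Module k W1] [AddCommGroup W2] [Module k W2]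
  [AddCommGroup Q] [Module k Q] [AddCommGroup R] [Module k R]
  {τ : Representation k Γ W} {τ0 : Representation k Γ W0} {τ1 : Representation k Γ W1}
  {τ2 : Representation k Γ W2} {τQ : Representation k Γ Q} {τR : Representation k Γ R}


theorem LiftP.of_good (hτ : D.IsRational τ) (hG : GoodIn hτ ⊤) (n : X) : LiftP D n τ := by
  intro Y _ _ σ hσ E hE φ hφ y hy hyU
  -- the submodule `N`
  let N : Submodule k (Y × W) :=
    { carrier := {p | p.1 ∈ E ∧ p.2 = -φ p.1}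
      add_mem' := by
        rintro ⟨x, w⟩ ⟨x', w'⟩ ⟨h1, h2⟩ ⟨h1', h2'⟩
        refine ⟨E.add_mem h1 h1', ?_⟩
        simp only [] at h2 h2' ⊢
        rw [Prod.mk_add_mk, h2, h2', map_add, neg_add]
      zero_mem' := ⟨E.zero_mem, by rw [Prod.fst_zero, Prod.snd_zero, map_zero, neg_zero]⟩
      smul_mem' := by
        rintro c ⟨x, w⟩ ⟨h1, h2⟩
        refine ⟨E.smul_mem c h1, ?_⟩
        simp only [] at h2 ⊢
        rw [Prod.smul_mk, h2, map_smul, smul_neg] }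
  have hNmem : ∀ p : Y × W, p ∈ N ↔ p.1 ∈ E ∧ p.2 = -φ p.1 := fun p => Iff.rfl
  have hN : Stable (σ.prod τ) N := by
    rintro g ⟨x, w⟩ hp
    obtain ⟨h1, h2⟩ := (hNmem _).1 hp
    refine (hNmem _).2 ⟨hE g x h1, ?_⟩
    change τ g w = -φ (σ g x)
    rw [hφ g x h1]
    change w = -φ x at h2
    rw [h2, map_neg]
  have hpR : D.IsRational (σ.prod τ) := isRational_prod hσ hτ
  have hZ : D.IsRational (quo (σ.prod τ) hN) := isRational_quo hpR hN
  have hQ : D.IsRational (quo σ hE) := isRational_quo hσ hE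
  -- the map `i`
  let i : W →ₗ[k] (Y × W) ⧸ N := N.mkQ ∘ₗ LinearMap.inr k Y W
  have hi : IsEquiv τ (quo (σ.prod τ) hN) i := by
    intro g w
    change N.mkQ ((0 : Y), τ g w) = N.mkQ (σ g 0, τ g w)
    rw [map_zero]
  have hinj : Function.Injective i := by
    rw [← LinearMap.ker_eq_bot, LinearMap.ker_eq_bot']
    intro w hw
    have : ((0 : Y), w) ∈ N := (Submodule.Quotient.mk_eq_zero N).1 hw
    obtain ⟨-, h2⟩ := (hNmem _).1 this
    change w = -φ 0 at h2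
    rw [h2, map_zero, neg_zero]
  -- the map `q`
  have hle : N ≤ LinearMap.ker (E.mkQ ∘ₗ LinearMap.fst k Y W) := by
    rintro ⟨x, w⟩ hp
    obtain ⟨h1, h2⟩ := (hNmem _).1 hp
    exact (Submodule.Quotient.mk_eq_zero E).2 h1
  let q : ((Y × W) ⧸ N) →ₗ[k] (Y ⧸ E) := N.liftQ (E.mkQ ∘ₗ LinearMap.fst k Y W) hle
  have hqmk : ∀ p : Y × W, q (N.mkQ p) = E.mkQ p.1 := fun p => rfl
  have hq : IsEquiv (quo (σ.prod τ) hN) (quo σ hE) q := by
    intro g z
    obtain ⟨p, rfl⟩ := N.mkQ_surjective z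
    rfl
  have hker : LinearMap.ker q ≤ Submodule.map i ⊤ := by
    intro z hz
    obtain ⟨⟨x, w⟩, rfl⟩ := N.mkQ_surjective z
    rw [LinearMap.mem_ker, hqmk] at hz
    have hx : x ∈ E := (Submodule.Quotient.mk_eq_zero E).1 hz
    refine ⟨w + φ x, trivial, ?_⟩
    change N.mkQ ((0 : Y), w + φ x) = N.mkQ (x, w)
    refine (Submodule.Quotient.eq N).2 ((hNmem _).2 ⟨?_, ?_⟩)
    · change 0 - x ∈ E
      rw [zero_sub]
      exact E.neg_mem hx
    · change w + φ x - w = -φ (0 - x)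
      rw [zero_sub, map_neg, neg_neg, add_sub_cancel_left]
  have hker' : Submodule.map i ⊤ ≤ LinearMap.ker q := by
    rintro _ ⟨w, -, rfl⟩
    rw [LinearMap.mem_ker]
    change q (N.mkQ ((0 : Y), w)) = 0
    rw [hqmk]
    exact map_zero _
  have hkG : GoodIn hZ (⊤ ⊓ LinearMap.ker q) := by
    rw [top_inf_eq, le_antisymm hker hker']
    exact GoodIn.map_inj hτ hZ hi hinj Stable.top hG
  -- the invariant
  have hc : E.mkQ y ∈ Submodule.map q ⊤ := ⟨N.mkQ (y, 0), trivial, rfl⟩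
  have hcU : D.IsU (quo σ hE) (E.mkQ y) := by
    intro u hu
    change E.mkQ (σ u y) = E.mkQ y
    exact (Submodule.Quotient.eq E).2 (hyU u hu)
  have hcw : D.IsWt (quo σ hE) n (E.mkQ y) := hy.map (quo_isEquiv hE)
  obtain ⟨z, -, hzU, hzw, hzc⟩ := lift_U hZ hQ hq Stable.top hkG hc hcU hcw
  obtain ⟨⟨x, w⟩, rfl⟩ := N.mkQ_surjective z
  rw [hqmk] at hzc
  have hxy : x - y ∈ E := (Submodule.Quotient.eq E).1 hzc
  have hz' : N.mkQ (x, w) = N.mkQ (y, w - φ (y - x)) := by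
    refine (Submodule.Quotient.eq N).2 ((hNmem _).2 ⟨hxy, ?_⟩)
    change w - (w - φ (y - x)) = -φ (x - y)
    rw [sub_sub_cancel, ← map_neg, neg_sub]
  rw [hz'] at hzU hzw
  set w' := w - φ (y - x) with hw'
  refine ⟨-w', ?_, ?_⟩
  · intro z
    have h1 := hzw z
    change N.mkQ (σ (D.t z) y, τ (D.t z) w') = (D.chi n z : k) • N.mkQ (y, w') at h1
    rw [← map_smul] at h1
    have h2 := (hNmem _).1 ((Submodule.Quotient.eq N).1 h1)
    have h3 : τ (D.t z) w' - (D.chi n z : k) • w' = -φ (σ (D.t z) y - (D.chi n z : k) • y) := h2.2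
    rw [hy z, sub_self, map_zero, neg_zero, sub_eq_zero] at h3
    rw [map_neg, h3, smul_neg]
  · intro u hu
    have h1 := hzU u hu
    change N.mkQ (σ u y, τ u w') = N.mkQ (y, w') at h1
    have h2 := (hNmem _).1 ((Submodule.Quotient.eq N).1 h1)
    have h3 : τ u w' - w' = -φ (σ u y - y) := h2.2
    rw [map_neg, ← neg_sub', h3, neg_neg]

theorem LiftP.of_weights (hτ : D.IsRational τ) {n : X}
    (hW : ∀ b x, D.IsWt τ b x → x ≠ 0 → D.Le n b → b = n) : LiftP D n τ := by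
  intro Y _ _ σ hσ E hE φ hφ y hy hyU
  refine ⟨0, isWt_zero n, fun u hu => ?_⟩
  rw [map_zero, sub_zero]
  symm
  have he := hyU u hu
  set e := σ u y - y with hedef
  obtain ⟨s, -, hs⟩ := sum_wt hσ e
  rw [hs, map_sum]
  refine Finset.sum_eq_zero fun b _ => ?_
  have hbE : wt hσ b e ∈ E := wt_mem hσ hE he b
  have hbw : D.IsWt τ b (φ (wt hσ b e)) := by
    intro z
    rw [← hφ _ _ hbE, wt_isWt hσ b e z, map_smul]
  by_contra h0
  have hbe : wt hσ b e ≠ 0 := by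
    intro h
    rw [h, map_zero] at h0
    exact h0 rfl
  obtain ⟨h1, h2⟩ := wt_U hσ hy hu
  by_cases hbn : b = n
  · subst hbn
    apply hbe
    rw [hedef, map_sub, h1, wt_self hσ hy, sub_self]
  · have h3 : wt hσ b (σ u y) ≠ 0 := by
      intro h
      apply hbe
      rw [hedef, map_sub, h, wt_ne hσ hy (Ne.symm hbn), sub_zero]
    exact hbn (hW b _ hbw h0 (h2 b h3))

theorem LiftP.ext (h0' : D.IsRational τ0) (h1' : D.IsRational τ1) (h2' : D.IsRational τ2)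
    {i : W0 →ₗ[k] W1} {f : W1 →ₗ[k] W2} (hi : IsEquiv τ0 τ1 i) (hf : IsEquiv τ1 τ2 f)
    (hinj : Function.Injective i) (hsurj : Function.Surjective f)
    (hex : LinearMap.ker f = LinearMap.range i) {n : X} (h0 : LiftP D n τ0) (h2 : LiftP D n τ2) :
    LiftP D n τ1 := by
  intro Y _ _ σ hσ E hE φ hφ y hy hyU
  obtain ⟨w2, hw2, hw2U⟩ := h2 Y σ hσ E hE (f ∘ₗ φ) (by
    intro g x hx
    change f (φ (σ g x)) = τ2 g (f (φ x))
    rw [hφ g x hx, hf]) y hy hyU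
  obtain ⟨v, hv⟩ := hsurj w2
  set w1 := wt h1' n v with hw1
  have hw1w : D.IsWt τ1 n w1 := wt_isWt h1' n v
  have hfw1 : f w1 = w2 := by
    rw [hw1, map_wt h1' h2' hf, hv, wt_self h2' hw2]
  obtain ⟨π, hπ⟩ := LinearMap.exists_leftInverse_of_injective i (LinearMap.ker_eq_bot.2 hinj)
  have hπ' : ∀ x, π (i x) = x := fun x => LinearMap.congr_fun hπ x
  let ψ : (Y × W1) →ₗ[k] W1 := φ ∘ₗ LinearMap.fst k Y W1 - LinearMap.snd k Y W1
  have hψ : ∀ p : Y × W1, ψ p = φ p.1 - p.2 := fun p => rfl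
  let E' : Submodule k (Y × W1) :=
    E.comap (LinearMap.fst k Y W1) ⊓ (LinearMap.range i).comap ψ
  have hE'mem : ∀ p : Y × W1, p ∈ E' ↔ p.1 ∈ E ∧ φ p.1 - p.2 ∈ LinearMap.range i :=
    fun p => Iff.rfl
  have hE' : Stable (σ.prod τ1) E' := by
    rintro g ⟨x, w⟩ hp
    obtain ⟨h1, v, h2⟩ := (hE'mem _).1 hp
    refine (hE'mem _).2 ⟨hE g x h1, τ0 g v, ?_⟩
    change i (τ0 g v) = φ (σ g x) - τ1 g w
    rw [hi, h2, hφ g x h1, map_sub]
  have hφ' : ∀ g, ∀ p ∈ E', (π ∘ₗ ψ) ((σ.prod τ1) g p) = τ0 g ((π ∘ₗ ψ) p) := by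
    rintro g ⟨x, w⟩ hp
    obtain ⟨h1, v, h2⟩ := (hE'mem _).1 hp
    change π (φ (σ g x) - τ1 g w) = τ0 g (π (φ x - w))
    change i v = φ x - w at h2
    rw [hφ g x h1, ← map_sub, ← h2, ← hi, hπ', hπ']
  have hyw : D.IsWt (σ.prod τ1) n (y, w1) := by
    intro z
    change (σ (D.t z) y, τ1 (D.t z) w1) = _
    rw [hy z, hw1w z]
    rfl
  have hd : ∀ u ∈ D.U, φ (σ u y - y) - (τ1 u w1 - w1) ∈ LinearMap.range i := by
    intro u hu
    rw [← hex, LinearMap.mem_ker, map_sub, map_sub f (τ1 u w1), hf, hfw1, hw2U u hu]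
    exact sub_self _
  obtain ⟨w0, hw0, hw0U⟩ := h0 (Y × W1) (σ.prod τ1) (isRational_prod hσ h1') E' hE' (π ∘ₗ ψ) hφ'
    (y, w1) hyw (fun u hu => (hE'mem _).2 ⟨hyU u hu, hd u hu⟩)
  refine ⟨w1 + i w0, hw1w.add (hw0.map hi), fun u hu => ?_⟩
  have h3 : τ0 u w0 - w0 = π (φ (σ u y - y) - (τ1 u w1 - w1)) := hw0U u hu
  obtain ⟨v, hv⟩ := hd u hu
  have h4 : i (τ0 u w0 - w0) = φ (σ u y - y) - (τ1 u w1 - w1) := by
    rw [h3, ← hv, hπ']
  have h5 : τ1 u (w1 + i w0) - (w1 + i w0) = (τ1 u w1 - w1) + i (τ0 u w0 - w0) := by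
    rw [map_add, map_sub i, hi]
    abel
  rw [h5, h4]
  abel

theorem LiftP.pull {pr1 : W1 →ₗ[k] Q} {pr2 : W1 →ₗ[k] W2} {p : Q →ₗ[k] R} {ψ : W2 →ₗ[k] R}
    (e1 : IsEquiv τ1 τQ pr1) (e2 : IsEquiv τ1 τ2 pr2) (ep : IsEquiv τQ τR p)
    (eψ : IsEquiv τ2 τR ψ) (hinj : ∀ w, pr1 w = 0 → pr2 w = 0 → w = 0)
    (hcomm : ∀ w, p (pr1 w) = ψ (pr2 w)) (hex : ∀ q x, p q = ψ x → ∃ w, pr1 w = q ∧ pr2 w = x)
    {n : X} (hQ : LiftP D n τQ) (h2 : LiftP D n τ2)
    (hc : ∀ c, D.IsU τR c → D.IsWt τR n c → ∃ x, D.IsU τ2 x ∧ D.IsWt τ2 n x ∧ ψ x = c) :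
    LiftP D n τ1 := by
  intro Y _ _ σ hσ E hE φ hφ y hy hyU
  obtain ⟨q0, hq0, hq0U⟩ := hQ Y σ hσ E hE (pr1 ∘ₗ φ) (by
    intro g x hx
    change pr1 (φ (σ g x)) = τQ g (pr1 (φ x))
    rw [hφ g x hx, e1]) y hy hyU
  obtain ⟨x0, hx0, hx0U⟩ := h2 Y σ hσ E hE (pr2 ∘ₗ φ) (by
    intro g x hx
    change pr2 (φ (σ g x)) = τ2 g (pr2 (φ x))
    rw [hφ g x hx, e2]) y hy hyU
  obtain ⟨x1, hx1U, hx1w, hx1⟩ := hc (p q0 - ψ x0) (by
    intro u hu
    have h3 : p (τQ u q0 - q0) = ψ (τ2 u x0 - x0) := by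
      rw [hq0U u hu, hx0U u hu]
      exact hcomm _
    rw [map_sub, map_sub ψ, ep, eψ, sub_eq_sub_iff_sub_eq_sub] at h3
    rw [map_sub, h3]) ((hq0.map ep).sub (hx0.map eψ))
  obtain ⟨w, hw1, hw2⟩ := hex q0 (x0 + x1) (by rw [map_add, hx1]; abel)
  have key : ∀ a b : W1, pr1 a = pr1 b → pr2 a = pr2 b → a = b := by
    intro a b ha hb
    rw [← sub_eq_zero]
    apply hinj
    · rw [map_sub, ha, sub_self]
    · rw [map_sub, hb, sub_self]
  refine ⟨w, fun z => key _ _ ?_ ?_, fun u hu => key _ _ ?_ ?_⟩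
  · rw [e1, map_smul, hw1, hq0 z]
  · rw [e2, map_smul, hw2, (hx0.add hx1w) z]
  · rw [map_sub, e1, hw1, hq0U u hu]
    rfl
  · rw [map_sub, e2, hw2, map_add, hx1U u hu, add_sub_add_right_eq_sub, hx0U u hu]
    rfl

theorem LiftP.good (hτ : D.IsRational τ) (hQ : D.IsRational τQ) {i : W →ₗ[k] Q}
    (hi : IsEquiv τ τQ i) (hinj : Function.Injective i) (gQ : GoodIn hQ ⊤)
    (h : ∀ a, D.dom a = a → LiftP D a τ) : GoodIn hτ ⊤ := by
  have hE : Stable τQ (LinearMap.range i) := by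
    rintro g _ ⟨w, rfl⟩
    exact ⟨τ g w, hi g w⟩
  have hR : D.IsRational (quo τQ hE) := isRational_quo hQ hE
  obtain ⟨π, hπ⟩ := LinearMap.exists_leftInverse_of_injective i (LinearMap.ker_eq_bot.2 hinj)
  have hπ' : ∀ x, π (i x) = x := fun x => LinearMap.congr_fun hπ x
  have key := (GoodIn.ker hQ hR (φ := (LinearMap.range i).mkQ) (quo_isEquiv hE) Stable.top gQ
    (C := ⊤) Stable.top le_top (by
      intro a c _ hcU hcw
      by_cases hc0 : c = 0
      · subst hc0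
        exact ⟨0, trivial, fun u _ => map_zero _, isWt_zero a, map_zero _⟩
      have ha : D.dom a = a := (isU_mem hR hcU hcw).2 hc0
      obtain ⟨v, hv⟩ := (LinearMap.range i).mkQ_surjective c
      set y := wt hQ a v with hydef
      have hyw : D.IsWt τQ a y := wt_isWt hQ a v
      have hyc : (LinearMap.range i).mkQ y = c := by
        rw [hydef, map_wt hQ hR (quo_isEquiv hE), hv, wt_self hR hcw]
      have hyU : ∀ u ∈ D.U, τQ u y - y ∈ LinearMap.range i := by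
        intro u hu
        have h1 := hcU u hu
        rw [← hyc] at h1
        exact (Submodule.Quotient.eq _).1 h1
      obtain ⟨w, hw, hwU⟩ := h a ha Q τQ hQ (LinearMap.range i) hE π (by
        rintro g _ ⟨x, rfl⟩
        rw [← hi, hπ', hπ']) y hyw hyU
      refine ⟨y - i w, trivial, fun u hu => ?_, hyw.sub (hw.map hi), ?_⟩
      · obtain ⟨x, hx⟩ := hyU u hu
        have h1 := hwU u hu
        rw [← hx, hπ'] at h1
        have h2 : i (τ u w - w) = τQ u y - y := by rw [h1, hx]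
        rw [map_sub, hi] at h2
        rw [map_sub]
        rw [sub_eq_sub_iff_sub_eq_sub]
        exact h2.symm
      · rw [map_sub, hyc, sub_eq_self]
        exact (Submodule.Quotient.mk_eq_zero _).2 ⟨w, rfl⟩)).2
  rw [top_inf_eq, Submodule.ker_mkQ] at key
  have h2 := GoodIn.comap_inj hτ hQ hi hinj (B := LinearMap.range i) le_rfl key
  have h3 : (LinearMap.range i).comap i = ⊤ := by
    rw [eq_top_iff]
    intro w _
    exact ⟨w, rfl⟩
  rwa [h3] at h2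

end PG

end Pool.Agent.TRN
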