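import Pool.Agent.TRN.Tens

/-!
# TRN / PIERI: tensoring with a module with a flag of one-dimensional layers

Let `ρ` on `V` be `Mini`: a basis `b_0, ..., b_{m-1}` of weight vectors of weights `ν_j` such that the
spans `V_{≥ j}` of the `b_l`, `l ≥ j`, are stable under `Um` (and the torus) and the group `Um` acts
trivially on `V_{≥ j} / V_{> j}`, and `∑_j dim Ind (a + ν_j) ≤ m dim Ind a` for dominant `a`. Then
`Ind a ⊗ V` is good. Proof. `ε_g : Ind a ⊗ V → V`, `ε_g (F ⊗ v) = F(g) ρ(g⁻¹) v`. Let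
`W_j = {w | ∀ g, ε_g w ∈ V_{≥ j}}`: stable, since `ε_g (h w) = ε_{h⁻¹ g} w`; `W_0 = ⊤`, `W_m = ⊥`
(if `ε_g w = 0` for all `g` then `(ev_g ⊗ id) w = ρ g (ε_g w) = 0` for all `g`, write `w = ∑ F_j ⊗ b_j`).
For `w ∈ W_j` the function `g ↦ b_j^* (ε_g w)` lies in `Ind (a + ν_j)`
(`ε_{g b} w = χ_a(b)⁻¹ ρ(b⁻¹) ε_g w` for `b = u t z`) and vanishes iff `w ∈ W_{j+1}`. So
`m dim Ind a = dim (Ind a ⊗ V) = ∑_j dim (W_j / W_{j+1}) ≤ ∑_j dim Ind (a + ν_j) ≤ m dim Ind a`, and
all the maps `W_j → Ind (a + ν_j)` are surjective. By downward induction `W_j` is good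
(`GoodIn.ext`, `GoodIn.ind`). If `a` is not dominant, `Ind a = 0` (`ind_dom`).
-/

set_option autoImplicit false

namespace Pool.Agent.TRN

open Finset TensorProduct

/-- modules with a flag of one-dimensional layers and the dimension condition -/
structure Mini {k Γ T X : Type*} [Field k] [Group Γ] [CommGroup T] [AddCommGroup X]
    (D : PG k Γ T X) {V : Type*} [AddCommGroup V] [Module k V] (ρ : Representation k Γ V) :
    Prop where
  rational : D.IsRational ρ
  flag : ∃ (m : ℕ) (b : Module.Basis (Fin m) k V) (ν : Fin m → X),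
    (∀ j, D.IsWt ρ (ν j) (b j)) ∧
    (∀ u ∈ D.Um, ∀ j, ρ u (b j) - b j ∈ Submodule.span k (b '' {l | j < l})) ∧
    ∀ a, D.dom a = a →
      ∑ j, Module.finrank k (D.Ind (a + ν j)) ≤ m * Module.finrank k (D.Ind a)

namespace PG

variable {k Γ T X : Type*} [Field k] [Infinite k] [Group Γ] [CommGroup T] [AddCommGroup X]
  {D : PG k Γ T X} {V M : Type*} [AddCommGroup V] [Module k V] {ρ : Representation k Γ V}
  [AddCommGroup M] [Module k M] {σ : Representation k Γ M}

/-- evaluation at `g` -/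
private def pev (D : PG k Γ T X) (a : X) (g : Γ) : D.Ind a →ₗ[k] k where
  toFun F := F.1 g
  map_add' _ _ := rfl
  map_smul' _ _ := rfl

/-- the maps `ε_g` -/
private noncomputable def peps (D : PG k Γ T X) (ρ : Representation k Γ V) (a : X) (g : Γ) :
    D.Ind a ⊗[k] V →ₗ[k] V :=
  (ρ g⁻¹).comp ((TensorProduct.lid k V).toLinearMap.comp ((pev D a g).rTensor V))

private lemma peps_tmul (a : X) (g : Γ) (F : D.Ind a) (v : V) :
    peps D ρ a g (F ⊗ₜ v) = F.1 g • ρ g⁻¹ v := by
  unfold peps pev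
  rw [LinearMap.comp_apply, LinearMap.comp_apply, LinearMap.rTensor_tmul]
  change ρ g⁻¹ (TensorProduct.lid k V (F.1 g ⊗ₜ v)) = _
  rw [TensorProduct.lid_tmul, map_smul]

private lemma peps_act (a : X) (g h : Γ) (w : D.Ind a ⊗[k] V) :
    peps D ρ a g ((D.indRep a).tprod ρ h w) = peps D ρ a (h⁻¹ * g) w := by
  induction w with
  | zero => rw [map_zero, map_zero, map_zero]
  | tmul F v =>
    rw [Representation.tprod_apply, TensorProduct.map_tmul, peps_tmul, peps_tmul, indRep_apply,
      ← mul_apply', mul_inv_rev, inv_inv]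
  | add x y hx hy => rw [map_add, map_add, map_add, hx, hy]

private lemma peps_right (a : X) (g : Γ) {u : Γ} (hu : u ∈ D.Um) (z : T) (w : D.Ind a ⊗[k] V) :
    peps D ρ a (g * (u * D.t z)) w =
      (((D.chi a z)⁻¹ : kˣ) : k) • ρ (D.t z⁻¹) (ρ u⁻¹ (peps D ρ a g w)) := by
  induction w with
  | zero => simp only [map_zero, smul_zero]
  | tmul F v =>
    rw [peps_tmul, peps_tmul, F.2.2 g u hu z, map_smul, map_smul, smul_smul, ← mul_apply',
      ← mul_apply', mul_inv_rev, mul_inv_rev, map_inv]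
  | add x y hx hy => rw [map_add, map_add, hx, hy, map_add, map_add, smul_add]

private lemma peps_reg (hρ : D.IsRational ρ) (a : X) (w : D.Ind a ⊗[k] V) :
    D.IsReg (fun g => peps D ρ a g w) := by
  induction w with
  | zero => exact (IsReg.const (0 : V)).congr (fun g => by rw [map_zero])
  | tmul F v =>
    refine IsReg.congr (IsReg.smul (IsReg.comp_inv (hρ v)) F.2.1) (fun g => ?_)
    rw [peps_tmul]
  | add x y hx hy => exact (hx.add hy).congr (fun g => by rw [map_add])

/-- coordinates with respect to the first factor -/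
private noncomputable def pcoef (D : PG k Γ T X) (a : X) (ξ : V →ₗ[k] k) :
    D.Ind a ⊗[k] V →ₗ[k] D.Ind a :=
  (TensorProduct.rid k (D.Ind a)).toLinearMap.comp (ξ.lTensor (D.Ind a))

private lemma pcoef_tmul (a : X) (ξ : V →ₗ[k] k) (F : D.Ind a) (v : V) :
    pcoef D a ξ (F ⊗ₜ v) = ξ v • F := by
  unfold pcoef
  rw [LinearMap.comp_apply, LinearMap.lTensor_tmul]
  exact TensorProduct.rid_tmul F (ξ v)

private lemma pcoef_sum (a : X) {m : ℕ} (b : Module.Basis (Fin m) k V) (w : D.Ind a ⊗[k] V) :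
    w = ∑ j, pcoef D a (b.coord j) w ⊗ₜ[k] b j := by
  induction w with
  | zero => simp only [map_zero, zero_tmul, Finset.sum_const_zero]
  | tmul F v =>
    have e : ∀ j, pcoef D a (b.coord j) (F ⊗ₜ[k] v) ⊗ₜ[k] b j = F ⊗ₜ[k] (b.repr v j • b j) := by
      intro j
      rw [pcoef_tmul, TensorProduct.smul_tmul]
      rfl
    rw [Finset.sum_congr rfl (fun j _ => e j), ← TensorProduct.tmul_sum, b.sum_repr]
  | add x y hx hy =>
    have e : ∀ j, pcoef D a (b.coord j) (x + y) ⊗ₜ[k] b j =
        pcoef D a (b.coord j) x ⊗ₜ[k] b j + pcoef D a (b.coord j) y ⊗ₜ[k] b j := by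
      intro j
      rw [map_add, TensorProduct.add_tmul]
    rw [Finset.sum_congr rfl (fun j _ => e j), Finset.sum_add_distrib, ← hx, ← hy]

private lemma pcoef_eval (a : X) (ξ : V →ₗ[k] k) (g : Γ) (w : D.Ind a ⊗[k] V) :
    (pcoef D a ξ w).1 g = ξ (ρ g (peps D ρ a g w)) := by
  induction w with
  | zero => simp only [map_zero]; rfl
  | tmul F v =>
    rw [pcoef_tmul, peps_tmul, map_smul, self_inv_apply, map_smul]
    change ξ v * F.1 g = F.1 g * ξ v
    exact mul_comm _ _
  | add x y hx hy =>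
    rw [map_add, map_add, map_add, map_add, ← hx, ← hy]
    rfl

private lemma peps_inj (a : X) {m : ℕ} (b : Module.Basis (Fin m) k V) (w : D.Ind a ⊗[k] V)
    (h : ∀ g, peps D ρ a g w = 0) : w = 0 := by
  rw [pcoef_sum a b w]
  refine Finset.sum_eq_zero fun j _ => ?_
  have : pcoef D a (b.coord j) w = 0 := by
    apply Subtype.ext
    funext g
    rw [pcoef_eval (ρ := ρ), h, map_zero, map_zero]
    rfl
  rw [this, TensorProduct.zero_tmul]

private lemma coord_t {m : ℕ} (b : Module.Basis (Fin m) k V) {ν : Fin m → X}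
    (hb : ∀ j, D.IsWt ρ (ν j) (b j)) (j : Fin m) (z : T) (v : V) :
    b.repr (ρ (D.t z) v) j = (D.chi (ν j) z : k) * b.repr v j := by
  have h : (b.coord j).comp (ρ (D.t z)) = (D.chi (ν j) z : k) • b.coord j := by
    refine b.ext fun l => ?_
    rw [LinearMap.comp_apply, hb l z, map_smul, LinearMap.smul_apply, Module.Basis.coord_apply,
      Module.Basis.repr_self]
    by_cases hl : l = j
    · rw [hl]
    · rw [Finsupp.single_eq_of_ne (Ne.symm hl), smul_zero, smul_zero]
  have := LinearMap.congr_fun h v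
  exact this

private lemma coord_u {m : ℕ} (b : Module.Basis (Fin m) k V)
    (hb : ∀ u ∈ D.Um, ∀ j, ρ u (b j) - b j ∈ Submodule.span k (b '' {l | j < l})) (j : Fin m)
    {v : V} (hv : ∀ l : Fin m, l.val < j.val → b.repr v l = 0) {u : Γ} (hu : u ∈ D.Um) :
    b.repr (ρ u v) j = b.repr v j := by
  have h1 : ρ u v - v = ∑ l, b.repr v l • (ρ u (b l) - b l) := by
    conv_lhs => rw [← b.sum_repr v]
    rw [map_sum, ← Finset.sum_sub_distrib]
    refine Finset.sum_congr rfl fun l _ => ?_
    rw [map_smul, smul_sub]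
  have h2 : b.repr (ρ u v - v) j = 0 := by
    rw [h1, map_sum, Finsupp.finsetSum_apply]
    refine Finset.sum_eq_zero fun l _ => ?_
    rw [map_smul, Finsupp.smul_apply, smul_eq_mul]
    by_cases hl : l.val < j.val
    · rw [hv l hl, zero_mul]
    · have h3 := (b.mem_span_image).1 (hb u hu l)
      have h4 : b.repr (ρ u (b l) - b l) j = 0 := by
        by_contra hne
        have h5 : j ∈ (b.repr (ρ u (b l) - b l)).support := Finsupp.mem_support_iff.2 hne
        have h6 : l < j := h3 h5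
        exact hl h6
      rw [h4, mul_zero]
  rw [map_sub, Finsupp.sub_apply, sub_eq_zero] at h2
  exact h2

private lemma tele (m : ℕ) (e : ℕ → ℕ) (r : Fin m → ℕ)
    (h : ∀ j : Fin m, e j.val = r j + e (j.val + 1)) : e 0 = ∑ j, r j + e m := by
  induction m with
  | zero => simp
  | succ n ih =>
    rw [Fin.sum_univ_castSucc, ih (fun j => r j.castSucc) (fun j => h j.castSucc), add_assoc]
    congr 1
    exact h (Fin.last n)

section gen

variable {E : Type*} [AddCommGroup E] [Module k E] {τ : Representation k Γ E}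

/-- the filtration -/
private noncomputable def pW (ε : Γ → E →ₗ[k] V) {m : ℕ}
    (b : Module.Basis (Fin m) k V) (j : ℕ) : Submodule k E where
  carrier := {w | ∀ g, ∀ l : Fin m, l.val < j → b.repr (ε g w) l = 0}
  add_mem' := by
    intro x y hx hy g l hl
    rw [map_add, map_add, Finsupp.add_apply, hx g l hl, hy g l hl, add_zero]
  zero_mem' := by
    intro g l _
    rw [map_zero, map_zero, Finsupp.zero_apply]
  smul_mem' := by
    intro c x hx g l hl
    rw [map_smul, map_smul, Finsupp.smul_apply, hx g l hl, smul_zero]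

private lemma pW_stable {ε : Γ → E →ₗ[k] V} (hact : ∀ g h w, ε g (τ h w) = ε (h⁻¹ * g) w)
    {m : ℕ} (b : Module.Basis (Fin m) k V) (j : ℕ) : Stable τ (pW ε b j) := by
  intro h w hw g l hl
  rw [hact]
  exact hw _ l hl

private lemma pW_zero (ε : Γ → E →ₗ[k] V) {m : ℕ} (b : Module.Basis (Fin m) k V) :
    pW ε b 0 = ⊤ := by
  rw [eq_top_iff]
  intro w _ g l hl
  exact absurd hl (Nat.not_lt_zero _)

private lemma pW_last {ε : Γ → E →ₗ[k] V} (hinj : ∀ w, (∀ g, ε g w = 0) → w = 0) {m : ℕ}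
    (b : Module.Basis (Fin m) k V) : pW ε b m = ⊥ := by
  rw [eq_bot_iff]
  intro w hw
  rw [Submodule.mem_bot]
  refine hinj w fun g => ?_
  apply b.repr.injective
  ext l
  rw [hw g l l.2, map_zero, Finsupp.zero_apply]

private lemma pW_succ (ε : Γ → E →ₗ[k] V) {m : ℕ} (b : Module.Basis (Fin m) k V) (j : ℕ) :
    pW ε b (j + 1) ≤ pW ε b j := fun _ hw g l hl => hw g l (by omega)

private lemma pphi_mem {a : X} {ε : Γ → E →ₗ[k] V} (hreg : ∀ w, D.IsReg (fun g => ε g w))
    (hright : ∀ g, ∀ u ∈ D.Um, ∀ z w, ε (g * (u * D.t z)) w =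
      (((D.chi a z)⁻¹ : kˣ) : k) • ρ (D.t z⁻¹) (ρ u⁻¹ (ε g w)))
    {m : ℕ} (b : Module.Basis (Fin m) k V)
    {ν : Fin m → X} (hwt : ∀ j, D.IsWt ρ (ν j) (b j))
    (hb : ∀ u ∈ D.Um, ∀ j, ρ u (b j) - b j ∈ Submodule.span k (b '' {l | j < l})) (j : Fin m)
    {w : E} (hw : w ∈ pW ε b j.val) :
    (fun g => b.repr (ε g w) j) ∈ D.Ind (a + ν j) := by
  refine ⟨(hreg w).apply (b.coord j), fun g u hu z => ?_⟩
  beta_reduce
  rw [hright g u hu z w, map_smul, Finsupp.smul_apply, coord_t b hwt,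
    coord_u b hb j (fun l hl => hw g l hl) (D.Um.inv_mem hu), D.chi_add, map_inv, mul_inv,
    smul_eq_mul, Units.val_mul, mul_assoc]

private noncomputable def pphi {a : X} {ε : Γ → E →ₗ[k] V}
    (hreg : ∀ w, D.IsReg (fun g => ε g w))
    (hright : ∀ g, ∀ u ∈ D.Um, ∀ z w, ε (g * (u * D.t z)) w =
      (((D.chi a z)⁻¹ : kˣ) : k) • ρ (D.t z⁻¹) (ρ u⁻¹ (ε g w)))
    {m : ℕ} (b : Module.Basis (Fin m) k V)
    {ν : Fin m → X} (hwt : ∀ j, D.IsWt ρ (ν j) (b j))
    (hb : ∀ u ∈ D.Um, ∀ j, ρ u (b j) - b j ∈ Submodule.span k (b '' {l | j < l})) (j : Fin m) :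
    pW ε b j.val →ₗ[k] D.Ind (a + ν j) where
  toFun w := ⟨fun g => b.repr (ε g w.1) j, pphi_mem hreg hright b hwt hb j w.2⟩
  map_add' x y := by
    apply Subtype.ext
    funext g
    change b.repr (ε g (x.1 + y.1)) j = b.repr (ε g x.1) j + b.repr (ε g y.1) j
    rw [map_add, map_add, Finsupp.add_apply]
  map_smul' c x := by
    apply Subtype.ext
    funext g
    change b.repr (ε g (c • x.1)) j = c * b.repr (ε g x.1) j
    rw [map_smul, map_smul, Finsupp.smul_apply, smul_eq_mul]

private lemma pphi_ker {a : X} {ε : Γ → E →ₗ[k] V} (hreg : ∀ w, D.IsReg (fun g => ε g w))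
    (hright : ∀ g, ∀ u ∈ D.Um, ∀ z w, ε (g * (u * D.t z)) w =
      (((D.chi a z)⁻¹ : kˣ) : k) • ρ (D.t z⁻¹) (ρ u⁻¹ (ε g w)))
    {m : ℕ} (b : Module.Basis (Fin m) k V)
    {ν : Fin m → X} (hwt : ∀ j, D.IsWt ρ (ν j) (b j))
    (hb : ∀ u ∈ D.Um, ∀ j, ρ u (b j) - b j ∈ Submodule.span k (b '' {l | j < l})) (j : Fin m) :
    LinearMap.ker (pphi hreg hright b hwt hb j) =
      (pW ε b (j.val + 1)).comap (pW ε b j.val).subtype := by
  ext w
  rw [LinearMap.mem_ker, Submodule.mem_comap]
  constructor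
  · intro h g l hl
    by_cases hlj : l.val < j.val
    · exact w.2 g l hlj
    · have e : l = j := Fin.ext (by omega)
      rw [e]
      exact congrFun (congrArg Subtype.val h) g
  · intro h
    apply Subtype.ext
    funext g
    exact h g j (Nat.lt_succ_self _)

private theorem pieri_gen (hfd : D.Fd) {a : X} (hT : D.IsRational τ) [Module.Finite k E]
    {ε : Γ → E →ₗ[k] V}
    (hact : ∀ g h w, ε g (τ h w) = ε (h⁻¹ * g) w) (hinj : ∀ w, (∀ g, ε g w = 0) → w = 0)
    (hreg : ∀ w, D.IsReg (fun g => ε g w))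
    (hright : ∀ g, ∀ u ∈ D.Um, ∀ z w, ε (g * (u * D.t z)) w =
      (((D.chi a z)⁻¹ : kˣ) : k) • ρ (D.t z⁻¹) (ρ u⁻¹ (ε g w)))
    {m : ℕ} (b : Module.Basis (Fin m) k V)
    {ν : Fin m → X} (hwt : ∀ j, D.IsWt ρ (ν j) (b j))
    (hb : ∀ u ∈ D.Um, ∀ j, ρ u (b j) - b j ∈ Submodule.span k (b '' {l | j < l}))
    (hdim : ∑ j, Module.finrank k (D.Ind (a + ν j)) ≤ Module.finrank k E) :
    GoodIn hT ⊤ := by
  have hr : ∀ j : Fin m, LinearMap.range (pphi hreg hright b hwt hb j) = ⊤ := by
    have h1 : ∀ j : Fin m, Module.finrank k (pW ε b j.val) =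
        Module.finrank k (LinearMap.range (pphi hreg hright b hwt hb j)) +
          Module.finrank k (pW ε b (j.val + 1)) := by
      intro j
      rw [← LinearMap.finrank_range_add_finrank_ker (pphi hreg hright b hwt hb j), pphi_ker]
      congr 1
      exact LinearEquiv.finrank_eq (Submodule.comapSubtypeEquivOfLe (pW_succ ε b j.val))
    have h2 := tele m (fun j => Module.finrank k (pW ε b j))
      (fun j => Module.finrank k (LinearMap.range (pphi hreg hright b hwt hb j))) h1
    beta_reduce at h2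
    rw [pW_zero, pW_last hinj, finrank_top, finrank_bot, add_zero] at h2
    have h3 : ∀ j ∈ (Finset.univ : Finset (Fin m)),
        Module.finrank k (LinearMap.range (pphi hreg hright b hwt hb j)) ≤
          Module.finrank k (D.Ind (a + ν j)) := by
      intro j _
      haveI := hfd (a + ν j)
      exact Submodule.finrank_le _
    have h5 := Finset.sum_le_sum h3
    have h6 : ∑ j, Module.finrank k (LinearMap.range (pphi hreg hright b hwt hb j)) =
        ∑ j, Module.finrank k (D.Ind (a + ν j)) := by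
      refine le_antisymm h5 ?_
      rw [← h2]
      exact hdim
    have h7 := (Finset.sum_eq_sum_iff_of_le h3).1 h6
    intro j
    haveI := hfd (a + ν j)
    exact Submodule.eq_top_of_finrank_eq (h7 j (Finset.mem_univ j))
  have hstep : ∀ j : Fin m, GoodIn hT (pW ε b (j.val + 1)) → GoodIn hT (pW ε b j.val) := by
    intro j hj
    have hS := pW_stable hact b j.val
    refine (GoodIn.sub_iff hT hS).1 ?_
    have hφ : IsEquiv (sub τ hS) (D.indRep (a + ν j)) (pphi hreg hright b hwt hb j) := by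
      intro g w
      apply Subtype.ext
      funext x
      change b.repr (ε x (τ g w.1)) j = b.repr (ε (g⁻¹ * x) w.1) j
      rw [hact]
    refine GoodIn.ext (isRational_sub hT hS) (isRational_ind D (a + ν j)) hφ Stable.top ?_ ?_
    · rw [top_inf_eq, pphi_ker]
      refine GoodIn.comap_inj (isRational_sub hT hS) hT (sub_isEquiv hS)
        (Submodule.subtype_injective _) ?_ hj
      rw [Submodule.range_subtype]
      exact pW_succ ε b j.val
    · rw [Submodule.map_top, hr j]
      exact GoodIn.ind _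
  have hind : ∀ i, i ≤ m → GoodIn hT (pW ε b (m - i)) := by
    intro i
    induction i with
    | zero =>
      intro _
      rw [Nat.sub_zero, pW_last hinj]
      exact GoodIn.bot _
    | succ i ih =>
      intro hi
      have h1 := ih (by omega)
      have h2 : m - i = (m - (i + 1)) + 1 := by omega
      rw [h2] at h1
      exact hstep ⟨m - (i + 1), by omega⟩ h1
  have h9 := hind m le_rfl
  rw [Nat.sub_self, pW_zero] at h9
  exact h9

end gen

theorem pieri (hfd : D.Fd) (h : Mini D ρ) (a : X) :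
    GoodIn (isRational_tprod (isRational_ind D a) h.rational) ⊤ := by
  have hρ := h.rational
  by_cases ha : D.dom a = a
  swap
  · have h0 : ∀ H : D.Ind a, H = 0 := by
      intro H
      by_contra hH
      exact ha (ind_dom hH)
    have h1 : ∀ w : D.Ind a ⊗[k] V, w = 0 := by
      intro w
      induction w with
      | zero => rfl
      | tmul F v => rw [h0 F, TensorProduct.zero_tmul]
      | add x y hx hy => rw [hx, hy, add_zero]
    have h2 : ∀ w : D.Ind a ⊗[k] V, w ∈ (⊥ : Submodule k (D.Ind a ⊗[k] V)) := by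
      intro w
      rw [h1 w]
      exact Submodule.zero_mem _
    have h3 := GoodIn.bot (isRational_tprod (isRational_ind D a) hρ)
    intro c v _ hU hw F hF
    obtain ⟨w, _, hw2, hw3⟩ := h3 c v (h2 v) hU hw F hF
    exact ⟨w, Submodule.mem_top, hw2, hw3⟩
  obtain ⟨m, b, ν, hwt, hb, hdim⟩ := h.flag
  haveI := hfd a
  haveI : Module.Finite k V := Module.Finite.of_basis b
  refine pieri_gen (E := D.Ind a ⊗[k] V) (ε := peps D ρ a) hfd
    (isRational_tprod (isRational_ind D a) hρ) (peps_act a) (peps_inj (ρ := ρ) a b)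
    (peps_reg hρ a) (fun g u hu z w => peps_right a g hu z w) b hwt hb ?_
  rw [Module.finrank_tensorProduct, Module.finrank_eq_card_basis b, Fintype.card_fin, mul_comm]
  exact hdim a ha

/-- from `pieri`, `filt_tensor` and `tensor_comm` -/
theorem mini_tensor (hfd : D.Fd) (h : Mini D ρ) (hσ : D.IsRational σ) (hG : GoodFilt D σ ⊤) :
    GoodIn (isRational_tprod h.rational hσ) ⊤ := by
  apply tensor_comm hσ h.rational
  exact filt_tensor hσ h.rational hG (fun c => pieri hfd h c)

end PG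

end Pool.Agent.TRN
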