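import Pool.Agent.TRN.Defs

/-!
# TRN / REG: regular functions with values in a vector space, rational representations

General lemmas on `D.IsReg` and `D.IsRational`. Everything is the general version of
`Pool/Agent/Helper66/TR/Two.lean` (section `reg`) and of the first section of
`Pool/Agent/Helper66/TR/IndTh.lean`; there `IsReg` uses polynomials in the matrix entries, here
elements of the algebra `D.A`.

* `IsReg.comp_mul`: if `F g = ∑ f_i(g) w_i` and `f_i (g h) = ∑ a_ij(g) b_ij(h)` (`D.comul`) then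
  `F (x g y) = ∑ a(x g) b(y) w = ...`; use `D.A_translate` for the left translation and `comul` for
  the right translation.
* `IsReg.indep`: take a basis of the span of the values (finite dimensional: it lies in the span of
  the `w i`), extended to coordinate functionals `ξ` on `V`; `f i = ξ i ∘ F` is in `D.A` because it
  is a linear combination of the functions of a presentation (`IsReg.apply`).
* `isRational_dual`: for finite dimensional `V`: `(ρ* g ξ)(v) = ξ (ρ g⁻¹ v)`; with a finite basis
  `e_j` of `V`, `ρ* g ξ = ∑_j ξ (ρ g⁻¹ e_j) e_j*`.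
* `isRational_ind`: `F (h⁻¹ g) = ∑ a_i(h⁻¹) b_i(g)`.
-/

set_option autoImplicit false

namespace Pool.Agent.TRN

open Finset TensorProduct

section sub

variable {k Γ : Type*} [Field k] [Group Γ] {V W : Type*} [AddCommGroup V] [Module k V]
  [AddCommGroup W] [Module k W]

/-- a stable subspace as a representation -/
def sub (ρ : Representation k Γ V) {Y : Submodule k V} (hY : Stable ρ Y) :
    Representation k Γ Y :=
  ρ.subrepresentation Y (fun g v hv => hY g v hv)

lemma sub_coe (ρ : Representation k Γ V) {Y : Submodule k V} (hY : Stable ρ Y) (g : Γ)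
    (x : Y) : ((sub ρ hY g x : Y) : V) = ρ g x := rfl

lemma sub_isEquiv {ρ : Representation k Γ V} {Y : Submodule k V} (hY : Stable ρ Y) :
    IsEquiv (sub ρ hY) ρ Y.subtype := fun _ _ => rfl

/-- a quotient representation -/
def quo (ρ : Representation k Γ V) {Y : Submodule k V} (hY : Stable ρ Y) :
    Representation k Γ (V ⧸ Y) :=
  ρ.quotient Y (fun g v hv => hY g v hv)

lemma quo_isEquiv {ρ : Representation k Γ V} {Y : Submodule k V} (hY : Stable ρ Y) :
    IsEquiv ρ (quo ρ hY) Y.mkQ := fun _ _ => rfl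

lemma Stable.map {ρ : Representation k Γ V} {σ : Representation k Γ W} {φ : V →ₗ[k] W}
    (hφ : IsEquiv ρ σ φ) {Y : Submodule k V} (hY : Stable ρ Y) : Stable σ (Y.map φ) := by
  rintro g _ ⟨v, hv, rfl⟩
  exact ⟨ρ g v, hY g v hv, hφ g v⟩

lemma Stable.comap {ρ : Representation k Γ V} {σ : Representation k Γ W} {φ : V →ₗ[k] W}
    (hφ : IsEquiv ρ σ φ) {Y : Submodule k W} (hY : Stable σ Y) : Stable ρ (Y.comap φ) := by
  intro g v hv
  rw [Submodule.mem_comap, hφ]
  exact hY g _ hv

lemma Stable.ker {ρ : Representation k Γ V} {σ : Representation k Γ W} {φ : V →ₗ[k] W}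
    (hφ : IsEquiv ρ σ φ) : Stable ρ (LinearMap.ker φ) := by
  intro g v hv
  rw [LinearMap.mem_ker] at hv ⊢
  rw [hφ, hv, map_zero]

lemma Stable.inf {ρ : Representation k Γ V} {X Y : Submodule k V} (hX : Stable ρ X)
    (hY : Stable ρ Y) : Stable ρ (X ⊓ Y) := fun g v hv => ⟨hX g v hv.1, hY g v hv.2⟩

lemma Stable.sup {ρ : Representation k Γ V} {X Y : Submodule k V} (hX : Stable ρ X)
    (hY : Stable ρ Y) : Stable ρ (X ⊔ Y) := by
  intro g v hv
  obtain ⟨x, hx, y, hy, rfl⟩ := Submodule.mem_sup.1 hv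
  rw [map_add]
  exact Submodule.add_mem_sup (hX g x hx) (hY g y hy)

lemma Stable.top {ρ : Representation k Γ V} : Stable ρ (⊤ : Submodule k V) :=
  fun _ _ _ => Submodule.mem_top

lemma Stable.bot {ρ : Representation k Γ V} : Stable ρ (⊥ : Submodule k V) := by
  intro g v hv
  rw [Submodule.mem_bot] at hv ⊢
  rw [hv, map_zero]

lemma Stable.iSup {ρ : Representation k Γ V} {ι : Type*} {N : ι → Submodule k V}
    (h : ∀ i, Stable ρ (N i)) : Stable ρ (⨆ i, N i) := by
  intro g v hv
  have : ⨆ i, N i ≤ (⨆ i, N i).comap (ρ g) := by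
    apply iSup_le
    intro i w hw
    exact Submodule.mem_iSup_of_mem i (h i g w hw)
  exact this hv

lemma mul_apply' (ρ : Representation k Γ V) (g h : Γ) (v : V) :
    ρ (g * h) v = ρ g (ρ h v) := by
  rw [map_mul]; rfl

lemma inv_apply_self (ρ : Representation k Γ V) (g : Γ) (v : V) : ρ g⁻¹ (ρ g v) = v := by
  rw [← mul_apply', inv_mul_cancel, map_one]; rfl

lemma self_inv_apply (ρ : Representation k Γ V) (g : Γ) (v : V) : ρ g (ρ g⁻¹ v) = v := by
  rw [← mul_apply', mul_inv_cancel, map_one]; rfl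

end sub

namespace PG

variable {k Γ T X : Type*} [Field k] [Group Γ] [CommGroup T] [AddCommGroup X] {D : PG k Γ T X}
  {V W : Type*} [AddCommGroup V] [Module k V] [AddCommGroup W] [Module k W]

lemma A_right {f : Γ → k} (hf : f ∈ D.A) (h : Γ) : (fun g => f (g * h)) ∈ D.A := by
  obtain ⟨m, a, b, ha, hb, hab⟩ := D.comul f hf
  have : (fun g => f (g * h)) = ∑ i, b i h • a i := by
    funext g
    rw [hab, Finset.sum_apply]
    apply Finset.sum_congr rfl
    intro i _
    rw [Pi.smul_apply, smul_eq_mul, mul_comm]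
  rw [this]
  exact Subalgebra.sum_mem _ fun i _ => D.A.smul_mem (ha i) _

lemma IsReg.congr {F F' : Γ → V} (h : D.IsReg F) (e : ∀ g, F' g = F g) : D.IsReg F' := by
  obtain ⟨m, f, w, hf, h⟩ := h
  exact ⟨m, f, w, hf, fun g => by rw [e, h]⟩

lemma IsReg.map {F : Γ → V} (h : D.IsReg F) (φ : V →ₗ[k] W) : D.IsReg (fun g => φ (F g)) := by
  obtain ⟨m, f, w, hf, h⟩ := h
  exact ⟨m, f, fun i => φ (w i), hf, fun g => by
    beta_reduce; rw [h, map_sum]; simp only [map_smul]⟩

lemma IsReg.apply {F : Γ → V} (h : D.IsReg F) (ξ : V →ₗ[k] k) : (fun g => ξ (F g)) ∈ D.A := by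
  obtain ⟨m, f, w, hf, h⟩ := h
  have : (fun g => ξ (F g)) = ∑ i, ξ (w i) • f i := by
    funext g
    rw [h, map_sum, Finset.sum_apply]
    apply Finset.sum_congr rfl
    intro i _
    rw [map_smul, Pi.smul_apply, smul_eq_mul, smul_eq_mul, mul_comm]
  rw [this]
  exact Subalgebra.sum_mem _ fun i _ => D.A.smul_mem (hf i) _

lemma IsReg.smul {F : Γ → V} (h : D.IsReg F) {f : Γ → k} (hf : f ∈ D.A) :
    D.IsReg (fun g => f g • F g) := by
  obtain ⟨m, f', w, hf', h⟩ := h
  refine ⟨m, fun i => f * f' i, w, fun i => D.A.mul_mem hf (hf' i), fun g => ?_⟩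
  beta_reduce
  rw [h, smul_sum]
  apply sum_congr rfl
  intro i _
  rw [Pi.mul_apply, smul_smul]

lemma IsReg.add {F F' : Γ → V} (h : D.IsReg F) (h' : D.IsReg F') :
    D.IsReg (fun g => F g + F' g) := by
  obtain ⟨m, f, w, hf, h⟩ := h
  obtain ⟨m', f', w', hf', h'⟩ := h'
  refine ⟨m + m', Fin.append f f', Fin.append w w', fun i => ?_, fun g => ?_⟩
  · refine Fin.addCases (fun i => ?_) (fun i => ?_) i
    · rw [Fin.append_left]; exact hf i
    · rw [Fin.append_right]; exact hf' i
  · beta_reduce
    rw [h, h', Fin.sum_univ_add]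
    simp

lemma IsReg.const (v : V) : D.IsReg (fun _ => v) :=
  ⟨1, fun _ => 1, fun _ => v, fun _ => D.A.one_mem, fun g => by simp⟩

lemma IsReg.sum {ι : Type*} (s : Finset ι) {F : ι → Γ → V} (h : ∀ i ∈ s, D.IsReg (F i)) :
    D.IsReg (fun g => ∑ i ∈ s, F i g) := by
  classical
  induction s using Finset.induction_on with
  | empty => exact (IsReg.const (0 : V)).congr (fun a => by simp)
  | insert i s hi ih =>
    refine ((h i (mem_insert_self _ _)).add
      (ih (fun j hj => h j (mem_insert_of_mem hj)))).congr (fun a => ?_)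
    rw [sum_insert hi]

lemma IsReg.single {f : Γ → k} (hf : f ∈ D.A) (v : V) : D.IsReg (fun g => f g • v) :=
  (IsReg.const v).smul hf

lemma IsReg.comp_mul {F : Γ → V} (h : D.IsReg F) (x y : Γ) :
    D.IsReg (fun g => F (x * g * y)) := by
  obtain ⟨m, f, w, hf, h⟩ := h
  refine ⟨m, fun i g => f i (x * g * y), w, fun i => ?_, fun g => by beta_reduce; rw [h]⟩
  have h1 := A_right (D.A_translate (hf i) x) y
  have h2 : (fun g => f i (x * (g * y))) = fun g => f i (x * g * y) := by
    funext g; rw [mul_assoc]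
  beta_reduce
  rw [← h2]
  exact h1

lemma IsReg.comp_inv {F : Γ → V} (h : D.IsReg F) : D.IsReg (fun g => F g⁻¹) := by
  obtain ⟨m, f, w, hf, h⟩ := h
  exact ⟨m, fun i g => f i g⁻¹, w, fun i => D.inv _ (hf i), fun g => by beta_reduce; rw [h]⟩

lemma IsReg.finite_span {F : Γ → V} (h : D.IsReg F) :
    Module.Finite k (Submodule.span k (Set.range F)) := by
  obtain ⟨m, f, w, hf, h⟩ := h
  have h1 : Submodule.span k (Set.range F) ≤ Submodule.span k (Set.range w) := by
    rw [Submodule.span_le]
    rintro _ ⟨g, rfl⟩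
    rw [h]
    exact Submodule.sum_mem _ fun i _ => Submodule.smul_mem _ _
      (Submodule.subset_span (Set.mem_range_self i))
  have h2 : Module.Finite k (Submodule.span k (Set.range w)) :=
    Module.Finite.span_of_finite k (Set.finite_range w)
  exact Submodule.finiteDimensional_of_le h1

/-- independent presentation -/
lemma IsReg.indep {F : Γ → V} (h : D.IsReg F) : ∃ (m : ℕ) (f : Fin m → Γ → k) (w : Fin m → V),
    (∀ i, f i ∈ D.A) ∧ LinearIndependent k w ∧
    (∀ i, w i ∈ Submodule.span k (Set.range F)) ∧ (∀ g, F g = ∑ i, f i g • w i) ∧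
    ∀ i, ∃ ξ : V →ₗ[k] k, ∀ g, f i g = ξ (F g) := by
  have hfin := h.finite_span
  let Y := Submodule.span k (Set.range F)
  let b := Module.finBasis k Y
  have hξ : ∀ i, ∃ ξ : V →ₗ[k] k, ξ.comp Y.subtype = b.coord i := fun i =>
    LinearMap.exists_extend (b.coord i)
  choose ξ hξ using hξ
  have hY : ∀ g, F g ∈ Y := fun g => Submodule.subset_span (Set.mem_range_self g)
  refine ⟨Module.finrank k Y, fun i g => ξ i (F g), fun i => (b i : V), fun i => h.apply (ξ i),
    ?_, fun i => (b i).2, fun g => ?_, fun i => ⟨ξ i, fun g => rfl⟩⟩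
  · exact b.linearIndependent.map' Y.subtype (Submodule.ker_subtype Y)
  · have h1 := congrArg (Submodule.subtype Y) (b.sum_repr ⟨F g, hY g⟩)
    rw [map_sum] at h1
    refine h1.symm.trans ?_
    apply sum_congr rfl
    intro i _
    rw [map_smul]
    congr 1
    exact (LinearMap.congr_fun (hξ i) ⟨F g, hY g⟩).symm

/-- a regular function with values in a subspace -/
lemma IsReg.sub {F : Γ → V} (h : D.IsReg F) {Y : Submodule k V} (F' : Γ → Y)
    (hF : ∀ g, F g = F' g) : D.IsReg F' := by
  obtain ⟨π, hπ⟩ := LinearMap.exists_leftInverse_of_injective Y.subtype (by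
    rw [Submodule.ker_subtype])
  refine (h.map π).congr (fun g => ?_)
  rw [hF]
  exact (LinearMap.congr_fun hπ (F' g)).symm

lemma isRational_sub {ρ : Representation k Γ V} (hρ : D.IsRational ρ) {Y : Submodule k V}
    (hY : Stable ρ Y) : D.IsRational (sub ρ hY) := by
  intro x
  exact (hρ x).sub _ (fun g => rfl)

lemma isRational_quo {ρ : Representation k Γ V} (hρ : D.IsRational ρ) {Y : Submodule k V}
    (hY : Stable ρ Y) : D.IsRational (quo ρ hY) := by
  intro x
  obtain ⟨v, rfl⟩ := Y.mkQ_surjective x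
  exact (hρ v).map Y.mkQ

lemma IsRational.of_surj {ρ : Representation k Γ V} {σ : Representation k Γ W}
    (hρ : D.IsRational ρ) {φ : V →ₗ[k] W} (hφ : IsEquiv ρ σ φ) (hs : Function.Surjective φ) :
    D.IsRational σ := by
  intro x
  obtain ⟨v, rfl⟩ := hs x
  exact ((hρ v).map φ).congr (fun g => (hφ g v).symm)

lemma IsRational.of_inj {ρ : Representation k Γ V} {σ : Representation k Γ W}
    (hσ : D.IsRational σ) {φ : V →ₗ[k] W} (hφ : IsEquiv ρ σ φ) (hs : Function.Injective φ) :
    D.IsRational ρ := by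
  intro x
  obtain ⟨π, hπ⟩ := LinearMap.exists_leftInverse_of_injective φ (LinearMap.ker_eq_bot.2 hs)
  refine ((hσ (φ x)).map π).congr (fun g => ?_)
  rw [← hφ]
  exact (LinearMap.congr_fun hπ (ρ g x)).symm

lemma isRational_prod {ρ : Representation k Γ V} {σ : Representation k Γ W}
    (hρ : D.IsRational ρ) (hσ : D.IsRational σ) : D.IsRational (ρ.prod σ) := by
  rintro ⟨v, w⟩
  refine (((hρ v).map (LinearMap.inl k V W)).add ((hσ w).map (LinearMap.inr k V W))).congr
    (fun g => ?_)
  change (ρ g v, σ g w) = _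
  simp

lemma IsReg.tmul {F : Γ → V} {F' : Γ → W} (h : D.IsReg F) (h' : D.IsReg F') :
    D.IsReg (fun g => F g ⊗ₜ[k] F' g) := by
  obtain ⟨m, f, w, hf, h'⟩ := h'
  refine (IsReg.sum Finset.univ (F := fun i g => f i g • (F g ⊗ₜ[k] w i)) (fun i _ =>
    (h.map ((TensorProduct.mk k V W).flip (w i))).smul (hf i))).congr (fun g => ?_)
  rw [h', TensorProduct.tmul_sum]
  apply sum_congr rfl
  intro i _
  rw [TensorProduct.tmul_smul]

lemma isRational_tprod {ρ : Representation k Γ V} {σ : Representation k Γ W}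
    (hρ : D.IsRational ρ) (hσ : D.IsRational σ) : D.IsRational (ρ.tprod σ) := by
  intro x
  induction x using TensorProduct.induction_on with
  | zero => exact (IsReg.const (0 : V ⊗[k] W)).congr (fun g => map_zero _)
  | tmul v w => exact ((hρ v).tmul (hσ w)).congr (fun g => rfl)
  | add x y hx hy => exact (hx.add hy).congr (fun g => map_add _ _ _)

lemma isRational_trivial : D.IsRational (Representation.trivial k Γ V) :=
  fun v => IsReg.const v

lemma isRational_dual [Module.Finite k V] {ρ : Representation k Γ V} (hρ : D.IsRational ρ) :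
    D.IsRational ρ.dual := by
  intro ξ
  let b := Module.finBasis k V
  refine (IsReg.sum Finset.univ (F := fun j g => (ξ (ρ g⁻¹ (b j))) • b.coord j) (fun j _ =>
    IsReg.single ((hρ (b j)).comp_inv.apply ξ) (b.coord j))).congr (fun g => ?_)
  apply LinearMap.ext
  intro v
  rw [Representation.dual_apply]
  change ξ (ρ g⁻¹ v) = _
  rw [LinearMap.sum_apply]
  conv_lhs => rw [← b.sum_repr v]
  rw [map_sum, map_sum]
  apply sum_congr rfl
  intro j _
  rw [map_smul, map_smul, LinearMap.smul_apply, smul_eq_mul, smul_eq_mul, mul_comm]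
  rfl

lemma isRational_ind (D : PG k Γ T X) (a : X) : D.IsRational (D.indRep a) := by
  rintro ⟨F, hF⟩
  obtain ⟨m, c, b, hc, hb, hcb⟩ := D.comul F hF.1
  have h1 : D.IsReg (fun h : Γ => (fun g => F (h⁻¹ * g) : Γ → k)) := by
    refine ⟨m, fun i h => c i h⁻¹, b, fun i => D.inv _ (hc i), fun h => ?_⟩
    funext g
    beta_reduce
    rw [hcb, Finset.sum_apply]
    rfl
  exact h1.sub _ (fun h => rfl)

/-- the span of an orbit is finite dimensional -/
lemma exists_finite {ρ : Representation k Γ V} (hρ : D.IsRational ρ) (s : Finset V) :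
    ∃ Y : Submodule k V, Stable ρ Y ∧ Module.Finite k Y ∧ (∀ v ∈ s, v ∈ Y) ∧
      ∀ Z : Submodule k V, Stable ρ Z → (∀ v ∈ s, v ∈ Z) → Y ≤ Z := by
  classical
  have hst : ∀ v, Stable ρ (Submodule.span k (Set.range fun g => ρ g v)) := by
    intro v g x hx
    induction hx using Submodule.span_induction with
    | mem x hx =>
      obtain ⟨h, rfl⟩ := hx
      apply Submodule.subset_span
      exact ⟨g * h, mul_apply' ρ g h v⟩
    | zero => rw [map_zero]; exact Submodule.zero_mem _
    | add x y _ _ hx hy => rw [map_add]; exact Submodule.add_mem _ hx hy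
    | smul c x _ hx => rw [map_smul]; exact Submodule.smul_mem _ _ hx
  have hfin : ∀ v, Module.Finite k (Submodule.span k (Set.range fun g => ρ g v)) :=
    fun v => (hρ v).finite_span
  refine ⟨s.sup (fun v => Submodule.span k (Set.range fun g => ρ g v)), ?_, ?_, ?_, ?_⟩
  · induction s using Finset.induction_on with
    | empty => exact Stable.bot
    | insert v s hv ih => rw [Finset.sup_insert]; exact (hst v).sup ih
  · exact Submodule.finite_finset_sup _ _
  · intro v hv
    have h1 : v ∈ Submodule.span k (Set.range fun g => ρ g v) :=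
      Submodule.subset_span ⟨1, by beta_reduce; rw [map_one]; rfl⟩
    exact (Finset.le_sup (f := fun v => Submodule.span k (Set.range fun g => ρ g v)) hv) h1
  · intro Z hZ hs
    apply Finset.sup_le
    intro v hv
    rw [Submodule.span_le]
    rintro _ ⟨g, rfl⟩
    exact hZ g v (hs v hv)

end PG

end Pool.Agent.TRN
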