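import Pool.Agent.TRN.Chain3

/-!
# TRN / TENS: tensor products and layers

`exact_tensor`: let `0 → A → B → E → 0` be exact sequences of rational representations
(`i : A → B` injective, `f : B → E` surjective, `ker f = range i`), `σ` rational on `M`. If `A ⊗ M` and
`E ⊗ M` are good then `B ⊗ M` is good (`GoodIn.ext` for `f ⊗ id`, whose kernel is the range of
`i ⊗ id`: `rTensor_exact`; `i ⊗ id` is injective over a field: `GoodIn.map_inj`). If `A ⊗ M` and
`B ⊗ M` are good then `E ⊗ M` is good (`GoodIn.quot`).

* `reach_tensor`: induction along the chain from `⊥` to `K` with `exact_tensor`: for a step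
  `A ≤ B` with `B / A ≅ Ind a` use `A → B → Ind a`. (A nonzero weight vector of a member of the chain
  is in `K`.)
* `filt_tensor`: the same for an `ω`-chain, then the union: `V ⊗ M` is the union of the ranges of
  `N i ⊗ M` (every tensor is a finite sum), `GoodIn.iSup`, `GoodIn.map_inj`. The last argument says
  that `Ind a ⊗ M` is good for all `a`.
* `tensor_comm`: `V ⊗ M ≅ M ⊗ V` (`TensorProduct.comm`, `GoodIn.equiv`).
-/

set_option autoImplicit false

namespace Pool.Agent.TRN

open Finset TensorProduct

namespace PG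

variable {k Γ T X : Type*} [Field k] [Infinite k] [Group Γ] [CommGroup T] [AddCommGroup X]
  {D : PG k Γ T X} {V M A B E : Type*} [AddCommGroup V] [Module k V] {ρ : Representation k Γ V}
  [AddCommGroup M] [Module k M] {σ : Representation k Γ M}
  [AddCommGroup A] [Module k A] {α : Representation k Γ A}
  [AddCommGroup B] [Module k B] {β : Representation k Γ B}
  [AddCommGroup E] [Module k E] {ε : Representation k Γ E}

omit [Infinite k] in
lemma isEquiv_rTensor {φ : A →ₗ[k] B} (hφ : IsEquiv α β φ) (σ : Representation k Γ M) :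
    IsEquiv (α.tprod σ) (β.tprod σ) (φ.rTensor M) := by
  intro g v
  induction v using TensorProduct.induction_on with
  | zero => rw [map_zero, map_zero, map_zero]
  | tmul a m =>
    change φ (α g a) ⊗ₜ[k] (σ g m) = β g (φ a) ⊗ₜ[k] (σ g m)
    rw [hφ]
  | add x y hx hy => rw [map_add, map_add, map_add, map_add, hx, hy]

theorem exact_tensor (hα : D.IsRational α) (hβ : D.IsRational β) (hε : D.IsRational ε)
    (hσ : D.IsRational σ) {i : A →ₗ[k] B} {f : B →ₗ[k] E} (hi : IsEquiv α β i)
    (hf : IsEquiv β ε f) (hinj : Function.Injective i) (hsurj : Function.Surjective f)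
    (hex : LinearMap.ker f = LinearMap.range i) (hA : GoodIn (isRational_tprod hα hσ) ⊤) :
    (GoodIn (isRational_tprod hε hσ) ⊤ → GoodIn (isRational_tprod hβ hσ) ⊤) ∧
    (GoodIn (isRational_tprod hβ hσ) ⊤ → GoodIn (isRational_tprod hε hσ) ⊤) := by
  have hI : IsEquiv (α.tprod σ) (β.tprod σ) (i.rTensor M) := isEquiv_rTensor hi σ
  have hF : IsEquiv (β.tprod σ) (ε.tprod σ) (f.rTensor M) := isEquiv_rTensor hf σ
  have hIinj : Function.Injective (i.rTensor M) :=
    Module.Flat.rTensor_preserves_injective_linearMap i hinj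
  have hFsurj : Function.Surjective (f.rTensor M) := LinearMap.rTensor_surjective M hsurj
  have hker : LinearMap.ker (f.rTensor M) = LinearMap.range (i.rTensor M) :=
    LinearMap.exact_iff.1 (rTensor_exact M (LinearMap.exact_iff.2 hex) hsurj)
  have hK : GoodIn (isRational_tprod hβ hσ) (⊤ ⊓ LinearMap.ker (f.rTensor M)) := by
    have h := GoodIn.map_inj (isRational_tprod hα hσ) (isRational_tprod hβ hσ) hI hIinj
      Stable.top hA
    rwa [Submodule.map_top, ← hker, ← top_inf_eq (LinearMap.ker (f.rTensor M))] at h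
  have hmap : (⊤ : Submodule k (B ⊗[k] M)).map (f.rTensor M) = ⊤ := by
    rw [Submodule.map_top, LinearMap.range_eq_top]
    exact hFsurj
  constructor
  · intro h
    exact GoodIn.ext (isRational_tprod hβ hσ) (isRational_tprod hε hσ) hF Stable.top hK
      (by rw [hmap]; exact h)
  · intro h
    have h2 := GoodIn.quot (isRational_tprod hβ hσ) (isRational_tprod hε hσ) hF Stable.top hK h
    rwa [hmap] at h2

theorem tensor_comm (hρ : D.IsRational ρ) (hσ : D.IsRational σ)
    (h : GoodIn (isRational_tprod hρ hσ) ⊤) : GoodIn (isRational_tprod hσ hρ) ⊤ := by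
  refine GoodIn.equiv (isRational_tprod hρ hσ) (isRational_tprod hσ hρ)
    (TensorProduct.comm k V M) ?_ h
  intro g v
  induction v using TensorProduct.induction_on with
  | zero => rw [map_zero, map_zero, map_zero]
  | tmul a m => rfl
  | add x y hx hy => rw [map_add, map_add, map_add, map_add, hx, hy]

lemma goodIn_subsingleton (hρ : D.IsRational ρ) [Subsingleton V] : GoodIn hρ ⊤ := by
  have h : (⊤ : Submodule k V) = ⊥ := Subsingleton.elim _ _
  rw [h]
  exact GoodIn.bot hρ

/-- one layer -/
lemma layer_tensor (hρ : D.IsRational ρ) (hσ : D.IsRational σ) {K L : Submodule k V}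
    (hK : Stable ρ K) (hL : Stable ρ L) {a : X} (h : IsLayer (D.indRep a) ρ K L)
    (hI : GoodIn (isRational_tprod (isRational_ind D a) hσ) ⊤)
    (hG : GoodIn (isRational_tprod (isRational_sub hρ hK) hσ) ⊤) :
    GoodIn (isRational_tprod (isRational_sub hρ hL) hσ) ⊤ := by
  obtain ⟨hKL, f, f1, f2, f3⟩ := h
  refine (exact_tensor (isRational_sub hρ hK) (isRational_sub hρ hL) (isRational_ind D a) hσ
    (i := Submodule.inclusion hKL) (f := f) ?_ ?_ (Submodule.inclusion_injective hKL) f1 ?_ hG).1 hI
  · intro g v
    rfl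
  · intro g v
    exact f3 g v _ rfl
  · ext x
    rw [LinearMap.mem_ker, f2, Submodule.range_inclusion, Submodule.mem_comap]
    rfl

theorem reach_tensor (hρ : D.IsRational ρ) (hσ : D.IsRational σ) {K : Submodule k V}
    (hK : Stable ρ K) (h : D.Reach ρ ⊥ K)
    (hI : ∀ c, D.dom c = c → (∃ v ∈ K, v ≠ 0 ∧ D.IsWt ρ c v) →
      GoodIn (isRational_tprod (isRational_ind D c) hσ) ⊤) :
    GoodIn (isRational_tprod (isRational_sub hρ hK) hσ) ⊤ := by
  have key : ∀ L : Submodule k V, D.Reach ρ ⊥ L → ∀ hL : Stable ρ L, L ≤ K →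
      GoodIn (isRational_tprod (isRational_sub hρ hL) hσ) ⊤ := by
    intro L hR
    unfold Reach at hR
    induction hR with
    | refl =>
      intro hL _
      exact goodIn_subsingleton _
    | tail hab hbc ih =>
      rename_i A' B'
      intro hL hle
      obtain ⟨s1, s2, a, ha, ⟨v, hv, hv0, hvw⟩, hlay⟩ := hbc
      exact layer_tensor hρ hσ s1 hL hlay (hI a ha ⟨v, hle hv, hv0, hvw⟩)
        (ih s1 (hlay.1.trans hle))
  exact key K h hK le_rfl

theorem filt_tensor (hρ : D.IsRational ρ) (hσ : D.IsRational σ) (h : GoodFilt D ρ ⊤)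
    (hI : ∀ c, GoodIn (isRational_tprod (isRational_ind D c) hσ) ⊤) :
    GoodIn (isRational_tprod hρ hσ) ⊤ := by
  obtain ⟨N, N0, Ns, Nl, Nsup⟩ := h
  have hmono : Monotone N := by
    refine monotone_nat_of_le_succ fun i => ?_
    rcases Nl i with h1 | ⟨a, h1⟩
    · exact h1.le
    · exact h1.1
  have h1 : ∀ i, GoodIn (isRational_tprod (isRational_sub hρ (Ns i)) hσ) ⊤ := by
    intro i
    induction i with
    | zero =>
      have : Subsingleton (N 0) := by
        rw [N0]
        infer_instance
      exact goodIn_subsingleton _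
    | succ i ih =>
      rcases Nl i with h2 | ⟨a, h2⟩
      · have h3 : ∀ (P Q : Submodule k V) (hP : Stable ρ P) (hQ : Stable ρ Q), P = Q →
            GoodIn (isRational_tprod (isRational_sub hρ hP) hσ) ⊤ →
            GoodIn (isRational_tprod (isRational_sub hρ hQ) hσ) ⊤ := by
          intro P Q hP hQ hPQ
          subst hPQ
          exact fun h => h
        exact h3 _ _ (Ns i) (Ns (i + 1)) h2 ih
      · exact layer_tensor hρ hσ (Ns i) (Ns (i + 1)) h2 (hI a) ih
  have h2 : ∀ i, GoodIn (isRational_tprod hρ hσ)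
      (LinearMap.range ((N i).subtype.rTensor M)) := by
    intro i
    have h := GoodIn.map_inj (isRational_tprod (isRational_sub hρ (Ns i)) hσ)
      (isRational_tprod hρ hσ) (isEquiv_rTensor (sub_isEquiv (Ns i)) σ)
      (Module.Flat.rTensor_preserves_injective_linearMap _ (N i).injective_subtype)
      Stable.top (h1 i)
    rwa [Submodule.map_top] at h
  have h3 : Monotone fun i => LinearMap.range ((N i).subtype.rTensor M) := by
    intro i j hij
    rintro _ ⟨x, rfl⟩
    refine ⟨(Submodule.inclusion (hmono hij)).rTensor M x, ?_⟩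
    rw [← LinearMap.comp_apply, ← LinearMap.rTensor_comp, Submodule.subtype_comp_inclusion]
  have h4 := GoodIn.iSup (isRational_tprod hρ hσ) _ h3 h2
  have h5 : ⨆ i, LinearMap.range ((N i).subtype.rTensor M) = ⊤ := by
    rw [eq_top_iff]
    rintro x -
    induction x using TensorProduct.induction_on with
    | zero => exact Submodule.zero_mem _
    | tmul a m =>
      have ha : a ∈ ⨆ i, N i := by
        rw [Nsup]
        exact Submodule.mem_top
      rw [Submodule.mem_iSup_of_directed _ hmono.directed_le] at ha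
      obtain ⟨i, hi⟩ := ha
      exact Submodule.mem_iSup_of_mem i ⟨(⟨a, hi⟩ : N i) ⊗ₜ[k] m, rfl⟩
    | add x y hx hy => exact Submodule.add_mem _ hx hy
  rwa [h5] at h4

omit [Infinite k] in
/-- a weight whose dominant weight is zero is zero -/
lemma eq_zero_of_dom {a : X} (h : D.dom a = 0) : a = 0 := by
  obtain ⟨n, s, hs⟩ := D.weyl a
  apply D.chi_inj
  ext z
  have h1 := (hs (s.symm z)).2
  rw [MulEquiv.apply_symm_apply, h, chi_zero] at h1
  rw [h1, chi_zero]

/-- the elements of `Ind 0` are constant functions -/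
lemma ind_zero_const {F : Γ → k} (hF : F ∈ D.Ind 0) (g : Γ) : F g = F 1 := by
  have hone : (fun _ : Γ => (1 : k)) ∈ D.Ind 0 := by
    refine ⟨D.A.one_mem, fun g u hu z => ?_⟩
    rw [chi_zero]
    simp
  have hw : ∀ H : D.Ind 0, D.IsWt (D.indRep 0) 0 H := by
    intro H
    have h1 : ∀ b, b ≠ 0 → wt (isRational_ind D 0) b H = 0 := by
      intro b hb
      by_contra hne
      obtain ⟨n, hn⟩ := exists_weyl D b
      have h2 := hn (D.indRep 0) _ (wt_isWt (isRational_ind D 0) b H)
      have h3 : D.indRep 0 n (wt (isRational_ind D 0) b H) ≠ 0 := by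
        intro h4
        apply hne
        rw [← inv_apply_self (D.indRep 0) n (wt (isRational_ind D 0) b H), h4, map_zero]
      exact hb (eq_zero_of_dom (D.dom_zero _ (D.dom_dom b) (ind_wt h2 h3)))
    have h2 : wt (isRational_ind D 0) 0 H = H := by
      rw [← sub_eq_zero]
      refine eq_zero_of_wt (isRational_ind D 0) fun a => ?_
      rw [map_sub]
      by_cases ha : a = 0
      · subst ha
        rw [wt_self _ (wt_isWt (isRational_ind D 0) 0 H), sub_self]
      · rw [h1 a ha, wt_ne _ (wt_isWt (isRational_ind D 0) 0 H) (Ne.symm ha), sub_zero]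
    rw [← h2]
    exact wt_isWt (isRational_ind D 0) 0 H
  have h1 := ind_top (hw ⟨F, hF⟩) (hw ⟨_, hone⟩)
  have h2 := congrFun (congrArg Subtype.val h1) g
  change F 1 * 1 = 1 * F g at h2
  rw [mul_one, one_mul] at h2
  exact h2.symm

lemma GoodIn.trivial' : GoodIn (isRational_trivial (D := D) (V := V)) ⊤ := by
  intro a v _ hU hw F hF
  by_cases hv : v = 0
  · refine ⟨0, Submodule.mem_top, Submodule.zero_mem _, fun g => ?_⟩
    rw [map_zero, map_zero, hv, smul_zero]
  · have ha : a = 0 := by
      apply D.chi_inj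
      ext z
      have h1 := hw z
      rw [Representation.trivial_apply] at h1
      have h2 : ((D.chi a z : k) - 1) • v = 0 := by
        rw [sub_smul, one_smul, ← h1, sub_self]
      rcases smul_eq_zero.1 h2 with h3 | h3
      · rw [chi_zero, Units.val_one]
        exact sub_eq_zero.1 h3
      · exact absurd h3 hv
    subst ha
    refine ⟨F 1 • v, Submodule.mem_top,
      Submodule.smul_mem _ _ (isU_mem (isRational_trivial (D := D) (V := V)) hU hw).1,
      fun g => ?_⟩
    rw [Representation.trivial_apply, ind_zero_const hF g]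
    exact wt_self _ (hw.smul (F 1))

/-- tensoring with a trivial representation of dimension one -/
theorem tensor_trivial (hσ : D.IsRational σ) (h : GoodIn hσ ⊤) :
    GoodIn (isRational_tprod (isRational_trivial (D := D) (V := k)) hσ) ⊤ := by
  refine GoodIn.equiv hσ (isRational_tprod (isRational_trivial (D := D) (V := k)) hσ)
    (TensorProduct.lid k M).symm ?_ h
  intro g v
  rw [TensorProduct.lid_symm_apply, TensorProduct.lid_symm_apply]
  change _ = TensorProduct.map _ _ _
  rw [TensorProduct.map_tmul, Representation.trivial_apply]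

end PG

end Pool.Agent.TRN
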