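import Pool.Agent.TRN.WdDefs

/-!
# TRN / TOPIND: the map from a tilting module onto the induced module

`top_ind`: let `d := h.hw`. `exists_frob d.rational w.xi d.xiU d.xit` gives `π : w.V → Ind a`,
`(π x).1 g = xi (ρ g⁻¹ x)`, so `(π w.v).1 1 = 1`. Apply `GoodIn.ker` to `π` with `B = ⊤`, `C = ⊤`
(`h.good` and `GoodIn.of_filt`): a `U`-invariant `c ≠ 0` of `Ind a` of weight `b`
has `b = a` (`ind_U`), and `ind_top` (for `π w.v`, `c`) gives `c = c(1) • π w.v = π (c(1) • w.v)`.
So `π` is surjective and `K = ker π` is good.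
-/

set_option autoImplicit false

namespace Pool.Agent.TRN

open Finset TensorProduct

universe u v w

namespace PG

variable {k : Type u} [Field k] [Infinite k] {Γ : Type u} [Group Γ] {T X : Type*} [CommGroup T]
  [AddCommGroup X] {D : PG k Γ T X}

/-- the map from a tilting module onto the induced module: surjective with good kernel -/
theorem top_ind (hfd : D.Fd) {w : Wd k Γ} {a : X} (h : IsTop D w a) :
    ∃ π : w.V →ₗ[k] D.Ind a, IsEquiv w.ρ (D.indRep a) π ∧ (∀ x g, (π x).1 g = w.xi (w.ρ g⁻¹ x)) ∧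
      Function.Surjective π ∧ GoodIn h.hw.rational (LinearMap.ker π) := by
  have d := h.hw
  obtain ⟨π, hπ, hπ1⟩ := exists_frob d.rational w.xi d.xiU d.xit
  have hG : GoodIn h.hw.rational (⊤ : Submodule k w.V) := GoodIn.of_filt _ h.good
  have hv1 : (π w.v).1 1 = 1 := by
    rw [hπ1, inv_one, map_one]
    exact d.xiv
  have key := GoodIn.ker h.hw.rational (isRational_ind D a) hπ Stable.top hG (C := ⊤)
    Stable.top le_top ?_
  · obtain ⟨h1, h2⟩ := key
    refine ⟨π, hπ, hπ1, ?_, ?_⟩
    · rw [← LinearMap.range_eq_top, eq_top_iff]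
      rwa [Submodule.map_top] at h1
    · rwa [top_inf_eq] at h2
  · intro b c _ hcU hcw
    by_cases hc : c = 0
    · exact ⟨0, Submodule.mem_top, fun u _ => map_zero _, isWt_zero _, by rw [map_zero, hc]⟩
    · obtain ⟨rfl, hc1⟩ := ind_U hcU hcw hc
      refine ⟨c.1 1 • w.v, Submodule.mem_top, ?_, ?_, ?_⟩
      · intro u hu
        rw [map_smul, d.hU u hu]
      · exact d.hw.smul _
      · have h3 := ind_top (IsWt.map hπ d.hw) hcw
        rw [hv1, one_smul] at h3
        rw [map_smul]
        exact h3.symm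

end PG

end Pool.Agent.TRN
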