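import Pool.Agent.TRN.Word
import Pool.Agent.TRN.TopInd

/-!
# TRN / TENSIND: tensor products of good modules are good

`ind_tensor`: strong induction on `(D.down a).ncard` (`σ` fixed). If `Ind a = 0` (no `H ≠ 0`) then
`Ind a ⊗ M = 0`. Otherwise `dom a = a` (`ind_dom`); `hF` gives a word `w` of weight `a`, with data
`d := IsWord.data`, `IsWord.top`. `top_ind` gives `π : w.V → Ind a` surjective with good kernel
`K = ker π`. `GoodIn.reach` gives `D.Reach w.ρ ⊥ K`. For a weight
`c` of `K` (`x ∈ K`, `x ≠ 0` of weight `c`, `dom c = c`): `Le c a` (`d.top`) and `c ≠ a` (otherwise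
`x = xi x • w.v` by `d.one`, `0 = (π x).1 1 = xi x`, `x = 0`); hence `down c ⊂ down a` strictly
(`a ∉ down c` by `Le.antisymm`), `ncard` is smaller (`down_finite`) and the induction hypothesis
gives `Ind c ⊗ M` good. `reach_tensor`: `K ⊗ M` is good; `word_tensor`: `w.V ⊗ M` is good;
`exact_tensor` (second part, `A = K`, `B = w.V`, `E = Ind a`): `Ind a ⊗ M` is good.
-/

set_option autoImplicit false

namespace Pool.Agent.TRN

open Finset TensorProduct

universe u v w

namespace PG

variable {k : Type u} [Field k] [Infinite k] {Γ : Type u} [Group Γ] {T X : Type*} [CommGroup T]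
  [AddCommGroup X] {D : PG k Γ T X} {M : Type v} [AddCommGroup M] [Module k M]
  {σ : Representation k Γ M} {V : Type w} [AddCommGroup V] [Module k V] {ρ : Representation k Γ V}

lemma IsWord.top (hfd : D.Fd) {w : Wd k Γ} {a : X} (h : IsWord D w a) : IsTop D w a :=
  ⟨h.data, (word_good hfd h).1, (word_good hfd h).2⟩

theorem ind_tensor (hfd : D.Fd) (hF : HasFund D) (hσ : D.IsRational σ) (hG : GoodFilt D σ ⊤)
    (a : X) : GoodIn (isRational_tprod (isRational_ind D a) hσ) ⊤ := by
  suffices H : ∀ n : ℕ, ∀ a : X, (D.down a).ncard = n →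
      GoodIn (isRational_tprod (isRational_ind D a) hσ) ⊤ from H _ a rfl
  intro n
  induction n using Nat.strong_induction_on with
  | _ n ih =>
  intro a hn
  by_cases h0 : ∀ H : D.Ind a, H = 0
  · intro b v _ _ _ F _
    have hv : ∀ x : D.Ind a ⊗[k] M, x = 0 := by
      intro x
      induction x using TensorProduct.induction_on with
      | zero => rfl
      | tmul F m => rw [h0 F, TensorProduct.zero_tmul]
      | add x y hx hy => rw [hx, hy, add_zero]
    exact ⟨0, Submodule.mem_top, Submodule.zero_mem _, fun g => (hv _).trans (hv _).symm⟩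
  · rw [not_forall] at h0
    obtain ⟨H, hH⟩ := h0
    have hdom := ind_dom hH
    obtain ⟨w, hw⟩ := hF a hdom
    have d := hw.data
    obtain ⟨π, hπ, hπ1, hsurj, hker⟩ := top_ind hfd (IsWord.top hfd hw)
    have hKst : Stable w.ρ (LinearMap.ker π) := Stable.ker hπ
    have := d.fin
    have hreach := GoodIn.reach hfd d.rational hKst inferInstance hker
    have h1 := reach_tensor d.rational hσ hKst hreach ?_
    · have hwt := word_tensor hfd hw hσ hG
      have h2 : GoodIn (isRational_tprod d.rational hσ) ⊤ := GoodIn.of_filt _ hwt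
      exact (exact_tensor (isRational_sub d.rational hKst) d.rational (isRational_ind D a) hσ
        (sub_isEquiv hKst) hπ Subtype.val_injective hsurj
        (by rw [Submodule.range_subtype]) h1).2 h2
    · rintro c hc ⟨x, hx, hx0, hxw⟩
      have hca : D.Le c a := d.top c x hxw hx0
      have hne : c ≠ a := by
        rintro rfl
        have h3 := d.one x hxw
        have h4 : (π x).1 1 = w.xi x := by
          rw [hπ1, inv_one, map_one]
          rfl
        rw [LinearMap.mem_ker.1 hx] at h4
        apply hx0
        rw [h3, ← h4]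
        exact zero_smul k w.v
      have hlt : (D.down c).ncard < n := by
        rw [← hn]
        apply Set.ncard_lt_ncard _ (down_finite D a)
        constructor
        · intro b hb
          exact ⟨hb.1, Le.trans D hb.2 hca⟩
        · intro hsub
          have h5 : a ∈ D.down c := hsub ⟨hdom, Le.refl D a⟩
          exact hne (Le.antisymm D hca h5.2)
      exact ih _ hlt c rfl

lemma hasTop_of_fund (hfd : D.Fd) (hF : HasFund D) : HasTop D := fun a ha => by
  obtain ⟨w, hw⟩ := hF a ha
  exact ⟨w, IsWord.top hfd hw⟩

lemma dm_of_fund (hfd : D.Fd) (hF : HasFund D) : DM D := fun a b => by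
  have := hfd b
  exact ind_tensor hfd hF (isRational_ind D b)
    (GoodFilt.of_good hfd (isRational_ind D b) Stable.top (GoodIn.ind b) CSpan.of_finite) a

end PG

end Pool.Agent.TRN
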