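import Pool.Agent.TRN.Pieri
import Pool.Agent.TRN.WdDefs

/-!
# TRN / WORD: tensor products of fundamental modules

(`Wd`, `HW`: see `WdDefs.lean`.) `IsFund D w b`: `w` and its dual are
`Mini`, `w.v` is a `U`-invariant of weight `b`, `w.xi` is a `Um`-invariant functional of weight `b` with
`w.xi w.v = 1`, `b` is the highest weight, with multiplicity one. `IsWord D w a`: `w` is a tensor product
of such data, `a` the sum of the weights.

* `IsWord.data`: induction. For `mul`: `(v ⊗ v')` is `U`-invariant of weight `b + c` (`IsWt.tmul`);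
  weights of `V ⊗ V'`: a vector `x` of weight `d` is a sum of `b_i ⊗ c_j` with weight bases, so
  `d = d1 + d2` with weights `d1 ≤ b`, `d2 ≤ c`; if `d = b + c` then `d1 = b`, `d2 = c` (`Le.ht`).
  It is convenient to prove: `wt (b+c) (x ⊗ y) = wt b x ⊗ wt c y` when all weights are `≤`.
* `word_tensor`: induction with `mini_tensor`: `(V ⊗ V') ⊗ M ≅ V ⊗ (V' ⊗ M)` (`TensorProduct.assoc`),
  `CSpan` and `goodFilt_iff` to pass between `GoodIn` and `GoodFilt`.
* `word_dual_tensor`: the same for `V* ⊗ V'* ≅ (V ⊗ V')*` (`TensorProduct.dualDistribEquiv`).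
  (Write `w.dual.ρ`, never `w.ρ.dual.tprod σ`: the latter needs `(V := Module.Dual k w.V ⊗[k] M)`.)
-/

set_option autoImplicit false

namespace Pool.Agent.TRN

open Finset TensorProduct

universe u v

section

variable {k : Type u} [Field k] {Γ : Type u} [Group Γ] {T X : Type*} [CommGroup T]
  [AddCommGroup X] (D : PG k Γ T X)

/-- fundamental modules -/
structure IsFund (w : Wd k Γ) (b : X) : Prop where
  hw : HW D w b
  mini : Mini D w.ρ
  mini' : Mini D w.dual.ρ

/-- tensor products of fundamental modules -/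
inductive IsWord : Wd k Γ → X → Prop
  | one : IsWord (Wd.one k Γ) 0
  | mul (w w' : Wd k Γ) (b c : X) : IsFund D w b → IsWord w' c → IsWord (w.mul w') (b + c)

/-- every dominant weight is the weight of a word -/
def HasFund : Prop := ∀ a, D.dom a = a → ∃ w : Wd k Γ, IsWord D w a

end

section aux

open PG

variable {k Γ T X : Type*} [Field k] [Group Γ] [CommGroup T] [AddCommGroup X]
  {D : PG k Γ T X} {V W M : Type*} [AddCommGroup V] [Module k V] [AddCommGroup W] [Module k W]
  [AddCommGroup M] [Module k M]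
  {ρ : Representation k Γ V} {σ : Representation k Γ W} {τ : Representation k Γ M}

lemma word_tprod_tmul (ρ : Representation k Γ V) (σ : Representation k Γ W) (g : Γ) (x : V) (y : W) :
    ρ.tprod σ g (x ⊗ₜ[k] y) = ρ g x ⊗ₜ[k] σ g y := rfl

/-- the components of a pure tensor -/
lemma word_wt_tmul (hρ : D.IsRational ρ) (hσ : D.IsRational σ) (d : X) (x : V) (y : W) :
    ∃ s : Finset X, ∃ t : Finset X,
      wt (isRational_tprod hρ hσ) d (x ⊗ₜ[k] y) =
        ∑ a ∈ s, ∑ b ∈ t, wt (isRational_tprod hρ hσ) d (wt hρ a x ⊗ₜ[k] wt hσ b y) := by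
  obtain ⟨s, -, hs⟩ := sum_wt hρ x
  obtain ⟨t, -, ht⟩ := sum_wt hσ y
  refine ⟨s, t, ?_⟩
  conv_lhs => rw [hs, ht]
  rw [TensorProduct.sum_tmul, map_sum]
  refine Finset.sum_congr rfl fun a _ => ?_
  rw [TensorProduct.tmul_sum, map_sum]

lemma word_wt_le (hρ : D.IsRational ρ) (hσ : D.IsRational σ) {b c : X}
    (h1 : ∀ a x, D.IsWt ρ a x → x ≠ 0 → D.Le a b)
    (h2 : ∀ a x, D.IsWt σ a x → x ≠ 0 → D.Le a c) (d : X) (z : V ⊗[k] W)
    (hz : wt (isRational_tprod hρ hσ) d z ≠ 0) : D.Le d (b + c) := by
  induction z with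
  | zero => exact absurd (map_zero _) hz
  | add z z' h h' =>
    by_cases h0 : wt (isRational_tprod hρ hσ) d z = 0
    · apply h'
      rw [map_add, h0, zero_add] at hz
      exact hz
    · exact h h0
  | tmul x y =>
    obtain ⟨s, t, hst⟩ := word_wt_tmul hρ hσ d x y
    rw [hst] at hz
    obtain ⟨a, -, ha⟩ := Finset.exists_ne_zero_of_sum_ne_zero hz
    obtain ⟨b', -, hb⟩ := Finset.exists_ne_zero_of_sum_ne_zero ha
    have hw : D.IsWt (ρ.tprod σ) (a + b') (wt hρ a x ⊗ₜ[k] wt hσ b' y) :=
      (wt_isWt hρ a x).tmul (wt_isWt hσ b' y)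
    have hd : d = a + b' := IsWt.wt_zero_of_ne _ hw hb
    have hne : wt hρ a x ⊗ₜ[k] wt hσ b' y ≠ 0 := by
      intro h0
      rw [h0, map_zero] at hb
      exact hb rfl
    have hx : wt hρ a x ≠ 0 := by
      intro h0
      rw [h0, TensorProduct.zero_tmul] at hne
      exact hne rfl
    have hy : wt hσ b' y ≠ 0 := by
      intro h0
      rw [h0, TensorProduct.tmul_zero] at hne
      exact hne rfl
    rw [hd]
    exact Le.add D (h1 a _ (wt_isWt hρ a x) hx) (h2 b' _ (wt_isWt hσ b' y) hy)

lemma word_le_add_eq {a a' b c : X} (h1 : D.Le a b) (h2 : D.Le a' c) (h : a + a' = b + c) :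
    a = b ∧ a' = c := by
  have e1 := Le.ht D h1
  have e2 := Le.ht D h2
  have e3 : D.ht a + D.ht a' = D.ht b + D.ht c := by
    rw [← map_add, ← map_add, h]
  exact ⟨e1.2 (by linarith [e1.1, e2.1]), e2.2 (by linarith [e1.1, e2.1])⟩

lemma word_wt_top (hρ : D.IsRational ρ) (hσ : D.IsRational σ) {b c : X} {v : V} {w : W}
    (h1 : ∀ a x, D.IsWt ρ a x → x ≠ 0 → D.Le a b)
    (h2 : ∀ a x, D.IsWt σ a x → x ≠ 0 → D.Le a c)
    (e1 : ∀ x, D.IsWt ρ b x → ∃ r : k, x = r • v)
    (e2 : ∀ x, D.IsWt σ c x → ∃ r : k, x = r • w) (z : V ⊗[k] W) :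
    ∃ r : k, wt (isRational_tprod hρ hσ) (b + c) z = r • (v ⊗ₜ[k] w) := by
  induction z with
  | zero => exact ⟨0, by rw [map_zero, zero_smul]⟩
  | add z z' h h' =>
    obtain ⟨r, hr⟩ := h
    obtain ⟨r', hr'⟩ := h'
    exact ⟨r + r', by rw [map_add, hr, hr', add_smul]⟩
  | tmul x y =>
    obtain ⟨s, t, hst⟩ := word_wt_tmul hρ hσ (b + c) x y
    rw [hst]
    have key : ∀ a b', ∃ r : k, wt (isRational_tprod hρ hσ) (b + c)
        (wt hρ a x ⊗ₜ[k] wt hσ b' y) = r • (v ⊗ₜ[k] w) := by
      intro a b'
      by_cases hb : wt (isRational_tprod hρ hσ) (b + c) (wt hρ a x ⊗ₜ[k] wt hσ b' y) = 0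
      · exact ⟨0, by rw [hb, zero_smul]⟩
      have hw : D.IsWt (ρ.tprod σ) (a + b') (wt hρ a x ⊗ₜ[k] wt hσ b' y) :=
        (wt_isWt hρ a x).tmul (wt_isWt hσ b' y)
      have hd : b + c = a + b' := IsWt.wt_zero_of_ne _ hw hb
      have hne : wt hρ a x ⊗ₜ[k] wt hσ b' y ≠ 0 := by
        intro h0
        rw [h0, map_zero] at hb
        exact hb rfl
      have hx : wt hρ a x ≠ 0 := by
        intro h0
        rw [h0, TensorProduct.zero_tmul] at hne
        exact hne rfl
      have hy : wt hσ b' y ≠ 0 := by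
        intro h0
        rw [h0, TensorProduct.tmul_zero] at hne
        exact hne rfl
      obtain ⟨ea, eb⟩ := word_le_add_eq (h1 a _ (wt_isWt hρ a x) hx)
        (h2 b' _ (wt_isWt hσ b' y) hy) hd.symm
      subst ea
      subst eb
      obtain ⟨r, hr⟩ := e1 _ (wt_isWt hρ a x)
      obtain ⟨r', hr'⟩ := e2 _ (wt_isWt hσ b' y)
      refine ⟨r * r', ?_⟩
      rw [wt_self _ hw, hr, hr', TensorProduct.smul_tmul_smul]
    choose r hr using key
    refine ⟨∑ a ∈ s, ∑ b' ∈ t, r a b', ?_⟩
    simp_rw [hr, Finset.sum_smul]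

end aux

section

open PG

variable {k : Type u} [Field k] [Infinite k] {Γ : Type u} [Group Γ] {T X : Type*} [CommGroup T]
  [AddCommGroup X] {D : PG k Γ T X} {M : Type v} [AddCommGroup M] [Module k M]
  {σ : Representation k Γ M}

lemma HW.data_one : HW D (Wd.one k Γ) 0 where
  fin := (inferInstance : Module.Finite k k)
  rational := isRational_trivial (D := D) (V := k)
  hU := fun u _ => rfl
  hw := fun z => by
    rw [chi_zero]
    exact (one_smul k (1 : k)).symm
  xiU := fun u _ x => rfl
  xit := fun z x => by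
    rw [chi_zero, Units.val_one, one_mul]
    rfl
  xiv := rfl
  top := fun c x hx h0 => by
    have h' : D.IsWt (Wd.one k Γ).ρ 0 x := fun z => by
      rw [chi_zero]
      exact (one_smul k _).symm
    rw [hx.unique h' h0]
    exact Le.refl D 0
  one := fun x _ => (mul_one (show k from x)).symm

/-- products of highest weight data -/
lemma HW.mul_word {w w' : Wd k Γ} {b c : X} (h : HW D w b) (h' : HW D w' c) :
    HW D (w.mul w') (b + c) where
  fin := by
    have := h.fin
    have := h'.fin
    exact (inferInstance : Module.Finite k (w.V ⊗[k] w'.V))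
  rational := isRational_tprod h.rational h'.rational
  hU := fun u hu => by
    change w.ρ.tprod w'.ρ u (w.v ⊗ₜ[k] w'.v) = w.v ⊗ₜ[k] w'.v
    rw [word_tprod_tmul, h.hU u hu, h'.hU u hu]
  hw := h.hw.tmul h'.hw
  xiU := fun u hu x => by
    have key : ∀ x : w.V ⊗[k] w'.V,
        ((LinearMap.mul' k k) ∘ₗ TensorProduct.map w.xi w'.xi) (w.ρ.tprod w'.ρ u x) =
          ((LinearMap.mul' k k) ∘ₗ TensorProduct.map w.xi w'.xi) x := by
      intro x
      induction x with
      | zero => rw [map_zero]
      | add x y hx hy => rw [map_add, map_add, map_add, hx, hy]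
      | tmul x y =>
        change w.xi (w.ρ u x) * w'.xi (w'.ρ u y) = w.xi x * w'.xi y
        rw [h.xiU u hu, h'.xiU u hu]
    exact key x
  xit := fun z x => by
    have key : ∀ x : w.V ⊗[k] w'.V,
        ((LinearMap.mul' k k) ∘ₗ TensorProduct.map w.xi w'.xi) (w.ρ.tprod w'.ρ (D.t z) x) =
          (D.chi (b + c) z : k) * ((LinearMap.mul' k k) ∘ₗ TensorProduct.map w.xi w'.xi) x := by
      intro x
      induction x with
      | zero => rw [map_zero, map_zero, mul_zero]
      | add x y hx hy => rw [map_add, map_add, map_add, hx, hy, mul_add]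
      | tmul x y =>
        change w.xi (w.ρ (D.t z) x) * w'.xi (w'.ρ (D.t z) y) = _ * (w.xi x * w'.xi y)
        rw [h.xit, h'.xit, D.chi_add, Units.val_mul]
        ring
    exact key x
  xiv := by
    change w.xi w.v * w'.xi w'.v = 1
    rw [h.xiv, h'.xiv, one_mul]
  top := fun d x hx h0 => by
    refine word_wt_le h.rational h'.rational h.top h'.top d x ?_
    have := wt_self (isRational_tprod h.rational h'.rational) hx
    rw [this]
    exact h0
  one := fun x hx => by
    obtain ⟨r, hr⟩ := word_wt_top h.rational h'.rational h.top h'.top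
      (fun y hy => ⟨_, h.one y hy⟩) (fun y hy => ⟨_, h'.one y hy⟩) x
    have hs := wt_self (isRational_tprod h.rational h'.rational) hx
    rw [hs] at hr
    have hxi : (w.mul w').xi x = r := by
      rw [hr]
      change ((LinearMap.mul' k k) ∘ₗ TensorProduct.map w.xi w'.xi) (r • (w.v ⊗ₜ[k] w'.v)) = r
      rw [map_smul]
      change r • (w.xi w.v * w'.xi w'.v) = r
      rw [h.xiv, h'.xiv, one_mul, smul_eq_mul, mul_one]
    rw [hxi]
    exact hr

theorem IsWord.data {w : Wd k Γ} {a : X} (h : IsWord D w a) : HW D w a := by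
  induction h with
  | one => exact HW.data_one
  | mul w w' b c hf _ ih => exact hf.hw.mul_word ih

/-- countable spanning sets from good filtrations -/
lemma word_cspan (hfd : D.Fd) (hG : GoodFilt D σ ⊤) : CSpan k M :=
  (GoodFilt.cspan hfd hG).of_surj (⊤ : Submodule k M).subtype fun x => ⟨⟨x, trivial⟩, rfl⟩

theorem word_tensor (hfd : D.Fd) {w : Wd k Γ} {a : X} (h : IsWord D w a) (hσ : D.IsRational σ)
    (hG : GoodFilt D σ ⊤) : GoodFilt D (w.ρ.tprod σ) ⊤ := by
  induction h with
  | one =>
    refine GoodFilt.equiv (TensorProduct.lid k M).symm (fun g v => ?_) hG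
    rfl
  | mul w w' b c hf hw' ih =>
    have := hf.hw.fin
    have := hw'.data.fin
    have hr' : D.IsRational (w'.ρ.tprod σ) := isRational_tprod hw'.data.rational hσ
    have h1 := mini_tensor hfd hf.mini hr' ih
    have hc : CSpan k (w.V ⊗[k] (w'.V ⊗[k] M)) :=
      CSpan.of_finite.tensor (CSpan.of_finite.tensor (word_cspan hfd hG))
    have h2 : GoodFilt D (w.ρ.tprod (w'.ρ.tprod σ)) ⊤ := (goodFilt_iff hfd _ hc).2 h1
    have h3 : GoodFilt D ((w.ρ.tprod w'.ρ).tprod σ) ⊤ := by
      refine GoodFilt.equiv (TensorProduct.assoc k w.V w'.V M).symm (fun g x => ?_) h2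
      induction x with
      | zero => rw [map_zero, map_zero, map_zero]
      | add x y hx hy => rw [map_add, map_add, hx, hy, map_add, map_add]
      | tmul x y =>
        induction y with
        | zero => rw [TensorProduct.tmul_zero, map_zero, map_zero, map_zero]
        | add y y' hy hy' =>
          rw [TensorProduct.tmul_add, map_add, map_add, hy, hy', map_add, map_add]
        | tmul y m => rfl
    exact h3

/-- the dual of a tensor product -/
lemma word_dualDistrib {V W : Type*} [AddCommGroup V] [Module k V] [AddCommGroup W] [Module k W]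
    [Module.Finite k V] [Module.Finite k W] (ρ : Representation k Γ V)
    (τ : Representation k Γ W) (g : Γ) (x : Module.Dual k V ⊗[k] Module.Dual k W) :
    TensorProduct.dualDistribEquiv k V W (ρ.dual.tprod τ.dual g x) =
      (ρ.tprod τ).dual g (TensorProduct.dualDistribEquiv k V W x) := by
  induction x with
  | zero => rw [map_zero, map_zero, map_zero]
  | add x y hx hy => rw [map_add, map_add, hx, hy, map_add, map_add]
  | tmul x y =>
    apply LinearMap.ext
    intro z
    induction z with
    | zero => rw [map_zero, map_zero]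
    | add z z' hz hz' => rw [map_add, map_add, hz, hz']
    | tmul v w => rfl

theorem word_dual_tensor (hfd : D.Fd) {w : Wd k Γ} {a : X} (h : IsWord D w a)
    (hσ : D.IsRational σ) (hG : GoodFilt D σ ⊤) : GoodFilt D (w.dual.ρ.tprod σ) ⊤ := by
  induction h with
  | one =>
    refine GoodFilt.equiv ((TensorProduct.lid k M).symm ≪≫ₗ
      TensorProduct.congr (LinearMap.ringLmapEquivSelf k k k).symm (LinearEquiv.refl k M))
      (fun g v => ?_) hG
    rfl
  | mul w w' b c hf hw' ih =>
    have := hf.hw.fin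
    have := hw'.data.fin
    have hd' : D.IsRational w'.dual.ρ := isRational_dual hw'.data.rational
    have hr' : D.IsRational (w'.dual.ρ.tprod σ) := isRational_tprod hd' hσ
    have h1 := mini_tensor hfd hf.mini' hr' ih
    have hc : CSpan k (Module.Dual k w.V ⊗[k] (Module.Dual k w'.V ⊗[k] M)) :=
      CSpan.of_finite.tensor (CSpan.of_finite.tensor (word_cspan hfd hG))
    have h2 : GoodFilt D (w.dual.ρ.tprod (w'.dual.ρ.tprod σ)) ⊤ := (goodFilt_iff hfd _ hc).2 h1
    have h3 : GoodFilt D ((w.dual.ρ.tprod w'.dual.ρ).tprod σ) ⊤ := by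
      refine GoodFilt.equiv (TensorProduct.assoc k w.dual.V w'.dual.V M).symm (fun g x => ?_) h2
      induction x with
      | zero => rw [map_zero, map_zero, map_zero]
      | add x y hx hy => rw [map_add, map_add, hx, hy, map_add, map_add]
      | tmul x y =>
        induction y with
        | zero => rw [TensorProduct.tmul_zero, map_zero, map_zero, map_zero]
        | add y y' hy hy' =>
          rw [TensorProduct.tmul_add, map_add, map_add, hy, hy', map_add, map_add]
        | tmul y m => rfl
    refine GoodFilt.equiv (TensorProduct.congr (TensorProduct.dualDistribEquiv k w.V w'.V)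
      (LinearEquiv.refl k M)) (fun g x => ?_) h3
    induction x with
    | zero => rw [map_zero, map_zero, map_zero]
    | add x y hx hy => rw [map_add, map_add, hx, hy, map_add, map_add]
    | tmul x m =>
      change (TensorProduct.dualDistribEquiv k w.V w'.V) (w.ρ.dual.tprod w'.ρ.dual g x) ⊗ₜ[k]
        σ g m = _
      rw [word_dualDistrib]
      rfl

/-- take `σ` trivial (`GoodIn.trivial'`, `V ⊗ k ≅ V`) -/
theorem word_good (hfd : D.Fd) {w : Wd k Γ} {a : X} (h : IsWord D w a) :
    GoodFilt D w.ρ ⊤ ∧ GoodFilt D w.dual.ρ ⊤ := by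
  have ht : GoodFilt D (Representation.trivial k Γ k) ⊤ :=
    (goodFilt_iff hfd (isRational_trivial (D := D) (V := k)) CSpan.of_finite).2 GoodIn.trivial'
  have hr : D.IsRational (Representation.trivial k Γ k) := isRational_trivial (D := D) (V := k)
  refine ⟨?_, ?_⟩
  · refine GoodFilt.equiv (TensorProduct.rid k w.V) (fun g x => ?_) (word_tensor hfd h hr ht)
    induction x with
    | zero => rw [map_zero, map_zero, map_zero]
    | add x y hx hy => rw [map_add, map_add, hx, hy, map_add, map_add]
    | tmul x r =>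
      change r • w.ρ g x = w.ρ g (r • x)
      rw [map_smul]
  · refine GoodFilt.equiv (TensorProduct.rid k w.dual.V) (fun g x => ?_)
      (word_dual_tensor hfd h hr ht)
    induction x with
    | zero => rw [map_zero, map_zero, map_zero]
    | add x y hx hy => rw [map_add, map_add, hx, hy, map_add, map_add]
    | tmul x r =>
      change r • w.dual.ρ g x = w.dual.ρ g (r • x)
      rw [map_smul]

end

end Pool.Agent.TRN
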