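import Pool.Agent.TRN.Reg

/-!
# TRN / WT: weight projections

For a rational representation `ρ` of a pinned group the torus acts diagonalisably. Proof of
`exists_wt_family`: for `v` write `ρ g v = ∑ f_i(g) w_i` with `w` independent (`IsReg.indep`);
`f_i (t z) = ∑_a c_i(a) χ_a(z)` (`t_reg`), so `ρ (t z) v = ∑_{a ∈ s} χ_a(z) v_a`. The characters
`χ_a` are linearly independent as functions `T → k` (`linearIndependent_monoidHom`, composed with
the injections `chi` and `Units.coeHom`), hence also over `V` (apply functionals), so the `v_a` are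
unique; uniqueness gives linearity in `v`, `ρ (t w) v_a = χ_a(w) v_a`
(compare `ρ (t (z w)) v = ρ (t w) ρ (t z) v`) and all other claims.
Compare `Pool/Agent/Helper66/TR/Weights.lean` (case of `SL₂`).
-/

set_option autoImplicit false

namespace Pool.Agent.TRN

open Finset TensorProduct

namespace PG

variable {k Γ T X : Type*} [Field k] [Group Γ] [CommGroup T] [AddCommGroup X] {D : PG k Γ T X}
  {V W : Type*} [AddCommGroup V] [Module k V] [AddCommGroup W] [Module k W]
  {ρ : Representation k Γ V} {σ : Representation k Γ W}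

/-- the function `T → V` with the coefficients `x` -/
private def wtEv (D : PG k Γ T X) (x : X →₀ V) (z : T) : V :=
  x.sum fun a v => (D.chi a z : k) • v

private lemma wtEv_add (x y : X →₀ V) (z : T) :
    wtEv D (x + y) z = wtEv D x z + wtEv D y z := by
  classical
  unfold wtEv
  rw [Finsupp.sum_add_index']
  · intro a
    rw [smul_zero]
  · intro a v w
    rw [smul_add]

private lemma wtEv_zero (z : T) : wtEv D (0 : X →₀ V) z = 0 := by
  unfold wtEv
  rw [Finsupp.sum_zero_index]

private lemma wtEv_single (a : X) (v : V) (z : T) :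
    wtEv D (Finsupp.single a v) z = (D.chi a z : k) • v := by
  unfold wtEv
  rw [Finsupp.sum_single_index]
  rw [smul_zero]

private lemma wtEv_sum {ι : Type*} (s : Finset ι) (x : ι → X →₀ V) (z : T) :
    wtEv D (∑ i ∈ s, x i) z = ∑ i ∈ s, wtEv D (x i) z := by
  classical
  induction s using Finset.induction_on with
  | empty => rw [Finset.sum_empty, Finset.sum_empty, wtEv_zero]
  | insert i s hi ih => rw [Finset.sum_insert hi, Finset.sum_insert hi, wtEv_add, ih]

private lemma wtEv_mapRange (φ : V →ₗ[k] W) (x : X →₀ V) (z : T) :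
    wtEv D (x.mapRange φ (map_zero φ)) z = φ (wtEv D x z) := by
  unfold wtEv
  rw [Finsupp.sum_mapRange_index]
  · rw [Finsupp.sum, Finsupp.sum, map_sum]
    exact Finset.sum_congr rfl fun a _ => by rw [map_smul]
  · intro a
    rw [smul_zero]

/-- independence of the characters -/
private lemma wtEv_inj {x : X →₀ V} (h : ∀ z, wtEv D x z = 0) : x = 0 := by
  have hli : LinearIndependent k (fun a : X => fun z : T => ((D.chi a z : kˣ) : k)) := by
    have h1 := linearIndependent_monoidHom T k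
    have h2 : Function.Injective (fun a : X => (Units.coeHom k).comp (D.chi a)) := by
      intro a b hab
      apply D.chi_inj
      ext z
      exact DFunLike.congr_fun hab z
    exact h1.comp _ h2
  ext a
  rw [Finsupp.zero_apply, ← Module.forall_dual_apply_eq_zero_iff k]
  intro ξ
  by_cases ha : a ∈ x.support
  · refine linearIndependent_iff'.1 hli x.support (fun a => ξ (x a)) ?_ a ha
    funext z
    have h3 := congrArg ξ (h z)
    unfold wtEv at h3
    rw [Finsupp.sum, map_sum, map_zero] at h3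
    rw [Finset.sum_apply, Pi.zero_apply, ← h3]
    refine Finset.sum_congr rfl fun b _ => ?_
    rw [Pi.smul_apply, smul_eq_mul, map_smul, smul_eq_mul, mul_comm]
  · rw [Finsupp.notMem_support_iff.1 ha, map_zero]

private lemma wtEv_inj' {x y : X →₀ V} (h : ∀ z, wtEv D x z = wtEv D y z) : x = y := by
  have h1 : x + y.mapRange (-LinearMap.id : V →ₗ[k] V) (map_zero _) = 0 := by
    apply wtEv_inj (D := D)
    intro z
    rw [wtEv_add, wtEv_mapRange, h z, LinearMap.neg_apply, LinearMap.id_apply, add_neg_cancel]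
  ext a
  have h2 := DFunLike.congr_fun h1 a
  rw [Finsupp.add_apply, Finsupp.mapRange_apply, LinearMap.neg_apply, LinearMap.id_apply,
    Finsupp.zero_apply] at h2
  exact eq_of_sub_eq_zero (by rw [sub_eq_add_neg]; exact h2)

private lemma wt_co_exists (hρ : D.IsRational ρ) (v : V) :
    ∃ x : X →₀ V, ∀ z, ρ (D.t z) v = wtEv D x z := by
  obtain ⟨m, f, w, hf, hF⟩ := hρ v
  have h1 : ∀ i, ∃ (s : Finset X) (c : X → k), ∀ z, f i (D.t z) = ∑ a ∈ s, c a * (D.chi a z : k) :=
    fun i => D.t_reg (f i) (hf i)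
  choose s c hc using h1
  refine ⟨∑ i, ∑ a ∈ s i, Finsupp.single a (c i a • w i), fun z => ?_⟩
  have h2 := hF (D.t z)
  beta_reduce at h2
  rw [h2, wtEv_sum]
  refine Finset.sum_congr rfl fun i _ => ?_
  rw [wtEv_sum, hc, Finset.sum_smul]
  refine Finset.sum_congr rfl fun a _ => ?_
  rw [wtEv_single, smul_smul, mul_comm]

/-- the weight components -/
private noncomputable def wtCo (hρ : D.IsRational ρ) (v : V) : X →₀ V :=
  (wt_co_exists hρ v).choose

private lemma wtCo_spec (hρ : D.IsRational ρ) (v : V) (z : T) :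
    ρ (D.t z) v = wtEv D (wtCo hρ v) z := (wt_co_exists hρ v).choose_spec z

private lemma wtCo_uniq (hρ : D.IsRational ρ) {v : V} {x : X →₀ V}
    (h : ∀ z, ρ (D.t z) v = wtEv D x z) : wtCo hρ v = x :=
  wtEv_inj' (D := D) fun z => by rw [← wtCo_spec, h]

private lemma wtCo_single (hρ : D.IsRational ρ) {a : X} {v : V} (h : D.IsWt ρ a v) :
    wtCo hρ v = Finsupp.single a v :=
  wtCo_uniq hρ fun z => by rw [wtEv_single]; exact h z

theorem exists_wt_family (hρ : D.IsRational ρ) : ∃ w : X → V →ₗ[k] V,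
    (∀ a v, D.IsWt ρ a (w a v)) ∧ (∀ a v, D.IsWt ρ a v → w a v = v) ∧
    (∀ a b v, D.IsWt ρ a v → a ≠ b → w b v = 0) ∧
    ∀ v, ∃ s : Finset X, (∀ a ∉ s, w a v = 0) ∧ v = ∑ a ∈ s, w a v := by
  classical
  refine ⟨fun a => { toFun := fun v => wtCo hρ v a, map_add' := ?_, map_smul' := ?_ },
    ?_, ?_, ?_, ?_⟩
  · intro v w
    have h : wtCo hρ (v + w) = wtCo hρ v + wtCo hρ w :=
      wtCo_uniq hρ fun z => by rw [map_add, wtEv_add, wtCo_spec hρ v, wtCo_spec hρ w]
    rw [h, Finsupp.add_apply]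
  · intro c v
    have h : wtCo hρ (c • v) =
        (wtCo hρ v).mapRange (c • LinearMap.id : V →ₗ[k] V) (map_zero _) :=
      wtCo_uniq hρ fun z => by
        rw [map_smul, wtEv_mapRange, wtCo_spec hρ v, LinearMap.smul_apply, LinearMap.id_apply]
    rw [h, Finsupp.mapRange_apply, LinearMap.smul_apply, LinearMap.id_apply, RingHom.id_apply]
  · intro a v z
    have h : (wtCo hρ v).mapRange (ρ (D.t z)) (map_zero _) =
        Finsupp.onFinset (wtCo hρ v).support (fun b => (D.chi b z : k) • wtCo hρ v b)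
          (fun b hb => by
            rw [Finsupp.mem_support_iff]
            intro h0
            exact hb (by rw [h0, smul_zero])) := by
      apply wtEv_inj' (D := D)
      intro y
      rw [wtEv_mapRange, ← wtCo_spec, ← mul_apply', ← map_mul, wtCo_spec hρ v]
      unfold wtEv
      rw [Finsupp.onFinset_sum]
      · refine Finset.sum_congr rfl fun b _ => ?_
        change ((D.chi b (z * y) : kˣ) : k) • wtCo hρ v b = _
        rw [smul_smul, map_mul, Units.val_mul, mul_comm]
      · intro b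
        rw [smul_zero]
    have h1 := DFunLike.congr_fun h a
    rw [Finsupp.mapRange_apply, Finsupp.onFinset_apply] at h1
    exact h1
  · intro a v h
    change wtCo hρ v a = v
    rw [wtCo_single hρ h, Finsupp.single_eq_same]
  · intro a b v h hab
    change wtCo hρ v b = 0
    rw [wtCo_single hρ h, Finsupp.single_eq_of_ne hab.symm]
  · intro v
    refine ⟨(wtCo hρ v).support, fun a ha => Finsupp.notMem_support_iff.1 ha, ?_⟩
    have h := wtCo_spec hρ v 1
    rw [map_one, map_one] at h
    change v = _ at h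
    conv_lhs => rw [h]
    unfold wtEv
    refine Finset.sum_congr rfl fun a _ => ?_
    change ((D.chi a 1 : kˣ) : k) • wtCo hρ v a = wtCo hρ v a
    rw [map_one, Units.val_one, one_smul]

/-- the weight projections -/
noncomputable def wt (hρ : D.IsRational ρ) : X → V →ₗ[k] V := (exists_wt_family hρ).choose

lemma wt_isWt (hρ : D.IsRational ρ) (a : X) (v : V) : D.IsWt ρ a (wt hρ a v) :=
  (exists_wt_family hρ).choose_spec.1 a v

lemma wt_self (hρ : D.IsRational ρ) {a : X} {v : V} (h : D.IsWt ρ a v) : wt hρ a v = v :=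
  (exists_wt_family hρ).choose_spec.2.1 a v h

lemma wt_ne (hρ : D.IsRational ρ) {a b : X} {v : V} (h : D.IsWt ρ a v) (hab : a ≠ b) :
    wt hρ b v = 0 :=
  (exists_wt_family hρ).choose_spec.2.2.1 a b v h hab

lemma sum_wt (hρ : D.IsRational ρ) (v : V) :
    ∃ s : Finset X, (∀ a ∉ s, wt hρ a v = 0) ∧ v = ∑ a ∈ s, wt hρ a v :=
  (exists_wt_family hρ).choose_spec.2.2.2 v

lemma eq_zero_of_wt (hρ : D.IsRational ρ) {v : V} (h : ∀ a, wt hρ a v = 0) : v = 0 := by
  obtain ⟨s, -, hs⟩ := sum_wt hρ v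
  rw [hs]
  exact Finset.sum_eq_zero fun a _ => h a

lemma isWt_zero (a : X) : D.IsWt ρ a (0 : V) := by
  intro z
  rw [map_zero, smul_zero]

lemma IsWt.add {a : X} {v w : V} (h : D.IsWt ρ a v) (h' : D.IsWt ρ a w) : D.IsWt ρ a (v + w) := by
  intro z
  rw [map_add, h z, h' z, smul_add]

lemma IsWt.sub {a : X} {v w : V} (h : D.IsWt ρ a v) (h' : D.IsWt ρ a w) : D.IsWt ρ a (v - w) := by
  intro z
  rw [map_sub, h z, h' z, smul_sub]

lemma IsWt.smul {a : X} {v : V} (h : D.IsWt ρ a v) (c : k) : D.IsWt ρ a (c • v) := by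
  intro z
  rw [map_smul, h z, smul_comm]

lemma IsWt.sum {ι : Type*} {a : X} (s : Finset ι) {v : ι → V} (h : ∀ i ∈ s, D.IsWt ρ a (v i)) :
    D.IsWt ρ a (∑ i ∈ s, v i) := by
  intro z
  rw [map_sum, Finset.smul_sum]
  exact Finset.sum_congr rfl fun i hi => h i hi z

private lemma wt_of_sum (hρ : D.IsRational ρ) (s : Finset X) (x : X → V)
    (hx : ∀ b ∈ s, D.IsWt ρ b (x b)) {v : V} (hv : v = ∑ b ∈ s, x b) (a : X)
    (ha : a ∉ s → x a = 0) : wt hρ a v = x a := by
  classical
  rw [hv, map_sum]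
  by_cases has : a ∈ s
  · rw [Finset.sum_eq_single a]
    · exact wt_self hρ (hx a has)
    · intro b hb hba
      exact wt_ne hρ (hx b hb) hba
    · intro h
      exact absurd has h
  · rw [ha has]
    refine Finset.sum_eq_zero fun b hb => ?_
    apply wt_ne hρ (hx b hb)
    rintro rfl
    exact has hb

/-- a nonzero vector has at most one weight -/
lemma IsWt.unique {a b : X} {v : V} (h : D.IsWt ρ a v) (h' : D.IsWt ρ b v) (hv : v ≠ 0) :
    a = b := by
  apply D.chi_inj
  ext z
  have h1 := (h z).symm.trans (h' z)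
  exact smul_left_injective k hv h1

lemma map_wt (hρ : D.IsRational ρ) (hσ : D.IsRational σ) {φ : V →ₗ[k] W} (hφ : IsEquiv ρ σ φ)
    (a : X) (v : V) : φ (wt hρ a v) = wt hσ a (φ v) := by
  obtain ⟨s, hs, hv⟩ := sum_wt hρ v
  symm
  refine wt_of_sum hσ s (fun b => φ (wt hρ b v)) ?_ ?_ a ?_
  · intro b _ z
    rw [← hφ, wt_isWt hρ b v z, map_smul]
  · conv_lhs => rw [hv]
    rw [map_sum]
  · intro ha
    rw [hs a ha, map_zero]

lemma IsWt.map {φ : V →ₗ[k] W} (hφ : IsEquiv ρ σ φ) {a : X} {v : V} (h : D.IsWt ρ a v) :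
    D.IsWt σ a (φ v) := by
  intro z
  rw [← hφ, h z, map_smul]

lemma IsWt.of_inj {φ : V →ₗ[k] W} (hφ : IsEquiv ρ σ φ) (hi : Function.Injective φ) {a : X} {v : V}
    (h : D.IsWt σ a (φ v)) : D.IsWt ρ a v := by
  intro z
  apply hi
  rw [hφ, h z, map_smul]

/-- stable subspaces contain the weight components: `wt a v` is a linear combination of the
vectors `ρ (t z) v` (independence of characters); or apply `map_wt` to the inclusion of `Y`. -/
lemma wt_mem (hρ : D.IsRational ρ) {Y : Submodule k V} (hY : Stable ρ Y) {v : V} (hv : v ∈ Y)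
    (a : X) : wt hρ a v ∈ Y := by
  have h := map_wt (isRational_sub hρ hY) hρ (sub_isEquiv hY) a ⟨v, hv⟩
  have h1 : Y.subtype ⟨v, hv⟩ = v := rfl
  rw [h1] at h
  rw [← h]
  exact (wt (isRational_sub hρ hY) a ⟨v, hv⟩).2

lemma wt_t (hρ : D.IsRational ρ) (a : X) (z : T) (v : V) :
    wt hρ a (ρ (D.t z) v) = (D.chi a z : k) • wt hρ a v := by
  obtain ⟨s, hs, hv⟩ := sum_wt hρ v
  refine wt_of_sum hρ s (fun b => (D.chi b z : k) • wt hρ b v) ?_ ?_ a ?_
  · intro b _
    exact (wt_isWt hρ b v).smul _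
  · conv_lhs => rw [hv]
    rw [map_sum]
    exact Finset.sum_congr rfl fun b _ => wt_isWt hρ b v z
  · intro ha
    rw [hs a ha, smul_zero]

lemma IsWt.tmul {a b : X} {v : V} {w : W} (h : D.IsWt ρ a v) (h' : D.IsWt σ b w) :
    D.IsWt (ρ.tprod σ) (a + b) (v ⊗ₜ[k] w) := by
  intro z
  rw [Representation.tprod_apply, TensorProduct.map_tmul, h z, h' z, TensorProduct.smul_tmul_smul,
    D.chi_add, Units.val_mul]

lemma IsWt.wt_zero_of_ne (hρ : D.IsRational ρ) {a : X} {v : V} (h : D.IsWt ρ a v) {b : X}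
    (hb : wt hρ b v ≠ 0) : b = a := by
  by_contra hab
  exact hb (wt_ne hρ h (fun e => hab e.symm))

/-- the weight space -/
def wsp (D : PG k Γ T X) (ρ : Representation k Γ V) (a : X) : Submodule k V where
  carrier := {v | D.IsWt ρ a v}
  add_mem' := IsWt.add
  zero_mem' := isWt_zero a
  smul_mem' c _ h := h.smul c

/-- the Weyl group permutes the weights -/
lemma exists_weyl (D : PG k Γ T X) (a : X) : ∃ n : Γ, ∀ {V : Type*} [AddCommGroup V] [Module k V]
    (ρ : Representation k Γ V) (v : V), D.IsWt ρ a v → D.IsWt ρ (D.dom a) (ρ n v) := by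
  obtain ⟨n, s, h⟩ := D.weyl a
  refine ⟨n, ?_⟩
  intro V _ _ ρ v hv z
  rw [← mul_apply', (h z).1, mul_apply', hv (s z), map_smul, (h z).2]

lemma chi_zero (D : PG k Γ T X) (z : T) : D.chi 0 z = 1 := by
  have h := D.chi_add 0 0 z
  rw [add_zero] at h
  exact (mul_eq_left.1 h.symm)

lemma chi_neg (D : PG k Γ T X) (a : X) (z : T) : D.chi (-a) z = (D.chi a z)⁻¹ := by
  apply eq_inv_of_mul_eq_one_left
  rw [← D.chi_add, neg_add_cancel, chi_zero]

end PG

end Pool.Agent.TRN
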